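import Pool.Agent.Lib.MP_6f5d36_co.OccReal

set_option autoImplicit false
set_option linter.unusedSimpArgs false

/-!
# MP_6f5d36_co : the ten squared distances of five points in general position

`CR.Five` collects the algebraic facts about the ten squared distances (order 01 02 12 03 13 23 04
14 24 34) of five points in general position: the ten `3 x 3` minors of the Gram matrix vanish, the
distances, the ten Heron forms and the five Ptolemy forms are positive.
-/

namespace CR

structure Five (e01 e02 e12 e03 e13 e23 e04 e14 e24 e34 : ℝ) : Prop where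
  m123_123 : (2 * e01) * ((2 * e02) * (2 * e03) - (e02 + e03 - e23) * (e03 + e02 - e23)) -
      (e01 + e02 - e12) * ((e02 + e01 - e12) * (2 * e03) - (e02 + e03 - e23) * (e03 + e01 - e13)) +
      (e01 + e03 - e13) * ((e02 + e01 - e12) * (e03 + e02 - e23) - (2 * e02) * (e03 + e01 - e13)) = 0
  m123_124 : (2 * e01) * ((2 * e02) * (e03 + e04 - e34) - (e02 + e04 - e24) * (e03 + e02 - e23)) -
      (e01 + e02 - e12) * ((e02 + e01 - e12) * (e03 + e04 - e34) - (e02 + e04 - e24) * (e03 + e01 - e13)) +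
      (e01 + e04 - e14) * ((e02 + e01 - e12) * (e03 + e02 - e23) - (2 * e02) * (e03 + e01 - e13)) = 0
  m123_134 : (2 * e01) * ((e02 + e03 - e23) * (e03 + e04 - e34) - (e02 + e04 - e24) * (2 * e03)) -
      (e01 + e03 - e13) * ((e02 + e01 - e12) * (e03 + e04 - e34) - (e02 + e04 - e24) * (e03 + e01 - e13)) +
      (e01 + e04 - e14) * ((e02 + e01 - e12) * (2 * e03) - (e02 + e03 - e23) * (e03 + e01 - e13)) = 0
  m123_234 : (e01 + e02 - e12) * ((e02 + e03 - e23) * (e03 + e04 - e34) - (e02 + e04 - e24) * (2 * e03)) -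
      (e01 + e03 - e13) * ((2 * e02) * (e03 + e04 - e34) - (e02 + e04 - e24) * (e03 + e02 - e23)) +
      (e01 + e04 - e14) * ((2 * e02) * (2 * e03) - (e02 + e03 - e23) * (e03 + e02 - e23)) = 0
  m124_124 : (2 * e01) * ((2 * e02) * (2 * e04) - (e02 + e04 - e24) * (e04 + e02 - e24)) -
      (e01 + e02 - e12) * ((e02 + e01 - e12) * (2 * e04) - (e02 + e04 - e24) * (e04 + e01 - e14)) +
      (e01 + e04 - e14) * ((e02 + e01 - e12) * (e04 + e02 - e24) - (2 * e02) * (e04 + e01 - e14)) = 0
  m124_134 : (2 * e01) * ((e02 + e03 - e23) * (2 * e04) - (e02 + e04 - e24) * (e04 + e03 - e34)) -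
      (e01 + e03 - e13) * ((e02 + e01 - e12) * (2 * e04) - (e02 + e04 - e24) * (e04 + e01 - e14)) +
      (e01 + e04 - e14) * ((e02 + e01 - e12) * (e04 + e03 - e34) - (e02 + e03 - e23) * (e04 + e01 - e14)) = 0
  m124_234 : (e01 + e02 - e12) * ((e02 + e03 - e23) * (2 * e04) - (e02 + e04 - e24) * (e04 + e03 - e34)) -
      (e01 + e03 - e13) * ((2 * e02) * (2 * e04) - (e02 + e04 - e24) * (e04 + e02 - e24)) +
      (e01 + e04 - e14) * ((2 * e02) * (e04 + e03 - e34) - (e02 + e03 - e23) * (e04 + e02 - e24)) = 0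
  m134_134 : (2 * e01) * ((2 * e03) * (2 * e04) - (e03 + e04 - e34) * (e04 + e03 - e34)) -
      (e01 + e03 - e13) * ((e03 + e01 - e13) * (2 * e04) - (e03 + e04 - e34) * (e04 + e01 - e14)) +
      (e01 + e04 - e14) * ((e03 + e01 - e13) * (e04 + e03 - e34) - (2 * e03) * (e04 + e01 - e14)) = 0
  m134_234 : (e01 + e02 - e12) * ((2 * e03) * (2 * e04) - (e03 + e04 - e34) * (e04 + e03 - e34)) -
      (e01 + e03 - e13) * ((e03 + e02 - e23) * (2 * e04) - (e03 + e04 - e34) * (e04 + e02 - e24)) +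
      (e01 + e04 - e14) * ((e03 + e02 - e23) * (e04 + e03 - e34) - (2 * e03) * (e04 + e02 - e24)) = 0
  m234_234 : (2 * e02) * ((2 * e03) * (2 * e04) - (e03 + e04 - e34) * (e04 + e03 - e34)) -
      (e02 + e03 - e23) * ((e03 + e02 - e23) * (2 * e04) - (e03 + e04 - e34) * (e04 + e02 - e24)) +
      (e02 + e04 - e24) * ((e03 + e02 - e23) * (e04 + e03 - e34) - (2 * e03) * (e04 + e02 - e24)) = 0
  q01 : 0 < e01
  q02 : 0 < e02
  q12 : 0 < e12
  q03 : 0 < e03
  q13 : 0 < e13
  q23 : 0 < e23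
  q04 : 0 < e04
  q14 : 0 < e14
  q24 : 0 < e24
  q34 : 0 < e34
  h012 : 0 < 2 * e01 * e12 + 2 * e12 * e02 + 2 * e02 * e01 - e01 ^ 2 - e12 ^ 2 - e02 ^ 2
  h013 : 0 < 2 * e01 * e13 + 2 * e13 * e03 + 2 * e03 * e01 - e01 ^ 2 - e13 ^ 2 - e03 ^ 2
  h014 : 0 < 2 * e01 * e14 + 2 * e14 * e04 + 2 * e04 * e01 - e01 ^ 2 - e14 ^ 2 - e04 ^ 2
  h023 : 0 < 2 * e02 * e23 + 2 * e23 * e03 + 2 * e03 * e02 - e02 ^ 2 - e23 ^ 2 - e03 ^ 2
  h024 : 0 < 2 * e02 * e24 + 2 * e24 * e04 + 2 * e04 * e02 - e02 ^ 2 - e24 ^ 2 - e04 ^ 2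
  h034 : 0 < 2 * e03 * e34 + 2 * e34 * e04 + 2 * e04 * e03 - e03 ^ 2 - e34 ^ 2 - e04 ^ 2
  h123 : 0 < 2 * e12 * e23 + 2 * e23 * e13 + 2 * e13 * e12 - e12 ^ 2 - e23 ^ 2 - e13 ^ 2
  h124 : 0 < 2 * e12 * e24 + 2 * e24 * e14 + 2 * e14 * e12 - e12 ^ 2 - e24 ^ 2 - e14 ^ 2
  h134 : 0 < 2 * e13 * e34 + 2 * e34 * e14 + 2 * e14 * e13 - e13 ^ 2 - e34 ^ 2 - e14 ^ 2
  h234 : 0 < 2 * e23 * e34 + 2 * e34 * e24 + 2 * e24 * e23 - e23 ^ 2 - e34 ^ 2 - e24 ^ 2
  p0123 : 0 < 2 * (e01 * e23) * (e02 * e13) + 2 * (e02 * e13) * (e03 * e12) + 2 * (e03 * e12) * (e01 * e23) -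
      (e01 * e23) ^ 2 - (e02 * e13) ^ 2 - (e03 * e12) ^ 2
  p0124 : 0 < 2 * (e01 * e24) * (e02 * e14) + 2 * (e02 * e14) * (e04 * e12) + 2 * (e04 * e12) * (e01 * e24) -
      (e01 * e24) ^ 2 - (e02 * e14) ^ 2 - (e04 * e12) ^ 2
  p0134 : 0 < 2 * (e01 * e34) * (e03 * e14) + 2 * (e03 * e14) * (e04 * e13) + 2 * (e04 * e13) * (e01 * e34) -
      (e01 * e34) ^ 2 - (e03 * e14) ^ 2 - (e04 * e13) ^ 2
  p0234 : 0 < 2 * (e02 * e34) * (e03 * e24) + 2 * (e03 * e24) * (e04 * e23) + 2 * (e04 * e23) * (e02 * e34) -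
      (e02 * e34) ^ 2 - (e03 * e24) ^ 2 - (e04 * e23) ^ 2
  p1234 : 0 < 2 * (e12 * e34) * (e13 * e24) + 2 * (e13 * e24) * (e14 * e23) + 2 * (e14 * e23) * (e12 * e34) -
      (e12 * e34) ^ 2 - (e13 * e24) ^ 2 - (e14 * e23) ^ 2

theorem GP.five {X Y : ℕ → ℝ} (G : GP 5 X Y) :
    Five (sd X Y 0 1) (sd X Y 0 2) (sd X Y 1 2) (sd X Y 0 3) (sd X Y 1 3) (sd X Y 2 3)
      (sd X Y 0 4) (sd X Y 1 4) (sd X Y 2 4) (sd X Y 3 4) where
  m123_123 := by
    have h := minor_zero X Y 0 1 2 3 1 2 3
    simp only [gm, sd_self, sd_symm X Y 2 1, sd_symm X Y 3 1, sd_symm X Y 3 2, sd_symm X Y 4 1, sd_symm X Y 4 2, sd_symm X Y 4 3] at h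
    linear_combination h
  m123_124 := by
    have h := minor_zero X Y 0 1 2 3 1 2 4
    simp only [gm, sd_self, sd_symm X Y 2 1, sd_symm X Y 3 1, sd_symm X Y 3 2, sd_symm X Y 4 1, sd_symm X Y 4 2, sd_symm X Y 4 3] at h
    linear_combination h
  m123_134 := by
    have h := minor_zero X Y 0 1 2 3 1 3 4
    simp only [gm, sd_self, sd_symm X Y 2 1, sd_symm X Y 3 1, sd_symm X Y 3 2, sd_symm X Y 4 1, sd_symm X Y 4 2, sd_symm X Y 4 3] at h
    linear_combination h
  m123_234 := by
    have h := minor_zero X Y 0 1 2 3 2 3 4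
    simp only [gm, sd_self, sd_symm X Y 2 1, sd_symm X Y 3 1, sd_symm X Y 3 2, sd_symm X Y 4 1, sd_symm X Y 4 2, sd_symm X Y 4 3] at h
    linear_combination h
  m124_124 := by
    have h := minor_zero X Y 0 1 2 4 1 2 4
    simp only [gm, sd_self, sd_symm X Y 2 1, sd_symm X Y 3 1, sd_symm X Y 3 2, sd_symm X Y 4 1, sd_symm X Y 4 2, sd_symm X Y 4 3] at h
    linear_combination h
  m124_134 := by
    have h := minor_zero X Y 0 1 2 4 1 3 4
    simp only [gm, sd_self, sd_symm X Y 2 1, sd_symm X Y 3 1, sd_symm X Y 3 2, sd_symm X Y 4 1, sd_symm X Y 4 2, sd_symm X Y 4 3] at h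
    linear_combination h
  m124_234 := by
    have h := minor_zero X Y 0 1 2 4 2 3 4
    simp only [gm, sd_self, sd_symm X Y 2 1, sd_symm X Y 3 1, sd_symm X Y 3 2, sd_symm X Y 4 1, sd_symm X Y 4 2, sd_symm X Y 4 3] at h
    linear_combination h
  m134_134 := by
    have h := minor_zero X Y 0 1 3 4 1 3 4
    simp only [gm, sd_self, sd_symm X Y 2 1, sd_symm X Y 3 1, sd_symm X Y 3 2, sd_symm X Y 4 1, sd_symm X Y 4 2, sd_symm X Y 4 3] at h
    linear_combination h
  m134_234 := by
    have h := minor_zero X Y 0 1 3 4 2 3 4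
    simp only [gm, sd_self, sd_symm X Y 2 1, sd_symm X Y 3 1, sd_symm X Y 3 2, sd_symm X Y 4 1, sd_symm X Y 4 2, sd_symm X Y 4 3] at h
    linear_combination h
  m234_234 := by
    have h := minor_zero X Y 0 2 3 4 2 3 4
    simp only [gm, sd_self, sd_symm X Y 2 1, sd_symm X Y 3 1, sd_symm X Y 3 2, sd_symm X Y 4 1, sd_symm X Y 4 2, sd_symm X Y 4 3] at h
    linear_combination h
  q01 := G.ne 0 1 (by norm_num) (by norm_num) (by norm_num)
  q02 := G.ne 0 2 (by norm_num) (by norm_num) (by norm_num)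
  q12 := G.ne 1 2 (by norm_num) (by norm_num) (by norm_num)
  q03 := G.ne 0 3 (by norm_num) (by norm_num) (by norm_num)
  q13 := G.ne 1 3 (by norm_num) (by norm_num) (by norm_num)
  q23 := G.ne 2 3 (by norm_num) (by norm_num) (by norm_num)
  q04 := G.ne 0 4 (by norm_num) (by norm_num) (by norm_num)
  q14 := G.ne 1 4 (by norm_num) (by norm_num) (by norm_num)
  q24 := G.ne 2 4 (by norm_num) (by norm_num) (by norm_num)
  q34 := G.ne 3 4 (by norm_num) (by norm_num) (by norm_num)
  h012 := by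
    have h := G.tri_pos (i := 0) (j := 1) (k := 2) (by norm_num) (by norm_num) (by norm_num) (by norm_num)
      (by norm_num) (by norm_num)
    unfold tri at h
    linear_combination h
  h013 := by
    have h := G.tri_pos (i := 0) (j := 1) (k := 3) (by norm_num) (by norm_num) (by norm_num) (by norm_num)
      (by norm_num) (by norm_num)
    unfold tri at h
    linear_combination h
  h014 := by
    have h := G.tri_pos (i := 0) (j := 1) (k := 4) (by norm_num) (by norm_num) (by norm_num) (by norm_num)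
      (by norm_num) (by norm_num)
    unfold tri at h
    linear_combination h
  h023 := by
    have h := G.tri_pos (i := 0) (j := 2) (k := 3) (by norm_num) (by norm_num) (by norm_num) (by norm_num)
      (by norm_num) (by norm_num)
    unfold tri at h
    linear_combination h
  h024 := by
    have h := G.tri_pos (i := 0) (j := 2) (k := 4) (by norm_num) (by norm_num) (by norm_num) (by norm_num)
      (by norm_num) (by norm_num)
    unfold tri at h
    linear_combination h
  h034 := by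
    have h := G.tri_pos (i := 0) (j := 3) (k := 4) (by norm_num) (by norm_num) (by norm_num) (by norm_num)
      (by norm_num) (by norm_num)
    unfold tri at h
    linear_combination h
  h123 := by
    have h := G.tri_pos (i := 1) (j := 2) (k := 3) (by norm_num) (by norm_num) (by norm_num) (by norm_num)
      (by norm_num) (by norm_num)
    unfold tri at h
    linear_combination h
  h124 := by
    have h := G.tri_pos (i := 1) (j := 2) (k := 4) (by norm_num) (by norm_num) (by norm_num) (by norm_num)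
      (by norm_num) (by norm_num)
    unfold tri at h
    linear_combination h
  h134 := by
    have h := G.tri_pos (i := 1) (j := 3) (k := 4) (by norm_num) (by norm_num) (by norm_num) (by norm_num)
      (by norm_num) (by norm_num)
    unfold tri at h
    linear_combination h
  h234 := by
    have h := G.tri_pos (i := 2) (j := 3) (k := 4) (by norm_num) (by norm_num) (by norm_num) (by norm_num)
      (by norm_num) (by norm_num)
    unfold tri at h
    linear_combination h
  p0123 := by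
    have h := G.pt_neg (i := 0) (j := 1) (k := 2) (l := 3) (by norm_num) (by norm_num) (by norm_num)
      (by norm_num) (by norm_num) (by norm_num) (by norm_num) (by norm_num) (by norm_num) (by norm_num)
    unfold pt at h
    linear_combination h
  p0124 := by
    have h := G.pt_neg (i := 0) (j := 1) (k := 2) (l := 4) (by norm_num) (by norm_num) (by norm_num)
      (by norm_num) (by norm_num) (by norm_num) (by norm_num) (by norm_num) (by norm_num) (by norm_num)
    unfold pt at h
    linear_combination h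
  p0134 := by
    have h := G.pt_neg (i := 0) (j := 1) (k := 3) (l := 4) (by norm_num) (by norm_num) (by norm_num)
      (by norm_num) (by norm_num) (by norm_num) (by norm_num) (by norm_num) (by norm_num) (by norm_num)
    unfold pt at h
    linear_combination h
  p0234 := by
    have h := G.pt_neg (i := 0) (j := 2) (k := 3) (l := 4) (by norm_num) (by norm_num) (by norm_num)
      (by norm_num) (by norm_num) (by norm_num) (by norm_num) (by norm_num) (by norm_num) (by norm_num)
    unfold pt at h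
    linear_combination h
  p1234 := by
    have h := G.pt_neg (i := 1) (j := 2) (k := 3) (l := 4) (by norm_num) (by norm_num) (by norm_num)
      (by norm_num) (by norm_num) (by norm_num) (by norm_num) (by norm_num) (by norm_num) (by norm_num)
    unfold pt at h
    linear_combination h

/-- a realizable pattern of five points gives class values with these properties -/
theorem five_of_realk_ne {P k : ℕ} (h : Realk 5 k P) : ∃ x : ℕ → ℝ,
    (∀ c d, c < k → d < k → x c = x d → c = d) ∧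
    Five (x (lab P 0 1)) (x (lab P 0 2)) (x (lab P 1 2)) (x (lab P 0 3)) (x (lab P 1 3))
      (x (lab P 2 3)) (x (lab P 0 4)) (x (lab P 1 4)) (x (lab P 2 4)) (x (lab P 3 4)) := by
  obtain ⟨X, Y, x, G, -, hd, hS⟩ := h
  refine ⟨x, hd, ?_⟩
  rw [← hS 0 1 (by norm_num) (by norm_num), ← hS 0 2 (by norm_num) (by norm_num),
    ← hS 1 2 (by norm_num) (by norm_num), ← hS 0 3 (by norm_num) (by norm_num),
    ← hS 1 3 (by norm_num) (by norm_num), ← hS 2 3 (by norm_num) (by norm_num),
    ← hS 0 4 (by norm_num) (by norm_num), ← hS 1 4 (by norm_num) (by norm_num),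
    ← hS 2 4 (by norm_num) (by norm_num), ← hS 3 4 (by norm_num) (by norm_num)]
  exact G.five

theorem five_of_realk {P : ℕ} (h : Realk 5 0 P) : ∃ x : ℕ → ℝ,
    Five (x (lab P 0 1)) (x (lab P 0 2)) (x (lab P 1 2)) (x (lab P 0 3)) (x (lab P 1 3))
      (x (lab P 2 3)) (x (lab P 0 4)) (x (lab P 1 4)) (x (lab P 2 4)) (x (lab P 3 4)) := by
  obtain ⟨x, -, h⟩ := five_of_realk_ne h
  exact ⟨x, h⟩

end CR
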