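import Pool.Agent.Lib.MP_6f5d36_co.K5.Five

set_option autoImplicit false

/-!
# MP_6f5d36_co : forbidden patterns of five points, part 0
-/

namespace CR

theorem k5p2_aux {a b c d e f g : ℝ} (F : Five a b c c b a d e f g) : False := by
  have M0 : -4 * a ^ 3 + 4 * a ^ 2 * b + 4 * a ^ 2 * c + 4 * a * b ^ 2 - 8 * a * b * c + 4 * a * c ^ 2 - 4 * b ^ 3 + 4 * b ^ 2 * c + 4 * b * c ^ 2 - 4 * c ^ 3 = 0 := by linear_combination F.m123_123
  have Hp0123 : 0 < -a ^ 4 + 2 * a ^ 2 * b ^ 2 + 2 * a ^ 2 * c ^ 2 - b ^ 4 + 2 * b ^ 2 * c ^ 2 - c ^ 4 := by linear_combination F.p0123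
  have hz : -a ^ 4 + 2 * a ^ 2 * b ^ 2 + 2 * a ^ 2 * c ^ 2 - b ^ 4 + 2 * b ^ 2 * c ^ 2 - c ^ 4 = 0 := by
    linear_combination (1 / 4 * a + 1 / 4 * b + 1 / 4 * c) * M0
  exact Hp0123.ne' hz

/-- pattern 0122103456 -/
theorem k5p2 : ¬ Realk 5 0 898372744 := by
  intro h
  obtain ⟨x, F⟩ := five_of_realk h
  exact k5p2_aux (F : Five (x 0) (x 1) (x 2) (x 2) (x 1) (x 0) (x 3) (x 4) (x 5) (x 6))

theorem k5p5_aux {a b c d e f : ℝ} (F : Five a a b c d d d e f a) : False := by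
  have hb : 0 < b := F.q12
  have M0 : -2 * a ^ 2 * b + 4 * a * b * c + 4 * a * b * d - 2 * b ^ 2 * c - 2 * b * c ^ 2 + 4 * b * c * d - 2 * b * d ^ 2 = 0 := by linear_combination F.m123_123
  have M1 : -6 * a ^ 2 * b + a * b ^ 2 + 2 * a * b * c + 4 * a * b * d + a * b * e + a * b * f - b ^ 2 * c - b ^ 2 * d - 2 * b * c * d + b * c * e + b * c * f + 2 * b * d ^ 2 - b * d * e - b * d * f = 0 := by linear_combination F.m123_124
  have M2 : -a ^ 2 * b + a ^ 2 * e - a ^ 2 * f - 2 * a * b * c + 2 * a * b * d - 2 * a * c * e + 2 * a * c * f - 2 * a * d * e + 2 * a * d * f + b * c ^ 2 - 2 * b * c * d + 2 * b * c * e - b * d ^ 2 + c ^ 2 * e - c ^ 2 * f - 2 * c * d * e + 2 * c * d * f + d ^ 2 * e - d ^ 2 * f = 0 := by linear_combination F.m123_134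
  have M3 : a ^ 2 * b + 3 * a ^ 2 * e - 3 * a ^ 2 * f - a * b * c + 2 * a * b * d - a * b * e - a * c * e + a * c * f - 2 * a * d * e + 2 * a * d * f - a * e ^ 2 + a * e * f + b * c * d + b * c * e - 3 * b * d ^ 2 + b * d * e + c * d * e - c * d * f - c * e ^ 2 + c * e * f - d ^ 2 * e + d ^ 2 * f + d * e ^ 2 - d * e * f = 0 := by linear_combination F.m124_134
  have M4 : -4 * a ^ 3 + 2 * a ^ 2 * c + 4 * a ^ 2 * d + 2 * a ^ 2 * e - 4 * a * c * d + 4 * a * c * e + 4 * a * d ^ 2 - 4 * a * d * e - 2 * c ^ 2 * e + 2 * c * d ^ 2 + 4 * c * d * e - 2 * c * e ^ 2 - 4 * d ^ 3 + 2 * d ^ 2 * e = 0 := by linear_combination F.m134_134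
  have Hp0134 : 0 < -a ^ 4 + 2 * a ^ 2 * c * e + 2 * a ^ 2 * d ^ 2 - c ^ 2 * e ^ 2 + 2 * c * d ^ 2 * e - d ^ 4 := by linear_combination F.p0134
  have Hp0234 : 0 < -a ^ 4 + 2 * a ^ 2 * c * f + 2 * a ^ 2 * d ^ 2 - c ^ 2 * f ^ 2 + 2 * c * d ^ 2 * f - d ^ 4 := by linear_combination F.p0234
  have G0 : b - e + f = 0 := by
    have h : (-a ^ 4 + 2 * a ^ 2 * c * e + 2 * a ^ 2 * d ^ 2 - c ^ 2 * e ^ 2 + 2 * c * d ^ 2 * e - d ^ 4) * (b - e + f) = 0 := by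
      linear_combination (a ^ 2 - 2 * a * c - a * d + c ^ 2 - c * d) * M3 +
      (-2 * a ^ 2 + a * c + a * d + a * e - c * d + d ^ 2) * M2 +
      (a * b + 1 / 2 * b * c - 1 / 2 * c * e + 1 / 2 * c * f) * M4
    exact (mul_eq_zero.1 h).resolve_left Hp0134.ne'
  have G1 : e - f = 0 := by
    have h : (-a ^ 4 + 2 * a ^ 2 * c * f + 2 * a ^ 2 * d ^ 2 - c ^ 2 * f ^ 2 + 2 * c * d ^ 2 * f - d ^ 4) * (e - f) = 0 := by
      linear_combination (3 * a ^ 4 - 4 * a ^ 3 * d + 4 * a ^ 2 * b * c - 11 / 2 * a ^ 2 * c ^ 2 - 12 * a ^ 2 * c * d - 1 / 2 * a ^ 2 * c * e - 2 * a ^ 2 * c * f + 3 * a * b * c ^ 2 - 2 * a * b * c * d + 3 * a * c ^ 3 - 9 * a * c ^ 2 * d + a * c ^ 2 * e + 4 * a * c * d ^ 2 + a * c * d * e + b ^ 2 * c ^ 2 + b * c ^ 3 - b * c ^ 2 * d - b * c ^ 2 * e - b * c ^ 2 * f + 2 * b * c * d ^ 2 + 1 / 2 * c ^ 4 - c ^ 3 * d - 1 / 2 * c ^ 3 * e + 1 / 2 * c ^ 2 * d ^ 2 + c ^ 2 * d *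 e + c ^ 2 * f ^ 2 - 1 / 2 * c * d ^ 2 * e - 2 * c * d ^ 2 * f + d ^ 4) * G0 +
      (1 / 2 * a ^ 2 + 3 * a * c + a * d + 1 / 2 * b * c + 1 / 2 * c ^ 2 + c * d - c * e + 1 / 2 * d ^ 2) * M0 +
      (2 * a ^ 2 + 4 * a * c + 1 / 2 * c ^ 2 - 1 / 2 * c * e) * M2 +
      (-2 * a * c - c ^ 2) * M1
    exact (mul_eq_zero.1 h).resolve_left Hp0234.ne'
  have hz : b = 0 := by
    linear_combination (1) * G0 +
      (1) * G1
  exact hb.ne' hz

/-- pattern 0012333450 -/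
theorem k5p5 : ¬ Realk 5 0 93172800 := by
  intro h
  obtain ⟨x, F⟩ := five_of_realk h
  exact k5p5_aux (F : Five (x 0) (x 0) (x 1) (x 2) (x 3) (x 3) (x 3) (x 4) (x 5) (x 0))

theorem k5p12_aux {a b c d e : ℝ} (F : Five a a b b a c d e b e) : False := by
  have hd : 0 < d := F.q04
  have M0 : -2 * a ^ 3 + 4 * a ^ 2 * c + 6 * a * b ^ 2 - 2 * a * c ^ 2 - 4 * b ^ 3 + 2 * b ^ 2 * c = 0 := by linear_combination F.m123_123
  have M1 : a ^ 2 * b - 2 * a ^ 2 * e + 2 * a * b ^ 2 - a * b * c + 3 * a * b * d - 3 * a * b * e + 2 * a * c * e - 3 * b ^ 2 * d + 2 * b ^ 2 * e + b * c * d - b * c * e = 0 := by linear_combination F.m123_124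
  have M2 : a ^ 2 * b + 2 * a ^ 2 * d - 2 * a ^ 2 * e + 2 * a * b ^ 2 - a * b * c - a * b * d - 3 * a * b * e - 2 * a * c * d + 2 * a * c * e - b ^ 2 * d + 2 * b ^ 2 * e + b * c * d - b * c * e = 0 := by linear_combination F.m123_134
  have M3 : -2 * a ^ 2 * b + 4 * a * b * d + 6 * a * b * e - 2 * a * e ^ 2 - 2 * b ^ 2 * e - 2 * b * d ^ 2 + 2 * b * d * e = 0 := by linear_combination F.m124_124
  have M4 : -a ^ 3 + a ^ 2 * c + 2 * a ^ 2 * d + 2 * a ^ 2 * e + a * b * d - 2 * a * b * e - 2 * a * c * d - 2 * a * c * e - a * d ^ 2 + a * e ^ 2 + 2 * b ^ 2 * e - b * d ^ 2 + 3 * b * d * e - 2 * b * e ^ 2 + c * d ^ 2 - 2 * c * d * e + c * e ^ 2 = 0 := by linear_combination F.m124_134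
  have M5 : -a ^ 3 + a ^ 2 * b + a ^ 2 * c + 2 * a ^ 2 * d + a ^ 2 * e + 2 * a * b ^ 2 - a * b * c + 2 * a * b * d - 5 * a * b * e - 2 * a * c * d - a * c * e - a * d ^ 2 - a * d * e + 2 * a * e ^ 2 - 3 * b ^ 2 * d + b * c * d + b * c * e + b * d ^ 2 + c * d ^ 2 - c * d * e = 0 := by linear_combination F.m124_234
  have M6 : -2 * a ^ 2 * b + 2 * a * b * d + 6 * a * b * e - 2 * a * d ^ 2 + 4 * a * d * e - 2 * a * e ^ 2 - 2 * b ^ 2 * e = 0 := by linear_combination F.m134_134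
  have M7 : -a ^ 2 * b + a ^ 2 * d - a ^ 2 * e + 2 * a * b ^ 2 - a * b * c + a * b * d + 3 * a * b * e - a * c * d + a * c * e - a * d ^ 2 + 2 * a * d * e - a * e ^ 2 - b ^ 2 * d - 4 * b ^ 2 * e + b * c * d + b * c * e + b * d ^ 2 - 3 * b * d * e + 2 * b * e ^ 2 - c * d ^ 2 + 2 * c * d * e - c * e ^ 2 = 0 := by linear_combination F.m134_234
  have Hp0123 : 0 < -a ^ 4 + 2 * a ^ 3 * c + 2 * a ^ 2 * b ^ 2 - a ^ 2 * c ^ 2 + 2 * a * b ^ 2 * c - b ^ 4 := by linear_combination F.p0123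
  have G0 : a * d - a * e + b ^ 2 - b * d - c * d + c * e = 0 := by
    have h : d * (a * d - a * e + b ^ 2 - b * d - c * d + c * e) = 0 := by
      linear_combination (1) * M4 +
      (1) * M7 +
      (-1) * M6 +
      (-1 / 2) * M2 +
      (-1) * M5 +
      (1 / 2) * M1
    exact (mul_eq_zero.1 h).resolve_left hd.ne'
  have G1 : a * b - a * e - b ^ 2 + b * e + c * d - c * e = 0 := by
    have h : d * (a * b - a * e - b ^ 2 + b * e + c * d - c * e) = 0 := by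
      linear_combination (-d) * G0 +
      (-1 / 2) * M6 +
      (1 / 2) * M3
    exact (mul_eq_zero.1 h).resolve_left hd.ne'
  have hz : -a ^ 4 + 2 * a ^ 3 * c + 2 * a ^ 2 * b ^ 2 - a ^ 2 * c ^ 2 + 2 * a * b ^ 2 * c - b ^ 4 = 0 := by
    linear_combination (-2 * a * b - 2 * b ^ 2 + 2 * b * c) * G1 +
      (-3 * b ^ 2 + 2 * b * c) * G0 +
      (1 / 2 * a) * M0 +
      (b) * M1
  exact Hp0123.ne' hz

/-- pattern 0011023414 -/
theorem k5p12 : ¬ Realk 5 0 562889280 := by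
  intro h
  obtain ⟨x, F⟩ := five_of_realk h
  exact k5p12_aux (F : Five (x 0) (x 0) (x 1) (x 1) (x 0) (x 2) (x 3) (x 4) (x 1) (x 4))

theorem k5p16_aux {a b c d e : ℝ} (F : Five a a b b c d e d e b) : False := by
  have hd : 0 < d := F.q23
  have M0 : -2 * a ^ 2 * b - 2 * a * b ^ 2 + a * b * c + 2 * a * b * d + 3 * a * b * e - 2 * a * c * d + 2 * a * c * e + 2 * a * d ^ 2 - 2 * a * d * e + b ^ 2 * d - 2 * b ^ 2 * e - b * d ^ 2 + b * d * e = 0 := by linear_combination F.m123_124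
  have M1 : -a ^ 2 * c + 2 * a ^ 2 * d - a ^ 2 * e + 2 * a * b ^ 2 - a * b * c - a * b * d + a * b * e + a * c * d + 2 * a * c * e - 3 * a * d ^ 2 + b ^ 2 * d - 2 * b ^ 2 * e - 2 * b * d ^ 2 + 3 * b * d * e + d ^ 3 - d ^ 2 * e = 0 := by linear_combination F.m123_234
  have M2 : -2 * a ^ 2 * b + 2 * a * b * d + 6 * a * b * e - 2 * a * d ^ 2 + 4 * a * d * e - 2 * a * e ^ 2 - 2 * b ^ 2 * e = 0 := by linear_combination F.m124_124
  have M3 : -a ^ 2 * c + 2 * a ^ 2 * d - a ^ 2 * e + a * b * d + a * c * d + 3 * a * c * e - 3 * a * d ^ 2 - 2 * a * d * e + a * e ^ 2 + 2 * b ^ 2 * e - 2 * b * c * e - b * d ^ 2 + 3 * b * d * e - 2 * b * e ^ 2 + d ^ 3 - 2 * d ^ 2 * e + d * e ^ 2 = 0 := by linear_combination F.m124_134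
  have M4 : -a ^ 2 * c + 2 * a ^ 2 * d - a ^ 2 * e + a * b * d - 2 * a * b * e + 4 * a * c * e - a * d ^ 2 - 5 * a * d * e + 2 * a * e ^ 2 - 2 * b ^ 2 * e + 2 * b * d * e = 0 := by linear_combination F.m124_234
  have M5 : -2 * a ^ 2 * b + 2 * a * b * d + 4 * a * b * e + a * c * e - a * e ^ 2 - 6 * b ^ 2 * e + 2 * b * c * e + b * d * e + 2 * b * e ^ 2 - 2 * c * d * e + d ^ 2 * e - d * e ^ 2 = 0 := by linear_combination F.m134_234
  have M6 : -2 * a ^ 2 * b + 6 * a * b * e + 2 * a * d * e - 2 * a * e ^ 2 - 2 * b ^ 2 * e + 4 * b * d * e - 2 * d ^ 2 * e = 0 := by linear_combination F.m234_234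
  have Hp1234 : 0 < -b ^ 4 + 2 * b ^ 2 * c * e + 2 * b ^ 2 * d ^ 2 - c ^ 2 * e ^ 2 + 2 * c * d ^ 2 * e - d ^ 4 := by linear_combination F.p1234
  have G0 : b ^ 2 - 2 * b * d - c * e + d ^ 2 = 0 := by
    have h : d * (b ^ 2 - 2 * b * d - c * e + d ^ 2) = 0 := by
      linear_combination (1 / 2) * M5 +
      (-1 / 2) * M2 +
      (1 / 2) * M0 +
      (-1) * M4 +
      (1 / 2) * M1 +
      (1 / 2) * M3 +
      (-1 / 2) * M6
    exact (mul_eq_zero.1 h).resolve_left hd.ne'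
  have hz : -b ^ 4 + 2 * b ^ 2 * c * e + 2 * b ^ 2 * d ^ 2 - c ^ 2 * e ^ 2 + 2 * c * d ^ 2 * e - d ^ 4 = 0 := by
    linear_combination (-b ^ 2 - 2 * b * d + c * e - d ^ 2) * G0
  exact Hp1234.ne' hz

/-- pattern 0011234341 -/
theorem k5p16 : ¬ Realk 5 0 208773696 := by
  intro h
  obtain ⟨x, F⟩ := five_of_realk h
  exact k5p16_aux (F : Five (x 0) (x 0) (x 1) (x 1) (x 2) (x 3) (x 4) (x 3) (x 4) (x 1))

theorem k5p32_aux {a b c d : ℝ} (F : Five a a a b b c b d d a) : False := by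
  have M0 : -2 * a ^ 3 + 4 * a ^ 2 * b + 2 * a ^ 2 * c - 2 * a * b ^ 2 + 4 * a * b * c - 2 * a * c ^ 2 = 0 := by linear_combination F.m123_123
  have M1 : -5 * a ^ 3 + 3 * a ^ 2 * b + a ^ 2 * c + 2 * a ^ 2 * d - a * b ^ 2 + a * b * c + a * b * d - a * c * d = 0 := by linear_combination F.m123_124
  have M2 : -a ^ 3 - 3 * a ^ 2 * b + 3 * a ^ 2 * c + a * b ^ 2 - 3 * a * b * c + 3 * a * b * d - a * c * d = 0 := by linear_combination F.m123_134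
  have M3 : -2 * a ^ 3 + 2 * a ^ 2 * b + 4 * a ^ 2 * d - 2 * a * b ^ 2 + 4 * a * b * d - 2 * a * d ^ 2 = 0 := by linear_combination F.m124_124
  have M4 : -4 * a ^ 3 + 6 * a ^ 2 * b + 2 * a ^ 2 * d - 2 * b ^ 3 + 4 * b ^ 2 * d - 2 * b * d ^ 2 = 0 := by linear_combination F.m134_134
  have Hp0123 : 0 < 4 * a ^ 2 * b * c - a ^ 2 * c ^ 2 := by linear_combination F.p0123
  have Hp0134 : 0 < -a ^ 4 + 2 * a ^ 2 * b ^ 2 + 2 * a ^ 2 * b * d - b ^ 4 + 2 * b ^ 3 * d - b ^ 2 * d ^ 2 := by linear_combination F.p0134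
  have G0 : 3 * a - b - c - d = 0 := by
    have h : (4 * a ^ 2 * b * c - a ^ 2 * c ^ 2) * (3 * a - b - c - d) = 0 := by
      linear_combination (4 / 3 * a ^ 2 + 1 / 6 * a * b - 1 / 2 * a * c - 5 / 6 * a * d - 2 / 3 * b ^ 2 + 2 / 3 * b * d) * M0 +
      (-2 / 3 * a ^ 2 + a * b + 2 / 3 * a * c + 1 / 3 * a * d + 1 / 6 * b ^ 2 - 4 / 3 * b * c - 5 / 6 * b * d) * M1 +
      (1 / 3 * a ^ 2 - 2 / 3 * a * b - 1 / 6 * a * c + 1 / 3 * b ^ 2 + 1 / 6 * b * c) * M3 +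
      (-1 / 2 * b ^ 2 + 1 / 2 * b * d) * M2
    exact (mul_eq_zero.1 h).resolve_left Hp0123.ne'
  have hz : -a ^ 4 + 2 * a ^ 2 * b ^ 2 + 2 * a ^ 2 * b * d - b ^ 4 + 2 * b ^ 3 * d - b ^ 2 * d ^ 2 = 0 := by
    linear_combination (2 / 3 * a ^ 3 - a ^ 2 * c + 1 / 3 * a * b ^ 2 - 2 / 3 * a * b * c + 1 / 3 * a * c ^ 2) * G0 +
      (2 / 3 * a - 1 / 3 * b - 1 / 6 * c) * M0 +
      (1 / 3 * a + 1 / 3 * b - 1 / 3 * c) * M1 +
      (1 / 2 * b) * M4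
  exact Hp0134.ne' hz

/-- pattern 0001121330 -/
theorem k5p32 : ¬ Realk 5 0 56955392 := by
  intro h
  obtain ⟨x, F⟩ := five_of_realk h
  exact k5p32_aux (F : Five (x 0) (x 0) (x 0) (x 1) (x 1) (x 2) (x 1) (x 3) (x 3) (x 0))

theorem k5p36_aux {a b c d : ℝ} (F : Five a a a b b c c d d b) : False := by
  have hc : 0 < c := F.q23
  have M0 : -2 * a ^ 3 - a ^ 2 * b + 2 * a ^ 2 * c + 2 * a ^ 2 * d - a * b * c + a * b * d + a * c ^ 2 - a * c * d = 0 := by linear_combination F.m123_124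
  have M1 : -3 * a ^ 2 * b + 2 * a ^ 2 * c - a * b * c + 3 * a * b * d - a * c ^ 2 - a * c * d = 0 := by linear_combination F.m123_134
  have M2 : -a ^ 2 * b + 2 * a ^ 2 * c + 2 * a * b * c + 2 * a * b * d - 3 * a * c ^ 2 - a * c * d - b * c ^ 2 + 2 * b * c * d - b * d ^ 2 + c ^ 3 - 2 * c ^ 2 * d + c * d ^ 2 = 0 := by linear_combination F.m124_134
  have M3 : -a ^ 2 * b + 2 * a * b * d + a * c ^ 2 - 3 * a * c * d - b * c ^ 2 + 2 * b * c * d - b * d ^ 2 + c ^ 3 - 2 * c ^ 2 * d + c * d ^ 2 = 0 := by linear_combination F.m124_234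
  have Hh012 : 0 < 3 * a ^ 2 := by linear_combination F.h012
  have Hh013 : 0 < -a ^ 2 + 4 * a * b := by linear_combination F.h013
  have G0 : a - c - d = 0 := by
    have h : (3 * a ^ 2) * (a - c - d) = 0 := by
      linear_combination (-1 / 2) * M2 +
      (-3 / 2) * M0 +
      (1 / 2) * M3 +
      (1 / 2) * M1
    exact (mul_eq_zero.1 h).resolve_left Hh012.ne'
  have G1 : c = 0 := by
    have h : (-a ^ 2 + 4 * a * b) * (c) = 0 := by
      linear_combination (-3 * a * b + a * c) * G0 +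
      (-1) * M1
    exact (mul_eq_zero.1 h).resolve_left Hh013.ne'
  have hz : c = 0 := by
    linear_combination (1) * G1
  exact hc.ne' hz

/-- pattern 0001122331 -/
theorem k5p36 : ¬ Realk 5 0 191435264 := by
  intro h
  obtain ⟨x, F⟩ := five_of_realk h
  exact k5p36_aux (F : Five (x 0) (x 0) (x 0) (x 1) (x 1) (x 2) (x 2) (x 3) (x 3) (x 1))

theorem k5p38_aux {a b c d : ℝ} (F : Five a a b a b c b c a d) : False := by
  have ha : 0 < a := F.q01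
  have hc : 0 < c := F.q23
  have M0 : 8 * a * b * c - 2 * a * c ^ 2 - 2 * b ^ 2 * c = 0 := by linear_combination F.m123_123
  have M1 : 4 * a ^ 2 * b - 2 * a ^ 2 * c - a * b ^ 2 + a * b * c - 4 * a * b * d + 2 * a * c ^ 2 + b ^ 2 * c + b ^ 2 * d - b * c ^ 2 = 0 := by linear_combination F.m123_124
  have M2 : 4 * a ^ 2 * b - a * b ^ 2 - a * b * c - 4 * a * b * d - 2 * a * c ^ 2 + 2 * a * c * d - b ^ 2 * c + b ^ 2 * d + b * c ^ 2 = 0 := by linear_combination F.m123_134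
  have M3 : 2 * a ^ 2 * c + a * b * c - 5 * a * c ^ 2 + 2 * a * c * d + 2 * b ^ 2 * c - b * c ^ 2 - b * c * d + c ^ 3 = 0 := by linear_combination F.m123_234
  have M4 : -2 * a ^ 3 + 4 * a ^ 2 * c + 6 * a * b ^ 2 - 2 * a * c ^ 2 - 4 * b ^ 3 + 2 * b ^ 2 * c = 0 := by linear_combination F.m124_124
  have M5 : -a ^ 2 * b + 3 * a ^ 2 * c - 2 * a ^ 2 * d + 5 * a * b ^ 2 - a * b * c + a * b * d - 4 * a * c ^ 2 + 2 * a * c * d - 4 * b ^ 3 + 3 * b ^ 2 * c + b ^ 2 * d - 2 * b * c ^ 2 - b * c * d + c ^ 3 = 0 := by linear_combination F.m124_134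
  have M6 : 2 * a ^ 3 - 2 * a ^ 2 * c - 2 * a ^ 2 * d + a * b ^ 2 - 3 * a * b * c + 2 * a * c * d + 3 * b ^ 2 * c - b ^ 2 * d - b * c ^ 2 = 0 := by linear_combination F.m124_234
  have M7 : -2 * a ^ 2 * b + 4 * a * b ^ 2 + 2 * a * b * c + 2 * a * b * d - 2 * a * c ^ 2 + 4 * a * c * d - 2 * a * d ^ 2 - 4 * b ^ 3 + 2 * b ^ 2 * c + 2 * b ^ 2 * d - 2 * b * c * d = 0 := by linear_combination F.m134_134
  have M8 : a ^ 2 * b - 3 * a ^ 2 * c + 2 * a ^ 2 * d + a * b ^ 2 + 2 * a * b * c - 2 * a * b * d + a * c ^ 2 + 3 * a * c * d - 2 * a * d ^ 2 - 3 * b ^ 2 * c - b ^ 2 * d + b * c ^ 2 + b * c * d + b * d ^ 2 - c ^ 2 * d = 0 := by linear_combination F.m134_234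
  have M9 : -2 * a ^ 3 + 4 * a ^ 2 * d + 6 * a * b * c - 2 * a * d ^ 2 - 2 * b ^ 2 * c - 2 * b * c ^ 2 + 2 * b * c * d = 0 := by linear_combination F.m234_234
  have Hh034 : 0 < -a ^ 2 + 2 * a * b + 2 * a * d - b ^ 2 + 2 * b * d - d ^ 2 := by linear_combination F.h034
  have Hp0124 : 0 < -a ^ 4 + 2 * a ^ 3 * c + 2 * a ^ 2 * b ^ 2 - a ^ 2 * c ^ 2 + 2 * a * b ^ 2 * c - b ^ 4 := by linear_combination F.p0124
  have G0 : 5 * a * c - 18 * a * d - 30 * b * c + 35 * c ^ 2 - 38 * c * d + 18 * d ^ 2 = 0 := by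
    have h : a * (5 * a * c - 18 * a * d - 30 * b * c + 35 * c ^ 2 - 38 * c * d + 18 * d ^ 2) = 0 := by
      linear_combination (5) * M5 +
      (-1 / 2) * M4 +
      (-9 / 2) * M7 +
      (-5) * M3 +
      (-5) * M2 +
      (-5) * M6 +
      (-1) * M0 +
      (4) * M1 +
      (-9 / 2) * M9
    exact (mul_eq_zero.1 h).resolve_left ha.ne'
  have G1 : 130 * b * c - 83 * b * d - 10 * c ^ 2 - 32 * c * d + 26 * d ^ 2 = 0 := by
    have h : c * (130 * b * c - 83 * b * d - 10 * c ^ 2 - 32 * c * d + 26 * d ^ 2) = 0 := by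
      linear_combination (-206 / 9) * M8 +
      (-55 / 27) * M2 +
      (353 / 81) * M0 +
      (2392 / 81) * M4 +
      (-1975 / 81) * M3 +
      (-412 / 81 * a + 103 / 81 * b + 13 / 9 * c) * G0 +
      (-2392 / 81) * M9 +
      (-2930 / 81) * M5 +
      (538 / 81) * M7 +
      (55 / 27) * M1
    exact (mul_eq_zero.1 h).resolve_left hc.ne'
  have G2 : 13 * b ^ 2 - 7 * b * d - c ^ 2 + 2 * c * d = 0 := by
    have h : c * (13 * b ^ 2 - 7 * b * d - c ^ 2 + 2 * c * d) = 0 := by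
      linear_combination (1277 / 878) * M3 +
      (-456 / 439) * M0 +
      (81 / 2195 * a + 297 / 4390 * c - 81 / 2195 * d) * G1 +
      (-747 / 4390 * b - 223 / 4390 * c + 117 / 2195 * d) * G0 +
      (-1277 / 878) * M2 +
      (1277 / 878) * M1
    exact (mul_eq_zero.1 h).resolve_left hc.ne'
  have G3 : 5 * b - 2 * d = 0 := by
    have h : (-a ^ 2 + 2 * a * b + 2 * a * d - b ^ 2 + 2 * b * d - d ^ 2) * (5 * b - 2 * d) = 0 := by
      linear_combination (-77 / 234) * M0 +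
      (-14 / 39 * b + 61 / 507 * c + 1 / 13 * d) * G1 +
      (628 / 117) * M6 +
      (235 / 234) * M2 +
      (-45 / 26) * M1 +
      (-1 / 13 * b + 4384 / 1521 * c - 43 / 39 * d) * G2 +
      (128 / 117) * M5 +
      (-11 / 117) * M4 +
      (32 / 117 * a + 10 / 117 * c) * G0 +
      (-1) * M8 +
      (71 / 13) * M9
    exact (mul_eq_zero.1 h).resolve_left Hh034.ne'
  have hz : -a ^ 4 + 2 * a ^ 3 * c + 2 * a ^ 2 * b ^ 2 - a ^ 2 * c ^ 2 + 2 * a * b ^ 2 * c - b ^ 4 = 0 := by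
    linear_combination (36595 / 2166 * a * c + 1 / 2 * b ^ 2 + 3791 / 1444 * b * c - 14097 / 5776 * c ^ 2) * G2 +
      (-1 / 2 * a - 8689 / 6498 * c) * M6 +
      (115 / 72 * b - 6523 / 6498 * c - 29 / 36 * d) * M4 +
      (5 / 9 * a + 5 / 18 * b + 11828 / 1083 * c) * M5 +
      (-1989 / 1444 * c) * M7 +
      (2164 / 1083 * b - 73885 / 11552 * c) * M0 +
      (3 / 4 * a ^ 3 - 7 / 4 * a * b ^ 2 - 19873 / 361 * a * b * c + 26377 / 2166 * a * c ^ 2 + 13369 / 2166 * b * c ^ 2) * G3 +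
      (-6025 / 8664 * a * c + 4699 / 17328 * b * c) * G0 +
      (-231539 / 17328 * c + 14097 / 2888 * d) * M3
  exact Hp0124.ne' hz

/-- pattern 0010121203 -/
theorem k5p38 : ¬ Realk 5 0 407179328 := by
  intro h
  obtain ⟨x, F⟩ := five_of_realk h
  exact k5p38_aux (F : Five (x 0) (x 0) (x 1) (x 0) (x 1) (x 2) (x 1) (x 2) (x 0) (x 3))

end CR
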