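import Pool.Agent.Lib.MP_6f5d36_co.K5.Five

set_option autoImplicit false

/-!
# MP_6f5d36_co : forbidden patterns of five points, part 1
-/

namespace CR

theorem k5p8_aux {a b c d e f : ℝ} (F : Five a a b c d e d f c a) : False := by
  have M0 : -2 * a ^ 2 * b + 4 * a * b * c + 2 * a * b * d + 2 * a * b * e - 2 * a * d ^ 2 + 4 * a * d * e - 2 * a * e ^ 2 - 2 * b ^ 2 * c - 2 * b * c ^ 2 + 2 * b * c * d + 2 * b * c * e - 2 * b * d * e = 0 := by linear_combination F.m123_123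
  have M1 : -6 * a ^ 2 * b + a * b ^ 2 + 3 * a * b * c + 3 * a * b * d + a * b * e + a * b * f + 2 * a * c * d - 2 * a * c * e - 2 * a * d * f + 2 * a * e * f - b ^ 2 * c - b ^ 2 * d + b * c ^ 2 - 3 * b * c * d + b * c * f + b * d ^ 2 + b * d * e - b * e * f = 0 := by linear_combination F.m123_124
  have M2 : -a ^ 2 * b - a ^ 2 * c - 3 * a ^ 2 * d + 3 * a ^ 2 * e + a ^ 2 * f - 2 * a * b * c + 2 * a * b * d + 2 * a * c ^ 2 + 3 * a * c * d - a * c * e - 2 * a * c * f + 2 * a * d ^ 2 - 2 * a * d * e - a * d * f - a * e * f + b * c ^ 2 - 2 * b * c * d + 2 * b * c * f - b * d ^ 2 - c ^ 3 + 2 * c ^ 2 * d + c ^ 2 * f - 2 * c * d ^ 2 + c * d * e - c * d * f - c * e * f + d ^ 3 - d ^ 2 * e + d * e * f = 0 := by linear_combination F.m123_134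
  have M3 : a ^ 2 * b - a ^ 2 * c - 3 * a ^ 2 * d + 3 * a ^ 2 * e + a ^ 2 * f + 2 * a * b * c - a * b * d - a * b * e + 2 * a * c ^ 2 + 2 * a * c * d - 2 * a * c * f + a * d ^ 2 - a * e ^ 2 - 2 * a * e * f - 3 * b * c ^ 2 + b * c * d + b * c * e + b * d * e - c ^ 3 + c ^ 2 * d + c ^ 2 * e + c ^ 2 * f - c * d ^ 2 - 2 * c * e * f + d ^ 2 * e - d * e ^ 2 + e ^ 2 * f = 0 := by linear_combination F.m123_234
  have M4 : -a ^ 2 * b - 3 * a ^ 2 * c - a ^ 2 * d + a ^ 2 * e + 3 * a ^ 2 * f + 2 * a * b * c - 2 * a * b * d + 2 * a * c ^ 2 + 3 * a * c * d - a * c * e - 2 * a * c * f + 2 * a * d ^ 2 - 2 * a * d * e - a * d * f - a * e * f - b * c ^ 2 - 2 * b * c * d + b * d ^ 2 + 2 * b * d * e + c ^ 3 - 2 * c ^ 2 * d - c ^ 2 * f + 2 * c * d ^ 2 - c * d * e + c * d * f + c * e * f - d ^ 3 + d ^ 2 * e - d * e * f = 0 := by linear_combination F.m124_234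
  have M5 : -4 * a ^ 3 + 2 * a ^ 2 * c + 4 * a ^ 2 * d + 2 * a ^ 2 * f - 4 * a * c * d + 4 * a * c * f + 4 * a * d ^ 2 - 4 * a * d * f - 2 * c ^ 2 * f + 2 * c * d ^ 2 + 4 * c * d * f - 2 * c * f ^ 2 - 4 * d ^ 3 + 2 * d ^ 2 * f = 0 := by linear_combination F.m134_134
  have Hh012 : 0 < 4 * a * b - b ^ 2 := by linear_combination F.h012
  have Hh123 : 0 < -b ^ 2 + 2 * b * d + 2 * b * e - d ^ 2 + 2 * d * e - e ^ 2 := by linear_combination F.h123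
  have Hp0134 : 0 < -a ^ 4 + 2 * a ^ 2 * c * f + 2 * a ^ 2 * d ^ 2 - c ^ 2 * f ^ 2 + 2 * c * d ^ 2 * f - d ^ 4 := by linear_combination F.p0134
  have G0 : a * b - a * c - a * d + a * e + a * f - b * c - b * d + c ^ 2 + c * d - c * f + d ^ 2 - d * e - e * f = 0 := by
    have h : (4 * a * b - b ^ 2) * (a * b - a * c - a * d + a * e + a * f - b * c - b * d + c ^ 2 + c * d - c * f + d ^ 2 - d * e - e * f) = 0 := by
      linear_combination (b) * M4 +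
      (-b) * M1 +
      (b) * M2
    exact (mul_eq_zero.1 h).resolve_left Hh012.ne'
  have G1 : a * d - a * e + b * c - c ^ 2 + c * f - d ^ 2 + d * e = 0 := by
    have h : (-b ^ 2 + 2 * b * d + 2 * b * e - d ^ 2 + 2 * d * e - e ^ 2) * (a * d - a * e + b * c - c ^ 2 + c * f - d ^ 2 + d * e) = 0 := by
      linear_combination (a * b - b * c - 1 / 2 * b * d - 1 / 2 * b * e + 1 / 2 * d ^ 2 - d * e + 1 / 2 * e ^ 2) * G0 +
      (-3 / 4 * a + 1 / 2 * b + 3 / 4 * d - 1 / 2 * e + 3 / 4 * f) * M0 +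
      (-1 / 2 * c + 1 / 2 * e) * M3 +
      (1 / 4 * a - 3 / 4 * c - 3 / 4 * d + 1 / 2 * e) * M1 +
      (1 / 4 * b + 1 / 2 * c + 1 / 2 * d - e) * M2
    exact (mul_eq_zero.1 h).resolve_left Hh123.ne'
  have hz : -a ^ 4 + 2 * a ^ 2 * c * f + 2 * a ^ 2 * d ^ 2 - c ^ 2 * f ^ 2 + 2 * c * d ^ 2 * f - d ^ 4 = 0 := by
    linear_combination (-3 / 2 * a ^ 2 + 1 / 2 * a * b + 3 / 2 * a * c - 1 / 2 * a * d - 1 / 2 * a * e + 1 / 2 * a * f - 1 / 2 * b * d - 1 / 2 * c * d - 1 / 2 * c * f + 1 / 2 * d ^ 2 + 1 / 2 * d * f) * G1 +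
      (-1 / 2 * a) * M2 +
      (1 / 4 * c) * M1 +
      (a * c - 1 / 2 * a * d - 1 / 4 * b * c - 1 / 2 * c * d + 1 / 2 * d ^ 2) * G0 +
      (1 / 4 * a + 1 / 4 * c + 1 / 4 * d) * M5 +
      (1 / 4 * a - 1 / 4 * d) * M0
  exact Hp0134.ne' hz

/-- pattern 0012343520 -/
theorem k5p8 : ¬ Realk 5 0 44971072 := by
  intro h
  obtain ⟨x, F⟩ := five_of_realk h
  exact k5p8_aux (F : Five (x 0) (x 0) (x 1) (x 2) (x 3) (x 4) (x 3) (x 5) (x 2) (x 0))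

theorem k5p9_aux {a b c d e : ℝ} (F : Five a a a b c d c b e d) : False := by
  have ha : 0 < a := F.q01
  have M0 : -2 * a ^ 3 + 2 * a ^ 2 * b + 2 * a ^ 2 * c + 2 * a ^ 2 * d - 2 * a * b ^ 2 + 2 * a * b * c + 2 * a * b * d - 2 * a * c ^ 2 + 2 * a * c * d - 2 * a * d ^ 2 = 0 := by linear_combination F.m123_123
  have M1 : -2 * a ^ 3 + 2 * a ^ 2 * b + 2 * a ^ 2 * c - 2 * a ^ 2 * d + a ^ 2 * e + a * b ^ 2 - 4 * a * b * c + a * b * d + a * b * e + a * c ^ 2 + a * c * d + a * c * e - 2 * a * d * e = 0 := by linear_combination F.m123_124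
  have M2 : -a ^ 2 * e + a * b ^ 2 - 2 * a * b * c - 3 * a * b * d + 2 * a * b * e + a * c ^ 2 - 3 * a * c * d + 2 * a * c * e + 2 * a * d ^ 2 + b ^ 3 - b ^ 2 * c - b ^ 2 * d - b ^ 2 * e - b * c ^ 2 + 2 * b * c * d + 2 * b * c * e + c ^ 3 - c ^ 2 * d - c ^ 2 * e = 0 := by linear_combination F.m123_134
  have M3 : 2 * a ^ 2 * b - 2 * a ^ 2 * c + 2 * a ^ 2 * d - a ^ 2 * e - 3 * a * b ^ 2 + 2 * a * b * c - a * b * d + a * c ^ 2 - a * c * d + a * c * e + a * d * e + b ^ 3 - 2 * b ^ 2 * d - b ^ 2 * e - b * c ^ 2 + b * c * d + b * c * e + b * d ^ 2 + b * d * e + c ^ 2 * d - c * d ^ 2 - c * d * e = 0 := by linear_combination F.m123_234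
  have M4 : -2 * a ^ 3 + 2 * a ^ 2 * b + 2 * a ^ 2 * c + 2 * a ^ 2 * e - 2 * a * b ^ 2 + 2 * a * b * c + 2 * a * b * e - 2 * a * c ^ 2 + 2 * a * c * e - 2 * a * e ^ 2 = 0 := by linear_combination F.m124_124
  have M5 : 2 * a ^ 2 * d - a ^ 2 * e - a * b ^ 2 + 2 * a * b * c - a * b * d + 2 * a * b * e - a * c ^ 2 - a * c * d + 2 * a * c * e - 2 * a * d * e - b ^ 3 + b ^ 2 * c + b ^ 2 * d + b ^ 2 * e + b * c ^ 2 - 2 * b * c * d - 2 * b * c * e - c ^ 3 + c ^ 2 * d + c ^ 2 * e = 0 := by linear_combination F.m124_134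
  have M6 : 2 * a ^ 2 * b - 2 * a ^ 2 * c - a ^ 2 * e - a * b ^ 2 - 2 * a * b * c + a * b * d - a * b * e + 3 * a * c ^ 2 - a * c * d + 2 * a * c * e - 2 * a * d * e + a * e ^ 2 + b ^ 2 * c - b ^ 2 * e - b * c * d - b * c * e + b * d * e + b * e ^ 2 - c ^ 3 + c ^ 2 * d + 2 * c ^ 2 * e - c * d * e - c * e ^ 2 = 0 := by linear_combination F.m124_234
  have M7 : -2 * a ^ 2 * d + 2 * a * b ^ 2 - 4 * a * b * c + 4 * a * b * d + 2 * a * c ^ 2 + 4 * a * c * d - 2 * a * d ^ 2 - 4 * b ^ 3 + 4 * b ^ 2 * c + 2 * b ^ 2 * d + 4 * b * c ^ 2 - 4 * b * c * d - 4 * c ^ 3 + 2 * c ^ 2 * d = 0 := by linear_combination F.m134_134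
  have M8 : -2 * a ^ 2 * d + 2 * a * b ^ 2 - 4 * a * b * c + a * b * e + 2 * a * c ^ 2 + 2 * a * c * d - a * c * e + a * d * e - b ^ 3 + b ^ 2 * c + 2 * b ^ 2 * d - 3 * b ^ 2 * e + b * c ^ 2 + 2 * b * c * e - b * d ^ 2 + b * d * e - c ^ 3 - 2 * c ^ 2 * d + c ^ 2 * e + c * d ^ 2 - c * d * e = 0 := by linear_combination F.m134_234
  have M9 : -2 * a ^ 2 * d + 2 * a * b * e + 4 * a * c * d - 2 * a * c * e + 2 * a * d * e - 2 * b ^ 2 * e + 2 * b * c * e + 4 * b * d * e - 2 * b * e ^ 2 - 2 * c ^ 2 * d + 2 * c * d * e - 2 * d ^ 2 * e = 0 := by linear_combination F.m234_234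
  have Hh023 : 0 < -a ^ 2 + 2 * a * b + 2 * a * d - b ^ 2 + 2 * b * d - d ^ 2 := by linear_combination F.h023
  have Hh024 : 0 < -a ^ 2 + 2 * a * c + 2 * a * e - c ^ 2 + 2 * c * e - e ^ 2 := by linear_combination F.h024
  have Hp0124 : 0 < -a ^ 2 * b ^ 2 + 2 * a ^ 2 * b * c + 2 * a ^ 2 * b * e - a ^ 2 * c ^ 2 + 2 * a ^ 2 * c * e - a ^ 2 * e ^ 2 := by linear_combination F.p0124
  have G0 : 3 * b * d - 3 * b * e + 3 * c * d - 3 * c * e - 2 * d ^ 2 + d * e + e ^ 2 = 0 := by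
    have h : a * (3 * b * d - 3 * b * e + 3 * c * d - 3 * c * e - 2 * d ^ 2 + d * e + e ^ 2) = 0 := by
      linear_combination (1 / 2) * M0 +
      (-1 / 2) * M5 +
      (-1 / 2) * M2 +
      (-1 / 2) * M4
    exact (mul_eq_zero.1 h).resolve_left ha.ne'
  have G1 : a ^ 2 - a * b - a * c + b * c - b * e - c * e + d * e = 0 := by
    have h : a * (a ^ 2 - a * b - a * c + b * c - b * e - c * e + d * e) = 0 := by
      linear_combination (-1 / 6) * M5 +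
      (-1 / 6) * M2 +
      (-1 / 3) * M1 +
      (-1 / 6) * M0
    exact (mul_eq_zero.1 h).resolve_left ha.ne'
  have G2 : 3 * a * c - 3 * b ^ 2 + 6 * b * e - 3 * c * d + 3 * c * e + d ^ 2 - 2 * d * e - 2 * e ^ 2 = 0 := by
    have h : (-a ^ 2 + 2 * a * b + 2 * a * d - b ^ 2 + 2 * b * d - d ^ 2) * (3 * a * c - 3 * b ^ 2 + 6 * b * e - 3 * c * d + 3 * c * e + d ^ 2 - 2 * d * e - 2 * e ^ 2) = 0 := by
      linear_combination (9 / 2 * b + 3 / 2 * d - 3 / 2 * e) * M3 +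
      (243 / 10 * a ^ 2 + 291 / 20 * a * b - 81 / 5 * a * c + 27 / 10 * a * d - 57 / 10 * a * e - 3 / 2 * b ^ 2 + 3 * b * c + 15 / 4 * b * d - 6 * b * e + 3 / 2 * c ^ 2 + 3 / 2 * c * d + 3 / 2 * c * e - 3 * d ^ 2 + 3 / 2 * d * e) * G1 +
      (27 / 8 * b - 9 / 4 * d) * M9 +
      (33 / 5 * a + 81 / 10 * b - 39 / 10 * c) * M1 +
      (-5 / 2 * a ^ 2 - 37 / 10 * a * b + 9 / 5 * a * c + 16 / 5 * a * d - 7 / 4 * b ^ 2 + 3 * b * c + 1 / 2 * b * d - 3 / 2 * c ^ 2 - 3 / 2 * c * d + 1 / 2 * d ^ 2) * G0 +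
      (111 / 20 * a - 33 / 40 * b - 27 / 10 * c + 3 / 10 * d + 9 / 20 * e) * M0 +
      (-3 / 8 * b) * M7 +
      (-3 * b + 9 / 2 * d - 3 * e) * M2
    exact (mul_eq_zero.1 h).resolve_left Hh023.ne'
  have G3 : 3 * b + 3 * c - 2 * d - e = 0 := by
    have h : (-a ^ 2 + 2 * a * c + 2 * a * e - c ^ 2 + 2 * c * e - e ^ 2) * (3 * b + 3 * c - 2 * d - e) = 0 := by
      linear_combination (-3 / 2 * a - 3 * b - 6 * c + 7 / 2 * d + e) * G1 +
      (1 / 2 * b - c + e) * G0 +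
      (-2) * M8 +
      (-3 / 4) * M0 +
      (a - b) * G2 +
      (5 / 4) * M7 +
      (3 / 4) * M9
    exact (mul_eq_zero.1 h).resolve_left Hh024.ne'
  have G4 : 3 * a - d - 2 * e = 0 := by
    have h : (-a ^ 2 + 2 * a * c + 2 * a * e - c ^ 2 + 2 * c * e - e ^ 2) * (3 * a - d - 2 * e) = 0 := by
      linear_combination (-3 * a + 18 * b + 6 * c - 12 * d - 3 * e) * G1 +
      (-2 * a + 4 * c - e) * G2 +
      (1) * M4 +
      (-3 * a ^ 2 + 2 * a * b + 3 * a * c + 3 * a * d - 2 * c ^ 2 + 4 * c * d - 2 * d ^ 2) * G3 +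
      (-3 * a - 2 * c + 2 * d) * G0 +
      (-9 / 2) * M9 +
      (-1) * M0 +
      (-6) * M6
    exact (mul_eq_zero.1 h).resolve_left Hh024.ne'
  have hz : -a ^ 2 * b ^ 2 + 2 * a ^ 2 * b * c + 2 * a ^ 2 * b * e - a ^ 2 * c ^ 2 + 2 * a ^ 2 * c * e - a ^ 2 * e ^ 2 = 0 := by
    linear_combination (a ^ 2 * b - 1 / 3 * a ^ 2 * c - a ^ 2 * d) * G3 +
      (-4 / 3 * a ^ 2 * c) * G4 +
      (4 / 3 * a ^ 2) * G2 +
      (5 / 3 * a ^ 2) * G0
  exact Hp0124.ne' hz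

/-- pattern 0001232143 -/
theorem k5p9 : ¬ Realk 5 0 472490496 := by
  intro h
  obtain ⟨x, F⟩ := five_of_realk h
  exact k5p9_aux (F : Five (x 0) (x 0) (x 0) (x 1) (x 2) (x 3) (x 2) (x 1) (x 4) (x 3))

theorem k5p17_aux {a b c d e : ℝ} (F : Five a a b c b d d c c e) : False := by
  have hb : 0 < b := F.q12
  have M0 : -a ^ 2 * b + a ^ 2 * d + a * b ^ 2 + a * b * c + a * b * d - 3 * a * b * e - 2 * a * c * d - a * d ^ 2 + 2 * a * d * e - 2 * b ^ 2 * c + b ^ 2 * e + 4 * b * c ^ 2 - b * c * d - b * c * e - b * d ^ 2 - c ^ 2 * d + c * d ^ 2 = 0 := by linear_combination F.m123_134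
  have M1 : -a ^ 2 * b + a ^ 2 * d + 3 * a * b * c + a * b * d - a * b * e - 2 * a * c * d - 2 * a * d ^ 2 + 2 * a * d * e - 2 * b * c ^ 2 + b * c * e + 2 * b * d ^ 2 - b * d * e - c ^ 2 * d + 2 * c * d ^ 2 - d ^ 3 = 0 := by linear_combination F.m123_234
  have M2 : -a ^ 2 * b + a ^ 2 * d + a * b * c + 3 * a * b * d + a * b * e - 2 * a * c * d - 2 * a * d ^ 2 - 2 * b ^ 2 * d + 4 * b * c * d - b * c * e - 2 * b * d ^ 2 + b * d * e + c ^ 2 * d - 2 * c * d ^ 2 + d ^ 3 = 0 := by linear_combination F.m124_134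
  have M3 : -a ^ 2 * b + a ^ 2 * d + 3 * a * b * c + a * b * d - a * b * e - 2 * a * c * d - 2 * a * d ^ 2 - 2 * b * c ^ 2 + b * c * e + 2 * b * d ^ 2 - b * d * e + c ^ 2 * d - 2 * c * d ^ 2 + d ^ 3 = 0 := by linear_combination F.m124_234
  have M4 : -2 * a ^ 2 * e + 2 * a * c ^ 2 - 4 * a * c * d + 4 * a * c * e + 2 * a * d ^ 2 + 4 * a * d * e - 2 * a * e ^ 2 - 4 * c ^ 3 + 4 * c ^ 2 * d + 2 * c ^ 2 * e + 4 * c * d ^ 2 - 4 * c * d * e - 4 * d ^ 3 + 2 * d ^ 2 * e = 0 := by linear_combination F.m234_234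
  have Hp0234 : 0 < -a ^ 2 * e ^ 2 + 2 * a * c ^ 2 * e + 2 * a * d ^ 2 * e - c ^ 4 + 2 * c ^ 2 * d ^ 2 - d ^ 4 := by linear_combination F.p0234
  have G0 : a * c - a * d - a * e + b * d - c ^ 2 - 2 * c * d + c * e + 2 * d ^ 2 - d * e = 0 := by
    have h : b * (a * c - a * d - a * e + b * d - c ^ 2 - 2 * c * d + c * e + 2 * d ^ 2 - d * e) = 0 := by
      linear_combination (1 / 2) * M3 +
      (-1 / 2) * M2
    exact (mul_eq_zero.1 h).resolve_left hb.ne'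
  have hz : -a ^ 2 * e ^ 2 + 2 * a * c ^ 2 * e + 2 * a * d ^ 2 * e - c ^ 4 + 2 * c ^ 2 * d ^ 2 - d ^ 4 = 0 := by
    linear_combination (1 / 2 * a * b - 1 / 2 * a * d + a * e - 4 * b * c - 1 / 2 * b * e - c ^ 2 + 5 / 2 * c * d - 3 / 2 * d ^ 2) * G0 +
      (-3 / 2 * c - 1 / 2 * e) * M2 +
      (-1 / 2 * b + 2 * c) * M1 +
      (1 / 2 * b) * M3 +
      (1 / 2 * c - 1 / 2 * d) * M4 +
      (-1 / 2 * d) * M0
  exact Hp0234.ne' hz

/-- pattern 0012133224 -/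
theorem k5p17 : ¬ Realk 5 0 575509568 := by
  intro h
  obtain ⟨x, F⟩ := five_of_realk h
  exact k5p17_aux (F : Five (x 0) (x 0) (x 1) (x 2) (x 1) (x 3) (x 3) (x 2) (x 2) (x 4))

theorem k5p18_aux {a b c d e : ℝ} (F : Five a a b c b d d e c e) : False := by
  have M0 : -a ^ 2 * b - a ^ 2 * c + a ^ 2 * d + a ^ 2 * e + 3 * a * b * c + a * b * d - a * b * e + 2 * a * c ^ 2 - 2 * a * c * e - 2 * a * d ^ 2 - 2 * b * c ^ 2 + b * c * e + 2 * b * d ^ 2 - b * d * e - c ^ 3 + c ^ 2 * d + c ^ 2 * e + c * d ^ 2 - 2 * c * d * e - d ^ 3 + d ^ 2 * e = 0 := by linear_combination F.m123_234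
  have M1 : -2 * a ^ 2 * e - a * b * c + a * b * d + a * b * e + a * c ^ 2 - 2 * a * c * d + 4 * a * c * e + a * d ^ 2 + 2 * a * d * e - a * e ^ 2 + 2 * b * c ^ 2 - 3 * b * c * e - 2 * b * d ^ 2 - b * d * e + b * e ^ 2 - c ^ 3 + c ^ 2 * d - 2 * c ^ 2 * e + c * d ^ 2 + c * e ^ 2 - d ^ 3 + 2 * d ^ 2 * e - d * e ^ 2 = 0 := by linear_combination F.m134_234
  have M2 : -2 * a ^ 2 * e + 2 * a * c ^ 2 - 4 * a * c * d + 4 * a * c * e + 2 * a * d ^ 2 + 4 * a * d * e - 2 * a * e ^ 2 - 4 * c ^ 3 + 4 * c ^ 2 * d + 2 * c ^ 2 * e + 4 * c * d ^ 2 - 4 * c * d * e - 4 * d ^ 3 + 2 * d ^ 2 * e = 0 := by linear_combination F.m234_234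
  have Hp0234 : 0 < -a ^ 2 * e ^ 2 + 2 * a * c ^ 2 * e + 2 * a * d ^ 2 * e - c ^ 4 + 2 * c ^ 2 * d ^ 2 - d ^ 4 := by linear_combination F.p0234
  have hz : -a ^ 2 * e ^ 2 + 2 * a * c ^ 2 * e + 2 * a * d ^ 2 * e - c ^ 4 + 2 * c ^ 2 * d ^ 2 - d ^ 4 = 0 := by
    linear_combination (-1 / 2 * a + 1 / 2 * c - 1 / 2 * d) * M1 +
      (1 / 2 * a + 1 / 2 * d) * M2 +
      (1 / 2 * c - 1 / 2 * d - 1 / 2 * e) * M0
  exact Hp0234.ne' hz

/-- pattern 0012133424 -/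
theorem k5p18 : ¬ Realk 5 0 579703872 := by
  intro h
  obtain ⟨x, F⟩ := five_of_realk h
  exact k5p18_aux (F : Five (x 0) (x 0) (x 1) (x 2) (x 1) (x 3) (x 3) (x 4) (x 2) (x 4))

theorem k5p21_aux {a b c d : ℝ} (F : Five a a a a b c b c c d) : False := by
  have M0 : -2 * a ^ 3 + 4 * a ^ 2 * b + 4 * a ^ 2 * c - 2 * a * b ^ 2 + 2 * a * b * c - 2 * a * c ^ 2 = 0 := by linear_combination F.m123_123
  have M1 : -a ^ 3 + 5 * a ^ 2 * c - 3 * a ^ 2 * d + a * b ^ 2 - a * c ^ 2 = 0 := by linear_combination F.m123_124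
  have M2 : -a ^ 2 * b + 2 * a ^ 2 * c - 2 * a ^ 2 * d + a * b * c - a * b * d - 2 * a * c ^ 2 + 2 * a * c * d + b ^ 3 - 2 * b ^ 2 * c + b * c ^ 2 = 0 := by linear_combination F.m123_134
  have M3 : -a ^ 2 * c + 2 * a ^ 2 * d + 4 * a * b * c - 2 * a * b * d - 3 * a * c ^ 2 + a * c * d + b ^ 2 * c - 2 * b * c ^ 2 + c ^ 3 = 0 := by linear_combination F.m123_234
  have M4 : -2 * a ^ 3 + 2 * a ^ 2 * b + 4 * a ^ 2 * c - 2 * a * b ^ 2 + 4 * a * b * c - 2 * a * c ^ 2 = 0 := by linear_combination F.m124_124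
  have M5 : -a ^ 3 + a ^ 2 * b + 2 * a ^ 2 * c + a ^ 2 * d - a * b ^ 2 + a * b * c + a * b * d - 2 * a * c ^ 2 - a * c * d - b ^ 3 + 3 * b ^ 2 * c - 3 * b * c ^ 2 + c ^ 3 = 0 := by linear_combination F.m124_134
  have M6 : a ^ 3 - 3 * a ^ 2 * b - a ^ 2 * d + 3 * a * b ^ 2 + a * b * c - a * b * d - 2 * a * c ^ 2 + a * c * d - b ^ 3 + 3 * b ^ 2 * c - 3 * b * c ^ 2 + c ^ 3 = 0 := by linear_combination F.m124_234
  have M7 : a ^ 3 - 3 * a ^ 2 * b - a ^ 2 * c - 2 * a ^ 2 * d + 3 * a * b ^ 2 + 3 * a * b * c - a * b * d - a * c ^ 2 + 5 * a * c * d - a * d ^ 2 - b ^ 3 - 2 * b ^ 2 * c + b ^ 2 * d + b * c ^ 2 - c ^ 2 * d = 0 := by linear_combination F.m134_234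
  have M8 : -2 * a ^ 2 * c + 4 * a * b * c + 6 * a * c * d - 2 * a * d ^ 2 - 2 * b ^ 2 * c + 2 * b * c * d - 2 * c ^ 2 * d = 0 := by linear_combination F.m234_234
  have Hh014 : 0 < -a ^ 2 + 2 * a * b + 2 * a * c - b ^ 2 + 2 * b * c - c ^ 2 := by linear_combination F.h014
  have Hh013 : 0 < 4 * a * b - b ^ 2 := by linear_combination F.h013
  have Hh234 : 0 < 4 * c * d - d ^ 2 := by linear_combination F.h234
  have G0 : a - c = 0 := by
    have h : (-a ^ 2 + 2 * a * b + 2 * a * c - b ^ 2 + 2 * b * c - c ^ 2) * (a - c) = 0 := by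
      linear_combination (1 / 2) * M2 +
      (-1) * M4 +
      (1 / 2) * M0 +
      (1 / 2) * M3 +
      (1) * M5 +
      (-1 / 2) * M6 +
      (1 / 2) * M1
    exact (mul_eq_zero.1 h).resolve_left Hh014.ne'
  have G1 : 4 * c - d = 0 := by
    have h : (4 * a * b - b ^ 2) * (4 * c - d) = 0 := by
      linear_combination (9 / 2 * a ^ 2 - 21 / 2 * a * c + 11 / 2 * a * d + 3 / 2 * b ^ 2 + b * c - b * d + 1 / 2 * c ^ 2) * G0 +
      (3 / 2) * M2 +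
      (1 / 2) * M6 +
      (1) * M7 +
      (3) * M4 +
      (-1 / 2) * M8
    exact (mul_eq_zero.1 h).resolve_left Hh013.ne'
  have hz : 4 * c * d - d ^ 2 = 0 := by
    linear_combination (d) * G1
  exact Hh234.ne' hz

/-- pattern 0000121223 -/
theorem k5p21 : ¬ Realk 5 0 440733696 := by
  intro h
  obtain ⟨x, F⟩ := five_of_realk h
  exact k5p21_aux (F : Five (x 0) (x 0) (x 0) (x 0) (x 1) (x 2) (x 1) (x 2) (x 2) (x 3))

theorem k5p39_aux {a b c d : ℝ} (F : Five a a b a b c c b c d) : False := by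
  have hd : 0 < d := F.q34
  have M0 : 8 * a * b * c - 2 * a * c ^ 2 - 2 * b ^ 2 * c = 0 := by linear_combination F.m123_123
  have M1 : 7 * a * b * c - 4 * a * b * d - 2 * a * c ^ 2 - 2 * b ^ 2 * c + b ^ 2 * d + b * c ^ 2 = 0 := by linear_combination F.m123_124
  have M2 : a * b * c - 4 * a * b * d + 2 * a * c * d + b ^ 2 * d - b * c ^ 2 = 0 := by linear_combination F.m123_134
  have M3 : -2 * a ^ 2 * b + 10 * a * b * c - 2 * a * c ^ 2 - 2 * b ^ 2 * c = 0 := by linear_combination F.m124_124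
  have M4 : -2 * a ^ 2 * b + a ^ 2 * c + 5 * a * b * c + 3 * a * b * d - 2 * a * c ^ 2 - 2 * a * c * d - b ^ 2 * d - 3 * b * c ^ 2 + b * c * d + c ^ 3 = 0 := by linear_combination F.m124_134
  have M5 : -2 * a ^ 2 * b + 4 * a * b * c + 6 * a * b * d - 2 * a * d ^ 2 - 2 * b ^ 2 * d - 2 * b * c ^ 2 + 2 * b * c * d = 0 := by linear_combination F.m134_134
  have M6 : -2 * a ^ 2 * c + 4 * a * c ^ 2 + 6 * a * c * d - 2 * a * d ^ 2 - 2 * c ^ 3 = 0 := by linear_combination F.m234_234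
  have Hh012 : 0 < 4 * a * b - b ^ 2 := by linear_combination F.h012
  have G0 : d = 0 := by
    have h : (4 * a * b - b ^ 2) * (d) = 0 := by
      linear_combination (-3 / 2) * M1 +
      (1 / 2) * M2 +
      (1 / 2) * M5 +
      (-1 / 2) * M6 +
      (1) * M0 +
      (-1) * M4 +
      (1 / 2) * M3
    exact (mul_eq_zero.1 h).resolve_left Hh012.ne'
  have hz : d = 0 := by
    linear_combination (1) * G0
  exact hd.ne' hz

/-- pattern 0010122123 -/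
theorem k5p39 : ¬ Realk 5 0 438898752 := by
  intro h
  obtain ⟨x, F⟩ := five_of_realk h
  exact k5p39_aux (F : Five (x 0) (x 0) (x 1) (x 0) (x 1) (x 2) (x 2) (x 1) (x 2) (x 3))

theorem k5p42_aux {a b c d : ℝ} (F : Five a a b b b c d a d c) : False := by
  have ha : 0 < a := F.q01
  have M0 : -2 * a ^ 2 * b + 4 * a * b ^ 2 + 6 * a * b * c - 2 * a * c ^ 2 - 2 * b ^ 3 = 0 := by linear_combination F.m123_123
  have M1 : -3 * a ^ 2 * b + 2 * a ^ 2 * c + 4 * a * b ^ 2 - 4 * a * b * c + 5 * a * b * d - 2 * a * c * d - b ^ 3 + b ^ 2 * c - 2 * b ^ 2 * d + b * c * d = 0 := by linear_combination F.m123_124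
  have M2 : a ^ 3 - 4 * a ^ 2 * b - a ^ 2 * d + 3 * a * b ^ 2 - 5 * a * b * c + 6 * a * b * d + 2 * a * c ^ 2 - a * c * d - 2 * b ^ 2 * d = 0 := by linear_combination F.m123_134
  have M3 : a ^ 3 - 3 * a ^ 2 * b - a ^ 2 * c - a ^ 2 * d + 3 * a * b ^ 2 - 3 * a * b * c + 3 * a * b * d + 2 * a * c ^ 2 - b ^ 3 + 2 * b ^ 2 * c - 2 * b ^ 2 * d - b * c ^ 2 + 3 * b * c * d - c ^ 2 * d = 0 := by linear_combination F.m123_234
  have M4 : -2 * a ^ 3 + 4 * a ^ 2 * d + 6 * a * b * d - 2 * a * d ^ 2 - 2 * b ^ 2 * d = 0 := by linear_combination F.m124_124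
  have M5 : -2 * a ^ 2 * b + 2 * a ^ 2 * c - a ^ 2 * d + 8 * a * b * d - 6 * a * c * d + a * d ^ 2 - b ^ 2 * d + b * c * d - 2 * b * d ^ 2 + c * d ^ 2 = 0 := by linear_combination F.m124_134
  have M6 : -2 * a ^ 2 * d - 2 * a * b ^ 2 + 4 * a * b * c + 6 * a * b * d - 2 * a * c ^ 2 + 2 * a * c * d - 2 * b * d ^ 2 = 0 := by linear_combination F.m134_134
  have M7 : a ^ 2 * b - a ^ 2 * c - a ^ 2 * d - 2 * a * b ^ 2 + 4 * a * b * c + a * b * d - 2 * a * c ^ 2 + 5 * a * c * d - a * d ^ 2 + b ^ 3 - 2 * b ^ 2 * c - b ^ 2 * d + b * c ^ 2 - 4 * b * c * d + 2 * b * d ^ 2 + c ^ 2 * d - c * d ^ 2 = 0 := by linear_combination F.m134_234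
  have M8 : -2 * a ^ 2 * c + 2 * a * b * d + 6 * a * c * d - 2 * a * d ^ 2 - 2 * b ^ 2 * d + 4 * b * c * d - 2 * c ^ 2 * d = 0 := by linear_combination F.m234_234
  have Hh023 : 0 < -a ^ 2 + 2 * a * b + 2 * a * c - b ^ 2 + 2 * b * c - c ^ 2 := by linear_combination F.h023
  have Hp0123 : 0 < -a ^ 2 * b ^ 2 + 2 * a ^ 2 * b * c - a ^ 2 * c ^ 2 + 2 * a * b ^ 3 + 2 * a * b ^ 2 * c - b ^ 4 := by linear_combination F.p0123
  have G0 : 4 * a * b - 4 * a * d - 6 * b ^ 2 + 14 * b * c - 5 * c ^ 2 + c * d + d ^ 2 = 0 := by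
    have h : a * (4 * a * b - 4 * a * d - 6 * b ^ 2 + 14 * b * c - 5 * c ^ 2 + c * d + d ^ 2) = 0 := by
      linear_combination (3 / 2) * M7 +
      (-5 / 2) * M2 +
      (-1 / 2) * M4 +
      (3 / 2) * M3 +
      (3 / 2) * M5
    exact (mul_eq_zero.1 h).resolve_left ha.ne'
  have G1 : a - c = 0 := by
    have h : (-a ^ 2 + 2 * a * b + 2 * a * c - b ^ 2 + 2 * b * c - c ^ 2) * (a - c) = 0 := by
      linear_combination (17 / 40) * M8 +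
      (-7 / 40) * M6 +
      (3 / 10 * a + 1 / 20 * b - 1 / 5 * c) * G0 +
      (-1 / 5) * M7 +
      (-1 / 10) * M2 +
      (-5 / 4) * M3 +
      (6 / 5) * M1 +
      (-9 / 40) * M0 +
      (-7 / 40) * M4
    exact (mul_eq_zero.1 h).resolve_left Hh023.ne'
  have hz : -a ^ 2 * b ^ 2 + 2 * a ^ 2 * b * c - a ^ 2 * c ^ 2 + 2 * a * b ^ 3 + 2 * a * b ^ 2 * c - b ^ 4 = 0 := by
    linear_combination (18 / 25 * a ^ 2 * b + 6 / 125 * a ^ 2 * c - 34 / 25 * a * b ^ 2 + 3 / 25 * a * b * c - 21 / 125 * a * b * d - 4 / 25 * a * c ^ 2 + 6 / 125 * a * c * d + 68 / 125 * b ^ 3 - 48 / 125 * b ^ 2 * c + 6 / 125 * b ^ 2 * d + 2 / 25 * b * c ^ 2 - 2 / 125 * b * c * d) * G1 +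
      (-2 / 25 * a * b + 4 / 125 * a * c + 4 / 125 * b ^ 2 - 2 / 125 * b * c) * G0 +
      (99 / 250 * a + 101 / 250 * b - 1 / 125 * d) * M0 +
      (-3 / 125 * a + 2 / 125 * d) * M1
  exact Hp0123.ne' hz

/-- pattern 0011123032 -/
theorem k5p42 : ¬ Realk 5 0 319623744 := by
  intro h
  obtain ⟨x, F⟩ := five_of_realk h
  exact k5p42_aux (F : Five (x 0) (x 0) (x 1) (x 1) (x 1) (x 2) (x 3) (x 0) (x 3) (x 2))

end CR
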