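import Pool.Agent.Lib.MP_6f5d36_co.K5.Five

set_option autoImplicit false

/-!
# MP_6f5d36_co : forbidden patterns of five points, part 2
-/

namespace CR

theorem k5p3_aux {a b c d e f : ℝ} (F : Five a a b a c d e f f f) : False := by
  have he : 0 < e := F.q04
  have M0 : -2 * a ^ 2 * b + 4 * a * b * e + 4 * a * b * f - 2 * b ^ 2 * e - 2 * b * e ^ 2 + 4 * b * e * f - 2 * b * f ^ 2 = 0 := by linear_combination F.m124_124
  have M1 : -a ^ 2 * b - a ^ 2 * c + a ^ 2 * d + 2 * a * b * e + 2 * a * b * f + 2 * a * c * e + 2 * a * c * f - 2 * a * d * e - 2 * a * d * f - 2 * b * c * e - b * e ^ 2 + 2 * b * e * f - b * f ^ 2 - c * e ^ 2 + 2 * c * e * f - c * f ^ 2 + d * e ^ 2 - 2 * d * e * f + d * f ^ 2 = 0 := by linear_combination F.m124_134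
  have M2 : a ^ 2 * b - a ^ 2 * c + a ^ 2 * d - 2 * a * b * e - 2 * a * b * f + 2 * a * c * e + 2 * a * c * f - 2 * a * d * e - 2 * a * d * f + 2 * b * d * e + b * e ^ 2 - 2 * b * e * f + b * f ^ 2 - c * e ^ 2 + 2 * c * e * f - c * f ^ 2 + d * e ^ 2 - 2 * d * e * f + d * f ^ 2 = 0 := by linear_combination F.m124_234
  have M3 : -2 * a ^ 2 * c + 4 * a * c * e + 4 * a * c * f - 2 * c ^ 2 * e - 2 * c * e ^ 2 + 4 * c * e * f - 2 * c * f ^ 2 = 0 := by linear_combination F.m134_134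
  have M4 : a ^ 2 * b - a ^ 2 * c - a ^ 2 * d - 2 * a * b * e - 2 * a * b * f + 2 * a * c * e + 2 * a * c * f + 2 * a * d * e + 2 * a * d * f + b * e ^ 2 - 2 * b * e * f + b * f ^ 2 - 2 * c * d * e - c * e ^ 2 + 2 * c * e * f - c * f ^ 2 - d * e ^ 2 + 2 * d * e * f - d * f ^ 2 = 0 := by linear_combination F.m134_234
  have M5 : -2 * a ^ 2 * d + 4 * a * d * e + 4 * a * d * f - 2 * d ^ 2 * e - 2 * d * e ^ 2 + 4 * d * e * f - 2 * d * f ^ 2 = 0 := by linear_combination F.m234_234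
  have Hh123 : 0 < -b ^ 2 + 2 * b * c + 2 * b * d - c ^ 2 + 2 * c * d - d ^ 2 := by linear_combination F.h123
  have G0 : e = 0 := by
    have h : (-b ^ 2 + 2 * b * c + 2 * b * d - c ^ 2 + 2 * c * d - d ^ 2) * (e) = 0 := by
      linear_combination (1 / 2) * M5 +
      (1) * M2 +
      (-1) * M4 +
      (1 / 2) * M3 +
      (-1) * M1 +
      (1 / 2) * M0
    exact (mul_eq_zero.1 h).resolve_left Hh123.ne'
  have hz : e = 0 := by
    linear_combination (1) * G0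
  exact he.ne' hz

/-- pattern 0010234555 -/
theorem k5p3 : ¬ Realk 5 0 766615616 := by
  intro h
  obtain ⟨x, F⟩ := five_of_realk h
  exact k5p3_aux (F : Five (x 0) (x 0) (x 1) (x 0) (x 2) (x 3) (x 4) (x 5) (x 5) (x 5))

theorem k5p7_aux {a b c d e f : ℝ} (F : Five a a b c d e c e f b) : False := by
  have M0 : -2 * a ^ 2 * b + 4 * a * b * c + 2 * a * b * d + 2 * a * b * e - 2 * a * d ^ 2 + 4 * a * d * e - 2 * a * e ^ 2 - 2 * b ^ 2 * c - 2 * b * c ^ 2 + 2 * b * c * d + 2 * b * c * e - 2 * b * d * e = 0 := by linear_combination F.m123_123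
  have M1 : -2 * a ^ 2 * b - 4 * a * b ^ 2 + 4 * a * b * c + a * b * d + 2 * a * b * e + a * b * f - 2 * a * d * e + 2 * a * d * f + 2 * a * e ^ 2 - 2 * a * e * f + b ^ 3 - 2 * b ^ 2 * c - 2 * b * c ^ 2 + b * c * d + 2 * b * c * e + b * c * f - b * d * f - b * e ^ 2 = 0 := by linear_combination F.m123_124
  have M2 : -a ^ 2 * d + 2 * a ^ 2 * e - a ^ 2 * f - a * b ^ 2 - 2 * a * b * d + 2 * a * b * e + 2 * a * c * d - 4 * a * c * e + 2 * a * c * f + a * d ^ 2 - 2 * a * d * e + 2 * a * d * f - a * e ^ 2 - b ^ 2 * c + b ^ 2 * d - 2 * b * c * d + 2 * b * c * e - c ^ 2 * d + 2 * c ^ 2 * e - c ^ 2 * f + c * d ^ 2 - 2 * c * d * e + 2 * c * d * f - c * e ^ 2 - d ^ 2 * f + d * e ^ 2 = 0 := by linear_combination F.m123_134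
  have M3 : -a ^ 2 * d + 2 * a ^ 2 * e - a ^ 2 * f + a * b ^ 2 - 2 * a * b * d + 2 * a * b * e + 2 * a * c * d - 4 * a * c * e + 2 * a * c * f + a * d * e + a * d * f - 3 * a * e ^ 2 + a * e * f + b ^ 2 * c - b ^ 2 * e + 2 * b * c * e - 2 * b * c * f - c ^ 2 * d + 2 * c ^ 2 * e - c ^ 2 * f + c * d * e + c * d * f - 3 * c * e ^ 2 + c * e * f - d * e * f + e ^ 3 = 0 := by linear_combination F.m123_234
  have M4 : -2 * a ^ 2 * b + 4 * a * b * c + 2 * a * b * e + 2 * a * b * f - 2 * a * e ^ 2 + 4 * a * e * f - 2 * a * f ^ 2 - 2 * b ^ 2 * c - 2 * b * c ^ 2 + 2 * b * c * e + 2 * b * c * f - 2 * b * e * f = 0 := by linear_combination F.m124_124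
  have M5 : -a ^ 2 * d + 2 * a ^ 2 * e - a ^ 2 * f + a * b ^ 2 + 2 * a * b * e - 2 * a * b * f + 2 * a * c * d - 4 * a * c * e + 2 * a * c * f + a * d * e + a * d * f - 3 * a * e ^ 2 + a * e * f + b ^ 2 * c - b ^ 2 * e - 2 * b * c * d + 2 * b * c * e - c ^ 2 * d + 2 * c ^ 2 * e - c ^ 2 * f + c * d * e + c * d * f - 3 * c * e ^ 2 + c * e * f - d * e * f + e ^ 3 = 0 := by linear_combination F.m124_134
  have M6 : -a ^ 2 * d + 2 * a ^ 2 * e - a ^ 2 * f - a * b ^ 2 + 2 * a * b * e - 2 * a * b * f + 2 * a * c * d - 4 * a * c * e + 2 * a * c * f + 2 * a * d * f - a * e ^ 2 - 2 * a * e * f + a * f ^ 2 - b ^ 2 * c + b ^ 2 * f + 2 * b * c * e - 2 * b * c * f - c ^ 2 * d + 2 * c ^ 2 * e - c ^ 2 * f + 2 * c * d * f - c * e ^ 2 - 2 * c * e * f + c * f ^ 2 - d * f ^ 2 + e ^ 2 * f = 0 := by linear_combination F.m124_234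
  have M7 : -2 * a ^ 2 * b - 2 * a * b ^ 2 + 4 * a * b * c + 2 * a * b * d + 2 * a * b * e - 2 * b * c ^ 2 + 2 * b * c * d + 2 * b * c * e - 2 * b * d * e - 2 * c * d ^ 2 + 4 * c * d * e - 2 * c * e ^ 2 = 0 := by linear_combination F.m134_134
  have M8 : -2 * a ^ 2 * b - 2 * a * b ^ 2 + 4 * a * b * c + a * b * d + 2 * a * b * e + a * b * f + b ^ 3 - 4 * b ^ 2 * c - 2 * b * c ^ 2 + b * c * d + 2 * b * c * e + b * c * f - b * d * f - b * e ^ 2 - 2 * c * d * e + 2 * c * d * f + 2 * c * e ^ 2 - 2 * c * e * f = 0 := by linear_combination F.m134_234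
  have M9 : -2 * a ^ 2 * b - 2 * a * b ^ 2 + 4 * a * b * c + 2 * a * b * e + 2 * a * b * f - 2 * b * c ^ 2 + 2 * b * c * e + 2 * b * c * f - 2 * b * e * f - 2 * c * e ^ 2 + 4 * c * e * f - 2 * c * f ^ 2 = 0 := by linear_combination F.m234_234
  have Hp1234 : 0 < -b ^ 4 + 2 * b ^ 2 * d * f + 2 * b ^ 2 * e ^ 2 - d ^ 2 * f ^ 2 + 2 * d * e ^ 2 * f - e ^ 4 := by linear_combination F.p1234
  have hz : -b ^ 4 + 2 * b ^ 2 * d * f + 2 * b ^ 2 * e ^ 2 - d ^ 2 * f ^ 2 + 2 * d * e ^ 2 * f - e ^ 4 = 0 := by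
    linear_combination (b + 1 / 2 * f) * M7 +
      (-b - d) * M5 +
      (1 / 2 * e) * M9 +
      (-1 / 2 * b - e) * M3 +
      (e) * M2 +
      (-b - e) * M1 +
      (-1 / 2 * e - 1 / 2 * f) * M8 +
      (1 / 2 * d) * M4 +
      (1 / 2 * b + d) * M6 +
      (1 / 2 * f) * M0
  exact Hp1234.ne' hz

/-- pattern 0012342451 -/
theorem k5p7 : ¬ Realk 5 0 227161152 := by
  intro h
  obtain ⟨x, F⟩ := five_of_realk h
  exact k5p7_aux (F : Five (x 0) (x 0) (x 1) (x 2) (x 3) (x 4) (x 2) (x 4) (x 5) (x 1))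

theorem k5p10_aux {a b c d e : ℝ} (F : Five a a b a c d b a e e) : False := by
  have hb : 0 < b := F.q12
  have hd : 0 < d := F.q23
  have M0 : 2 * a ^ 2 * b - 2 * a ^ 2 * c + 2 * a ^ 2 * d - a * b ^ 2 + a * b * c - 2 * a * b * e + 2 * a * c * e - 2 * a * d * e - b ^ 3 + b ^ 2 * c + b ^ 2 * d + b ^ 2 * e - b * c * e = 0 := by linear_combination F.m123_124
  have M1 : -2 * a ^ 3 + 4 * a ^ 2 * e + 6 * a * b ^ 2 - 2 * a * e ^ 2 - 4 * b ^ 3 + 2 * b ^ 2 * e = 0 := by linear_combination F.m124_124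
  have M2 : -2 * a ^ 3 + 4 * a ^ 2 * e + 3 * a * b ^ 2 + 3 * a * b * c - 4 * a * b * d - 2 * a * e ^ 2 - b ^ 3 - 3 * b ^ 2 * c + b ^ 2 * d + b ^ 2 * e + b * c * e = 0 := by linear_combination F.m124_134
  have M3 : a ^ 2 * b - a ^ 2 * c - 2 * a * b ^ 2 + 2 * a * b * c - 3 * a * b * d - 2 * a * b * e + 2 * a * c * e + b ^ 3 - b ^ 2 * c + 3 * b ^ 2 * d - 2 * b ^ 2 * e + 2 * b * c * e - b * d * e + b * e ^ 2 - c * e ^ 2 = 0 := by linear_combination F.m124_234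
  have M4 : a ^ 2 * b - a ^ 2 * c - 2 * a * b ^ 2 + 2 * a * b * c + 3 * a * b * d - 2 * a * b * e + 2 * a * c * e + b ^ 3 - b ^ 2 * c - b ^ 2 * d - 2 * b ^ 2 * e - 2 * b * c * d + 2 * b * c * e + b * d * e + b * e ^ 2 - c * e ^ 2 = 0 := by linear_combination F.m134_234
  have Hh134 : 0 < -a ^ 2 + 2 * a * c + 2 * a * e - c ^ 2 + 2 * c * e - e ^ 2 := by linear_combination F.h134
  have Hh013 : 0 < 4 * a * c - c ^ 2 := by linear_combination F.h013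
  have G0 : 3 * a * d - 2 * b * d - c * d + d * e = 0 := by
    have h : b * (3 * a * d - 2 * b * d - c * d + d * e) = 0 := by
      linear_combination (1 / 2) * M4 +
      (-1 / 2) * M3
    exact (mul_eq_zero.1 h).resolve_left hb.ne'
  have G1 : 3 * a - 2 * b - c + e = 0 := by
    have h : d * (3 * a - 2 * b - c + e) = 0 := by
      linear_combination (1) * G0
    exact (mul_eq_zero.1 h).resolve_left hd.ne'
  have G2 : 9 * c - 8 * d - 4 * e = 0 := by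
    have h : (-a ^ 2 + 2 * a * c + 2 * a * e - c ^ 2 + 2 * c * e - e ^ 2) * (9 * c - 8 * d - 4 * e) = 0 := by
      linear_combination (16) * M2 +
      (4 * a ^ 2 - 8 * a * b + 9 * a * c - 8 * a * d - 8 * a * e + 4 * b ^ 2 - 18 * b * c + 16 * b * d + 8 * b * e + 9 * c ^ 2 - 8 * c * d - 13 * c * e + 8 * d * e + 4 * e ^ 2) * G1 +
      (-10) * M1 +
      (16) * M0
    exact (mul_eq_zero.1 h).resolve_left Hh134.ne'
  have G3 : 9 * b + d - 4 * e = 0 := by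
    have h : (-a ^ 2 + 2 * a * c + 2 * a * e - c ^ 2 + 2 * c * e - e ^ 2) * (9 * b + d - 4 * e) = 0 := by
      linear_combination (55 / 8 * a ^ 2 - 9 / 2 * a * b - 5 / 2 * a * c - 11 / 8 * a * e + 9 / 4 * b * e + 1 / 8 * c ^ 2 + 7 / 8 * c * e - e ^ 2) * G2 +
      (9 / 2 * a ^ 2 - 153 / 8 * a * c + 18 * a * d - 27 / 2 * b ^ 2 + 27 / 4 * b * c + 9 / 8 * c ^ 2 + 9 / 2 * c * e - 9 * d * e) * G1 +
      (27 / 4) * M1
    exact (mul_eq_zero.1 h).resolve_left Hh134.ne'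
  have hz : 4 * a * c - c ^ 2 = 0 := by
    linear_combination (8 / 27 * c) * G3 +
      (4 / 3 * c) * G1 +
      (1 / 27 * c) * G2
  exact Hh013.ne' hz

/-- pattern 0010231044 -/
theorem k5p10 : ¬ Realk 5 0 604348480 := by
  intro h
  obtain ⟨x, F⟩ := five_of_realk h
  exact k5p10_aux (F : Five (x 0) (x 0) (x 1) (x 0) (x 2) (x 3) (x 1) (x 0) (x 4) (x 4))

theorem k5p13_aux {a b c d e : ℝ} (F : Five a a b b b c d e b e) : False := by
  have ha : 0 < a := F.q01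
  have hb : 0 < b := F.q12
  have hc : 0 < c := F.q23
  have M0 : -2 * a ^ 2 * b + 4 * a * b ^ 2 + 6 * a * b * c - 2 * a * c ^ 2 - 2 * b ^ 3 = 0 := by linear_combination F.m123_123
  have M1 : -2 * a ^ 2 * b + 6 * a * b ^ 2 - a * b * c + 2 * a * b * d - 5 * a * b * e + 2 * a * c * e - b ^ 3 - 2 * b ^ 2 * d + 2 * b ^ 2 * e + b * c * d - b * c * e = 0 := by linear_combination F.m123_124
  have M2 : -2 * a ^ 2 * b + a ^ 2 * c + a ^ 2 * e + 5 * a * b ^ 2 - 2 * a * b * c + 2 * a * b * d - 6 * a * b * e - a * c * d + a * c * e - 2 * b ^ 2 * d + 2 * b ^ 2 * e = 0 := by linear_combination F.m123_134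
  have M3 : -2 * a ^ 2 * b + a ^ 2 * c + a ^ 2 * e + 5 * a * b ^ 2 + a * b * c - 3 * a * b * e - a * c ^ 2 - a * c * d - 3 * b ^ 3 + b ^ 2 * c + 2 * b ^ 2 * e + 3 * b * c * d - 3 * b * c * e - c ^ 2 * d + c ^ 2 * e = 0 := by linear_combination F.m123_234
  have M4 : -2 * a ^ 2 * b + 4 * a * b * d + 6 * a * b * e - 2 * a * e ^ 2 - 2 * b ^ 2 * e - 2 * b * d ^ 2 + 2 * b * d * e = 0 := by linear_combination F.m124_124
  have M5 : -2 * a ^ 2 * b + a ^ 2 * c + a ^ 2 * e + a * b ^ 2 + 4 * a * b * d - 2 * a * c * d - 2 * a * c * e - a * d * e + a * e ^ 2 - b ^ 2 * d + b ^ 2 * e - 2 * b * d ^ 2 + 4 * b * d * e - 2 * b * e ^ 2 + c * d ^ 2 - 2 * c * d * e + c * e ^ 2 = 0 := by linear_combination F.m124_134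
  have M6 : -2 * a ^ 2 * e - 2 * a * b ^ 2 + 2 * a * b * d + 6 * a * b * e - 2 * b * d ^ 2 + 4 * b * d * e - 2 * b * e ^ 2 = 0 := by linear_combination F.m134_134
  have M7 : -2 * a ^ 2 * e - a * b * c + 5 * a * b * e + a * c * d + a * c * e + a * d * e - a * e ^ 2 + b ^ 3 + b ^ 2 * d - 5 * b ^ 2 * e - b * c * d + b * c * e - 2 * b * d * e + 2 * b * e ^ 2 - c * d ^ 2 + 2 * c * d * e - c * e ^ 2 = 0 := by linear_combination F.m134_234
  have Hh014 : 0 < -a ^ 2 + 2 * a * d + 2 * a * e - d ^ 2 + 2 * d * e - e ^ 2 := by linear_combination F.h014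
  have Hp0234 : 0 < -a ^ 2 * e ^ 2 + 2 * a * b ^ 2 * e + 2 * a * c * d * e - b ^ 4 + 2 * b ^ 2 * c * d - c ^ 2 * d ^ 2 := by linear_combination F.p0234
  have G0 : a ^ 2 - 2 * a * b - a * d + 2 * b * e + d * e - e ^ 2 = 0 := by
    have h : b * (a ^ 2 - 2 * a * b - a * d + 2 * b * e + d * e - e ^ 2) = 0 := by
      linear_combination (1 / 2) * M6 +
      (-1 / 2) * M5 +
      (-1 / 2) * M7 +
      (-1 / 2) * M1 +
      (1 / 2) * M2
    exact (mul_eq_zero.1 h).resolve_left hb.ne'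
  have G1 : a - e = 0 := by
    have h : (-a ^ 2 + 2 * a * d + 2 * a * e - d ^ 2 + 2 * d * e - e ^ 2) * (a - e) = 0 := by
      linear_combination (-a + 2 * b + d - e) * G0 +
      (-2) * M6 +
      (2) * M4
    exact (mul_eq_zero.1 h).resolve_left Hh014.ne'
  have G2 : b ^ 2 + 4 * b * d - 14 * b * e - c * d + 4 * c * e + e ^ 2 = 0 := by
    have h : c * (b ^ 2 + 4 * b * d - 14 * b * e - c * d + 4 * c * e + e ^ 2) = 0 := by
      linear_combination (-2 * a * b + 2 * b ^ 2 + 10 * b * c - 3 * c ^ 2 - c * e) * G1 +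
      (-1) * M2 +
      (1) * M1 +
      (-2) * M0 +
      (1) * M3
    exact (mul_eq_zero.1 h).resolve_left hc.ne'
  have G3 : b * d - 3 * b * e + c * e = 0 := by
    have h : (a + b) * (b * d - 3 * b * e + c * e) = 0 := by
      linear_combination (a * b - 3 * b ^ 2 + 1 / 2 * b * c + 1 / 2 * b * e) * G1 +
      (1 / 2 * b) * G2 +
      (1 / 2) * M1
    exact (mul_eq_zero.1 h).resolve_left (add_pos ha hb).ne'
  have hz : -a ^ 2 * e ^ 2 + 2 * a * b ^ 2 * e + 2 * a * c * d * e - b ^ 4 + 2 * b ^ 2 * c * d - c ^ 2 * d ^ 2 = 0 := by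
    linear_combination (-2 * a * e - b ^ 2 - 2 * b * e + c * d + e ^ 2) * G2 +
      (4 * b * d - 14 * b * e) * G0 +
      (-4 * a * b * d + 14 * a * b * e - a * e ^ 2 - 8 * b * c * e + 4 * b * d ^ 2 - 18 * b * d * e + 10 * b * e ^ 2 + e ^ 3) * G1 +
      (8 * a * b + 8 * a * e + 4 * b ^ 2 - 4 * c * d - 4 * e ^ 2) * G3
  exact Hp0234.ne' hz

/-- pattern 0011123414 -/
theorem k5p13 : ¬ Realk 5 0 562893376 := by
  intro h
  obtain ⟨x, F⟩ := five_of_realk h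
  exact k5p13_aux (F : Five (x 0) (x 0) (x 1) (x 1) (x 1) (x 2) (x 3) (x 4) (x 1) (x 4))

theorem k5p15_aux {a b c d e : ℝ} (F : Five a a b b c d c e b d) : False := by
  have M0 : -2 * a ^ 2 * b + 4 * a * b ^ 2 + 2 * a * b * c + 2 * a * b * d - 2 * a * c ^ 2 + 4 * a * c * d - 2 * a * d ^ 2 - 4 * b ^ 3 + 2 * b ^ 2 * c + 2 * b ^ 2 * d - 2 * b * c * d = 0 := by linear_combination F.m123_123
  have M1 : -2 * a ^ 2 * b + 3 * a * b ^ 2 + 5 * a * b * c - 5 * a * b * d + a * b * e - 2 * a * c * e + 2 * a * d * e - 4 * b ^ 2 * c + b ^ 2 * d + b ^ 2 * e + b * c ^ 2 + b * c * d - b * d * e = 0 := by linear_combination F.m123_124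
  have M2 : -a ^ 2 * b - a ^ 2 * c + a ^ 2 * d + a ^ 2 * e + a * b ^ 2 + 4 * a * b * c - 2 * a * b * d - 2 * a * b * e + 2 * a * c ^ 2 - 4 * a * c * d - a * c * e + 2 * a * d ^ 2 - a * d * e - b ^ 2 * d + 3 * b ^ 2 * e - 3 * b * c ^ 2 + 2 * b * c * d - b * c * e - b * d * e + c ^ 3 - c ^ 2 * d + c * d * e = 0 := by linear_combination F.m123_134
  have M3 : -a ^ 2 * b - a ^ 2 * c + a ^ 2 * d + a ^ 2 * e + 3 * a * b ^ 2 + a * b * c + a * b * d - 2 * a * b * e + a * c ^ 2 - 2 * a * c * d + a * d ^ 2 - 2 * a * d * e - 4 * b ^ 3 + 2 * b ^ 2 * c + 3 * b ^ 2 * d + b ^ 2 * e - b * c ^ 2 + b * c * d - b * d ^ 2 - 2 * b * d * e + c ^ 2 * d - c * d ^ 2 + d ^ 2 * e = 0 := by linear_combination F.m123_234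
  have M4 : -2 * a ^ 2 * b + 4 * a * b * c + 6 * a * b * e - 2 * a * e ^ 2 - 2 * b ^ 2 * e - 2 * b * c ^ 2 + 2 * b * c * e = 0 := by linear_combination F.m124_124
  have M5 : -a ^ 2 * b - a ^ 2 * c + a ^ 2 * d + a ^ 2 * e + 3 * a * b * c - a * b * d + 2 * a * c ^ 2 - 2 * a * c * d - a * e ^ 2 + 2 * b ^ 2 * e - 2 * b * c ^ 2 + b * c * d + b * c * e - b * d * e - b * e ^ 2 - c ^ 3 + c ^ 2 * d + c ^ 2 * e - 2 * c * d * e + d * e ^ 2 = 0 := by linear_combination F.m124_134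
  have M6 : -a ^ 2 * b - a ^ 2 * c + a ^ 2 * d + a ^ 2 * e + 3 * a * b ^ 2 + 2 * a * b * c - 4 * a * b * d - 2 * a * b * e + 2 * a * c ^ 2 - 2 * a * c * d - a * c * e + a * d * e - 4 * b ^ 2 * c + b ^ 2 * d - b ^ 2 * e + 3 * b * c ^ 2 + b * c * e + b * d * e - c ^ 3 + c ^ 2 * d - c * d * e = 0 := by linear_combination F.m124_234
  have M7 : -2 * a ^ 2 * d - 2 * a * b * c + 2 * a * b * d + 2 * a * b * e + 2 * a * c ^ 2 + 4 * a * c * d - 2 * a * c * e - 2 * a * d ^ 2 + 2 * a * d * e - 2 * b ^ 2 * e + 2 * b * c ^ 2 - 2 * b * c * d + 4 * b * c * e + 2 * b * d * e - 2 * b * e ^ 2 - 4 * c ^ 3 + 2 * c ^ 2 * d + 2 * c ^ 2 * e - 2 * c * d * e = 0 := by linear_combination F.m134_134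
  have M8 : -2 * a ^ 2 * d + a * b ^ 2 - 2 * a * b * c + 2 * a * b * d + a * b * e + a * c ^ 2 + 4 * a * c * d - a * c * e - a * d ^ 2 + a * d * e - b ^ 2 * d - 3 * b ^ 2 * e + 3 * b * c ^ 2 - 4 * b * c * d + b * c * e + b * d ^ 2 + 2 * b * d * e - c ^ 3 - 2 * c ^ 2 * d + c * d ^ 2 + c * d * e - d ^ 2 * e = 0 := by linear_combination F.m134_234
  have M9 : -2 * a ^ 2 * d + 2 * a * b ^ 2 - 2 * a * b * c + 2 * a * b * d + 4 * a * c * d - 4 * b ^ 3 + 2 * b ^ 2 * c + 4 * b ^ 2 * d + 2 * b * c * d - 2 * b * d ^ 2 - 2 * c ^ 2 * d = 0 := by linear_combination F.m234_234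
  have Hh014 : 0 < -a ^ 2 + 2 * a * c + 2 * a * e - c ^ 2 + 2 * c * e - e ^ 2 := by linear_combination F.h014
  have Hh134 : 0 < -c ^ 2 + 2 * c * d + 2 * c * e - d ^ 2 + 2 * d * e - e ^ 2 := by linear_combination F.h134
  have Hp0134 : 0 < -a ^ 2 * d ^ 2 + 2 * a * b * d * e + 2 * a * c ^ 2 * d - b ^ 2 * e ^ 2 + 2 * b * c ^ 2 * e - c ^ 4 := by linear_combination F.p0134
  have G0 : a * d - 2 * b ^ 2 + b * c + 3 * b * d - d ^ 2 - d * e = 0 := by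
    have h : (-a ^ 2 + 2 * a * c + 2 * a * e - c ^ 2 + 2 * c * e - e ^ 2) * (a * d - 2 * b ^ 2 + b * c + 3 * b * d - d ^ 2 - d * e) = 0 := by
      linear_combination (1 / 2 * a + b - 1 / 2 * d - 1 / 2 * e) * M7 +
      (-1 / 4 * a + 1 / 4 * b + 5 / 4 * c + d - 1 / 2 * e) * M4 +
      (-11 / 4 * b - 1 / 2 * c + 2 * d + e) * M5 +
      (a - 2 * c + d - 2 * e) * M0 +
      (-3 / 4 * a + 2 * b + 9 / 4 * c - 2 * d - 1 / 4 * e) * M1 +
      (-2 * b - 1 / 2 * c + 1 / 2 * d - 1 / 2 * e) * M2 +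
      (-e) * M3 +
      (1 / 2 * d) * M6
    exact (mul_eq_zero.1 h).resolve_left Hh014.ne'
  have G1 : a * c - a * e - 2 * b ^ 2 + b * c + 3 * b * d + 2 * b * e - 2 * c ^ 2 + 3 * c * d - 2 * d ^ 2 = 0 := by
    have h : (-a ^ 2 + 2 * a * c + 2 * a * e - c ^ 2 + 2 * c * e - e ^ 2) * (a * c - a * e - 2 * b ^ 2 + b * c + 3 * b * d + 2 * b * e - 2 * c ^ 2 + 3 * c * d - 2 * d ^ 2) = 0 := by
      linear_combination (-d) * M0 +
      (9 / 2 * b - 7 / 2 * c - 5 / 2 * d + 3 / 2 * e) * M7 +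
      (a - 3 * c + 1 / 2 * e) * M3 +
      (4 * b - 7 / 2 * c - 5 / 2 * d - 3 / 2 * e) * M2 +
      (-a ^ 2 - a * b + 2 * a * d + 2 * a * e + 7 * b * c - 2 * b * d + b * e - c ^ 2 - e ^ 2) * G0 +
      (-1 / 2 * b + 5 * c - 5 * e) * M8 +
      (-1 / 2 * b - c + 2 * e) * M1 +
      (2 * d - e) * M6 +
      (-1 / 2 * a + 3 / 2 * d) * M4 +
      (7 / 2 * c - 9 / 2 * d - e) * M5 +
      (d) * M9
    exact (mul_eq_zero.1 h).resolve_left Hh014.ne'
  have G2 : a - d = 0 := by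
    have h : (-c ^ 2 + 2 * c * d + 2 * c * e - d ^ 2 + 2 * d * e - e ^ 2) * (a - d) = 0 := by
      linear_combination (8 / 11 * a + 32 / 11 * b - 37 / 11 * c - 23 / 11 * d + e) * G1 +
      (-23 / 11) * M2 +
      (14 / 11 * a - 52 / 11 * b + 3 / 11 * c + 35 / 11 * d - e) * G0 +
      (24 / 11) * M3 +
      (-14 / 11) * M0 +
      (7 / 11) * M6 +
      (10 / 11) * M1 +
      (1) * M7
    exact (mul_eq_zero.1 h).resolve_left Hh134.ne'
  have hz : -a ^ 2 * d ^ 2 + 2 * a * b * d * e + 2 * a * c ^ 2 * d - b ^ 2 * e ^ 2 + 2 * b * c ^ 2 * e - c ^ 4 = 0 := by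
    linear_combination (2 * a * b * d + a * c * d + 1 / 4 * a * c * e - 1 / 2 * a * d ^ 2 - 1 / 4 * a * e ^ 2 - 4 * b ^ 3 + 5 * b ^ 2 * d - 1 / 2 * b ^ 2 * e + b * c ^ 2 + 7 / 2 * b * c * d + 3 / 4 * b * c * e - 1 / 2 * b * d ^ 2 + 1 / 4 * b * d * e - 1 / 2 * c ^ 3 + 3 / 2 * c ^ 2 * d - 1 / 2 * c * d ^ 2 + 3 / 4 * c * d * e - d ^ 3 - 1 / 2 * d ^ 2 * e) * G2 +
      (-2 * a * b - a * c - 1 / 2 * a * d + 2 * b * d + 1 / 2 * b * e - 1 / 2 * c ^ 2) * G0 +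
      (-1 / 4 * a * e - 1 / 2 * b * e + 1 / 2 * c ^ 2 + c * d + 1 / 2 * d ^ 2 + 1 / 4 * d * e) * G1
  exact Hp0134.ne' hz

/-- pattern 0011232413 -/
theorem k5p15 : ¬ Realk 5 0 428450368 := by
  intro h
  obtain ⟨x, F⟩ := five_of_realk h
  exact k5p15_aux (F : Five (x 0) (x 0) (x 1) (x 1) (x 2) (x 3) (x 2) (x 4) (x 1) (x 3))

theorem k5p29_aux {a b c d : ℝ} (F : Five a a a b b c b c d d) : False := by
  have hc : 0 < c := F.q23
  have M0 : -2 * a ^ 3 + 4 * a ^ 2 * b + 2 * a ^ 2 * c - 2 * a * b ^ 2 + 4 * a * b * c - 2 * a * c ^ 2 = 0 := by linear_combination F.m123_123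
  have M1 : -2 * a ^ 3 + 3 * a ^ 2 * b + 2 * a ^ 2 * c - 2 * a ^ 2 * d - a * b ^ 2 + 2 * a * b * d + a * c ^ 2 - 2 * a * c * d = 0 := by linear_combination F.m123_124
  have M2 : -a ^ 2 * b + 2 * a ^ 2 * c - 2 * a ^ 2 * d + a * b ^ 2 - 4 * a * b * c + 2 * a * b * d - a * c ^ 2 + 2 * a * c * d = 0 := by linear_combination F.m123_134
  have M3 : -a ^ 2 * b + 2 * a ^ 2 * c + 2 * a * b ^ 2 - a * b * c - 3 * a * c ^ 2 + 2 * a * c * d - b ^ 3 + 3 * b ^ 2 * c - 3 * b * c ^ 2 + c ^ 3 = 0 := by linear_combination F.m123_234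
  have M4 : -2 * a ^ 3 + 2 * a ^ 2 * b + 2 * a ^ 2 * c + 2 * a ^ 2 * d - 2 * a * b ^ 2 + 2 * a * b * c + 2 * a * b * d - 2 * a * c ^ 2 + 2 * a * c * d - 2 * a * d ^ 2 = 0 := by linear_combination F.m124_124
  have M5 : -a ^ 2 * b + 2 * a ^ 2 * c - a * b * c + 4 * a * b * d - 3 * a * c ^ 2 + 2 * a * c * d - 2 * a * d ^ 2 - b ^ 3 + 3 * b ^ 2 * c - 3 * b * c ^ 2 + c ^ 3 = 0 := by linear_combination F.m124_134
  have Hh012 : 0 < 3 * a ^ 2 := by linear_combination F.h012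
  have Hh013 : 0 < -a ^ 2 + 4 * a * b := by linear_combination F.h013
  have G0 : a - b - c = 0 := by
    have h : (3 * a ^ 2) * (a - b - c) = 0 := by
      linear_combination (-1) * M1 +
      (1 / 2) * M0 +
      (1) * M5 +
      (-1) * M3 +
      (-1) * M4
    exact (mul_eq_zero.1 h).resolve_left Hh012.ne'
  have G1 : c = 0 := by
    have h : (-a ^ 2 + 4 * a * b) * (c) = 0 := by
      linear_combination (-1) * M2 +
      (-a * b + a * c - 2 * a * d) * G0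
    exact (mul_eq_zero.1 h).resolve_left Hh013.ne'
  have hz : c = 0 := by
    linear_combination (1) * G1
  exact hc.ne' hz

/-- pattern 0001121233 -/
theorem k5p29 : ¬ Realk 5 0 457511424 := by
  intro h
  obtain ⟨x, F⟩ := five_of_realk h
  exact k5p29_aux (F : Five (x 0) (x 0) (x 0) (x 1) (x 1) (x 2) (x 1) (x 2) (x 3) (x 3))

theorem k5p34_aux {a b c d : ℝ} (F : Five a a a b b c b d d d) : False := by
  have M0 : -2 * a ^ 3 + 4 * a ^ 2 * b + 2 * a ^ 2 * c - 2 * a * b ^ 2 + 4 * a * b * c - 2 * a * c ^ 2 = 0 := by linear_combination F.m123_123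
  have M1 : -2 * a ^ 3 + 3 * a ^ 2 * b + a ^ 2 * c - a ^ 2 * d - a * b ^ 2 + a * b * c + a * b * d - a * c * d = 0 := by linear_combination F.m123_124
  have M2 : -a ^ 2 * b + a ^ 2 * c - a ^ 2 * d + a * b ^ 2 - 3 * a * b * c + a * b * d + a * c * d = 0 := by linear_combination F.m123_134
  have M3 : -a ^ 2 * b + a ^ 2 * c + a ^ 2 * d + 2 * a * b ^ 2 + a * b * c - 2 * a * b * d - a * c ^ 2 - b ^ 3 + 2 * b ^ 2 * c + b ^ 2 * d - b * c ^ 2 - 2 * b * c * d + c ^ 2 * d = 0 := by linear_combination F.m123_234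
  have M4 : -2 * a ^ 3 + 2 * a ^ 2 * b + 4 * a ^ 2 * d - 2 * a * b ^ 2 + 4 * a * b * d - 2 * a * d ^ 2 = 0 := by linear_combination F.m124_124
  have M5 : -a ^ 2 * b + a ^ 2 * c + a ^ 2 * d - 2 * a * b * c + 5 * a * b * d - 2 * a * c * d - a * d ^ 2 - b ^ 3 + b ^ 2 * c + 2 * b ^ 2 * d - 2 * b * c * d - b * d ^ 2 + c * d ^ 2 = 0 := by linear_combination F.m124_134
  have M6 : -a ^ 2 * b + a ^ 2 * c - a ^ 2 * d + 2 * a * b ^ 2 - a * b * d - 2 * a * c * d + a * d ^ 2 - b ^ 3 + b ^ 2 * c + 2 * b ^ 2 * d - 2 * b * c * d - b * d ^ 2 + c * d ^ 2 = 0 := by linear_combination F.m124_234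
  have M7 : -2 * a ^ 2 * d + 4 * a * b * d + 2 * a * c * d - 2 * b ^ 2 * d - 2 * b * c ^ 2 + 6 * b * c * d - 2 * c * d ^ 2 = 0 := by linear_combination F.m234_234
  have Hh012 : 0 < 3 * a ^ 2 := by linear_combination F.h012
  have Hh023 : 0 < -a ^ 2 + 2 * a * b + 2 * a * c - b ^ 2 + 2 * b * c - c ^ 2 := by linear_combination F.h023
  have Hh234 : 0 < -c ^ 2 + 4 * c * d := by linear_combination F.h234
  have G0 : 2 * a - 2 * b - c = 0 := by
    have h : (3 * a ^ 2) * (2 * a - 2 * b - c) = 0 := by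
      linear_combination (3 / 2) * M5 +
      (-3 / 2) * M4 +
      (-3 / 2) * M6 +
      (-3 / 2) * M2 +
      (-3 / 2) * M1
    exact (mul_eq_zero.1 h).resolve_left Hh012.ne'
  have G1 : c - 4 * d = 0 := by
    have h : (-a ^ 2 + 2 * a * b + 2 * a * c - b ^ 2 + 2 * b * c - c ^ 2) * (c - 4 * d) = 0 := by
      linear_combination (-4) * M6 +
      (17 / 3 * a ^ 2 - 8 / 3 * a * b + 2 / 3 * a * c + b ^ 2 - 2 * b * d + c ^ 2 - 2 * c * d + 2 * d ^ 2) * G0 +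
      (-3) * M7 +
      (2) * M3 +
      (1) * M2 +
      (-4 / 3) * M0 +
      (7) * M1
    exact (mul_eq_zero.1 h).resolve_left Hh023.ne'
  have hz : -c ^ 2 + 4 * c * d = 0 := by
    linear_combination (-c) * G1
  exact Hh234.ne' hz

/-- pattern 0001121333 -/
theorem k5p34 : ¬ Realk 5 0 459608576 := by
  intro h
  obtain ⟨x, F⟩ := five_of_realk h
  exact k5p34_aux (F : Five (x 0) (x 0) (x 0) (x 1) (x 1) (x 2) (x 1) (x 3) (x 3) (x 3))

end CR
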