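import Pool.Agent.Lib.MP_6f5d36_co.K5.Five

set_option autoImplicit false

/-!
# MP_6f5d36_co : forbidden patterns of five points, part 3
-/

namespace CR

theorem k5p4_aux {a b c d e f : ℝ} (F : Five a a b b a b c d e f) : False := by
  have ha : 0 < a := F.q01
  have hb : 0 < b := F.q12
  have M0 : -2 * a ^ 3 + 4 * a ^ 2 * b + 4 * a * b ^ 2 - 2 * b ^ 3 = 0 := by linear_combination F.m123_123
  have M1 : -a ^ 2 * b - 2 * a ^ 2 * d + 2 * a ^ 2 * e + 3 * a * b ^ 2 + 3 * a * b * c + 3 * a * b * d - 2 * a * b * e - 4 * a * b * f - b ^ 3 - 2 * b ^ 2 * c + b ^ 2 * e + b ^ 2 * f = 0 := by linear_combination F.m123_124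
  have M2 : a ^ 2 * b + 2 * a ^ 2 * c - 2 * a ^ 2 * f - 3 * a * b ^ 2 - 3 * a * b * c - 3 * a * b * d + 4 * a * b * e + 2 * a * b * f + b ^ 3 + 2 * b ^ 2 * d - b ^ 2 * e - b ^ 2 * f = 0 := by linear_combination F.m123_134
  have M3 : -a ^ 3 + 3 * a ^ 2 * b + a ^ 2 * c + a ^ 2 * d - 2 * a ^ 2 * f - a * b ^ 2 - 2 * a * b * c - 4 * a * b * d + 3 * a * b * e + 3 * a * b * f + 2 * b ^ 2 * c - 2 * b ^ 2 * e = 0 := by linear_combination F.m123_234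
  have M4 : -2 * a ^ 2 * b + 4 * a * b * c + 2 * a * b * d + 2 * a * b * e - 2 * a * d ^ 2 + 4 * a * d * e - 2 * a * e ^ 2 - 2 * b ^ 2 * c - 2 * b * c ^ 2 + 2 * b * c * d + 2 * b * c * e - 2 * b * d * e = 0 := by linear_combination F.m124_124
  have M5 : -a ^ 3 + a ^ 2 * b + 2 * a ^ 2 * c + 2 * a ^ 2 * d - a * b ^ 2 - 3 * a * b * c - 3 * a * b * d + a * b * e + a * b * f - a * c ^ 2 + 2 * a * c * e - a * d ^ 2 + 2 * a * d * f - 2 * a * e * f + b ^ 2 * c + b ^ 2 * d - b * c * e + b * c * f + b * d * e - b * d * f = 0 := by linear_combination F.m124_134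
  have M6 : -a ^ 3 + a ^ 2 * b + 2 * a ^ 2 * c + a ^ 2 * d + a ^ 2 * e + a * b ^ 2 - 3 * a * b * c - 2 * a * b * d - a * b * f - a * c ^ 2 - a * c * d + 3 * a * c * e - a * d * e + 2 * a * d * f - 2 * a * e * f + b ^ 2 * c - b ^ 2 * e + 2 * b * c ^ 2 - 3 * b * c * e - b * c * f + b * e ^ 2 + b * e * f = 0 := by linear_combination F.m124_234
  have M7 : -2 * a ^ 2 * b + 2 * a * b * c + 4 * a * b * d + 2 * a * b * f - 2 * a * c ^ 2 + 4 * a * c * f - 2 * a * f ^ 2 - 2 * b ^ 2 * d + 2 * b * c * d - 2 * b * c * f - 2 * b * d ^ 2 + 2 * b * d * f = 0 := by linear_combination F.m134_134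
  have M8 : -a ^ 2 * b + a ^ 2 * c - a ^ 2 * f - a * b ^ 2 + a * b * d + 2 * a * b * e + 3 * a * b * f - a * c ^ 2 - a * c * d + 3 * a * c * f + a * d * f - 2 * a * f ^ 2 + b ^ 3 - b ^ 2 * c - b ^ 2 * e - 2 * b ^ 2 * f + 2 * b * c * d + b * c * e - 3 * b * c * f - 2 * b * d * e + b * e * f + b * f ^ 2 = 0 := by linear_combination F.m134_234
  have M9 : -2 * a ^ 2 * f - 2 * a * b ^ 2 + 2 * a * b * c + 2 * a * b * e + 4 * a * b * f - 2 * a * c * e + 2 * a * c * f + 2 * a * e * f - 2 * a * f ^ 2 - 2 * b * c ^ 2 + 4 * b * c * e - 2 * b * e ^ 2 = 0 := by linear_combination F.m234_234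
  have Hp0123 : 0 < -a ^ 4 + 2 * a ^ 3 * b + a ^ 2 * b ^ 2 + 2 * a * b ^ 3 - b ^ 4 := by linear_combination F.p0123
  have G0 : c ^ 2 - 2 * c * d + c * e - c * f + d ^ 2 - d * e + d * f - e ^ 2 + 2 * e * f - f ^ 2 = 0 := by
    have h : (a + b) * (c ^ 2 - 2 * c * d + c * e - c * f + d ^ 2 - d * e + d * f - e ^ 2 + 2 * e * f - f ^ 2) = 0 := by
      linear_combination (1 / 2) * M0 +
      (-3 / 2) * M1 +
      (1 / 2) * M2 +
      (-2) * M3 +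
      (1 / 2) * M4 +
      (-2) * M5 +
      (3) * M6 +
      (-1 / 2) * M7 +
      (-1) * M8 +
      (2) * M9
    exact (mul_eq_zero.1 h).resolve_left (add_pos ha hb).ne'
  have G1 : a * e - a * f + b * c - b * d - b * e + b * f = 0 := by
    have h : (a + b) * (a * e - a * f + b * c - b * d - b * e + b * f) = 0 := by
      linear_combination (1 / 2) * M1 +
      (-1 / 2) * M2 +
      (1) * M3 +
      (-1 / 2) * M0
    exact (mul_eq_zero.1 h).resolve_left (add_pos ha hb).ne'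
  have G2 : a * b - a * d - b * c + b * d - b * f + c * d - c * e - d * f + e ^ 2 - e * f + f ^ 2 = 0 := by
    have h : (a + b) * (a * b - a * d - b * c + b * d - b * f + c * d - c * e - d * f + e ^ 2 - e * f + f ^ 2) = 0 := by
      linear_combination (-1 / 2) * M7 +
      (-a - b) * G0 +
      (1) * M6 +
      (-a - b) * G1 +
      (1 / 2) * M9 +
      (-1) * M5
    exact (mul_eq_zero.1 h).resolve_left (add_pos ha hb).ne'
  have hz : -a ^ 4 + 2 * a ^ 3 * b + a ^ 2 * b ^ 2 + 2 * a * b ^ 3 - b ^ 4 = 0 := by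
    linear_combination (-1 / 5 * a ^ 2 - 14 / 5 * a * b - 8 / 5 * a * d + 4 / 5 * a * e + 2 * a * f + 8 / 5 * b ^ 2 + 1 / 5 * b * c + 3 / 5 * b * d + 4 / 5 * b * e - 12 / 5 * b * f - 8 / 5 * c ^ 2 + 8 / 5 * c * d - 2 / 5 * c * e + 2 * c * f - 8 / 5 * d * f + 2 / 5 * e ^ 2 - 2 / 5 * e * f) * G1 +
      (1 / 2 * a + 1 / 2 * b - 3 / 5 * d - 3 / 10 * e + 1 / 10 * f) * M0 +
      (2 / 5 * a - 3 / 5 * c - 1 / 5 * d + 4 / 5 * e) * M4 +
      (-2 / 5 * a ^ 2 + 6 / 5 * a * b - 2 / 5 * a * d + 2 * a * e - 8 / 5 * a * f - b ^ 2 + 2 / 5 * b * c - 2 / 5 * b * e) * G0 +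
      (8 / 5 * a ^ 2 - 12 / 5 * a * b + 2 / 5 * a * c - 2 * a * d + 16 / 5 * a * e - 8 / 5 * a * f + 4 / 5 * b ^ 2 - 8 / 5 * b * c + 8 / 5 * b * d) * G2 +
      (1 / 5 * c) * M2 +
      (-1 / 5 * a + c + 2 / 5 * d - e + 3 / 5 * f) * M1
  exact Hp0123.ne' hz

/-- pattern 0011012345 -/
theorem k5p4 : ¬ Realk 5 0 745046592 := by
  intro h
  obtain ⟨x, F⟩ := five_of_realk h
  exact k5p4_aux (F : Five (x 0) (x 0) (x 1) (x 1) (x 0) (x 1) (x 2) (x 3) (x 4) (x 5))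

theorem k5p6_aux {a b c d e f : ℝ} (F : Five a a b c d e c e d f) : False := by
  have M0 : -2 * a ^ 2 * b + 4 * a * b * c + 2 * a * b * d + 2 * a * b * e - 2 * a * d ^ 2 + 4 * a * d * e - 2 * a * e ^ 2 - 2 * b ^ 2 * c - 2 * b * c ^ 2 + 2 * b * c * d + 2 * b * c * e - 2 * b * d * e = 0 := by linear_combination F.m123_123
  have M1 : -2 * a ^ 2 * b + 4 * a * b * c + 2 * a * b * d + 2 * a * b * e - 4 * a * b * f + 2 * a * d ^ 2 - 4 * a * d * e + 2 * a * e ^ 2 - 2 * b ^ 2 * c + b ^ 2 * f - 2 * b * c ^ 2 + 2 * b * c * d + 2 * b * c * e - b * d ^ 2 - b * e ^ 2 = 0 := by linear_combination F.m123_124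
  have Hh012 : 0 < 4 * a * b - b ^ 2 := by linear_combination F.h012
  have Hp1234 : 0 < -b ^ 2 * f ^ 2 + 2 * b * d ^ 2 * f + 2 * b * e ^ 2 * f - d ^ 4 + 2 * d ^ 2 * e ^ 2 - e ^ 4 := by linear_combination F.p1234
  have G0 : b * f - d ^ 2 + 2 * d * e - e ^ 2 = 0 := by
    have h : (4 * a * b - b ^ 2) * (b * f - d ^ 2 + 2 * d * e - e ^ 2) = 0 := by
      linear_combination (-b) * M1 +
      (b) * M0
    exact (mul_eq_zero.1 h).resolve_left Hh012.ne'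
  have hz : -b ^ 2 * f ^ 2 + 2 * b * d ^ 2 * f + 2 * b * e ^ 2 * f - d ^ 4 + 2 * d ^ 2 * e ^ 2 - e ^ 4 = 0 := by
    linear_combination (-b * f + d ^ 2 + 2 * d * e + e ^ 2) * G0
  exact Hp1234.ne' hz

/-- pattern 0012342435 -/
theorem k5p6 : ¬ Realk 5 0 730477632 := by
  intro h
  obtain ⟨x, F⟩ := five_of_realk h
  exact k5p6_aux (F : Five (x 0) (x 0) (x 1) (x 2) (x 3) (x 4) (x 2) (x 4) (x 3) (x 5))

theorem k5p19_aux {a b c d e : ℝ} (F : Five a a b c d e d e c b) : False := by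
  have M0 : -2 * a ^ 2 * b + 4 * a * b * c + 2 * a * b * d + 2 * a * b * e - 2 * a * d ^ 2 + 4 * a * d * e - 2 * a * e ^ 2 - 2 * b ^ 2 * c - 2 * b * c ^ 2 + 2 * b * c * d + 2 * b * c * e - 2 * b * d * e = 0 := by linear_combination F.m123_123
  have M1 : -2 * a ^ 2 * b - 4 * a * b ^ 2 + 3 * a * b * c + 3 * a * b * d + 2 * a * b * e + 2 * a * c * d - 2 * a * c * e - 2 * a * d * e + 2 * a * e ^ 2 + b ^ 3 - b ^ 2 * c - b ^ 2 * d + b * c ^ 2 - 3 * b * c * d + b * c * e + b * d ^ 2 + b * d * e - b * e ^ 2 = 0 := by linear_combination F.m123_124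
  have M2 : -a ^ 2 * c - a ^ 2 * d + 2 * a ^ 2 * e - a * b ^ 2 - a * b * c - a * b * d + 2 * a * b * e + 2 * a * c ^ 2 + 3 * a * c * d - 3 * a * c * e + 2 * a * d ^ 2 - 3 * a * d * e - a * e ^ 2 - b ^ 2 * c + b ^ 2 * d + b * c ^ 2 - 2 * b * c * d + 2 * b * c * e - b * d ^ 2 - c ^ 3 + 2 * c ^ 2 * d + c ^ 2 * e - 2 * c * d ^ 2 - c * e ^ 2 + d ^ 3 - d ^ 2 * e + d * e ^ 2 = 0 := by linear_combination F.m123_134
  have M3 : -a ^ 2 * c - a ^ 2 * d + 2 * a ^ 2 * e + a * b ^ 2 + a * b * c - 3 * a * b * d + 2 * a * b * e + 2 * a * c ^ 2 + 2 * a * c * d - 2 * a * c * e + a * d ^ 2 - 3 * a * e ^ 2 + b ^ 2 * c - b ^ 2 * e - 3 * b * c ^ 2 + b * c * d + b * c * e + b * d * e - c ^ 3 + c ^ 2 * d + 2 * c ^ 2 * e - c * d ^ 2 - 2 * c * e ^ 2 + d ^ 2 * e - d * e ^ 2 + e ^ 3 = 0 := by linear_combination F.m123_234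
  have M4 : -2 * a ^ 2 * b + 2 * a * b * c + 4 * a * b * d + 2 * a * b * e - 2 * a * c ^ 2 + 4 * a * c * e - 2 * a * e ^ 2 - 2 * b ^ 2 * d + 2 * b * c * d - 2 * b * c * e - 2 * b * d ^ 2 + 2 * b * d * e = 0 := by linear_combination F.m124_124
  have M5 : -a ^ 2 * c - a ^ 2 * d + 2 * a ^ 2 * e + a * b ^ 2 - 3 * a * b * c + a * b * d + 2 * a * b * e + a * c ^ 2 + 2 * a * c * d + 2 * a * d ^ 2 - 2 * a * d * e - 3 * a * e ^ 2 + b ^ 2 * d - b ^ 2 * e + b * c * d + b * c * e - 3 * b * d ^ 2 + b * d * e - c ^ 2 * d + c ^ 2 * e + c * d ^ 2 - c * e ^ 2 - d ^ 3 + 2 * d ^ 2 * e - 2 * d * e ^ 2 + e ^ 3 = 0 := by linear_combination F.m124_134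
  have M6 : -a ^ 2 * c - a ^ 2 * d + 2 * a ^ 2 * e - a * b ^ 2 - a * b * c - a * b * d + 2 * a * b * e + 2 * a * c ^ 2 + 3 * a * c * d - 3 * a * c * e + 2 * a * d ^ 2 - 3 * a * d * e - a * e ^ 2 + b ^ 2 * c - b ^ 2 * d - b * c ^ 2 - 2 * b * c * d + b * d ^ 2 + 2 * b * d * e + c ^ 3 - 2 * c ^ 2 * d - c ^ 2 * e + 2 * c * d ^ 2 + c * e ^ 2 - d ^ 3 + d ^ 2 * e - d * e ^ 2 = 0 := by linear_combination F.m124_234
  have M7 : -2 * a ^ 2 * b - 2 * a * b ^ 2 + 2 * a * b * c + 4 * a * b * d + 2 * a * b * e - 2 * a * c * d + 2 * a * c * e + 2 * a * d ^ 2 - 2 * a * d * e - 2 * b * c * d + 2 * b * c * e + 2 * b * d ^ 2 - 2 * b * d * e - 2 * c ^ 2 * e + 2 * c * d ^ 2 + 4 * c * d * e - 2 * c * e ^ 2 - 4 * d ^ 3 + 2 * d ^ 2 * e = 0 := by linear_combination F.m134_134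
  have M8 : -2 * a ^ 2 * b - 2 * a * b ^ 2 + 3 * a * b * c + 3 * a * b * d + 2 * a * b * e + a * c ^ 2 - 2 * a * c * d + a * d ^ 2 + b ^ 3 - 2 * b ^ 2 * c - 2 * b ^ 2 * d + 2 * b * c ^ 2 - 5 * b * c * d + b * c * e + 2 * b * d ^ 2 + b * d * e - b * e ^ 2 - c ^ 3 + 2 * c ^ 2 * d - 3 * c ^ 2 * e + 2 * c * d ^ 2 + 2 * c * d * e + c * e ^ 2 - d ^ 3 - 3 * d ^ 2 * e + d * e ^ 2 = 0 := by linear_combination F.m134_234
  have M9 : -2 * a ^ 2 * b - 2 * a * b ^ 2 + 4 * a * b * c + 2 * a * b * d + 2 * a * b * e + 2 * a * c ^ 2 - 2 * a * c * d - 2 * a * c * e + 2 * a * d * e + 2 * b * c ^ 2 - 2 * b * c * d - 2 * b * c * e + 2 * b * d * e - 4 * c ^ 3 + 2 * c ^ 2 * d + 2 * c ^ 2 * e + 4 * c * d * e - 2 * d ^ 2 * e - 2 * d * e ^ 2 = 0 := by linear_combination F.m234_234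
  have Hp1234 : 0 < -b ^ 4 + 2 * b ^ 2 * c * d + 2 * b ^ 2 * e ^ 2 - c ^ 2 * d ^ 2 + 2 * c * d * e ^ 2 - e ^ 4 := by linear_combination F.p1234
  have hz : -b ^ 4 + 2 * b ^ 2 * c * d + 2 * b ^ 2 * e ^ 2 - c ^ 2 * d ^ 2 + 2 * c * d * e ^ 2 - e ^ 4 = 0 := by
    linear_combination (2 * a + 2 / 3 * c + 1 / 6 * d - 1 / 3 * e) * M7 +
      (-1 / 2 * a - 5 / 6 * c + 1 / 2 * d + 2 / 3 * e) * M6 +
      (2 / 3 * b - 5 / 6 * c) * M4 +
      (1 / 2 * a + 5 / 6 * b + 5 / 6 * c + 3 / 2 * d) * M2 +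
      (-1 / 2 * c + d) * M9 +
      (1 / 6 * a - 5 / 6 * b) * M1 +
      (-1 / 3 * b + 1 / 3 * c - 2 / 3 * e) * M3 +
      (-1 / 6 * a - 1 / 3 * c + 7 / 6 * e) * M0 +
      (-2 * a - 1 / 6 * b - e) * M8 +
      (-2 / 3 * b - 7 / 3 * c + 1 / 3 * d - 1 / 3 * e) * M5
  exact Hp1234.ne' hz

/-- pattern 0012343421 -/
theorem k5p19 : ¬ Realk 5 0 177091648 := by
  intro h
  obtain ⟨x, F⟩ := five_of_realk h
  exact k5p19_aux (F : Five (x 0) (x 0) (x 1) (x 2) (x 3) (x 4) (x 3) (x 4) (x 2) (x 1))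

theorem k5p24_aux {a b c d : ℝ} (F : Five a a a a b c d b c b) : False := by
  have M0 : -2 * a ^ 3 + 4 * a ^ 2 * b + 4 * a ^ 2 * c - 2 * a * b ^ 2 + 2 * a * b * c - 2 * a * c ^ 2 = 0 := by linear_combination F.m123_123
  have M1 : -a ^ 3 + 3 * a ^ 2 * c - a ^ 2 * d - 2 * a * b ^ 2 + 2 * a * b * c + a * b * d - 2 * a * c ^ 2 + a * c * d = 0 := by linear_combination F.m123_124
  have M2 : -a ^ 2 * b - 2 * a * b ^ 2 + 3 * a * b * c - a * b * d + b ^ 2 * d - b * c * d = 0 := by linear_combination F.m123_134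
  have M3 : 2 * a ^ 2 * b - a ^ 2 * c - 2 * a * b ^ 2 + a * c ^ 2 + a * c * d + b * c * d - c ^ 2 * d = 0 := by linear_combination F.m123_234
  have M4 : -2 * a ^ 3 + 2 * a ^ 2 * b + 2 * a ^ 2 * c + 2 * a ^ 2 * d - 2 * a * b ^ 2 + 2 * a * b * c + 2 * a * b * d - 2 * a * c ^ 2 + 2 * a * c * d - 2 * a * d ^ 2 = 0 := by linear_combination F.m124_124
  have M5 : -a ^ 3 + a ^ 2 * b + a ^ 2 * c + 2 * a ^ 2 * d - a * b * c + 2 * a * b * d - 2 * a * c * d - a * d ^ 2 + b ^ 2 * d - b * c * d - b * d ^ 2 + c * d ^ 2 = 0 := by linear_combination F.m124_134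
  have M6 : a ^ 3 - 2 * a ^ 2 * b - 2 * a ^ 2 * d + 2 * a * b ^ 2 - 2 * a * b * c + a * b * d + a * c ^ 2 - a * c * d + a * d ^ 2 + b * c * d - b * d ^ 2 - c ^ 2 * d + c * d ^ 2 = 0 := by linear_combination F.m124_234
  have M7 : -2 * a ^ 2 * b + 4 * a * b ^ 2 + 4 * a * b * d - 2 * b ^ 3 + 2 * b ^ 2 * d - 2 * b * d ^ 2 = 0 := by linear_combination F.m134_134
  have M8 : a ^ 3 - 3 * a ^ 2 * b - a ^ 2 * c - 2 * a ^ 2 * d + 2 * a * b ^ 2 + 3 * a * b * c + 2 * a * c * d + a * d ^ 2 - 2 * b ^ 2 * c + b ^ 2 * d + b * c * d - b * d ^ 2 - c * d ^ 2 = 0 := by linear_combination F.m134_234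
  have Hh134 : 0 < 3 * b ^ 2 := by linear_combination F.h134
  have Hh012 : 0 < 3 * a ^ 2 := by linear_combination F.h012
  have Hh024 : 0 < -a ^ 2 + 2 * a * c + 2 * a * d - c ^ 2 + 2 * c * d - d ^ 2 := by linear_combination F.h024
  have G0 : 2 * a - b + c = 0 := by
    have h : (3 * b ^ 2) * (2 * a - b + c) = 0 := by
      linear_combination (3 / 2) * M6 +
      (-3) * M1 +
      (-3) * M5 +
      (-3 / 2) * M8 +
      (3 / 2) * M7 +
      (-3 / 2) * M3 +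
      (3 / 2) * M4 +
      (3 / 2) * M2 +
      (3 / 2) * M0
    exact (mul_eq_zero.1 h).resolve_left Hh134.ne'
  have G1 : 4 * c - d = 0 := by
    have h : (3 * a ^ 2) * (4 * c - d) = 0 := by
      linear_combination (4 / 3 * a ^ 2 - 5 / 3 * a * b + 3 * a * c - 5 / 3 * a * d + 4 / 3 * b ^ 2 - 1 / 3 * b * d + 1 / 3 * d ^ 2) * G0 +
      (-2 / 3) * M7 +
      (1) * M0 +
      (1 / 2) * M4 +
      (2 / 3) * M8 +
      (1 / 3) * M5
    exact (mul_eq_zero.1 h).resolve_left Hh012.ne'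
  have G2 : 4 * b - 3 * d = 0 := by
    have h : (3 * a ^ 2) * (4 * b - 3 * d) = 0 := by
      linear_combination (-28 / 5 * a ^ 2 + 64 / 5 * a * b - 64 / 5 * a * c + 8 / 5 * a * d) * G0 +
      (-8 / 5) * M1 +
      (69 / 5 * a ^ 2 - 16 / 5 * a * b) * G1 +
      (-24 / 5) * M0
    exact (mul_eq_zero.1 h).resolve_left Hh012.ne'
  have hz : -a ^ 2 + 2 * a * c + 2 * a * d - c ^ 2 + 2 * c * d - d ^ 2 = 0 := by
    linear_combination (5 / 8 * a - 9 / 8 * b - 1 / 4 * c + d) * G1 +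
      (-1 / 2 * a + 9 / 8 * d) * G0 +
      (-1 / 8 * a + 9 / 8 * c) * G2
  exact Hh024.ne' hz

/-- pattern 0000123121 -/
theorem k5p24 : ¬ Realk 5 0 170725376 := by
  intro h
  obtain ⟨x, F⟩ := five_of_realk h
  exact k5p24_aux (F : Five (x 0) (x 0) (x 0) (x 0) (x 1) (x 2) (x 3) (x 1) (x 2) (x 1))

theorem k5p30_aux {a b c d : ℝ} (F : Five a a a b b c b d b c) : False := by
  have M0 : -2 * a ^ 3 + 4 * a ^ 2 * b + 2 * a ^ 2 * c - 2 * a * b ^ 2 + 4 * a * b * c - 2 * a * c ^ 2 = 0 := by linear_combination F.m123_123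
  have M1 : -2 * a ^ 3 + 4 * a ^ 2 * b - 2 * a ^ 2 * c + a ^ 2 * d + a * b ^ 2 - a * b * c - a * b * d + a * c * d = 0 := by linear_combination F.m123_124
  have M2 : -2 * a ^ 2 * b + a ^ 2 * d + 5 * a * b ^ 2 - 5 * a * b * c - a * b * d + 2 * a * c ^ 2 - a * c * d = 0 := by linear_combination F.m123_134
  have M3 : -2 * a ^ 2 * b + 2 * a ^ 2 * c + a ^ 2 * d + 3 * a * b ^ 2 + a * b * c - 2 * a * b * d - 2 * a * c * d - b ^ 3 + 2 * b ^ 2 * c + b ^ 2 * d - b * c ^ 2 - 2 * b * c * d + c ^ 2 * d = 0 := by linear_combination F.m123_234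
  have M4 : -2 * a ^ 3 + 4 * a ^ 2 * b + 2 * a ^ 2 * d - 2 * a * b ^ 2 + 4 * a * b * d - 2 * a * d ^ 2 = 0 := by linear_combination F.m124_124
  have M5 : -2 * a ^ 2 * b + 2 * a ^ 2 * c + a ^ 2 * d + 3 * a * b ^ 2 - 3 * a * b * c + 2 * a * b * d - a * c * d - a * d ^ 2 - b ^ 3 + b ^ 2 * c + 2 * b ^ 2 * d - 2 * b * c * d - b * d ^ 2 + c * d ^ 2 = 0 := by linear_combination F.m124_134
  have M6 : -2 * a ^ 2 * b + a ^ 2 * d + 5 * a * b ^ 2 - 3 * a * b * c - 3 * a * b * d + a * c * d = 0 := by linear_combination F.m124_234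
  have M7 : -2 * a ^ 2 * c + 6 * a * b * c - 2 * a * c ^ 2 + 2 * a * c * d - 2 * b ^ 3 + 4 * b ^ 2 * d - 2 * b * d ^ 2 = 0 := by linear_combination F.m134_134
  have M8 : -2 * a ^ 2 * c + 2 * a * b * c + a * c * d + 2 * b ^ 3 - 3 * b ^ 2 * c - 2 * b ^ 2 * d + b * c ^ 2 + 3 * b * c * d - c ^ 2 * d = 0 := by linear_combination F.m134_234
  have M9 : -2 * a ^ 2 * c + 6 * a * b * c - 2 * b ^ 3 + 4 * b ^ 2 * c - 2 * b * c ^ 2 = 0 := by linear_combination F.m234_234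
  have Hh012 : 0 < 3 * a ^ 2 := by linear_combination F.h012
  have Hh134 : 0 < -b ^ 2 + 2 * b * c + 2 * b * d - c ^ 2 + 2 * c * d - d ^ 2 := by linear_combination F.h134
  have Hp1234 : 0 < -a ^ 2 * c ^ 2 + 2 * a * b ^ 2 * c + 2 * a * c ^ 2 * d - b ^ 4 + 2 * b ^ 2 * c * d - c ^ 2 * d ^ 2 := by linear_combination F.p1234
  have G0 : 3 * a - 6 * b + c - d = 0 := by
    have h : (3 * a ^ 2) * (3 * a - 6 * b + c - d) = 0 := by
      linear_combination (3 / 2) * M6 +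
      (-3) * M1 +
      (-3 / 2) * M0 +
      (-3 / 2) * M2
    exact (mul_eq_zero.1 h).resolve_left Hh012.ne'
  have G1 : c - d = 0 := by
    have h : (-b ^ 2 + 2 * b * c + 2 * b * d - c ^ 2 + 2 * c * d - d ^ 2) * (c - d) = 0 := by
      linear_combination (-11 / 6 * a ^ 2 + 35 / 6 * a * c - 1 / 3 * a * d - 11 / 6 * b ^ 2 + 4 / 3 * b * c + 7 / 3 * b * d - c ^ 2 + 1 / 6 * c * d - d ^ 2) * G0 +
      (-7 / 3) * M0 +
      (11 / 6) * M3 +
      (15 / 4) * M7 +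
      (-5 / 12) * M4 +
      (7 / 4) * M9 +
      (-11 / 6) * M5
    exact (mul_eq_zero.1 h).resolve_left Hh134.ne'
  have hz : -a ^ 2 * c ^ 2 + 2 * a * b ^ 2 * c + 2 * a * c ^ 2 * d - b ^ 4 + 2 * b ^ 2 * c * d - c ^ 2 * d ^ 2 = 0 := by
    linear_combination (-a ^ 2 * c - 1 / 6 * a * b ^ 2 - 5 * a * b * d + 11 / 3 * a * c * d + 5 / 3 * a * d ^ 2 - 1 / 6 * b ^ 3 + 2 * b ^ 2 * c + 20 / 3 * b ^ 2 * d - 1 / 3 * b * c ^ 2 - b * c * d - 5 / 2 * b * d ^ 2 - 2 / 3 * d ^ 3) * G1 +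
      (-1 / 3 * a * b ^ 2 - 1 / 2 * a * b * d + 1 / 3 * a * c * d + 1 / 3 * a * d ^ 2 + 1 / 6 * b ^ 3 + 1 / 3 * b ^ 2 * d + 1 / 3 * b * c ^ 2 - 3 / 2 * b * d ^ 2 + 2 / 3 * d ^ 3) * G0 +
      (-1 / 2 * b - d) * M2 +
      (d) * M8
  exact Hp1234.ne' hz

/-- pattern 0001121312 -/
theorem k5p30 : ¬ Realk 5 0 291836416 := by
  intro h
  obtain ⟨x, F⟩ := five_of_realk h
  exact k5p30_aux (F : Five (x 0) (x 0) (x 0) (x 1) (x 1) (x 2) (x 1) (x 3) (x 1) (x 2))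

theorem k5p31_aux {a b c d : ℝ} (F : Five a a a b b c b d c d) : False := by
  have hd : 0 < d := F.q14
  have M0 : -2 * a ^ 3 + 4 * a ^ 2 * b + 2 * a ^ 2 * c - 2 * a * b ^ 2 + 4 * a * b * c - 2 * a * c ^ 2 = 0 := by linear_combination F.m123_123
  have M1 : -2 * a ^ 3 + 3 * a ^ 2 * b + 2 * a ^ 2 * c - 2 * a ^ 2 * d - a * b ^ 2 + 3 * a * b * c - a * b * d - 2 * a * c ^ 2 + a * c * d = 0 := by linear_combination F.m123_124
  have M2 : -a ^ 2 * b + a * b ^ 2 + a * b * c - 3 * a * b * d + a * c * d = 0 := by linear_combination F.m123_134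
  have M3 : -a ^ 2 * b + 2 * a ^ 2 * d + 2 * a * b ^ 2 + 2 * a * b * c - 3 * a * b * d - a * c * d - b ^ 3 + 2 * b ^ 2 * c + b ^ 2 * d - b * c ^ 2 - 2 * b * c * d + c ^ 2 * d = 0 := by linear_combination F.m123_234
  have M4 : -2 * a ^ 3 + 2 * a ^ 2 * b + 2 * a ^ 2 * c + 2 * a ^ 2 * d - 2 * a * b ^ 2 + 2 * a * b * c + 2 * a * b * d - 2 * a * c ^ 2 + 2 * a * c * d - 2 * a * d ^ 2 = 0 := by linear_combination F.m124_124
  have M5 : -a ^ 2 * b + 2 * a * b ^ 2 + 2 * a * b * c - 3 * a * b * d - 3 * a * c * d + 2 * a * d ^ 2 - b ^ 3 + 2 * b ^ 2 * c + b ^ 2 * d - b * c ^ 2 - 2 * b * c * d + c ^ 2 * d = 0 := by linear_combination F.m124_234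
  have Hh012 : 0 < 3 * a ^ 2 := by linear_combination F.h012
  have G0 : b - d = 0 := by
    have h : (3 * a ^ 2) * (b - d) = 0 := by
      linear_combination (-3 / 2) * M5 +
      (-3 / 2) * M2 +
      (3 / 2) * M1 +
      (-3 / 2) * M4 +
      (3 / 2) * M3
    exact (mul_eq_zero.1 h).resolve_left Hh012.ne'
  have G1 : d = 0 := by
    have h : (3 * a ^ 2) * (d) = 0 := by
      linear_combination (-1) * M1 +
      (1) * M0 +
      (-a ^ 2 + a * b - a * c) * G0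
    exact (mul_eq_zero.1 h).resolve_left Hh012.ne'
  have hz : d = 0 := by
    linear_combination (1) * G1
  exact hd.ne' hz

/-- pattern 0001121323 -/
theorem k5p31 : ¬ Realk 5 0 442831360 := by
  intro h
  obtain ⟨x, F⟩ := five_of_realk h
  exact k5p31_aux (F : Five (x 0) (x 0) (x 0) (x 1) (x 1) (x 2) (x 1) (x 3) (x 2) (x 3))

theorem k5p33_aux {a b c d : ℝ} (F : Five a a a b b c b d d c) : False := by
  have hd : 0 < d := F.q14
  have M0 : -2 * a ^ 3 + 4 * a ^ 2 * b + 2 * a ^ 2 * c - 2 * a * b ^ 2 + 4 * a * b * c - 2 * a * c ^ 2 = 0 := by linear_combination F.m123_123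
  have M1 : -2 * a ^ 3 + 3 * a ^ 2 * b - 2 * a ^ 2 * c + 2 * a ^ 2 * d - a * b ^ 2 + a * b * c + a * b * d - a * c * d = 0 := by linear_combination F.m123_124
  have M2 : -a ^ 2 * b + a * b ^ 2 - 5 * a * b * c + 3 * a * b * d + 2 * a * c ^ 2 - a * c * d = 0 := by linear_combination F.m123_134
  have M3 : -2 * a ^ 3 + 2 * a ^ 2 * b + 4 * a ^ 2 * d - 2 * a * b ^ 2 + 4 * a * b * d - 2 * a * d ^ 2 = 0 := by linear_combination F.m124_124
  have M4 : -a ^ 2 * b + 2 * a ^ 2 * c - a * b * c + 4 * a * b * d - 3 * a * c * d - b ^ 3 + b ^ 2 * c + 2 * b ^ 2 * d - 2 * b * c * d - b * d ^ 2 + c * d ^ 2 = 0 := by linear_combination F.m124_134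
  have M5 : -a ^ 2 * b + 2 * a * b ^ 2 - a * b * c - a * c * d - b ^ 3 + b ^ 2 * c + 2 * b ^ 2 * d - 2 * b * c * d - b * d ^ 2 + c * d ^ 2 = 0 := by linear_combination F.m124_234
  have M6 : -2 * a ^ 2 * c + 6 * a * b * c - 2 * a * c ^ 2 + 2 * a * c * d - 2 * b ^ 3 + 4 * b ^ 2 * d - 2 * b * d ^ 2 = 0 := by linear_combination F.m134_134
  have M7 : -2 * a ^ 2 * c + a * b * c + 2 * a * c * d - 3 * b ^ 2 * c + 2 * b ^ 2 * d + b * c ^ 2 + 3 * b * c * d - 2 * b * d ^ 2 - c ^ 2 * d = 0 := by linear_combination F.m134_234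
  have Hh012 : 0 < 3 * a ^ 2 := by linear_combination F.h012
  have Hh134 : 0 < -b ^ 2 + 2 * b * c + 2 * b * d - c ^ 2 + 2 * c * d - d ^ 2 := by linear_combination F.h134
  have G0 : 2 * a - 3 * b + c - d = 0 := by
    have h : (3 * a ^ 2) * (2 * a - 3 * b + c - d) = 0 := by
      linear_combination (-3 / 2) * M1 +
      (-3 / 2) * M0 +
      (3 / 2) * M4 +
      (-3 / 2) * M2 +
      (-3 / 2) * M5
    exact (mul_eq_zero.1 h).resolve_left Hh012.ne'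
  have G1 : d = 0 := by
    have h : (-b ^ 2 + 2 * b * c + 2 * b * d - c ^ 2 + 2 * c * d - d ^ 2) * (d) = 0 := by
      linear_combination (-2 * a ^ 2 + 2 / 3 * a * b - 10 / 3 * a * c + 2 / 3 * b ^ 2 + 2 / 3 * b * c - 5 / 3 * b * d - 5 / 3 * c * d + d ^ 2) * G0 +
      (1) * M3 +
      (-2 / 3) * M6 +
      (-2 / 3) * M7 +
      (1) * M2 +
      (-2 / 3) * M5 +
      (-3) * M1
    exact (mul_eq_zero.1 h).resolve_left Hh134.ne'
  have hz : d = 0 := by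
    linear_combination (1) * G1
  exact hd.ne' hz

/-- pattern 0001121332 -/
theorem k5p33 : ¬ Realk 5 0 325390848 := by
  intro h
  obtain ⟨x, F⟩ := five_of_realk h
  exact k5p33_aux (F : Five (x 0) (x 0) (x 0) (x 1) (x 1) (x 2) (x 1) (x 3) (x 3) (x 2))

theorem k5p40_aux {a b c d : ℝ} (F : Five a a b a b c d a b d) : False := by
  have hc : 0 < c := F.q23
  have M0 : 2 * a ^ 2 * c + 4 * a * b ^ 2 - 2 * a * b * c - 4 * a * b * d - b ^ 3 + b ^ 2 * d + b * c * d = 0 := by linear_combination F.m123_124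
  have M1 : -2 * a ^ 2 * c + 4 * a * b ^ 2 - 4 * a * b * d + 2 * a * c * d - b ^ 3 + b ^ 2 * d - b * c * d = 0 := by linear_combination F.m123_134
  have M2 : -4 * a ^ 2 * c + 4 * a * b * c + 2 * a * c * d - b ^ 2 * c + b * c * d - c ^ 2 * d = 0 := by linear_combination F.m123_234
  have M3 : -2 * a ^ 3 + 4 * a ^ 2 * b - 2 * a * b ^ 2 + 6 * a * b * d - 2 * b * d ^ 2 = 0 := by linear_combination F.m124_124
  have M4 : -2 * a ^ 3 + 2 * a ^ 2 * b + 2 * a ^ 2 * d + 4 * a * b * d - 4 * a * c * d - b ^ 2 * d - b * d ^ 2 + c * d ^ 2 = 0 := by linear_combination F.m124_134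
  have M5 : -2 * a ^ 3 + 4 * a ^ 2 * d + 6 * a * b * d - 2 * a * d ^ 2 - 2 * b ^ 2 * d = 0 := by linear_combination F.m134_134
  have M6 : -2 * a ^ 2 * c - 2 * a * b ^ 2 + 2 * a * b * c + 4 * a * b * d + 6 * a * c * d - 2 * a * d ^ 2 - 2 * c ^ 2 * d = 0 := by linear_combination F.m234_234
  have Hh024 : 0 < -a ^ 2 + 2 * a * b + 2 * a * d - b ^ 2 + 2 * b * d - d ^ 2 := by linear_combination F.h024
  have G0 : c = 0 := by
    have h : (-a ^ 2 + 2 * a * b + 2 * a * d - b ^ 2 + 2 * b * d - d ^ 2) * (c) = 0 := by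
      linear_combination (1 / 2) * M5 +
      (-1 / 2) * M6 +
      (1 / 2) * M3 +
      (1) * M2 +
      (-1) * M4 +
      (-1 / 2) * M1 +
      (1 / 2) * M0
    exact (mul_eq_zero.1 h).resolve_left Hh024.ne'
  have hz : c = 0 := by
    linear_combination (1) * G0
  exact hc.ne' hz

/-- pattern 0010123013 -/
theorem k5p40 : ¬ Realk 5 0 420286528 := by
  intro h
  obtain ⟨x, F⟩ := five_of_realk h
  exact k5p40_aux (F : Five (x 0) (x 0) (x 1) (x 0) (x 1) (x 2) (x 3) (x 0) (x 1) (x 3))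

end CR
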