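import Pool.Agent.Lib.MP_6f5d36_co.K5.Five

set_option autoImplicit false

/-!
# MP_6f5d36_co : forbidden patterns of five points, part 4
-/

namespace CR

theorem k5p1_aux {a b c d e f g : ℝ} (F : Five a a b c d d e f f g) : False := by
  have hb : 0 < b := F.q12
  have M0 : -2 * a ^ 2 * g - 2 * a * c * d + 2 * a * c * f + 2 * a * c * g + 2 * a * d * e + 2 * a * d * g - 2 * a * e * f + 2 * a * e * g + 2 * a * f * g - 2 * a * g ^ 2 - 2 * c ^ 2 * f + 2 * c * d * e + 2 * c * d * f + 2 * c * e * f - 2 * c * e * g - 2 * c * f ^ 2 + 2 * c * f * g - 2 * d ^ 2 * e - 2 * d * e ^ 2 + 2 * d * e * f + 2 * d * e * g - 2 * d * f * g = 0 := by linear_combination F.m134_134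
  have M1 : -2 * a ^ 2 * g - 2 * a * c * d + 2 * a * c * f + 2 * a * c * g + 2 * a * d * e + 2 * a * d * g - 2 * a * e * f + 2 * a * e * g + 2 * a * f * g - 2 * a * g ^ 2 + b * c ^ 2 - 2 * b * c * e - 2 * b * c * g + b * e ^ 2 - 2 * b * e * g + b * g ^ 2 - 2 * c ^ 2 * f + 2 * c * d * e + 2 * c * d * f + 2 * c * e * f - 2 * c * e * g - 2 * c * f ^ 2 + 2 * c * f * g - 2 * d ^ 2 * e - 2 * d * e ^ 2 + 2 * d * e * f + 2 * d * e * g - 2 * d * f * g = 0 := by linear_combination F.m134_234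
  have Hh034 : 0 < -c ^ 2 + 2 * c * e + 2 * c * g - e ^ 2 + 2 * e * g - g ^ 2 := by linear_combination F.h034
  have G0 : b = 0 := by
    have h : (-c ^ 2 + 2 * c * e + 2 * c * g - e ^ 2 + 2 * e * g - g ^ 2) * (b) = 0 := by
      linear_combination (1) * M0 +
      (-1) * M1
    exact (mul_eq_zero.1 h).resolve_left Hh034.ne'
  have hz : b = 0 := by
    linear_combination (1) * G0
  exact hb.ne' hz

/-- pattern 0012334556 -/
theorem k5p1 : ¬ Realk 5 0 900838464 := by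
  intro h
  obtain ⟨x, F⟩ := five_of_realk h
  exact k5p1_aux (F : Five (x 0) (x 0) (x 1) (x 2) (x 3) (x 3) (x 4) (x 5) (x 5) (x 6))

theorem k5p11_aux {a b c d e : ℝ} (F : Five a a b b a c d e b d) : False := by
  have hb : 0 < b := F.q12
  have he : 0 < e := F.q14
  have M0 : -2 * a ^ 3 + 4 * a ^ 2 * c + 6 * a * b ^ 2 - 2 * a * c ^ 2 - 4 * b ^ 3 + 2 * b ^ 2 * c = 0 := by linear_combination F.m123_123
  have M1 : a ^ 2 * b - 2 * a ^ 2 * e + 2 * a * b ^ 2 - a * b * c - a * b * d + a * b * e + 2 * a * c * e - 2 * b ^ 2 * d + b ^ 2 * e + b * c * d - b * c * e = 0 := by linear_combination F.m123_124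
  have M2 : a ^ 2 * b + 2 * a * b ^ 2 - a * b * c - a * b * d - 3 * a * b * e - 2 * b ^ 2 * d + 3 * b ^ 2 * e + b * c * d - b * c * e = 0 := by linear_combination F.m123_134
  have M3 : -2 * a ^ 2 * b + 4 * a * b * d + 6 * a * b * e - 2 * a * e ^ 2 - 2 * b ^ 2 * e - 2 * b * d ^ 2 + 2 * b * d * e = 0 := by linear_combination F.m124_124
  have M4 : -a ^ 3 + a ^ 2 * c + 2 * a ^ 2 * d + 2 * a ^ 2 * e - a * b * e - 2 * a * c * d - 2 * a * c * e - a * d ^ 2 + 2 * a * d * e - a * e ^ 2 + 2 * b ^ 2 * e + b * d * e - b * e ^ 2 + c * d ^ 2 - 2 * c * d * e + c * e ^ 2 = 0 := by linear_combination F.m124_134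
  have M5 : -a ^ 3 + a ^ 2 * b + a ^ 2 * c + 2 * a ^ 2 * d + a ^ 2 * e + 2 * a * b ^ 2 - a * b * c - a * b * d - 2 * a * b * e - 2 * a * c * d - a * c * e - a * d ^ 2 + a * d * e - 2 * b ^ 2 * d - b ^ 2 * e + b * c * d + b * c * e + b * d * e + c * d ^ 2 - c * d * e = 0 := by linear_combination F.m124_234
  have M6 : -2 * a ^ 2 * b + 4 * a * b * d + 4 * a * b * e - 2 * b ^ 2 * e - 2 * b * d ^ 2 + 4 * b * d * e - 2 * b * e ^ 2 = 0 := by linear_combination F.m134_134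
  have M7 : -a ^ 2 * b + 2 * a * b ^ 2 - a * b * c + 3 * a * b * d + a * b * e - 2 * b ^ 2 * d - 3 * b ^ 2 * e + b * c * d + b * c * e - 2 * b * d ^ 2 + 2 * b * d * e = 0 := by linear_combination F.m134_234
  have Hp0123 : 0 < -a ^ 4 + 2 * a ^ 3 * c + 2 * a ^ 2 * b ^ 2 - a ^ 2 * c ^ 2 + 2 * a * b ^ 2 * c - b ^ 4 := by linear_combination F.p0123
  have G0 : 2 * b * e - c * e + d * e - e ^ 2 = 0 := by
    have h : b * (2 * b * e - c * e + d * e - e ^ 2) = 0 := by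
      linear_combination (1 / 2) * M6 +
      (1 / 2) * M2 +
      (-1 / 2) * M7
    exact (mul_eq_zero.1 h).resolve_left hb.ne'
  have G1 : 2 * b - c + d - e = 0 := by
    have h : e * (2 * b - c + d - e) = 0 := by
      linear_combination (1) * G0
    exact (mul_eq_zero.1 h).resolve_left he.ne'
  have G2 : 4 * a * d - 4 * a * e + c ^ 2 - 10 * c * d + 8 * c * e + 5 * d ^ 2 - 8 * d * e + 3 * e ^ 2 = 0 := by
    have h : e * (4 * a * d - 4 * a * e + c ^ 2 - 10 * c * d + 8 * c * e + 5 * d ^ 2 - 8 * d * e + 3 * e ^ 2) = 0 := by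
      linear_combination (-4) * M5 +
      (-6 * a * b + 6 * b * d - 3 * e ^ 2) * G1 +
      (-c + 5 * d) * G0 +
      (4) * M4 +
      (8) * M7 +
      (2) * M1 +
      (-5) * M6
    exact (mul_eq_zero.1 h).resolve_left he.ne'
  have G3 : 4 * a * c - 8 * a * e + c ^ 2 - 14 * c * d + 12 * c * e + 9 * d ^ 2 - 16 * d * e + 7 * e ^ 2 = 0 := by
    have h : e * (4 * a * c - 8 * a * e + c ^ 2 - 14 * c * d + 12 * c * e + 9 * d ^ 2 - 16 * d * e + 7 * e ^ 2) = 0 := by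
      linear_combination (-4 * a) * G0 +
      (e) * G2 +
      (4 * d * e - 4 * e ^ 2) * G1 +
      (4) * M3 +
      (-4) * M6
    exact (mul_eq_zero.1 h).resolve_left he.ne'
  have hz : -a ^ 4 + 2 * a ^ 3 * c + 2 * a ^ 2 * b ^ 2 - a ^ 2 * c ^ 2 + 2 * a * b ^ 2 * c - b ^ 4 = 0 := by
    linear_combination (-a ^ 2 * b + a * b * c + a * b * d - 1 / 2 * b ^ 3 - 1 / 4 * b ^ 2 * c + 5 / 4 * b ^ 2 * d - b * c * d) * G1 +
      (-a * b - 3 / 4 * b ^ 2 + b * c) * G0 +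
      (-1 / 4 * a * b + 1 / 4 * b * c) * G3 +
      (1 / 4 * a * b - 1 / 4 * b ^ 2 - 1 / 4 * b * c) * G2 +
      (1 / 2 * a) * M0 +
      (b) * M1
  exact Hp0123.ne' hz

/-- pattern 0011023413 -/
theorem k5p11 : ¬ Realk 5 0 428671552 := by
  intro h
  obtain ⟨x, F⟩ := five_of_realk h
  exact k5p11_aux (F : Five (x 0) (x 0) (x 1) (x 1) (x 0) (x 2) (x 3) (x 4) (x 1) (x 3))

theorem k5p22_aux {a b c d : ℝ} (F : Five a a a a b c b c d d) : False := by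
  have ha : 0 < a := F.q01
  have M0 : -2 * a ^ 3 + 4 * a ^ 2 * b + 4 * a ^ 2 * c - 2 * a * b ^ 2 + 2 * a * b * c - 2 * a * c ^ 2 = 0 := by linear_combination F.m123_123
  have M1 : -a ^ 3 + 3 * a ^ 2 * c - a ^ 2 * d + a * b ^ 2 - a * b * c + a * b * d + a * c ^ 2 - 2 * a * c * d = 0 := by linear_combination F.m123_124
  have M2 : -a ^ 2 * b + 2 * a ^ 2 * c - 2 * a ^ 2 * d - 3 * a * b * c + 3 * a * b * d - 2 * a * c ^ 2 + 2 * a * c * d + b ^ 3 - b ^ 2 * c - b ^ 2 * d + b * c ^ 2 = 0 := by linear_combination F.m123_134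
  have M3 : a ^ 2 * c + 2 * a * b * c - 5 * a * c ^ 2 + 3 * a * c * d + b ^ 2 * c - b * c ^ 2 - b * c * d + c ^ 3 = 0 := by linear_combination F.m123_234
  have M4 : -2 * a ^ 3 + 2 * a ^ 2 * b + 2 * a ^ 2 * c + 2 * a ^ 2 * d - 2 * a * b ^ 2 + 2 * a * b * c + 2 * a * b * d - 2 * a * c ^ 2 + 2 * a * c * d - 2 * a * d ^ 2 = 0 := by linear_combination F.m124_124
  have M5 : -a ^ 3 + a ^ 2 * b + 2 * a ^ 2 * c + a ^ 2 * d - a * b ^ 2 + 2 * a * b * d - 4 * a * c ^ 2 + 3 * a * c * d - 2 * a * d ^ 2 - b ^ 3 + 2 * b ^ 2 * c + b ^ 2 * d - 2 * b * c ^ 2 - b * c * d + c ^ 3 = 0 := by linear_combination F.m124_134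
  have M6 : -2 * a ^ 2 * b + 4 * a * b ^ 2 + 2 * a * b * c + 2 * a * b * d - 2 * a * c ^ 2 + 4 * a * c * d - 2 * a * d ^ 2 - 4 * b ^ 3 + 2 * b ^ 2 * c + 2 * b ^ 2 * d - 2 * b * c * d = 0 := by linear_combination F.m134_134
  have M7 : a ^ 3 - 3 * a ^ 2 * b - a ^ 2 * c - 2 * a ^ 2 * d + 3 * a * b ^ 2 + 2 * a * b * c + a * c ^ 2 + a * c * d + a * d ^ 2 - b ^ 3 - 3 * b ^ 2 * c + 2 * b ^ 2 * d + b * c ^ 2 + b * c * d - b * d ^ 2 - c ^ 2 * d = 0 := by linear_combination F.m134_234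
  have Hh013 : 0 < 4 * a * b - b ^ 2 := by linear_combination F.h013
  have Hh134 : 0 < -b ^ 2 + 2 * b * c + 2 * b * d - c ^ 2 + 2 * c * d - d ^ 2 := by linear_combination F.h134
  have G0 : b ^ 2 + 2 * b * c - 2 * b * d + c ^ 2 - 2 * c * d + d ^ 2 = 0 := by
    have h : a * (b ^ 2 + 2 * b * c - 2 * b * d + c ^ 2 - 2 * c * d + d ^ 2) = 0 := by
      linear_combination (-1 / 2) * M5 +
      (-1 / 2) * M2 +
      (1 / 2) * M1 +
      (1 / 2) * M3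
    exact (mul_eq_zero.1 h).resolve_left ha.ne'
  have G1 : a ^ 2 - 2 * a * d - 3 * b * c + d ^ 2 = 0 := by
    have h : a * (a ^ 2 - 2 * a * d - 3 * b * c + d ^ 2) = 0 := by
      linear_combination (-a) * G0 +
      (1 / 2) * M0 +
      (-1) * M4
    exact (mul_eq_zero.1 h).resolve_left ha.ne'
  have G2 : a - b - c = 0 := by
    have h : (4 * a * b - b ^ 2) * (a - b - c) = 0 := by
      linear_combination (9 / 4 * a - 1 / 2 * b - 5 / 8 * c + 3 / 8 * d) * G1 +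
      (1 / 8) * M5 +
      (-1 / 4 * a - 3 / 8 * b - 1 / 8 * c - 3 / 8 * d) * G0 +
      (-7 / 8) * M2 +
      (1) * M4 +
      (-1 / 8) * M7 +
      (-9 / 16) * M6
    exact (mul_eq_zero.1 h).resolve_left Hh013.ne'
  have hz : -b ^ 2 + 2 * b * c + 2 * b * d - c ^ 2 + 2 * c * d - d ^ 2 = 0 := by
    linear_combination (1 / 3) * G0 +
      (-4 / 3) * G1 +
      (4 / 3 * a + 4 / 3 * b + 4 / 3 * c - 8 / 3 * d) * G2
  exact Hh134.ne' hz

/-- pattern 0000121233 -/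
theorem k5p22 : ¬ Realk 5 0 457510912 := by
  intro h
  obtain ⟨x, F⟩ := five_of_realk h
  exact k5p22_aux (F : Five (x 0) (x 0) (x 0) (x 0) (x 1) (x 2) (x 1) (x 2) (x 3) (x 3))

theorem k5p25_aux {a b c d : ℝ} (F : Five a a a a b c d b d b) : False := by
  have M0 : -a ^ 3 + a ^ 2 * c + a ^ 2 * d - 2 * a * b ^ 2 + a * b * c + 2 * a * b * d - a * c * d = 0 := by linear_combination F.m123_124
  have M1 : -a ^ 2 * b - 2 * a * b ^ 2 - a * b * c + 3 * a * b * d + b ^ 2 * c - b * c * d = 0 := by linear_combination F.m123_134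
  have M2 : -2 * a ^ 3 + 2 * a ^ 2 * b + 4 * a ^ 2 * d - 2 * a * b ^ 2 + 4 * a * b * d - 2 * a * d ^ 2 = 0 := by linear_combination F.m124_124
  have M3 : -a ^ 3 + a ^ 2 * b + a ^ 2 * c + 2 * a ^ 2 * d - 2 * a * b * c + 3 * a * b * d - 2 * a * c * d - a * d ^ 2 + b ^ 2 * c - 2 * b * c * d + c * d ^ 2 = 0 := by linear_combination F.m124_134
  have M4 : a ^ 3 - 2 * a ^ 2 * b + a ^ 2 * c - 3 * a ^ 2 * d + 2 * a * b ^ 2 - a * b * c - a * c * d + 2 * a * d ^ 2 = 0 := by linear_combination F.m124_234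
  have M5 : a ^ 3 - 3 * a ^ 2 * b - a ^ 2 * c - 2 * a ^ 2 * d + 2 * a * b ^ 2 + 2 * a * b * c + a * b * d + 2 * a * c * d + a * d ^ 2 - b ^ 2 * c - c * d ^ 2 = 0 := by linear_combination F.m134_234
  have Hh134 : 0 < 3 * b ^ 2 := by linear_combination F.h134
  have Hh023 : 0 < 4 * a * c - c ^ 2 := by linear_combination F.h023
  have G0 : 4 * a - c = 0 := by
    have h : (3 * b ^ 2) * (4 * a - c) = 0 := by
      linear_combination (-3) * M1 +
      (3 / 2) * M2 +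
      (3 / 2) * M4 +
      (3 / 2) * M5 +
      (-3 / 2) * M0 +
      (3 / 2) * M3
    exact (mul_eq_zero.1 h).resolve_left Hh134.ne'
  have hz : 4 * a * c - c ^ 2 = 0 := by
    linear_combination (c) * G0
  exact Hh023.ne' hz

/-- pattern 0000123131 -/
theorem k5p25 : ¬ Realk 5 0 187502592 := by
  intro h
  obtain ⟨x, F⟩ := five_of_realk h
  exact k5p25_aux (F : Five (x 0) (x 0) (x 0) (x 0) (x 1) (x 2) (x 3) (x 1) (x 3) (x 1))

theorem k5p26_aux {a b c d : ℝ} (F : Five a a a b b b b c d c) : False := by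
  have hb : 0 < b := F.q03
  have M0 : -2 * a ^ 3 + 6 * a ^ 2 * b = 0 := by linear_combination F.m123_123
  have M1 : -2 * a ^ 3 + 4 * a ^ 2 * b - 2 * a ^ 2 * c + a ^ 2 * d = 0 := by linear_combination F.m123_124
  have M2 : -a ^ 2 * d - 2 * a * b ^ 2 - 2 * a * b * c + 4 * a * b * d = 0 := by linear_combination F.m123_134
  have M3 : 2 * a ^ 2 * c - a ^ 2 * d + 2 * a * b ^ 2 - 4 * a * b * c + 2 * a * b * d = 0 := by linear_combination F.m123_234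
  have M4 : -2 * a ^ 2 * c + 6 * a * b * c - 2 * b ^ 3 + 4 * b ^ 2 * c - 2 * b * c ^ 2 = 0 := by linear_combination F.m134_134
  have Hh012 : 0 < 3 * a ^ 2 := by linear_combination F.h012
  have Hh234 : 0 < -b ^ 2 + 2 * b * c + 2 * b * d - c ^ 2 + 2 * c * d - d ^ 2 := by linear_combination F.h234
  have G0 : 2 * b + 2 * c - d = 0 := by
    have h : (3 * a ^ 2) * (2 * b + 2 * c - d) = 0 := by
      linear_combination (3) * M0 +
      (-3) * M1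
    exact (mul_eq_zero.1 h).resolve_left Hh012.ne'
  have G1 : 2 * c - d = 0 := by
    have h : (-b ^ 2 + 2 * b * c + 2 * b * d - c ^ 2 + 2 * c * d - d ^ 2) * (2 * c - d) = 0 := by
      linear_combination (2 * a * b - b ^ 2 + 2 * b * c - c ^ 2 + 2 * c * d - d ^ 2) * G0 +
      (-1) * M4 +
      (1) * M2 +
      (-1) * M3
    exact (mul_eq_zero.1 h).resolve_left Hh234.ne'
  have hz : b = 0 := by
    linear_combination (1 / 2) * G0 +
      (-1 / 2) * G1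
  exact hb.ne' hz

/-- pattern 0001111232 -/
theorem k5p26 : ¬ Realk 5 0 323260928 := by
  intro h
  obtain ⟨x, F⟩ := five_of_realk h
  exact k5p26_aux (F : Five (x 0) (x 0) (x 0) (x 1) (x 1) (x 1) (x 1) (x 2) (x 3) (x 2))

theorem k5p28_aux {a b c d : ℝ} (F : Five a a a b b c b c d c) : False := by
  have M0 : -2 * a ^ 3 + 4 * a ^ 2 * b + 2 * a ^ 2 * c - 2 * a * b ^ 2 + 4 * a * b * c - 2 * a * c ^ 2 = 0 := by linear_combination F.m123_123
  have M1 : -2 * a ^ 3 + 3 * a ^ 2 * b - a ^ 2 * c + a ^ 2 * d - a * b ^ 2 + 2 * a * b * d + a * c ^ 2 - 2 * a * c * d = 0 := by linear_combination F.m123_124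
  have M2 : -a ^ 2 * b + a ^ 2 * c - a ^ 2 * d + a * b ^ 2 - 6 * a * b * c + 4 * a * b * d + a * c ^ 2 = 0 := by linear_combination F.m123_134
  have M3 : -a ^ 2 * b + 3 * a ^ 2 * c - a ^ 2 * d + 2 * a * b ^ 2 - 2 * a * b * c + a * b * d - 2 * a * c ^ 2 + a * c * d - b ^ 3 + 3 * b ^ 2 * c - 3 * b * c ^ 2 + c ^ 3 = 0 := by linear_combination F.m123_234
  have M4 : -a ^ 2 * b + 3 * a ^ 2 * c - a ^ 2 * d + 3 * a * b * d - 2 * a * c ^ 2 - a * c * d - b ^ 3 + 3 * b ^ 2 * c - 3 * b * c ^ 2 + c ^ 3 = 0 := by linear_combination F.m124_134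
  have M5 : -a ^ 2 * b + a ^ 2 * c - a ^ 2 * d + 2 * a * b ^ 2 - 3 * a * b * c + 2 * a * b * d + a * c ^ 2 - 3 * a * c * d + a * d ^ 2 - b ^ 3 + 2 * b ^ 2 * c + b ^ 2 * d - b * c ^ 2 - 2 * b * c * d + c ^ 2 * d = 0 := by linear_combination F.m124_234
  have M6 : -2 * a ^ 2 * c + a * b * c + a * c ^ 2 + a * c * d - 3 * b ^ 2 * c + 2 * b ^ 2 * d + 4 * b * c ^ 2 - 2 * b * c * d - c ^ 3 = 0 := by linear_combination F.m134_234
  have M7 : -2 * a ^ 2 * c + 4 * a * b * c + 2 * a * c * d - 2 * b ^ 2 * c + 6 * b * c * d - 2 * b * d ^ 2 - 2 * c ^ 2 * d = 0 := by linear_combination F.m234_234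
  have Hh012 : 0 < 3 * a ^ 2 := by linear_combination F.h012
  have Hh234 : 0 < 4 * c * d - d ^ 2 := by linear_combination F.h234
  have Hp1234 : 0 < -a ^ 2 * c ^ 2 + 2 * a * b * c * d + 2 * a * c ^ 3 - b ^ 2 * d ^ 2 + 2 * b * c ^ 2 * d - c ^ 4 := by linear_combination F.p1234
  have G0 : 3 * a - 5 * b - d = 0 := by
    have h : (3 * a ^ 2) * (3 * a - 5 * b - d) = 0 := by
      linear_combination (-3 / 2) * M0 +
      (-3) * M1 +
      (3) * M4 +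
      (-3) * M3
    exact (mul_eq_zero.1 h).resolve_left Hh012.ne'
  have G1 : b - d = 0 := by
    have h : (4 * c * d - d ^ 2) * (b - d) = 0 := by
      linear_combination (-3 / 8 * a ^ 2 + 1 / 6 * a * b - 7 / 4 * a * c + 53 / 24 * a * d + 5 / 24 * b ^ 2 + 7 / 12 * b * c - 3 / 2 * b * d - 55 / 24 * c ^ 2 + 4 * c * d - d ^ 2) * G0 +
      (221 / 48) * M2 +
      (23 / 8) * M0 +
      (125 / 24) * M5 +
      (15 / 4) * M7 +
      (-55 / 16) * M1 +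
      (-25 / 4) * M6 +
      (-25 / 4) * M3
    exact (mul_eq_zero.1 h).resolve_left Hh234.ne'
  have hz : -a ^ 2 * c ^ 2 + 2 * a * b * c * d + 2 * a * c ^ 3 - b ^ 2 * d ^ 2 + 2 * b * c ^ 2 * d - c ^ 4 = 0 := by
    linear_combination (-1 / 12 * a ^ 3 + 7 / 12 * a ^ 2 * c + 35 / 12 * a * b ^ 2 - 2 * a * b * c - 5 / 4 * a * c ^ 2 - 25 / 6 * b ^ 3 - 1 / 6 * b ^ 2 * c - 7 / 6 * b * c ^ 2 - 1 / 2 * c ^ 3) * G1 +
      (1 / 8 * a + 3 / 4 * c) * M0 +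
      (1 / 12 * a ^ 3 + 5 / 12 * a ^ 2 * c + 1 / 12 * a * b ^ 2 - a * b * c + 1 / 4 * a * c ^ 2 - 5 / 6 * b ^ 3 + 1 / 6 * b ^ 2 * c + b ^ 2 * d - 5 / 6 * b * c ^ 2 + 1 / 2 * c ^ 3) * G0 +
      (-c) * M3
  exact Hp1234.ne' hz

/-- pattern 0001121232 -/
theorem k5p28 : ¬ Realk 5 0 323293696 := by
  intro h
  obtain ⟨x, F⟩ := five_of_realk h
  exact k5p28_aux (F : Five (x 0) (x 0) (x 0) (x 1) (x 1) (x 2) (x 1) (x 2) (x 3) (x 2))

theorem k5p35_aux {a b c d : ℝ} (F : Five a a a b b c c d b c) : False := by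
  have ha : 0 < a := F.q01
  have M0 : -2 * a ^ 3 + 4 * a ^ 2 * b + 2 * a ^ 2 * c - 2 * a * b ^ 2 + 4 * a * b * c - 2 * a * c ^ 2 = 0 := by linear_combination F.m123_123
  have M1 : -2 * a ^ 3 + 3 * a ^ 2 * b - a ^ 2 * c + a ^ 2 * d + 2 * a * b ^ 2 - 3 * a * b * c - a * b * d + a * c ^ 2 + a * c * d = 0 := by linear_combination F.m123_124
  have M2 : -3 * a ^ 2 * b + a ^ 2 * c + a ^ 2 * d + 6 * a * b ^ 2 - 5 * a * b * c - a * b * d + a * c ^ 2 - a * c * d = 0 := by linear_combination F.m123_134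
  have M3 : -a ^ 2 * b + a ^ 2 * c + a ^ 2 * d + a * b ^ 2 + 3 * a * b * c - 2 * a * b * d - 2 * a * c * d - b ^ 2 * c + b ^ 2 * d + 2 * b * c ^ 2 - 2 * b * c * d - c ^ 3 + c ^ 2 * d = 0 := by linear_combination F.m123_234
  have M4 : -2 * a ^ 3 + 2 * a ^ 2 * b + 2 * a ^ 2 * c + 2 * a ^ 2 * d - 2 * a * b ^ 2 + 2 * a * b * c + 2 * a * b * d - 2 * a * c ^ 2 + 2 * a * c * d - 2 * a * d ^ 2 = 0 := by linear_combination F.m124_124
  have M5 : -3 * a ^ 2 * b + 3 * a ^ 2 * c + a ^ 2 * d + 2 * a * b ^ 2 + 2 * a * b * d - 2 * a * c ^ 2 - a * c * d - a * d ^ 2 - b * c ^ 2 + 2 * b * c * d - b * d ^ 2 + c ^ 3 - 2 * c ^ 2 * d + c * d ^ 2 = 0 := by linear_combination F.m124_134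
  have M6 : -a ^ 2 * b - a ^ 2 * c + a ^ 2 * d + 3 * a * b ^ 2 - a * b * c - 2 * a * b * d + b ^ 2 * c - b ^ 2 * d - 2 * b * c ^ 2 + 2 * b * c * d + c ^ 3 - c ^ 2 * d = 0 := by linear_combination F.m124_234
  have M7 : -2 * a ^ 2 * c - 2 * a * b ^ 2 + 6 * a * b * c + 2 * a * b * d - 2 * b * c ^ 2 + 4 * b * c * d - 2 * b * d ^ 2 = 0 := by linear_combination F.m134_134
  have M8 : -2 * a ^ 2 * c + a * b ^ 2 - a * b * c + a * b * d + 2 * a * c ^ 2 + 3 * b ^ 2 * c - 3 * b ^ 2 * d - 3 * b * c ^ 2 + 3 * b * c * d = 0 := by linear_combination F.m134_234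
  have M9 : -2 * a ^ 2 * c + 2 * a * b ^ 2 + 4 * a * c ^ 2 - 4 * b ^ 3 + 6 * b ^ 2 * c - 2 * c ^ 3 = 0 := by linear_combination F.m234_234
  have Hh134 : 0 < -b ^ 2 + 2 * b * c + 2 * b * d - c ^ 2 + 2 * c * d - d ^ 2 := by linear_combination F.h134
  have Hp0234 : 0 < -a ^ 2 * c ^ 2 + 2 * a * b ^ 2 * c + 2 * a * c ^ 3 - b ^ 4 + 2 * b ^ 2 * c ^ 2 - c ^ 4 := by linear_combination F.p0234
  have G0 : 2 * b ^ 2 + 2 * b * c - 3 * b * d - 2 * c * d + d ^ 2 = 0 := by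
    have h : a * (2 * b ^ 2 + 2 * b * c - 3 * b * d - 2 * c * d + d ^ 2) = 0 := by
      linear_combination (-1 / 2) * M4 +
      (1 / 2) * M6 +
      (1 / 2) * M0 +
      (1 / 2) * M3
    exact (mul_eq_zero.1 h).resolve_left ha.ne'
  have G1 : 6 * a * d + 34 * b * c - 19 * b * d - 6 * c ^ 2 - 10 * c * d + d ^ 2 = 0 := by
    have h : a * (6 * a * d + 34 * b * c - 19 * b * d - 6 * c ^ 2 - 10 * c * d + d ^ 2) = 0 := by
      linear_combination (-3) * M2 +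
      (-1) * M1 +
      (5) * M4 +
      (-4) * M0 +
      (11 * a) * G0
    exact (mul_eq_zero.1 h).resolve_left ha.ne'
  have G2 : b - d = 0 := by
    have h : (-b ^ 2 + 2 * b * c + 2 * b * d - c ^ 2 + 2 * c * d - d ^ 2) * (b - d) = 0 := by
      linear_combination (-1 / 25 * a - 9 / 50 * b + 4 / 25 * c + 51 / 50 * d) * G0 +
      (6 / 25) * M7 +
      (-2 / 25 * a + 1 / 10 * b - 2 / 25 * c - 1 / 50 * d) * G1 +
      (2 / 5) * M6 +
      (4 / 25) * M9 +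
      (-4 / 5) * M8 +
      (-6 / 25) * M5 +
      (8 / 25) * M3
    exact (mul_eq_zero.1 h).resolve_left Hh134.ne'
  have hz : -a ^ 2 * c ^ 2 + 2 * a * b ^ 2 * c + 2 * a * c ^ 3 - b ^ 4 + 2 * b ^ 2 * c ^ 2 - c ^ 4 = 0 := by
    linear_combination (9 / 2 * a ^ 3 - 33 / 4 * a ^ 2 * b + 77 / 12 * a ^ 2 * c + 9 / 2 * a ^ 2 * d - 31 / 6 * a * b * c + 23 / 12 * a * b * d - 117 / 8 * a * c * d - b ^ 3 + 51 * b ^ 2 * c + 107 / 18 * b * c * d + 92 / 9 * c ^ 2 * d + 443 / 36 * c * d ^ 2 - 463 / 72 * d ^ 3) * G2 +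
      (-1 / 12 * a ^ 2 + 1 / 6 * a * c - 1 / 3 * a * d - 3 / 2 * b ^ 2 + 17 / 9 * b * d + 1 / 6 * c ^ 2 - 5 / 9 * c * d) * G1 +
      (2 / 3 * a * b - 5 / 24 * a * c + 1 / 3 * a * d - 59 / 4 * b * d - 17 / 6 * c ^ 2 - 463 / 72 * d ^ 2) * G0 +
      (2 / 3 * b) * M7 +
      (-d) * M0 +
      (22 / 3 * d) * M3 +
      (9 / 4 * a) * M6 +
      (3 / 4 * a) * M5
  exact Hp0234.ne' hz

/-- pattern 0001122312 -/
theorem k5p35 : ¬ Realk 5 0 292098560 := by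
  intro h
  obtain ⟨x, F⟩ := five_of_realk h
  exact k5p35_aux (F : Five (x 0) (x 0) (x 0) (x 1) (x 1) (x 2) (x 2) (x 3) (x 1) (x 2))

theorem k5p37_aux {a b c d : ℝ} (F : Five a a a b b c c d d c) : False := by
  have M0 : -2 * a ^ 3 + 4 * a ^ 2 * b + 2 * a ^ 2 * c - 2 * a * b ^ 2 + 4 * a * b * c - 2 * a * c ^ 2 = 0 := by linear_combination F.m123_123
  have M1 : -2 * a ^ 3 + 2 * a ^ 2 * b - a ^ 2 * c + 2 * a ^ 2 * d - a * b * c + a * b * d + a * c ^ 2 - a * c * d = 0 := by linear_combination F.m123_124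
  have M2 : -2 * a ^ 2 * b + a ^ 2 * c + 2 * a * b ^ 2 - 5 * a * b * c + 3 * a * b * d + a * c ^ 2 - a * c * d = 0 := by linear_combination F.m123_134
  have M3 : -2 * a ^ 3 + 2 * a ^ 2 * c + 4 * a ^ 2 * d - 2 * a * c ^ 2 + 4 * a * c * d - 2 * a * d ^ 2 = 0 := by linear_combination F.m124_124
  have M4 : -2 * a ^ 2 * b + 3 * a ^ 2 * c + a * b * c + 3 * a * b * d - 2 * a * c ^ 2 - 2 * a * c * d - b * c ^ 2 + 2 * b * c * d - b * d ^ 2 + c ^ 3 - 2 * c ^ 2 * d + c * d ^ 2 = 0 := by linear_combination F.m124_134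
  have M5 : -a ^ 2 * c + a * b * c + a * b * d - 2 * a * c * d - b * c ^ 2 + 2 * b * c * d - b * d ^ 2 + c ^ 3 - 2 * c ^ 2 * d + c * d ^ 2 = 0 := by linear_combination F.m124_234
  have M6 : -2 * a ^ 2 * c - a * b * c + 2 * a * b * d + 2 * a * c ^ 2 + b ^ 2 * c - b ^ 2 * d - 3 * b * c ^ 2 + 5 * b * c * d - 2 * b * d ^ 2 = 0 := by linear_combination F.m134_234
  have M7 : -2 * a ^ 2 * c + 2 * a * b * d + 4 * a * c ^ 2 - 2 * b ^ 2 * d + 6 * b * c * d - 2 * b * d ^ 2 - 2 * c ^ 3 = 0 := by linear_combination F.m234_234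
  have Hh012 : 0 < 3 * a ^ 2 := by linear_combination F.h012
  have Hp0234 : 0 < -a ^ 2 * c ^ 2 + 2 * a * b * c * d + 2 * a * c ^ 3 - b ^ 2 * d ^ 2 + 2 * b * c ^ 2 * d - c ^ 4 := by linear_combination F.p0234
  have G0 : b - d = 0 := by
    have h : (3 * a ^ 2) * (b - d) = 0 := by
      linear_combination (3 / 2) * M0 +
      (-3 / 2) * M1 +
      (-3 / 2) * M4 +
      (3 / 2) * M5 +
      (3 / 2) * M2
    exact (mul_eq_zero.1 h).resolve_left Hh012.ne'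
  have hz : -a ^ 2 * c ^ 2 + 2 * a * b * c * d + 2 * a * c ^ 3 - b ^ 2 * d ^ 2 + 2 * b * c ^ 2 * d - c ^ 4 = 0 := by
    linear_combination (-4 / 9 * a ^ 3 + 4 / 9 * a ^ 2 * b - 2 / 9 * a ^ 2 * c + 8 / 9 * a ^ 2 * d - 2 / 9 * a * b * c + 2 / 9 * a * b * d + 2 / 9 * a * c ^ 2 + 8 / 9 * a * c * d - 4 / 9 * a * d ^ 2 + 2 / 3 * b * c * d - 2 / 3 * b * d ^ 2) * G0 +
      (1 / 2 * c) * M7 +
      (-2 / 9 * b) * M1 +
      (2 / 9 * d) * M3 +
      (1 / 3 * d) * M6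
  exact Hp0234.ne' hz

/-- pattern 0001122332 -/
theorem k5p37 : ¬ Realk 5 0 325652992 := by
  intro h
  obtain ⟨x, F⟩ := five_of_realk h
  exact k5p37_aux (F : Five (x 0) (x 0) (x 0) (x 1) (x 1) (x 2) (x 2) (x 3) (x 3) (x 2))

end CR
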