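import Pool.Agent.Lib.MP_6f5d36_co.K5.Five

set_option autoImplicit false

/-!
# MP_6f5d36_co : forbidden patterns of five points, part 5
-/

namespace CR

theorem k5p0_aux {a b c d e f g : ℝ} (F : Five a a b a c d a e f g) : False := by
  have M0 : -2 * a * b ^ 2 + 2 * a * b * c + 2 * a * b * d + 2 * a * b * e + 2 * a * b * f - 4 * a * b * g - 2 * a * c * e + 2 * a * c * f + 2 * a * d * e - 2 * a * d * f + b ^ 2 * g - b * c * f - b * d * e = 0 := by linear_combination F.m123_124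
  have M1 : -2 * a * b * c + 2 * a * b * e - 2 * a * b * g + 2 * a * c ^ 2 - 2 * a * c * d - 2 * a * c * e + 4 * a * c * f - 2 * a * c * g - 2 * a * d * e + 2 * a * d * g + b * c * g - c ^ 2 * f + c * d * e = 0 := by linear_combination F.m123_134
  have M2 : 2 * a * b * d - 2 * a * b * f + 2 * a * b * g + 2 * a * c * d + 2 * a * c * f - 2 * a * c * g - 2 * a * d ^ 2 - 4 * a * d * e + 2 * a * d * f + 2 * a * d * g - b * d * g - c * d * f + d ^ 2 * e = 0 := by linear_combination F.m123_234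
  have M3 : -2 * a * b * c + 2 * a * b * e + 2 * a * b * g + 2 * a * c * e + 2 * a * c * f - 4 * a * d * e - 2 * a * e ^ 2 + 2 * a * e * f + 2 * a * e * g - 2 * a * f * g - b * e * g - c * e * f + d * e ^ 2 = 0 := by linear_combination F.m124_134
  have M4 : 2 * a * b * d - 2 * a * b * f - 2 * a * b * g + 4 * a * c * f - 2 * a * d * e - 2 * a * d * f - 2 * a * e * f + 2 * a * e * g + 2 * a * f ^ 2 - 2 * a * f * g + b * f * g - c * f ^ 2 + d * e * f = 0 := by linear_combination F.m124_234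
  have M5 : -4 * a * b * g - 2 * a * c * d + 2 * a * c * f + 2 * a * c * g + 2 * a * d * e + 2 * a * d * g - 2 * a * e * f + 2 * a * e * g + 2 * a * f * g - 2 * a * g ^ 2 + b * g ^ 2 - c * f * g - d * e * g = 0 := by linear_combination F.m134_234
  have M6 : -2 * a * d ^ 2 + 4 * a * d * f + 4 * a * d * g - 2 * a * f ^ 2 + 4 * a * f * g - 2 * a * g ^ 2 - 2 * d * f * g = 0 := by linear_combination F.m234_234
  have Hp1234 : 0 < -b ^ 2 * g ^ 2 + 2 * b * c * f * g + 2 * b * d * e * g - c ^ 2 * f ^ 2 + 2 * c * d * e * f - d ^ 2 * e ^ 2 := by linear_combination F.p1234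
  have hz : -b ^ 2 * g ^ 2 + 2 * b * c * f * g + 2 * b * d * e * g - c ^ 2 * f ^ 2 + 2 * c * d * e * f - d ^ 2 * e ^ 2 = 0 := by
    linear_combination (-2 * g) * M0 +
      (b - 3 * d) * M5 +
      (e - 3 * g) * M2 +
      (3 * c) * M6 +
      (2 * f) * M1 +
      (-c) * M4 +
      (-2 * d) * M3
  exact Hp1234.ne' hz

/-- pattern 0010230456 -/
theorem k5p0 : ¬ Realk 5 0 897687616 := by
  intro h
  obtain ⟨x, F⟩ := five_of_realk h
  exact k5p0_aux (F : Five (x 0) (x 0) (x 1) (x 0) (x 2) (x 3) (x 0) (x 4) (x 5) (x 6))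

theorem k5p14_aux {a b c d e : ℝ} (F : Five a a b b c d b d e a) : False := by
  have ha : 0 < a := F.q01
  have hb : 0 < b := F.q12
  have M0 : -2 * a ^ 2 * b + 4 * a * b ^ 2 + 2 * a * b * c + 2 * a * b * d - 2 * a * c ^ 2 + 4 * a * c * d - 2 * a * d ^ 2 - 4 * b ^ 3 + 2 * b ^ 2 * c + 2 * b ^ 2 * d - 2 * b * c * d = 0 := by linear_combination F.m123_123
  have M1 : -6 * a ^ 2 * b + 5 * a * b ^ 2 + a * b * c + 2 * a * b * d + a * b * e - 2 * a * c * d + 2 * a * c * e + 2 * a * d ^ 2 - 2 * a * d * e - 4 * b ^ 3 + b ^ 2 * c + 2 * b ^ 2 * d + b ^ 2 * e - b * c * e - b * d ^ 2 = 0 := by linear_combination F.m123_124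
  have M2 : -a ^ 2 * b - 3 * a ^ 2 * c + 4 * a ^ 2 * d - a ^ 2 * e - a * b ^ 2 + 3 * a * b * c - 4 * a * b * d + 2 * a * b * e + a * c ^ 2 - 2 * a * c * d + 2 * a * c * e - a * d ^ 2 - 3 * b ^ 2 * c + 4 * b ^ 2 * d - b ^ 2 * e + b * c ^ 2 - 2 * b * c * d + 2 * b * c * e - b * d ^ 2 - c ^ 2 * e + c * d ^ 2 = 0 := by linear_combination F.m123_134
  have M3 : a ^ 2 * b - 3 * a ^ 2 * c + 4 * a ^ 2 * d - a ^ 2 * e + a * b ^ 2 + 2 * a * b * c - 5 * a * b * d + 2 * a * b * e + a * c * d + a * c * e - 3 * a * d ^ 2 + a * d * e - b ^ 2 * c + 4 * b ^ 2 * d - 3 * b ^ 2 * e + b * c * d + b * c * e - 3 * b * d ^ 2 + b * d * e - c * d * e + d ^ 3 = 0 := by linear_combination F.m123_234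
  have M4 : -2 * a ^ 2 * b + 4 * a * b ^ 2 + 2 * a * b * d + 2 * a * b * e - 2 * a * d ^ 2 + 4 * a * d * e - 2 * a * e ^ 2 - 4 * b ^ 3 + 2 * b ^ 2 * d + 2 * b ^ 2 * e - 2 * b * d * e = 0 := by linear_combination F.m124_124
  have M5 : a ^ 2 * b - a ^ 2 * c + 4 * a ^ 2 * d - 3 * a ^ 2 * e + a * b ^ 2 + 2 * a * b * c - 5 * a * b * d + 2 * a * b * e + a * c * d + a * c * e - 3 * a * d ^ 2 + a * d * e - 3 * b ^ 2 * c + 4 * b ^ 2 * d - b ^ 2 * e + b * c * d + b * c * e - 3 * b * d ^ 2 + b * d * e - c * d * e + d ^ 3 = 0 := by linear_combination F.m124_134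
  have M6 : -4 * a ^ 3 + 4 * a ^ 2 * b + 2 * a ^ 2 * c + 2 * a ^ 2 * d - 2 * a * b ^ 2 + 2 * a * b * c + 2 * a * b * d - 2 * a * c * d - 2 * b * c ^ 2 + 4 * b * c * d - 2 * b * d ^ 2 = 0 := by linear_combination F.m134_134
  have M7 : -4 * a ^ 3 + 4 * a ^ 2 * b + 2 * a ^ 2 * d + 2 * a ^ 2 * e - 2 * a * b ^ 2 + 2 * a * b * d + 2 * a * b * e - 2 * a * d * e - 2 * b * d ^ 2 + 4 * b * d * e - 2 * b * e ^ 2 = 0 := by linear_combination F.m234_234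
  have Hp1234 : 0 < -a ^ 2 * b ^ 2 + 2 * a * b * c * e + 2 * a * b * d ^ 2 - c ^ 2 * e ^ 2 + 2 * c * d ^ 2 * e - d ^ 4 := by linear_combination F.p1234
  have G0 : 2 * b * c - 2 * b * e - c ^ 2 + c * d - d * e + e ^ 2 = 0 := by
    have h : (a + b) * (2 * b * c - 2 * b * e - c ^ 2 + c * d - d * e + e ^ 2) = 0 := by
      linear_combination (1 / 2) * M0 +
      (-1 / 2) * M5 +
      (1 / 2) * M3 +
      (-1 / 2) * M7 +
      (1 / 2) * M6 +
      (-1 / 2) * M4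
    exact (mul_eq_zero.1 h).resolve_left (add_pos ha hb).ne'
  have G1 : 2 * a * c - 2 * a * e - c ^ 2 + c * d - d * e + e ^ 2 = 0 := by
    have h : (a + b) * (2 * a * c - 2 * a * e - c ^ 2 + c * d - d * e + e ^ 2) = 0 := by
      linear_combination (1) * M5 +
      (-1) * M3 +
      (a + b) * G0
    exact (mul_eq_zero.1 h).resolve_left (add_pos ha hb).ne'
  have hz : -a ^ 2 * b ^ 2 + 2 * a * b * c * e + 2 * a * b * d ^ 2 - c ^ 2 * e ^ 2 + 2 * c * d ^ 2 * e - d ^ 4 = 0 := by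
    linear_combination (-d) * M3 +
      (-11 / 10 * a - 29 / 10 * b - 9 / 2 * c + 3 * d) * M1 +
      (-31 / 10 * a + 29 / 10 * b + 2 * c + 9 / 2 * d - 5 * e) * M0 +
      (a ^ 2 - 6 / 5 * a * b + 3 / 5 * a * c - 31 / 10 * a * d + 24 / 5 * b ^ 2 + 1 / 5 * b * c - 1 / 2 * b * d - c ^ 2 + 3 * c * d - d ^ 2) * G0 +
      (16 / 5 * b) * M6 +
      (-4 / 5 * a * b - 13 / 5 * a * c + 31 / 10 * a * d - 19 / 5 * b ^ 2 - 11 / 5 * b * c + 1 / 2 * b * d + c ^ 2 - 3 * c * d + d ^ 2) * G1 +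
      (15 / 2 * b + e) * M2
  exact Hp1234.ne' hz

/-- pattern 0011231340 -/
theorem k5p14 : ¬ Realk 5 0 73769536 := by
  intro h
  obtain ⟨x, F⟩ := five_of_realk h
  exact k5p14_aux (F : Five (x 0) (x 0) (x 1) (x 1) (x 2) (x 3) (x 1) (x 3) (x 4) (x 0))

theorem k5p20_aux {a b c d : ℝ} (F : Five a a a a b c b b c d) : False := by
  have hd : 0 < d := F.q34
  have M0 : -2 * a ^ 3 + 4 * a ^ 2 * b + 4 * a ^ 2 * c - 2 * a * b ^ 2 + 2 * a * b * c - 2 * a * c ^ 2 = 0 := by linear_combination F.m123_123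
  have M1 : -a ^ 3 + 2 * a ^ 2 * b + 3 * a ^ 2 * c - 3 * a ^ 2 * d - a * b ^ 2 + 3 * a * b * c - 2 * a * c ^ 2 = 0 := by linear_combination F.m123_124
  have M2 : -2 * a ^ 3 + 4 * a ^ 2 * b + 2 * a ^ 2 * c - 2 * a * b ^ 2 + 4 * a * b * c - 2 * a * c ^ 2 = 0 := by linear_combination F.m124_124
  have M3 : -a ^ 3 + 2 * a ^ 2 * b + a ^ 2 * c + a ^ 2 * d - a * b ^ 2 - a * b * c + 2 * a * b * d - 2 * a * c * d = 0 := by linear_combination F.m124_134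
  have M4 : a ^ 3 - 3 * a ^ 2 * b - a ^ 2 * d + 3 * a * b ^ 2 - 2 * a * b * c + a * b * d + a * c ^ 2 - a * c * d - b ^ 3 + 2 * b ^ 2 * c - b * c ^ 2 = 0 := by linear_combination F.m124_234
  have Hh024 : 0 < -a ^ 2 + 2 * a * b + 2 * a * c - b ^ 2 + 2 * b * c - c ^ 2 := by linear_combination F.h024
  have Hh012 : 0 < 3 * a ^ 2 := by linear_combination F.h012
  have G0 : a - b = 0 := by
    have h : (-a ^ 2 + 2 * a * b + 2 * a * c - b ^ 2 + 2 * b * c - c ^ 2) * (a - b) = 0 := by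
      linear_combination (1 / 2) * M3 +
      (1 / 2) * M0 +
      (-1) * M4 +
      (-1) * M2 +
      (1 / 2) * M1
    exact (mul_eq_zero.1 h).resolve_left Hh024.ne'
  have G1 : d = 0 := by
    have h : (3 * a ^ 2) * (d) = 0 := by
      linear_combination (1) * M0 +
      (a ^ 2 - a * b - a * c) * G0 +
      (-1) * M1
    exact (mul_eq_zero.1 h).resolve_left Hh012.ne'
  have hz : d = 0 := by
    linear_combination (1) * G1
  exact hd.ne' hz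

/-- pattern 0000121123 -/
theorem k5p20 : ¬ Realk 5 0 438636544 := by
  intro h
  obtain ⟨x, F⟩ := five_of_realk h
  exact k5p20_aux (F : Five (x 0) (x 0) (x 0) (x 0) (x 1) (x 2) (x 1) (x 1) (x 2) (x 3))

theorem k5p23_aux {a b c d : ℝ} (F : Five a a a a b c b d c d) : False := by
  have ha : 0 < a := F.q01
  have M0 : -2 * a ^ 3 + 4 * a ^ 2 * b + 4 * a ^ 2 * c - 2 * a * b ^ 2 + 2 * a * b * c - 2 * a * c ^ 2 = 0 := by linear_combination F.m123_123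
  have M1 : -a ^ 3 + 3 * a ^ 2 * c - a ^ 2 * d + a * b ^ 2 + 2 * a * b * c - 2 * a * b * d - 2 * a * c ^ 2 + a * c * d = 0 := by linear_combination F.m123_124
  have M2 : -a ^ 2 * b + 3 * a * b * c - 3 * a * b * d + b ^ 3 - 2 * b ^ 2 * c + b * c * d = 0 := by linear_combination F.m123_134
  have M3 : -a ^ 2 * c + 2 * a ^ 2 * d + 4 * a * b * c - 2 * a * b * d + a * c ^ 2 - 3 * a * c * d + b ^ 2 * c - 2 * b * c ^ 2 + c ^ 2 * d = 0 := by linear_combination F.m123_234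
  have M4 : -2 * a ^ 3 + 2 * a ^ 2 * b + 2 * a ^ 2 * c + 2 * a ^ 2 * d - 2 * a * b ^ 2 + 2 * a * b * c + 2 * a * b * d - 2 * a * c ^ 2 + 2 * a * c * d - 2 * a * d ^ 2 = 0 := by linear_combination F.m124_124
  have M5 : a ^ 3 - 3 * a ^ 2 * b - a ^ 2 * d + 3 * a * b ^ 2 + a * b * c - a * b * d + a * c ^ 2 - 4 * a * c * d + 2 * a * d ^ 2 - b ^ 3 + 3 * b ^ 2 * c - 2 * b * c ^ 2 - b * c * d + c ^ 2 * d = 0 := by linear_combination F.m124_234
  have M6 : -2 * a ^ 2 * b + 4 * a * b ^ 2 + 4 * a * b * d - 4 * b ^ 3 + 4 * b ^ 2 * d - 2 * b * d ^ 2 = 0 := by linear_combination F.m134_134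
  have M7 : a ^ 3 - 3 * a ^ 2 * b - a ^ 2 * c - 2 * a ^ 2 * d + 3 * a * b ^ 2 + 3 * a * b * c - a * b * d + 2 * a * c * d + a * d ^ 2 - b ^ 3 - 2 * b ^ 2 * c + b ^ 2 * d + b * c * d - c * d ^ 2 = 0 := by linear_combination F.m134_234
  have Hp0134 : 0 < 4 * a * b ^ 2 * d - b ^ 4 := by linear_combination F.p0134
  have G0 : 2 * b ^ 2 + b * c - 4 * b * d - c ^ 2 + 2 * c * d - d ^ 2 = 0 := by
    have h : a * (2 * b ^ 2 + b * c - 4 * b * d - c ^ 2 + 2 * c * d - d ^ 2) = 0 := by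
      linear_combination (5 / 2) * M1 +
      (-3 / 2) * M5 +
      (-3 / 2) * M2 +
      (-1) * M0 +
      (3 / 2) * M3 +
      (-1) * M4
    exact (mul_eq_zero.1 h).resolve_left ha.ne'
  have hz : 4 * a * b ^ 2 * d - b ^ 4 = 0 := by
    linear_combination (-5 / 73 * a + 163 / 438 * b) * M4 +
      (5 / 146 * d) * M3 +
      (70 / 219 * a ^ 2 - 68 / 219 * a * b - 40 / 219 * a * c + 22 / 73 * b ^ 2 - 16 / 73 * b * d) * G0 +
      (31 / 73 * b - 27 / 146 * c + 4 / 73 * d) * M2 +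
      (-26 / 219 * a - 113 / 219 * b + 19 / 146 * c - 25 / 219 * d) * M1 +
      (37 / 73 * b - 14 / 73 * c + 8 / 73 * d) * M6 +
      (28 / 219 * a + 16 / 219 * b - 17 / 438 * c + 7 / 146 * d) * M0 +
      (5 / 146 * c) * M7
  exact Hp0134.ne' hz

/-- pattern 0000121323 -/
theorem k5p23 : ¬ Realk 5 0 442830848 := by
  intro h
  obtain ⟨x, F⟩ := five_of_realk h
  exact k5p23_aux (F : Five (x 0) (x 0) (x 0) (x 0) (x 1) (x 2) (x 1) (x 3) (x 2) (x 3))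

theorem k5p27_aux {a b c d : ℝ} (F : Five a a a b b c b c c d) : False := by
  have hd : 0 < d := F.q34
  have M0 : -a ^ 2 * b + a ^ 2 * c + a ^ 2 * d + 2 * a * b ^ 2 - a * b * d - 2 * a * c ^ 2 + a * c * d - b ^ 3 + 3 * b ^ 2 * c - 3 * b * c ^ 2 + c ^ 3 = 0 := by linear_combination F.m123_234
  have M1 : -a ^ 2 * b + a ^ 2 * c - a ^ 2 * d + 2 * a * b ^ 2 - a * b * d - 2 * a * c ^ 2 + a * c * d - b ^ 3 + 3 * b ^ 2 * c - 3 * b * c ^ 2 + c ^ 3 = 0 := by linear_combination F.m124_234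
  have Hh012 : 0 < 3 * a ^ 2 := by linear_combination F.h012
  have G0 : d = 0 := by
    have h : (3 * a ^ 2) * (d) = 0 := by
      linear_combination (3 / 2) * M0 +
      (-3 / 2) * M1
    exact (mul_eq_zero.1 h).resolve_left Hh012.ne'
  have hz : d = 0 := by
    linear_combination (1) * G0
  exact hd.ne' hz

/-- pattern 0001121223 -/
theorem k5p27 : ¬ Realk 5 0 440734208 := by
  intro h
  obtain ⟨x, F⟩ := five_of_realk h
  exact k5p27_aux (F : Five (x 0) (x 0) (x 0) (x 1) (x 1) (x 2) (x 1) (x 2) (x 2) (x 3))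

theorem k5p41_aux {a b c d : ℝ} (F : Five a a b b b c b c d c) : False := by
  have hb : 0 < b := F.q12
  have M0 : -2 * a ^ 2 * b + 4 * a * b ^ 2 + 6 * a * b * c - 2 * a * c ^ 2 - 2 * b ^ 3 = 0 := by linear_combination F.m123_123
  have M1 : -2 * a ^ 2 * b + 5 * a * b ^ 2 - 4 * a * b * c + 3 * a * b * d + 2 * a * c ^ 2 - 2 * a * c * d - 3 * b ^ 3 + 3 * b ^ 2 * c - b * c ^ 2 = 0 := by linear_combination F.m123_124
  have M2 : -a ^ 2 * b + 2 * a ^ 2 * c - a ^ 2 * d + 3 * a * b ^ 2 - 9 * a * b * c + 4 * a * b * d + a * c ^ 2 - 2 * b ^ 3 + 2 * b ^ 2 * c = 0 := by linear_combination F.m123_134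
  have M3 : -a ^ 2 * b + 2 * a ^ 2 * c - a ^ 2 * d + 2 * a * b ^ 2 - 4 * a * b * c + 3 * a * b * d - a * c ^ 2 + a * c * d - b ^ 3 + 6 * b ^ 2 * c - 2 * b ^ 2 * d - 4 * b * c ^ 2 + c ^ 3 = 0 := by linear_combination F.m123_234
  have M4 : -2 * a ^ 2 * b + 4 * a * b ^ 2 + 2 * a * b * c + 2 * a * b * d - 2 * a * c ^ 2 + 4 * a * c * d - 2 * a * d ^ 2 - 4 * b ^ 3 + 2 * b ^ 2 * c + 2 * b ^ 2 * d - 2 * b * c * d = 0 := by linear_combination F.m124_124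
  have M5 : -a ^ 2 * b + 2 * a ^ 2 * c - a ^ 2 * d + 2 * a * b ^ 2 - 2 * a * b * c + 3 * a * b * d - a * c ^ 2 - a * c * d - 3 * b ^ 3 + 6 * b ^ 2 * c - 4 * b * c ^ 2 + c ^ 3 = 0 := by linear_combination F.m124_134
  have M6 : -a ^ 2 * b + 2 * a ^ 2 * c - a ^ 2 * d + 2 * a * b ^ 2 - 5 * a * b * c + 4 * a * b * d + a * c ^ 2 - 4 * a * c * d + a * d ^ 2 - b ^ 3 + 3 * b ^ 2 * c - b ^ 2 * d - b * c ^ 2 - b * c * d + c ^ 2 * d = 0 := by linear_combination F.m124_234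
  have M7 : -2 * a ^ 2 * c + 6 * a * b * c - 2 * b ^ 3 + 4 * b ^ 2 * c - 2 * b * c ^ 2 = 0 := by linear_combination F.m134_134
  have M8 : -2 * a ^ 2 * c + 5 * a * b * c + a * c * d - 7 * b ^ 2 * c + 2 * b ^ 2 * d + 5 * b * c ^ 2 - 2 * b * c * d - c ^ 3 = 0 := by linear_combination F.m134_234
  have M9 : -2 * a ^ 2 * c + 4 * a * b * c + 2 * a * c * d - 2 * b ^ 2 * c + 6 * b * c * d - 2 * b * d ^ 2 - 2 * c ^ 2 * d = 0 := by linear_combination F.m234_234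
  have Hh014 : 0 < -a ^ 2 + 2 * a * b + 2 * a * c - b ^ 2 + 2 * b * c - c ^ 2 := by linear_combination F.h014
  have Hp0124 : 0 < -a ^ 2 * c ^ 2 + 2 * a ^ 2 * c * d - a ^ 2 * d ^ 2 + 2 * a * b ^ 2 * c + 2 * a * b ^ 2 * d - b ^ 4 := by linear_combination F.p0124
  have G0 : a ^ 2 - 3 * a * d - 36 * b * c + 14 * b * d + 19 * c ^ 2 - 21 * c * d + 6 * d ^ 2 = 0 := by
    have h : b * (a ^ 2 - 3 * a * d - 36 * b * c + 14 * b * d + 19 * c ^ 2 - 21 * c * d + 6 * d ^ 2) = 0 := by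
      linear_combination (-3) * M4 +
      (-1) * M0 +
      (-3 / 2) * M2 +
      (15 / 2) * M8 +
      (-6) * M6 +
      (1 / 2) * M3 +
      (-9 / 2) * M7 +
      (7 / 2) * M1 +
      (7) * M5 +
      (-3) * M9
    exact (mul_eq_zero.1 h).resolve_left hb.ne'
  have G1 : a - c = 0 := by
    have h : (-a ^ 2 + 2 * a * b + 2 * a * c - b ^ 2 + 2 * b * c - c ^ 2) * (a - c) = 0 := by
      linear_combination (4) * M5 +
      (-1) * M2 +
      (4) * M1 +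
      (3) * M8 +
      (-a) * G0 +
      (-3) * M4 +
      (-7 / 2) * M0 +
      (-3 / 2) * M7
    exact (mul_eq_zero.1 h).resolve_left Hh014.ne'
  have hz : -a ^ 2 * c ^ 2 + 2 * a ^ 2 * c * d - a ^ 2 * d ^ 2 + 2 * a * b ^ 2 * c + 2 * a * b ^ 2 * d - b ^ 4 = 0 := by
    linear_combination (-23 / 50 * a - 1 / 10 * b + 6 / 25 * d) * M0 +
      (1 / 6 * a ^ 3 + 37 / 25 * a ^ 2 * b + 11 / 50 * a ^ 2 * c - 1 / 2 * a ^ 2 * d - 94 / 25 * a * b ^ 2 + 16 / 5 * a * b * c - 74 / 75 * a * b * d - 76 / 75 * a * c ^ 2 + 8 / 25 * a * c * d + 6 / 5 * b ^ 3 - 2 / 5 * b ^ 2 * c - 12 / 25 * b ^ 2 * d + 4 / 25 * b * c * d) * G1 +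
      (-1 / 6 * a ^ 2 + 2 / 25 * a * b - 4 / 75 * a * c) * G0 +
      (31 / 25 * a + 2 / 5 * b - 4 / 25 * d) * M1
  exact Hp0124.ne' hz

/-- pattern 0011121232 -/
theorem k5p41 : ¬ Realk 5 0 323293760 := by
  intro h
  obtain ⟨x, F⟩ := five_of_realk h
  exact k5p41_aux (F : Five (x 0) (x 0) (x 1) (x 1) (x 1) (x 2) (x 1) (x 2) (x 3) (x 2))

theorem k5p43_aux {a b c d : ℝ} (F : Five a a b b c c d a c d) : False := by
  have M0 : -2 * a ^ 2 * b + 4 * a * b ^ 2 + 4 * a * b * c - 4 * b ^ 3 + 4 * b ^ 2 * c - 2 * b * c ^ 2 = 0 := by linear_combination F.m123_123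
  have M1 : -a ^ 2 * b + 3 * a * b ^ 2 + 2 * a * b * c - 2 * a * b * d - b ^ 3 + b ^ 2 * c - 2 * b ^ 2 * d - b * c ^ 2 + 2 * b * c * d = 0 := by linear_combination F.m123_124
  have M2 : a ^ 3 - 2 * a ^ 2 * b - 3 * a ^ 2 * c + 2 * a * b ^ 2 + 3 * a * c ^ 2 - b ^ 3 - 2 * b ^ 2 * c + 2 * b ^ 2 * d + 2 * b * c ^ 2 - c ^ 3 = 0 := by linear_combination F.m123_234
  have M3 : -2 * a ^ 2 * b + a ^ 2 * d + 2 * a * b * c + 3 * a * b * d - 2 * a * c * d + b ^ 2 * d - 3 * b * c * d + c ^ 2 * d = 0 := by linear_combination F.m124_134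
  have M4 : a ^ 3 - a ^ 2 * b - 3 * a ^ 2 * c + a ^ 2 * d + a * b ^ 2 - a * b * d + 3 * a * c ^ 2 - 2 * a * c * d - b ^ 2 * c - b ^ 2 * d + b * c ^ 2 + b * c * d - c ^ 3 + c ^ 2 * d = 0 := by linear_combination F.m124_234
  have M5 : -2 * a ^ 2 * d - 2 * a * b ^ 2 + 6 * a * b * d + 4 * a * c * d + 2 * b * c * d - 2 * b * d ^ 2 - 2 * c ^ 2 * d = 0 := by linear_combination F.m134_134
  have M6 : -2 * a ^ 2 * d + 2 * a * b * d + 4 * a * c * d - 2 * b ^ 2 * c + 6 * b * c * d - 2 * b * d ^ 2 - 2 * c ^ 2 * d = 0 := by linear_combination F.m234_234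
  have Hh012 : 0 < 4 * a * b - b ^ 2 := by linear_combination F.h012
  have Hh034 : 0 < -b ^ 2 + 4 * b * d := by linear_combination F.h034
  have Hh123 : 0 < -b ^ 2 + 4 * b * c := by linear_combination F.h123
  have Hh234 : 0 < 4 * c * d - d ^ 2 := by linear_combination F.h234
  have G0 : a - b - c = 0 := by
    have h : (4 * a * b - b ^ 2) * (a - b - c) = 0 := by
      linear_combination (1 / 2) * M0 +
      (-1) * M2 +
      (1) * M4 +
      (-2) * M1 +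
      (-1) * M3
    exact (mul_eq_zero.1 h).resolve_left Hh012.ne'
  have G1 : b - 8 * c + 2 * d = 0 := by
    have h : (-b ^ 2 + 4 * b * d) * (b - 8 * c + 2 * d) = 0 := by
      linear_combination (1 / 2) * M5 +
      (-8 * a * d + b ^ 2 - 2 * b * d + 8 * c * d) * G0 +
      (-9 / 2) * M6
    exact (mul_eq_zero.1 h).resolve_left Hh034.ne'
  have G2 : 4 * c - d = 0 := by
    have h : (-b ^ 2 + 4 * b * c) * (4 * c - d) = 0 := by
      linear_combination (1 / 4) * M0 +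
      (1 / 2 * a * b + 3 / 2 * b ^ 2 - 33 / 2 * b * c + 4 * b * d) * G0 +
      (-2 * a * b + 5 / 2 * b ^ 2) * G1
    exact (mul_eq_zero.1 h).resolve_left Hh123.ne'
  have hz : 4 * c * d - d ^ 2 = 0 := by
    linear_combination (d) * G2
  exact Hh234.ne' hz

/-- pattern 0011223023 -/
theorem k5p43 : ¬ Realk 5 0 437068352 := by
  intro h
  obtain ⟨x, F⟩ := five_of_realk h
  exact k5p43_aux (F : Five (x 0) (x 0) (x 1) (x 1) (x 2) (x 2) (x 3) (x 0) (x 2) (x 3))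

theorem k5p44_aux {a b c d : ℝ} (F : Five a a b c a d c b c b) : False := by
  have M0 : -2 * a ^ 3 + 4 * a ^ 2 * d + 6 * a * b * c - 2 * a * d ^ 2 - 2 * b ^ 2 * c - 2 * b * c ^ 2 + 2 * b * c * d = 0 := by linear_combination F.m123_123
  have M1 : -3 * a ^ 2 * b + 2 * a ^ 2 * c - 3 * a * b ^ 2 + 5 * a * b * c + 3 * a * b * d - 2 * a * c * d + b ^ 3 - b ^ 2 * c - b ^ 2 * d - b * c ^ 2 + b * c * d = 0 := by linear_combination F.m123_124
  have M2 : -2 * a ^ 2 * b + 3 * a ^ 2 * c - 5 * a * b * c + 2 * a * b * d + 3 * a * c ^ 2 - 3 * a * c * d + b ^ 2 * c + b * c ^ 2 - b * c * d - c ^ 3 + c ^ 2 * d = 0 := by linear_combination F.m123_134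
  have M3 : -2 * a ^ 2 * b + 10 * a * b * c - 2 * a * c ^ 2 - 2 * b ^ 2 * c = 0 := by linear_combination F.m124_124
  have M4 : -a ^ 3 + 2 * a ^ 2 * b + 2 * a ^ 2 * c + a ^ 2 * d + 2 * a * b ^ 2 - 5 * a * b * c - 2 * a * b * d + 2 * a * c ^ 2 - 2 * a * c * d - b ^ 3 + 2 * b ^ 2 * c + b ^ 2 * d + 2 * b * c ^ 2 - 2 * b * c * d - c ^ 3 + c ^ 2 * d = 0 := by linear_combination F.m124_134
  have M5 : -2 * a ^ 2 * c - 2 * a * b ^ 2 + 10 * a * b * c - 2 * b * c ^ 2 = 0 := by linear_combination F.m134_134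
  have Hp0123 : 0 < -a ^ 4 + 2 * a ^ 3 * d + 2 * a ^ 2 * b * c - a ^ 2 * d ^ 2 + 2 * a * b * c * d - b ^ 2 * c ^ 2 := by linear_combination F.p0123
  have Hp0234 : 0 < -a ^ 2 * b ^ 2 + 2 * a * b * c ^ 2 + 2 * a * b * c * d - c ^ 4 + 2 * c ^ 3 * d - c ^ 2 * d ^ 2 := by linear_combination F.p0234
  have Hp1234 : 0 < -a ^ 2 * c ^ 2 + 2 * a * b ^ 2 * c + 2 * a * b * c * d - b ^ 4 + 2 * b ^ 3 * d - b ^ 2 * d ^ 2 := by linear_combination F.p1234
  have G0 : 2 * a - d = 0 := by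
    have h : (-a ^ 4 + 2 * a ^ 3 * d + 2 * a ^ 2 * b * c - a ^ 2 * d ^ 2 + 2 * a * b * c * d - b ^ 2 * c ^ 2) * (2 * a - d) = 0 := by
      linear_combination (-a ^ 2 - a * b + 1 / 2 * a * c + a * d - 1 / 2 * c ^ 2) * M2 +
      (-1 / 2 * a ^ 2 + 1 / 2 * a * b + 1 / 2 * a * c + 1 / 2 * a * d + 1 / 2 * b ^ 2 - b * c - 1 / 2 * b * d - 1 / 2 * c ^ 2 + 1 / 2 * c * d) * M3 +
      (a ^ 2 + a * b - 3 / 2 * a * c - 1 / 2 * a * d + 1 / 2 * c ^ 2) * M0 +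
      (a * b + a * c + b * c - 1 / 2 * c ^ 2) * M1 +
      (a * b + 1 / 2 * c ^ 2) * M4 +
      (-a * b) * M5
    exact (mul_eq_zero.1 h).resolve_left Hp0123.ne'
  have G1 : 2 * c - d = 0 := by
    have h : (-a ^ 2 * b ^ 2 + 2 * a * b * c ^ 2 + 2 * a * b * c * d - c ^ 4 + 2 * c ^ 3 * d - c ^ 2 * d ^ 2) * (2 * c - d) = 0 := by
      linear_combination (54 * a * c - 8 * b * c - 8 * c ^ 2) * M1 +
      (52 * a ^ 3 * b - 78 * a ^ 3 * c - a ^ 2 * b ^ 2 + 140 * a ^ 2 * b * c - 48 * a ^ 2 * b * d - 86 * a ^ 2 * c ^ 2 + 78 * a ^ 2 * c * d - 30 * a * b ^ 2 * c + 8 * a * b ^ 2 * d - 30 * a * b * c ^ 2 - 6 * a * b * c * d + 18 * a * c ^ 3 - 12 * a * c ^ 2 * d + 8 * b ^ 2 * c ^ 2 - 3 * c ^ 4 + 4 * c ^ 3 * d - c ^ 2 * d ^ 2) * G0 +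
      (26 * a ^ 2 + 2 * c ^ 2) * M2 +
      (2 * a ^ 2 + 3 * a * b) * M3 +
      (24 * a * b - 39 * a * c - 4 * b ^ 2 + 4 * b * c + 5 * c ^ 2) * M0
    exact (mul_eq_zero.1 h).resolve_left Hp0234.ne'
  have hz : -a ^ 2 * c ^ 2 + 2 * a * b ^ 2 * c + 2 * a * b * c * d - b ^ 4 + 2 * b ^ 3 * d - b ^ 2 * d ^ 2 = 0 := by
    linear_combination (-1 / 2 * a ^ 3 - a ^ 2 * b - 1 / 2 * a ^ 2 * c + 1 / 2 * a * b ^ 2 + 1 / 2 * a * b * c + 1 / 2 * b ^ 3 + 1 / 2 * b ^ 2 * c) * G1 +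
      (1 / 2 * a ^ 3 + a ^ 2 * b + 1 / 2 * a ^ 2 * c - a ^ 2 * d - 3 / 2 * a * b ^ 2 + 1 / 2 * a * b * c - 2 * a * b * d - 3 / 2 * b ^ 3 + 1 / 2 * b ^ 2 * c + b ^ 2 * d) * G0 +
      (1 / 2 * a + b) * M0 +
      (-b) * M1
  exact Hp1234.ne' hz

/-- pattern 0012032121 -/
theorem k5p44 : ¬ Realk 5 0 170492992 := by
  intro h
  obtain ⟨x, F⟩ := five_of_realk h
  exact k5p44_aux (F : Five (x 0) (x 0) (x 1) (x 2) (x 0) (x 3) (x 2) (x 1) (x 2) (x 1))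

end CR
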