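import Pool.Agent.Lib.MP_6f5d36_co.K5.Five

set_option autoImplicit false

/-!
# MP_6f5d36_co : forbidden patterns of five points, weak part 1
-/

namespace CR

theorem k5w1_aux {a b c d : ℝ} (dbc : b ≠ c) (dbd : b ≠ d) (F : Five a a a a b b b c d b) : False := by
  have ha : 0 < a := F.q01
  have M0 : -2 * a ^ 3 + 8 * a ^ 2 * b - 2 * a * b ^ 2 = 0 := by linear_combination F.m123_123
  have M1 : -3 * a ^ 2 * b + 2 * a ^ 2 * c - 4 * a * b * c + 4 * a * b * d + b ^ 2 * c - b ^ 2 * d = 0 := by linear_combination F.m123_134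
  have M2 : 3 * a ^ 2 * b - 2 * a ^ 2 * d - 4 * a * b * c + 4 * a * b * d + b ^ 2 * c - b ^ 2 * d = 0 := by linear_combination F.m123_234
  have M3 : -2 * a ^ 3 + 2 * a ^ 2 * b + 2 * a ^ 2 * c + 2 * a ^ 2 * d - 2 * a * b ^ 2 + 2 * a * b * c + 2 * a * b * d - 2 * a * c ^ 2 + 2 * a * c * d - 2 * a * d ^ 2 = 0 := by linear_combination F.m124_124
  have Hh012 : 0 < 3 * a ^ 2 := by linear_combination F.h012
  have G0 : 3 * b - c - d = 0 := by
    have h : (3 * a ^ 2) * (3 * b - c - d) = 0 := by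
      linear_combination (-3 / 2) * M1 +
      (3 / 2) * M2
    exact (mul_eq_zero.1 h).resolve_left Hh012.ne'
  have G1 : 2 * c ^ 2 - 5 * c * d + 2 * d ^ 2 = 0 := by
    have h : a * (2 * c ^ 2 - 5 * c * d + 2 * d ^ 2) = 0 := by
      linear_combination (-3 * a ^ 2 + a * c + a * d) * G0 +
      (3 / 2) * M0 +
      (-3 / 2) * M3
    exact (mul_eq_zero.1 h).resolve_left ha.ne'
  have G2 : c - 2 * d = 0 := by
    have h : (b - c) * (c - 2 * d) = 0 := by
      linear_combination (-1 / 3) * G1 +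
      (1 / 3 * c - 2 / 3 * d) * G0
    exact (mul_eq_zero.1 h).resolve_left (sub_ne_zero.2 dbc)
  have hz : b - d = 0 := by
    linear_combination (1 / 3) * G0 +
      (1 / 3) * G2
  exact (sub_ne_zero.2 dbd) hz

/-- pattern 0000111231 -/
theorem k5w1 : ¬ Realk 5 4 189042688 := by
  intro h
  obtain ⟨x, hd, F⟩ := five_of_realk_ne h
  exact k5w1_aux (fun e => absurd (hd 1 2 (by norm_num) (by norm_num) e) (by norm_num)) (fun e => absurd (hd 1 3 (by norm_num) (by norm_num) e) (by norm_num)) (F : Five (x 0) (x 0) (x 0) (x 0) (x 1) (x 1) (x 1) (x 2) (x 3) (x 1))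

theorem k5w2_aux {a b c d : ℝ} (dbc : b ≠ c) (dbd : b ≠ d) (F : Five a a a a b b c a b d) : False := by
  have ha : 0 < a := F.q01
  have M0 : -2 * a ^ 3 + 8 * a ^ 2 * b - 2 * a * b ^ 2 = 0 := by linear_combination F.m123_123
  have M1 : a ^ 3 + 3 * a ^ 2 * b - a ^ 2 * c - 3 * a ^ 2 * d - a * b ^ 2 + 2 * a * b * c = 0 := by linear_combination F.m123_124
  have M2 : 2 * a ^ 3 - 5 * a ^ 2 * b - 2 * a ^ 2 * d + 5 * a * b ^ 2 - a * b * c + a * b * d - b ^ 3 = 0 := by linear_combination F.m123_134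
  have M3 : -5 * a ^ 2 * b + 2 * a ^ 2 * d + 5 * a * b ^ 2 + a * b * c - a * b * d - b ^ 3 = 0 := by linear_combination F.m123_234
  have M4 : -2 * a ^ 3 + 4 * a ^ 2 * b + 4 * a ^ 2 * c - 2 * a * b ^ 2 + 2 * a * b * c - 2 * a * c ^ 2 = 0 := by linear_combination F.m124_124
  have M5 : -2 * a ^ 3 + 2 * a ^ 2 * b + 3 * a ^ 2 * c + 2 * a ^ 2 * d - 3 * a * b * c - 2 * a * b * d - a * c ^ 2 + a * c * d + b ^ 2 * c = 0 := by linear_combination F.m124_134
  have M6 : a ^ 3 - 4 * a ^ 2 * b - 2 * a ^ 2 * c + a ^ 2 * d + 4 * a * b ^ 2 - a * b * d + a * c ^ 2 - a * c * d - b ^ 3 + b ^ 2 * c = 0 := by linear_combination F.m124_234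
  have M7 : -2 * a ^ 3 + 4 * a ^ 2 * d + 6 * a * b * c - 2 * a * d ^ 2 - 2 * b ^ 2 * c - 2 * b * c ^ 2 + 2 * b * c * d = 0 := by linear_combination F.m134_134
  have M8 : a ^ 3 - 3 * a ^ 2 * b - 2 * a ^ 2 * c + a * b ^ 2 + 5 * a * b * c + 3 * a * b * d + a * c ^ 2 - 2 * a * c * d - a * d ^ 2 - b ^ 2 * c - b ^ 2 * d - 2 * b * c ^ 2 + 2 * b * c * d = 0 := by linear_combination F.m134_234
  have M9 : -2 * a ^ 2 * b + 4 * a * b * c + 6 * a * b * d - 2 * a * d ^ 2 - 2 * b ^ 2 * d - 2 * b * c ^ 2 + 2 * b * c * d = 0 := by linear_combination F.m234_234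
  have G0 : b * d + 2 * c ^ 2 - 16 * c * d + 7 * d ^ 2 = 0 := by
    have h : a * (b * d + 2 * c ^ 2 - 16 * c * d + 7 * d ^ 2) = 0 := by
      linear_combination (2) * M0 +
      (-5) * M1 +
      (-1 / 2) * M2 +
      (-1 / 2) * M3 +
      (7 / 2) * M4 +
      (-1) * M5 +
      (1) * M6 +
      (-7 / 2) * M7 +
      (7) * M8 +
      (-7 / 2) * M9
    exact (mul_eq_zero.1 h).resolve_left ha.ne'
  have G1 : b * c + c ^ 2 - 9 * c * d + 4 * d ^ 2 = 0 := by
    have h : a * (b * c + c ^ 2 - 9 * c * d + 4 * d ^ 2) = 0 := by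
      linear_combination (1 / 4) * M3 +
      (-1 / 4) * M7 +
      (1 / 2) * M8 +
      (-1 / 4) * M9 +
      (1 / 2 * a) * G0 +
      (1 / 4) * M4 +
      (-1 / 4) * M2
    exact (mul_eq_zero.1 h).resolve_left ha.ne'
  have G2 : b ^ 2 + 3 * c ^ 2 - 24 * c * d + 11 * d ^ 2 = 0 := by
    have h : a * (b ^ 2 + 3 * c ^ 2 - 24 * c * d + 11 * d ^ 2) = 0 := by
      linear_combination (1 / 2) * M3 +
      (a) * G0 +
      (-1 / 2) * M4 +
      (-1 / 2) * M6 +
      (a) * G1 +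
      (1 / 2) * M5 +
      (1 / 2) * M1
    exact (mul_eq_zero.1 h).resolve_left ha.ne'
  have G3 : b - d = 0 := by
    have h : (b - c) * (b - d) = 0 := by
      linear_combination (-1) * G0 +
      (-1) * G1 +
      (1) * G2
    exact (mul_eq_zero.1 h).resolve_left (sub_ne_zero.2 dbc)
  have hz : b - d = 0 := by
    linear_combination (1) * G3
  exact (sub_ne_zero.2 dbd) hz

/-- pattern 0000112013 -/
theorem k5w2 : ¬ Realk 5 4 419991552 := by
  intro h
  obtain ⟨x, hd, F⟩ := five_of_realk_ne h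
  exact k5w2_aux (fun e => absurd (hd 1 2 (by norm_num) (by norm_num) e) (by norm_num)) (fun e => absurd (hd 1 3 (by norm_num) (by norm_num) e) (by norm_num)) (F : Five (x 0) (x 0) (x 0) (x 0) (x 1) (x 1) (x 2) (x 0) (x 1) (x 3))

theorem k5w3_aux {a b c d : ℝ} (dbd : b ≠ d) (F : Five a a a a b b c a d b) : False := by
  have ha : 0 < a := F.q01
  have hd : 0 < d := F.q24
  have M0 : a ^ 3 - 2 * a ^ 2 * b - a ^ 2 * c + 2 * a ^ 2 * d + 2 * a * b * c - a * b * d = 0 := by linear_combination F.m123_124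
  have M1 : -a ^ 2 * b - 2 * a ^ 2 * d + a * b * c + 4 * a * b * d - b ^ 2 * d = 0 := by linear_combination F.m123_234
  have M2 : -2 * a ^ 3 + 2 * a ^ 2 * b + 3 * a ^ 2 * c + 2 * a ^ 2 * d - 2 * a * b * c - 2 * a * b * d - a * c ^ 2 + b * c * d = 0 := by linear_combination F.m124_134
  have M3 : a ^ 3 - a ^ 2 * b - 2 * a ^ 2 * c - 2 * a ^ 2 * d + 3 * a * b * c + 3 * a * b * d + a * c ^ 2 - b ^ 2 * d - 2 * b * c ^ 2 + b * c * d = 0 := by linear_combination F.m134_234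
  have M4 : -2 * a ^ 2 * b + 4 * a * b * c + 6 * a * b * d - 2 * a * d ^ 2 - 2 * b ^ 2 * d - 2 * b * c ^ 2 + 2 * b * c * d = 0 := by linear_combination F.m234_234
  have G0 : b * d - d ^ 2 = 0 := by
    have h : a * (b * d - d ^ 2) = 0 := by
      linear_combination (-1 / 2) * M3 +
      (1 / 2) * M4 +
      (-1 / 2) * M2 +
      (-1 / 2) * M0 +
      (-1 / 2) * M1
    exact (mul_eq_zero.1 h).resolve_left ha.ne'
  have G1 : b - d = 0 := by
    have h : d * (b - d) = 0 := by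
      linear_combination (1) * G0
    exact (mul_eq_zero.1 h).resolve_left hd.ne'
  have hz : b - d = 0 := by
    linear_combination (1) * G1
  exact (sub_ne_zero.2 dbd) hz

/-- pattern 0000112031 -/
theorem k5w3 : ¬ Realk 5 4 185110528 := by
  intro h
  obtain ⟨x, hd, F⟩ := five_of_realk_ne h
  exact k5w3_aux (fun e => absurd (hd 1 3 (by norm_num) (by norm_num) e) (by norm_num)) (F : Five (x 0) (x 0) (x 0) (x 0) (x 1) (x 1) (x 2) (x 0) (x 3) (x 1))

theorem k5w7_aux {a b c d : ℝ} (dbc : b ≠ c) (F : Five a a a a b b c c d b) : False := by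
  have ha : 0 < a := F.q01
  have hd : 0 < d := F.q24
  have M0 : -2 * a ^ 3 + 8 * a ^ 2 * b - 2 * a * b ^ 2 = 0 := by linear_combination F.m123_123
  have M1 : -a ^ 3 - a ^ 2 * b + a ^ 2 * c + 2 * a ^ 2 * d + a * b * c - a * b * d = 0 := by linear_combination F.m123_124
  have M2 : -3 * a ^ 2 * b + 2 * a ^ 2 * c + a * b ^ 2 - 5 * a * b * c + 4 * a * b * d + b ^ 2 * c - b ^ 2 * d = 0 := by linear_combination F.m123_134
  have M3 : 3 * a ^ 2 * b - 2 * a ^ 2 * d - a * b ^ 2 - 3 * a * b * c + 4 * a * b * d + b ^ 2 * c - b ^ 2 * d = 0 := by linear_combination F.m123_234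
  have M4 : -2 * a ^ 3 + 4 * a ^ 2 * c + 2 * a ^ 2 * d - 2 * a * c ^ 2 + 4 * a * c * d - 2 * a * d ^ 2 = 0 := by linear_combination F.m124_124
  have M5 : -a ^ 3 + a ^ 2 * b + 3 * a ^ 2 * c - a * b * c - a * b * d - 2 * a * c ^ 2 + 2 * a * c * d = 0 := by linear_combination F.m124_134
  have M6 : -2 * a ^ 2 * b + 10 * a * b * c - 2 * a * c ^ 2 - 2 * b ^ 2 * c = 0 := by linear_combination F.m134_134
  have M7 : a ^ 3 - 4 * a ^ 2 * b - 2 * a ^ 2 * c + a * b ^ 2 + 5 * a * b * c + 3 * a * b * d + a * c ^ 2 - 2 * a * c * d - b ^ 2 * c - b ^ 2 * d - b * c ^ 2 + b * c * d = 0 := by linear_combination F.m134_234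
  have M8 : -2 * a ^ 2 * b + 4 * a * b * c + 6 * a * b * d - 2 * a * d ^ 2 - 2 * b ^ 2 * d - 2 * b * c ^ 2 + 2 * b * c * d = 0 := by linear_combination F.m234_234
  have G0 : 2 * c * d - d ^ 2 = 0 := by
    have h : a * (2 * c * d - d ^ 2) = 0 := by
      linear_combination (-1 / 2) * M8 +
      (-1) * M2 +
      (1) * M7 +
      (-1 / 2) * M6 +
      (1) * M3 +
      (1) * M4 +
      (-1 / 2) * M0
    exact (mul_eq_zero.1 h).resolve_left ha.ne'
  have G1 : 2 * b * d - d ^ 2 = 0 := by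
    have h : a * (2 * b * d - d ^ 2) = 0 := by
      linear_combination (-a) * G0 +
      (-1) * M1 +
      (1) * M4 +
      (-1) * M5
    exact (mul_eq_zero.1 h).resolve_left ha.ne'
  have G2 : 2 * c - d = 0 := by
    have h : d * (2 * c - d) = 0 := by
      linear_combination (1) * G0
    exact (mul_eq_zero.1 h).resolve_left hd.ne'
  have G3 : 2 * b - d = 0 := by
    have h : d * (2 * b - d) = 0 := by
      linear_combination (1) * G1
    exact (mul_eq_zero.1 h).resolve_left hd.ne'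
  have hz : b - c = 0 := by
    linear_combination (-1 / 2) * G2 +
      (1 / 2) * G3
  exact (sub_ne_zero.2 dbc) hz

/-- pattern 0000112231 -/
theorem k5w7 : ¬ Realk 5 4 189304832 := by
  intro h
  obtain ⟨x, hd, F⟩ := five_of_realk_ne h
  exact k5w7_aux (fun e => absurd (hd 1 2 (by norm_num) (by norm_num) e) (by norm_num)) (F : Five (x 0) (x 0) (x 0) (x 0) (x 1) (x 1) (x 2) (x 2) (x 3) (x 1))

theorem k5w9_aux {a b c d : ℝ} (dbc : b ≠ c) (F : Five a a a a b c b b d c) : False := by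
  have ha : 0 < a := F.q01
  have hc : 0 < c := F.q23
  have hd : 0 < d := F.q24
  have M0 : -2 * a ^ 3 + 4 * a ^ 2 * b + 4 * a ^ 2 * c - 2 * a * b ^ 2 + 2 * a * b * c - 2 * a * c ^ 2 = 0 := by linear_combination F.m123_123
  have M1 : -a ^ 3 + 2 * a ^ 2 * b - 2 * a ^ 2 * c + 2 * a ^ 2 * d - a * b ^ 2 + 2 * a * b * c + a * b * d - 2 * a * c * d = 0 := by linear_combination F.m123_124
  have M2 : -2 * a ^ 3 + 4 * a ^ 2 * b + 2 * a ^ 2 * d - 2 * a * b ^ 2 + 4 * a * b * d - 2 * a * d ^ 2 = 0 := by linear_combination F.m124_124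
  have M3 : -a ^ 3 + 2 * a ^ 2 * b + 2 * a ^ 2 * c - a * b ^ 2 - 2 * a * b * c + 3 * a * b * d - 2 * a * c * d = 0 := by linear_combination F.m124_134
  have G0 : 2 * c * d - d ^ 2 = 0 := by
    have h : a * (2 * c * d - d ^ 2) = 0 := by
      linear_combination (-1 / 2) * M3 +
      (1 / 2) * M2 +
      (-1 / 2) * M1
    exact (mul_eq_zero.1 h).resolve_left ha.ne'
  have G1 : 3 * b * c - 3 * b * d - c ^ 2 + d ^ 2 = 0 := by
    have h : a * (3 * b * c - 3 * b * d - c ^ 2 + d ^ 2) = 0 := by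
      linear_combination (-a) * G0 +
      (1 / 2) * M0 +
      (-1) * M3
    exact (mul_eq_zero.1 h).resolve_left ha.ne'
  have G2 : 2 * c - d = 0 := by
    have h : d * (2 * c - d) = 0 := by
      linear_combination (1) * G0
    exact (mul_eq_zero.1 h).resolve_left hd.ne'
  have G3 : 2 * b - d = 0 := by
    have h : c * (2 * b - d) = 0 := by
      linear_combination (2 * b - 1 / 3 * c - 2 / 3 * d) * G2 +
      (-2 / 3) * G1
    exact (mul_eq_zero.1 h).resolve_left hc.ne'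
  have hz : b - c = 0 := by
    linear_combination (-1 / 2) * G2 +
      (1 / 2) * G3
  exact (sub_ne_zero.2 dbc) hz

/-- pattern 0000121132 -/
theorem k5w9 : ¬ Realk 5 4 321196032 := by
  intro h
  obtain ⟨x, hd, F⟩ := five_of_realk_ne h
  exact k5w9_aux (fun e => absurd (hd 1 2 (by norm_num) (by norm_num) e) (by norm_num)) (F : Five (x 0) (x 0) (x 0) (x 0) (x 1) (x 2) (x 1) (x 1) (x 3) (x 2))

theorem k5w10_aux {a b c d : ℝ} (dab : a ≠ b) (dbc : b ≠ c) (F : Five a a a a b c b c d b) : False := by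
  have ha : 0 < a := F.q01
  have hc : 0 < c := F.q23
  have M0 : -2 * a ^ 3 + 4 * a ^ 2 * b + 4 * a ^ 2 * c - 2 * a * b ^ 2 + 2 * a * b * c - 2 * a * c ^ 2 = 0 := by linear_combination F.m123_123
  have M1 : -a ^ 3 - 3 * a ^ 2 * b + 3 * a ^ 2 * c + 2 * a ^ 2 * d + a * b ^ 2 - a * b * c + a * b * d + a * c ^ 2 - 2 * a * c * d = 0 := by linear_combination F.m123_124
  have M2 : -3 * a ^ 2 * b + 2 * a ^ 2 * c - a * b ^ 2 - a * b * c + 4 * a * b * d - 2 * a * c ^ 2 + b ^ 3 - b ^ 2 * c - b ^ 2 * d + b * c ^ 2 = 0 := by linear_combination F.m123_134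
  have M3 : 2 * a ^ 2 * b + a ^ 2 * c - 2 * a ^ 2 * d - 2 * a * b ^ 2 + 3 * a * b * c + 2 * a * b * d - 5 * a * c ^ 2 + 2 * a * c * d + b ^ 2 * c - b * c ^ 2 - b * c * d + c ^ 3 = 0 := by linear_combination F.m123_234
  have M4 : -2 * a ^ 3 + 2 * a ^ 2 * b + 2 * a ^ 2 * c + 2 * a ^ 2 * d - 2 * a * b ^ 2 + 2 * a * b * c + 2 * a * b * d - 2 * a * c ^ 2 + 2 * a * c * d - 2 * a * d ^ 2 = 0 := by linear_combination F.m124_124
  have M5 : -a ^ 3 + 2 * a ^ 2 * b + 2 * a ^ 2 * c + a * b * c - a * b * d - 4 * a * c ^ 2 + 2 * a * c * d - b ^ 3 + 2 * b ^ 2 * c + b ^ 2 * d - 2 * b * c ^ 2 - b * c * d + c ^ 3 = 0 := by linear_combination F.m124_134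
  have G0 : b * c + c ^ 2 - c * d = 0 := by
    have h : a * (b * c + c ^ 2 - c * d) = 0 := by
      linear_combination (1 / 2) * M1 +
      (-1 / 2) * M5 +
      (-1 / 2) * M2 +
      (1 / 2) * M3
    exact (mul_eq_zero.1 h).resolve_left ha.ne'
  have G1 : 6 * a * c - 3 * a * d + 2 * b ^ 2 - 4 * b * d + 4 * c ^ 2 - 9 * c * d + 5 * d ^ 2 = 0 := by
    have h : a * (6 * a * c - 3 * a * d + 2 * b ^ 2 - 4 * b * d + 4 * c ^ 2 - 9 * c * d + 5 * d ^ 2) = 0 := by
      linear_combination (2 * a) * G0 +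
      (-5 / 2) * M4 +
      (1) * M1 +
      (2) * M0
    exact (mul_eq_zero.1 h).resolve_left ha.ne'
  have G2 : b + c - d = 0 := by
    have h : c * (b + c - d) = 0 := by
      linear_combination (1) * G0
    exact (mul_eq_zero.1 h).resolve_left hc.ne'
  have G3 : 2 * c - d = 0 := by
    have h : (a - b) * (2 * c - d) = 0 := by
      linear_combination (-2 / 3 * b - 4 / 3 * c + 5 / 3 * d) * G2 +
      (1 / 3) * G1
    exact (mul_eq_zero.1 h).resolve_left (sub_ne_zero.2 dab)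
  have hz : b - c = 0 := by
    linear_combination (1) * G2 +
      (-1) * G3
  exact (sub_ne_zero.2 dbc) hz

/-- pattern 0000121231 -/
theorem k5w10 : ¬ Realk 5 4 189075456 := by
  intro h
  obtain ⟨x, hd, F⟩ := five_of_realk_ne h
  exact k5w10_aux (fun e => absurd (hd 0 1 (by norm_num) (by norm_num) e) (by norm_num)) (fun e => absurd (hd 1 2 (by norm_num) (by norm_num) e) (by norm_num)) (F : Five (x 0) (x 0) (x 0) (x 0) (x 1) (x 2) (x 1) (x 2) (x 3) (x 1))

theorem k5w12_aux {a b c d : ℝ} (dab : a ≠ b) (dbd : b ≠ d) (F : Five a a a a b c b d a b) : False := by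
  have ha : 0 < a := F.q01
  have hc : 0 < c := F.q23
  have M0 : -2 * a ^ 3 + 4 * a ^ 2 * b + 4 * a ^ 2 * c - 2 * a * b ^ 2 + 2 * a * b * c - 2 * a * c ^ 2 = 0 := by linear_combination F.m123_123
  have M1 : a ^ 3 - 2 * a ^ 2 * b - a ^ 2 * c + 2 * a ^ 2 * d + a * b ^ 2 + a * b * c - 2 * a * b * d + a * c * d = 0 := by linear_combination F.m123_124
  have M2 : a ^ 2 * b + 2 * a ^ 2 * d - 2 * a * b ^ 2 + a * b * c - 2 * a * b * d - 2 * a * c * d + b ^ 3 - b ^ 2 * c + b * c * d = 0 := by linear_combination F.m123_134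
  have M3 : -2 * a ^ 3 + 4 * a ^ 2 * b + 4 * a ^ 2 * d - 2 * a * b ^ 2 + 2 * a * b * d - 2 * a * d ^ 2 = 0 := by linear_combination F.m124_124
  have M4 : 2 * a ^ 3 - 5 * a ^ 2 * b - 2 * a ^ 2 * d + 4 * a * b ^ 2 - a * b * c + 2 * a * b * d - b ^ 3 + b ^ 2 * c - b * c * d = 0 := by linear_combination F.m124_234
  have G0 : 3 * b * c - 6 * b * d - c ^ 2 + 5 * c * d + 2 * d ^ 2 = 0 := by
    have h : a * (3 * b * c - 6 * b * d - c ^ 2 + 5 * c * d + 2 * d ^ 2) = 0 := by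
      linear_combination (-1) * M3 +
      (-3 / 2) * M4 +
      (2) * M1 +
      (-3 / 2) * M2 +
      (1 / 2) * M0
    exact (mul_eq_zero.1 h).resolve_left ha.ne'
  have G1 : 3 * a * c + 3 * b * d - c ^ 2 - 4 * c * d - d ^ 2 = 0 := by
    have h : a * (3 * a * c + 3 * b * d - c ^ 2 - 4 * c * d - d ^ 2) = 0 := by
      linear_combination (-1 / 2) * M3 +
      (-a) * G0 +
      (1) * M0 +
      (1) * M1
    exact (mul_eq_zero.1 h).resolve_left ha.ne'
  have G2 : a ^ 2 - 2 * a * b + b ^ 2 - c * d = 0 := by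
    have h : a * (a ^ 2 - 2 * a * b + b ^ 2 - c * d) = 0 := by
      linear_combination (1 / 2) * M4 +
      (1 / 2) * M2
    exact (mul_eq_zero.1 h).resolve_left ha.ne'
  have G3 : 2 * a + b - c - d = 0 := by
    have h : c * (2 * a + b - c - d) = 0 := by
      linear_combination (2 / 3) * G1 +
      (1 / 3) * G0
    exact (mul_eq_zero.1 h).resolve_left hc.ne'
  have G4 : b - d = 0 := by
    have h : (a - b) * (b - d) = 0 := by
      linear_combination (1 / 3) * G1 +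
      (1 / 3 * a - 1 / 3 * b - 1 / 3 * c - 1 / 3 * d) * G3 +
      (-2 / 3) * G2
    exact (mul_eq_zero.1 h).resolve_left (sub_ne_zero.2 dab)
  have hz : b - d = 0 := by
    linear_combination (1) * G4
  exact (sub_ne_zero.2 dbd) hz

/-- pattern 0000121301 -/
theorem k5w12 : ¬ Realk 5 4 140840960 := by
  intro h
  obtain ⟨x, hd, F⟩ := five_of_realk_ne h
  exact k5w12_aux (fun e => absurd (hd 0 1 (by norm_num) (by norm_num) e) (by norm_num)) (fun e => absurd (hd 1 3 (by norm_num) (by norm_num) e) (by norm_num)) (F : Five (x 0) (x 0) (x 0) (x 0) (x 1) (x 2) (x 1) (x 3) (x 0) (x 1))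

theorem k5w16_aux {a b c d : ℝ} (dbc : b ≠ c) (dbd : b ≠ d) (F : Five a a a a b c d a c b) : False := by
  have ha : 0 < a := F.q01
  have M0 : a ^ 3 - 4 * a ^ 2 * b + 4 * a ^ 2 * c - a ^ 2 * d + a * b * c + a * b * d - 2 * a * c ^ 2 + a * c * d = 0 := by linear_combination F.m123_124
  have M1 : 2 * a ^ 2 * b - 5 * a ^ 2 * c - 2 * a * b ^ 2 + 4 * a * b * c + 2 * a * c ^ 2 + a * c * d - b * c ^ 2 + b * c * d - c ^ 2 * d = 0 := by linear_combination F.m123_234
  have M2 : -2 * a ^ 3 + 4 * a ^ 2 * c + 4 * a ^ 2 * d - 2 * a * c ^ 2 + 2 * a * c * d - 2 * a * d ^ 2 = 0 := by linear_combination F.m124_124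
  have M3 : -2 * a ^ 3 + 2 * a ^ 2 * b + 2 * a ^ 2 * c + 3 * a ^ 2 * d - 2 * a * b * c + 2 * a * b * d - 4 * a * c * d - a * d ^ 2 + b * c * d - b * d ^ 2 + c * d ^ 2 = 0 := by linear_combination F.m124_134
  have M4 : a ^ 3 - 3 * a ^ 2 * c - 2 * a ^ 2 * d + a * b * c + a * b * d + 2 * a * c ^ 2 - 2 * a * c * d + a * d ^ 2 - b * c ^ 2 + 2 * b * c * d - b * d ^ 2 - c ^ 2 * d + c * d ^ 2 = 0 := by linear_combination F.m124_234
  have G0 : b ^ 2 - b * c - b * d + c * d = 0 := by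
    have h : a * (b ^ 2 - b * c - b * d + c * d) = 0 := by
      linear_combination (-1 / 2) * M1 +
      (1 / 2) * M2 +
      (-1 / 2) * M3 +
      (-1 / 2) * M0 +
      (1 / 2) * M4
    exact (mul_eq_zero.1 h).resolve_left ha.ne'
  have G1 : b - d = 0 := by
    have h : (b - c) * (b - d) = 0 := by
      linear_combination (1) * G0
    exact (mul_eq_zero.1 h).resolve_left (sub_ne_zero.2 dbc)
  have hz : b - d = 0 := by
    linear_combination (1) * G1
  exact (sub_ne_zero.2 dbd) hz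

/-- pattern 0000123021 -/
theorem k5w16 : ¬ Realk 5 4 168628224 := by
  intro h
  obtain ⟨x, hd, F⟩ := five_of_realk_ne h
  exact k5w16_aux (fun e => absurd (hd 1 2 (by norm_num) (by norm_num) e) (by norm_num)) (fun e => absurd (hd 1 3 (by norm_num) (by norm_num) e) (by norm_num)) (F : Five (x 0) (x 0) (x 0) (x 0) (x 1) (x 2) (x 3) (x 0) (x 2) (x 1))

theorem k5w18_aux {a b c d e : ℝ} (dbd : b ≠ d) (dce : c ≠ e) (F : Five a a a a b c d a c e) : False := by
  have ha : 0 < a := F.q01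
  have M0 : a ^ 3 - a ^ 2 * b + 4 * a ^ 2 * c - a ^ 2 * d - 3 * a ^ 2 * e + a * b * c + a * b * d - 2 * a * c ^ 2 + a * c * d = 0 := by linear_combination F.m123_124
  have M1 : -5 * a ^ 2 * c + 2 * a ^ 2 * e + 3 * a * b * c - 2 * a * b * e + 2 * a * c ^ 2 + a * c * d + a * c * e - b * c ^ 2 + b * c * d - c ^ 2 * d = 0 := by linear_combination F.m123_234
  have M2 : -2 * a ^ 3 + 4 * a ^ 2 * c + 4 * a ^ 2 * d - 2 * a * c ^ 2 + 2 * a * c * d - 2 * a * d ^ 2 = 0 := by linear_combination F.m124_124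
  have M3 : -2 * a ^ 3 + 2 * a ^ 2 * c + 3 * a ^ 2 * d + 2 * a ^ 2 * e + a * b * d - 4 * a * c * d - 2 * a * c * e - a * d ^ 2 + a * d * e + b * c * d - b * d ^ 2 + c * d ^ 2 = 0 := by linear_combination F.m124_134
  have M4 : a ^ 3 - a ^ 2 * b - 3 * a ^ 2 * c - 2 * a ^ 2 * d + a ^ 2 * e + 2 * a * b * c + 2 * a * b * d + 2 * a * c ^ 2 - 2 * a * c * d - a * c * e + a * d ^ 2 - a * d * e - b * c ^ 2 + 2 * b * c * d - b * d ^ 2 - c ^ 2 * d + c * d ^ 2 = 0 := by linear_combination F.m124_234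
  have G0 : b * c - b * e - c * d + d * e = 0 := by
    have h : a * (b * c - b * e - c * d + d * e) = 0 := by
      linear_combination (-1 / 2) * M2 +
      (1 / 2) * M1 +
      (-1 / 2) * M4 +
      (1 / 2) * M0 +
      (1 / 2) * M3
    exact (mul_eq_zero.1 h).resolve_left ha.ne'
  have G1 : c - e = 0 := by
    have h : (b - d) * (c - e) = 0 := by
      linear_combination (1) * G0
    exact (mul_eq_zero.1 h).resolve_left (sub_ne_zero.2 dbd)
  have hz : c - e = 0 := by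
    linear_combination (1) * G1
  exact (sub_ne_zero.2 dce) hz

/-- pattern 0000123024 -/
theorem k5w18 : ¬ Realk 5 5 571281408 := by
  intro h
  obtain ⟨x, hd, F⟩ := five_of_realk_ne h
  exact k5w18_aux (fun e => absurd (hd 1 3 (by norm_num) (by norm_num) e) (by norm_num)) (fun e => absurd (hd 2 4 (by norm_num) (by norm_num) e) (by norm_num)) (F : Five (x 0) (x 0) (x 0) (x 0) (x 1) (x 2) (x 3) (x 0) (x 2) (x 4))

theorem k5w19_aux {a b c d e : ℝ} (dce : c ≠ e) (F : Five a a a a b c d a e c) : False := by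
  have ha : 0 < a := F.q01
  have hb : 0 < b := F.q13
  have he : 0 < e := F.q24
  have M0 : -2 * a ^ 3 + 4 * a ^ 2 * b + 4 * a ^ 2 * c - 2 * a * b ^ 2 + 2 * a * b * c - 2 * a * c ^ 2 = 0 := by linear_combination F.m123_123
  have M1 : a ^ 3 - a ^ 2 * b - a ^ 2 * c - a ^ 2 * d + 2 * a ^ 2 * e + a * b * d + a * b * e + a * c * d - 2 * a * c * e = 0 := by linear_combination F.m123_124
  have M2 : 2 * a ^ 3 - 3 * a ^ 2 * b - 4 * a ^ 2 * c + a * b ^ 2 - a * b * c - a * b * d + 4 * a * b * e + 2 * a * c ^ 2 + b ^ 2 * d - b ^ 2 * e - b * c * d = 0 := by linear_combination F.m123_134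
  have M3 : -a ^ 2 * c - 2 * a ^ 2 * e - a * b * c + 2 * a * b * e + a * c ^ 2 + a * c * d + 2 * a * c * e + b * c * d - b * c * e - c ^ 2 * d = 0 := by linear_combination F.m123_234
  have M4 : -2 * a ^ 3 + 4 * a ^ 2 * d + 4 * a ^ 2 * e - 2 * a * d ^ 2 + 2 * a * d * e - 2 * a * e ^ 2 = 0 := by linear_combination F.m124_124
  have M5 : -2 * a ^ 3 + 2 * a ^ 2 * c + 3 * a ^ 2 * d + 2 * a ^ 2 * e + a * b * d - 3 * a * c * d - 2 * a * c * e - a * d ^ 2 - b * d ^ 2 + b * d * e + c * d ^ 2 = 0 := by linear_combination F.m124_134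
  have M6 : a ^ 3 - a ^ 2 * b + a ^ 2 * c - 2 * a ^ 2 * d - 3 * a ^ 2 * e + 2 * a * b * d + 2 * a * b * e - 2 * a * c * d - a * c * e + a * d ^ 2 - a * d * e + 2 * a * e ^ 2 - b * d ^ 2 + 2 * b * d * e - b * e ^ 2 + c * d ^ 2 - c * d * e = 0 := by linear_combination F.m124_234
  have M7 : a ^ 3 - a ^ 2 * b - 2 * a ^ 2 * d - 2 * a ^ 2 * e + a * b * c + 2 * a * b * d + a * b * e - a * c ^ 2 + a * c * d + 2 * a * c * e + a * d ^ 2 - b * c * d - b * c * e - b * d ^ 2 + b * d * e + c ^ 2 * d - c * d ^ 2 = 0 := by linear_combination F.m134_234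
  have G0 : 6 * a * e - b ^ 2 + b * c + 2 * b * d + 2 * b * e - c ^ 2 + 2 * c * d - 4 * c * e - d ^ 2 + d * e - e ^ 2 = 0 := by
    have h : a * (6 * a * e - b ^ 2 + b * c + 2 * b * d + 2 * b * e - c ^ 2 + 2 * c * d - 4 * c * e - d ^ 2 + d * e - e ^ 2) = 0 := by
      linear_combination (1 / 2) * M4 +
      (1 / 2) * M0 +
      (2) * M1
    exact (mul_eq_zero.1 h).resolve_left ha.ne'
  have G1 : 3 * a * b + 3 * a * c - 3 * a * d - 2 * b ^ 2 + 2 * b * c + b * d + b * e - 2 * c ^ 2 + c * d - 2 * c * e + d ^ 2 - d * e + e ^ 2 = 0 := by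
    have h : a * (3 * a * b + 3 * a * c - 3 * a * d - 2 * b ^ 2 + 2 * b * c + b * d + b * e - 2 * c ^ 2 + c * d - 2 * c * e + d ^ 2 - d * e + e ^ 2) = 0 := by
      linear_combination (-a) * G0 +
      (3 / 2) * M0 +
      (3) * M1
    exact (mul_eq_zero.1 h).resolve_left ha.ne'
  have G2 : c * e - e ^ 2 = 0 := by
    have h : b * (c * e - e ^ 2) = 0 := by
      linear_combination (4 / 3) * M6 +
      (16 / 9 * a - 2 / 9 * b - 2 / 9 * d) * G0 +
      (-1 / 2) * M7 +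
      (-8 / 9 * a + 1 / 9 * b - 2 / 9 * d) * G1 +
      (-1 / 3) * M2 +
      (-7 / 6) * M5 +
      (1 / 6) * M3 +
      (-5 / 2) * M1
    exact (mul_eq_zero.1 h).resolve_left hb.ne'
  have G3 : c - e = 0 := by
    have h : e * (c - e) = 0 := by
      linear_combination (1) * G2
    exact (mul_eq_zero.1 h).resolve_left he.ne'
  have hz : c - e = 0 := by
    linear_combination (1) * G3
  exact (sub_ne_zero.2 dce) hz

/-- pattern 0000123042 -/
theorem k5w19 : ¬ Realk 5 5 336400384 := by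
  intro h
  obtain ⟨x, hd, F⟩ := five_of_realk_ne h
  exact k5w19_aux (fun e => absurd (hd 2 4 (by norm_num) (by norm_num) e) (by norm_num)) (F : Five (x 0) (x 0) (x 0) (x 0) (x 1) (x 2) (x 3) (x 0) (x 4) (x 2))

theorem k5w21_aux {a b c d e : ℝ} (dbd : b ≠ d) (dbe : b ≠ e) (F : Five a a a b b c b c d e) : False := by
  have ha : 0 < a := F.q01
  have M0 : -a ^ 2 * b + 2 * a ^ 2 * c - a ^ 2 * d + a ^ 2 * e + 2 * a * b ^ 2 - a * b * c + a * b * d - a * b * e - 3 * a * c ^ 2 + a * c * d + a * c * e - b ^ 3 + 3 * b ^ 2 * c - 3 * b * c ^ 2 + c ^ 3 = 0 := by linear_combination F.m123_234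
  have M1 : -a ^ 2 * b + 2 * a ^ 2 * c - a ^ 2 * d + a ^ 2 * e - a * b * c + 3 * a * b * d + a * b * e - 3 * a * c ^ 2 + a * c * d + a * c * e - 2 * a * d * e - b ^ 3 + 3 * b ^ 2 * c - 3 * b * c ^ 2 + c ^ 3 = 0 := by linear_combination F.m124_134
  have G0 : b ^ 2 - b * d - b * e + d * e = 0 := by
    have h : a * (b ^ 2 - b * d - b * e + d * e) = 0 := by
      linear_combination (-1 / 2) * M1 +
      (1 / 2) * M0
    exact (mul_eq_zero.1 h).resolve_left ha.ne'
  have G1 : b - e = 0 := by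
    have h : (b - d) * (b - e) = 0 := by
      linear_combination (1) * G0
    exact (mul_eq_zero.1 h).resolve_left (sub_ne_zero.2 dbd)
  have hz : b - e = 0 := by
    linear_combination (1) * G1
  exact (sub_ne_zero.2 dbe) hz

/-- pattern 0001121234 -/
theorem k5w21 : ¬ Realk 5 5 591729152 := by
  intro h
  obtain ⟨x, hd, F⟩ := five_of_realk_ne h
  exact k5w21_aux (fun e => absurd (hd 1 3 (by norm_num) (by norm_num) e) (by norm_num)) (fun e => absurd (hd 1 4 (by norm_num) (by norm_num) e) (by norm_num)) (F : Five (x 0) (x 0) (x 0) (x 1) (x 1) (x 2) (x 1) (x 2) (x 3) (x 4))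

theorem k5w23_aux {a b c d e : ℝ} (dce : c ≠ e) (F : Five a a a b b c b d c e) : False := by
  have ha : 0 < a := F.q01
  have he : 0 < e := F.q34
  have M0 : -2 * a ^ 3 + 4 * a ^ 2 * b + 2 * a ^ 2 * c - 2 * a * b ^ 2 + 4 * a * b * c - 2 * a * c ^ 2 = 0 := by linear_combination F.m123_123
  have M1 : -2 * a ^ 3 + 3 * a ^ 2 * b + 2 * a ^ 2 * c + a ^ 2 * d - 3 * a ^ 2 * e - a * b ^ 2 + 3 * a * b * c - a * b * d - 2 * a * c ^ 2 + a * c * d = 0 := by linear_combination F.m123_124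
  have M2 : -a ^ 2 * b + a ^ 2 * d + a ^ 2 * e + 2 * a * b ^ 2 + 2 * a * b * c - 2 * a * b * d - a * b * e - 2 * a * c * d + a * c * e - b ^ 3 + 2 * b ^ 2 * c + b ^ 2 * d - b * c ^ 2 - 2 * b * c * d + c ^ 2 * d = 0 := by linear_combination F.m123_234
  have M3 : -2 * a ^ 3 + 2 * a ^ 2 * b + 2 * a ^ 2 * c + 2 * a ^ 2 * d - 2 * a * b ^ 2 + 2 * a * b * c + 2 * a * b * d - 2 * a * c ^ 2 + 2 * a * c * d - 2 * a * d ^ 2 = 0 := by linear_combination F.m124_124
  have M4 : -a ^ 2 * b + a ^ 2 * d - a ^ 2 * e + 2 * a * b ^ 2 + 2 * a * b * c - 2 * a * b * d - a * b * e - 2 * a * c * d - a * c * e + 2 * a * d * e - b ^ 3 + 2 * b ^ 2 * c + b ^ 2 * d - b * c ^ 2 - 2 * b * c * d + c ^ 2 * d = 0 := by linear_combination F.m124_234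
  have G0 : a * e + c * e - d * e = 0 := by
    have h : a * (a * e + c * e - d * e) = 0 := by
      linear_combination (-1 / 2) * M4 +
      (1 / 2) * M2
    exact (mul_eq_zero.1 h).resolve_left ha.ne'
  have G1 : a ^ 2 - a * c - 2 * a * d + c ^ 2 - 2 * c * d - 3 * c * e + d ^ 2 + 3 * d * e = 0 := by
    have h : a * (a ^ 2 - a * c - 2 * a * d + c ^ 2 - 2 * c * d - 3 * c * e + d ^ 2 + 3 * d * e) = 0 := by
      linear_combination (-1 / 2) * M3 +
      (-1) * M1 +
      (1) * M0 +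
      (-3 * a) * G0
    exact (mul_eq_zero.1 h).resolve_left ha.ne'
  have G2 : a + c - d = 0 := by
    have h : e * (a + c - d) = 0 := by
      linear_combination (1) * G0
    exact (mul_eq_zero.1 h).resolve_left he.ne'
  have G3 : c - e = 0 := by
    have h : a * (c - e) = 0 := by
      linear_combination (1 / 3 * a + 1 / 3 * c - 1 / 3 * d - e) * G2 +
      (-1 / 3) * G1
    exact (mul_eq_zero.1 h).resolve_left ha.ne'
  have hz : c - e = 0 := by
    linear_combination (1) * G3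
  exact (sub_ne_zero.2 dce) hz

/-- pattern 0001121324 -/
theorem k5w23 : ¬ Realk 5 5 577049088 := by
  intro h
  obtain ⟨x, hd, F⟩ := five_of_realk_ne h
  exact k5w23_aux (fun e => absurd (hd 2 4 (by norm_num) (by norm_num) e) (by norm_num)) (F : Five (x 0) (x 0) (x 0) (x 1) (x 1) (x 2) (x 1) (x 3) (x 2) (x 4))

theorem k5w25_aux {a b c d e : ℝ} (dbd : b ≠ d) (dbe : b ≠ e) (F : Five a a a b b c d e b b) : False := by
  have ha : 0 < a := F.q01
  have hc : 0 < c := F.q23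
  have M0 : -2 * a ^ 3 + 4 * a ^ 2 * b + 2 * a ^ 2 * c - 2 * a * b ^ 2 + 4 * a * b * c - 2 * a * c ^ 2 = 0 := by linear_combination F.m123_123
  have M1 : -2 * a ^ 3 + a ^ 2 * c + a ^ 2 * d + a ^ 2 * e + 2 * a * b ^ 2 - 2 * a * b * c - a * b * d - a * b * e + a * c * d + a * c * e = 0 := by linear_combination F.m123_124
  have M2 : -4 * a ^ 2 * b + a ^ 2 * c + a ^ 2 * d + a ^ 2 * e + 4 * a * b ^ 2 - a * b * d - a * b * e - a * c * d - a * c * e = 0 := by linear_combination F.m123_134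
  have M3 : -2 * a ^ 3 + 2 * a ^ 2 * b + 2 * a ^ 2 * d + 2 * a ^ 2 * e - 2 * a * b ^ 2 + 2 * a * b * d + 2 * a * b * e - 2 * a * d ^ 2 + 2 * a * d * e - 2 * a * e ^ 2 = 0 := by linear_combination F.m124_124
  have G0 : 3 * a * d + 3 * a * e - 4 * b ^ 2 + 7 * b * c + 5 * b * d + 5 * b * e - c ^ 2 - 4 * c * d - 4 * c * e - 4 * d ^ 2 + 4 * d * e - 4 * e ^ 2 = 0 := by
    have h : a * (3 * a * d + 3 * a * e - 4 * b ^ 2 + 7 * b * c + 5 * b * d + 5 * b * e - c ^ 2 - 4 * c * d - 4 * c * e - 4 * d ^ 2 + 4 * d * e - 4 * e ^ 2) = 0 := by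
      linear_combination (2) * M3 +
      (-5 / 2) * M1 +
      (3 / 2) * M2 +
      (1 / 2) * M0
    exact (mul_eq_zero.1 h).resolve_left ha.ne'
  have G1 : a * c + 3 * b * c - c ^ 2 - c * d - c * e = 0 := by
    have h : a * (a * c + 3 * b * c - c ^ 2 - c * d - c * e) = 0 := by
      linear_combination (-1 / 2) * M1 +
      (1 / 2) * M0 +
      (1 / 2) * M2
    exact (mul_eq_zero.1 h).resolve_left ha.ne'
  have G2 : 3 * a * b - 4 * b ^ 2 + 4 * b * c + 2 * b * d + 2 * b * e - c ^ 2 - c * d - c * e - d ^ 2 + d * e - e ^ 2 = 0 := by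
    have h : a * (3 * a * b - 4 * b ^ 2 + 4 * b * c + 2 * b * d + 2 * b * e - c ^ 2 - c * d - c * e - d ^ 2 + d * e - e ^ 2) = 0 := by
      linear_combination (1 / 2) * M0 +
      (-1) * M1 +
      (1 / 2) * M3
    exact (mul_eq_zero.1 h).resolve_left ha.ne'
  have G3 : a + 3 * b - c - d - e = 0 := by
    have h : c * (a + 3 * b - c - d - e) = 0 := by
      linear_combination (1) * G1
    exact (mul_eq_zero.1 h).resolve_left hc.ne'
  have G4 : b - e = 0 := by
    have h : (b - d) * (b - e) = 0 := by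
      linear_combination (1 / 9) * G0 +
      (1 / 3 * b - 1 / 3 * d - 1 / 3 * e) * G3 +
      (-1 / 9) * G2
    exact (mul_eq_zero.1 h).resolve_left (sub_ne_zero.2 dbd)
  have hz : b - e = 0 := by
    linear_combination (1) * G4
  exact (sub_ne_zero.2 dbe) hz

/-- pattern 0001123411 -/
theorem k5w25 : ¬ Realk 5 5 160240128 := by
  intro h
  obtain ⟨x, hd, F⟩ := five_of_realk_ne h
  exact k5w25_aux (fun e => absurd (hd 1 3 (by norm_num) (by norm_num) e) (by norm_num)) (fun e => absurd (hd 1 4 (by norm_num) (by norm_num) e) (by norm_num)) (F : Five (x 0) (x 0) (x 0) (x 1) (x 1) (x 2) (x 3) (x 4) (x 1) (x 1))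

theorem k5w26_aux {a b c d e : ℝ} (dbd : b ≠ d) (dbe : b ≠ e) (F : Five a a a b b c d e c c) : False := by
  have ha : 0 < a := F.q01
  have hc : 0 < c := F.q23
  have M0 : -2 * a ^ 3 + 4 * a ^ 2 * b + 2 * a ^ 2 * c - 2 * a * b ^ 2 + 4 * a * b * c - 2 * a * c ^ 2 = 0 := by linear_combination F.m123_123
  have M1 : -2 * a ^ 3 + 2 * a ^ 2 * b - a ^ 2 * c + a ^ 2 * d + a ^ 2 * e + 2 * a * b * c - a * b * d - a * b * e - 2 * a * c ^ 2 + a * c * d + a * c * e = 0 := by linear_combination F.m123_124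
  have M2 : -2 * a ^ 2 * b - a ^ 2 * c + a ^ 2 * d + a ^ 2 * e + 2 * a * b ^ 2 - a * b * d - a * b * e + 2 * a * c ^ 2 - a * c * d - a * c * e = 0 := by linear_combination F.m123_134
  have M3 : -2 * a ^ 3 + 2 * a ^ 2 * c + 2 * a ^ 2 * d + 2 * a ^ 2 * e - 2 * a * c ^ 2 + 2 * a * c * d + 2 * a * c * e - 2 * a * d ^ 2 + 2 * a * d * e - 2 * a * e ^ 2 = 0 := by linear_combination F.m124_124
  have G0 : b ^ 2 + 3 * b * c - b * d - b * e + 3 * c ^ 2 - 3 * c * d - 3 * c * e + d ^ 2 - d * e + e ^ 2 = 0 := by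
    have h : a * (b ^ 2 + 3 * b * c - b * d - b * e + 3 * c ^ 2 - 3 * c * d - 3 * c * e + d ^ 2 - d * e + e ^ 2) = 0 := by
      linear_combination (-1 / 2) * M3 +
      (-1 / 2) * M1 +
      (1) * M0 +
      (3 / 2) * M2
    exact (mul_eq_zero.1 h).resolve_left ha.ne'
  have G1 : a * c + b * c + c ^ 2 - c * d - c * e = 0 := by
    have h : a * (a * c + b * c + c ^ 2 - c * d - c * e) = 0 := by
      linear_combination (1 / 2) * M0 +
      (1 / 2) * M2 +
      (-1 / 2) * M1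
    exact (mul_eq_zero.1 h).resolve_left ha.ne'
  have G2 : 2 * a * b - a * d - a * e + 5 * b * c - b * d - b * e + 3 * c ^ 2 - 4 * c * d - 4 * c * e + 2 * d ^ 2 - 2 * d * e + 2 * e ^ 2 = 0 := by
    have h : a * (2 * a * b - a * d - a * e + 5 * b * c - b * d - b * e + 3 * c ^ 2 - 4 * c * d - 4 * c * e + 2 * d ^ 2 - 2 * d * e + 2 * e ^ 2) = 0 := by
      linear_combination (-a) * G1 +
      (2 * a) * G0 +
      (-1) * M2
    exact (mul_eq_zero.1 h).resolve_left ha.ne'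
  have G3 : a + b + c - d - e = 0 := by
    have h : c * (a + b + c - d - e) = 0 := by
      linear_combination (1) * G1
    exact (mul_eq_zero.1 h).resolve_left hc.ne'
  have G4 : b - e = 0 := by
    have h : (b - d) * (b - e) = 0 := by
      linear_combination (2 / 3 * b - 1 / 3 * d - 1 / 3 * e) * G3 +
      (-1 / 3) * G2 +
      (1 / 3) * G0
    exact (mul_eq_zero.1 h).resolve_left (sub_ne_zero.2 dbd)
  have hz : b - e = 0 := by
    linear_combination (1) * G4
  exact (sub_ne_zero.2 dbe) hz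

/-- pattern 0001123422 -/
theorem k5w26 : ¬ Realk 5 5 311235072 := by
  intro h
  obtain ⟨x, hd, F⟩ := five_of_realk_ne h
  exact k5w26_aux (fun e => absurd (hd 1 3 (by norm_num) (by norm_num) e) (by norm_num)) (fun e => absurd (hd 1 4 (by norm_num) (by norm_num) e) (by norm_num)) (F : Five (x 0) (x 0) (x 0) (x 1) (x 1) (x 2) (x 3) (x 4) (x 2) (x 2))

theorem k5w27_aux {a b c d e : ℝ} (dbd : b ≠ d) (F : Five a a a b b c d e d b) : False := by
  have ha : 0 < a := F.q01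
  have he : 0 < e := F.q14
  have M0 : -2 * a ^ 3 + 4 * a ^ 2 * b + 2 * a ^ 2 * c - 2 * a * b ^ 2 + 4 * a * b * c - 2 * a * c ^ 2 = 0 := by linear_combination F.m123_123
  have M1 : -2 * a ^ 3 - a ^ 2 * b + a ^ 2 * c + 2 * a ^ 2 * d + a ^ 2 * e + a * b * d - a * b * e - a * c * d + a * c * e = 0 := by linear_combination F.m123_124
  have M2 : -3 * a ^ 2 * b + a ^ 2 * c + a ^ 2 * e + 3 * a * b * d - a * b * e - a * c * d - a * c * e = 0 := by linear_combination F.m123_134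
  have M3 : -2 * a ^ 3 + 4 * a ^ 2 * d + 2 * a ^ 2 * e - 2 * a * d ^ 2 + 4 * a * d * e - 2 * a * e ^ 2 = 0 := by linear_combination F.m124_124
  have M4 : -a ^ 2 * b + a ^ 2 * c - 2 * a ^ 2 * d + a ^ 2 * e + a * b * d + a * b * e - a * c * d - a * c * e + 2 * a * d ^ 2 - 2 * a * d * e = 0 := by linear_combination F.m124_234
  have G0 : a * e + b * e - c * e + d * e - e ^ 2 = 0 := by
    have h : a * (a * e + b * e - c * e + d * e - e ^ 2) = 0 := by
      linear_combination (1 / 2) * M3 +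
      (1 / 2) * M4 +
      (-1 / 2) * M1
    exact (mul_eq_zero.1 h).resolve_left ha.ne'
  have G1 : 3 * a * d - b ^ 2 + 2 * b * c + 2 * b * d - 2 * b * e - c ^ 2 + c * d - c * e - 4 * d ^ 2 + 5 * d * e - e ^ 2 = 0 := by
    have h : a * (3 * a * d - b ^ 2 + 2 * b * c + 2 * b * d - 2 * b * e - c ^ 2 + c * d - c * e - 4 * d ^ 2 + 5 * d * e - e ^ 2) = 0 := by
      linear_combination (1 / 2) * M0 +
      (3 / 2) * M2 +
      (1 / 2) * M3 +
      (-3 / 2) * M4 +
      (-1) * M1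
    exact (mul_eq_zero.1 h).resolve_left ha.ne'
  have G2 : a * c - b ^ 2 + 2 * b * c + 2 * b * d - b * e - c ^ 2 - c * e - d ^ 2 + d * e = 0 := by
    have h : a * (a * c - b ^ 2 + 2 * b * c + 2 * b * d - b * e - c ^ 2 - c * e - d ^ 2 + d * e) = 0 := by
      linear_combination (1) * M2 +
      (-1 / 2) * M1 +
      (-1 / 2) * M4 +
      (1 / 2) * M0
    exact (mul_eq_zero.1 h).resolve_left ha.ne'
  have G3 : 3 * a * b - b ^ 2 + 2 * b * c - b * d + b * e - c ^ 2 + c * d - c * e - d ^ 2 + 2 * d * e - e ^ 2 = 0 := by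
    have h : a * (3 * a * b - b ^ 2 + 2 * b * c - b * d + b * e - c ^ 2 + c * d - c * e - d ^ 2 + 2 * d * e - e ^ 2) = 0 := by
      linear_combination (a) * G0 +
      (a) * G2 +
      (-1) * M2
    exact (mul_eq_zero.1 h).resolve_left ha.ne'
  have G4 : a + b - c + d - e = 0 := by
    have h : e * (a + b - c + d - e) = 0 := by
      linear_combination (1) * G0
    exact (mul_eq_zero.1 h).resolve_left he.ne'
  have G5 : b - d = 0 := by
    have h : a * (b - d) = 0 := by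
      linear_combination (1 / 3 * b - 1 / 3 * c - 1 / 3 * d) * G4 +
      (2 / 9) * G3 +
      (-2 / 9) * G1 +
      (1 / 3) * G2
    exact (mul_eq_zero.1 h).resolve_left ha.ne'
  have hz : b - d = 0 := by
    linear_combination (1) * G5
  exact (sub_ne_zero.2 dbd) hz

/-- pattern 0001123431 -/
theorem k5w27 : ¬ Realk 5 5 193794560 := by
  intro h
  obtain ⟨x, hd, F⟩ := five_of_realk_ne h
  exact k5w27_aux (fun e => absurd (hd 1 3 (by norm_num) (by norm_num) e) (by norm_num)) (F : Five (x 0) (x 0) (x 0) (x 1) (x 1) (x 2) (x 3) (x 4) (x 3) (x 1))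

theorem k5w28_aux {a b c d e : ℝ} (dbc : b ≠ c) (dce : c ≠ e) (F : Five a a a b c d b d e c) : False := by
  have ha : 0 < a := F.q01
  have M0 : 2 * a ^ 2 * d - a ^ 2 * e + 3 * a * b * c - 2 * a * b * d - 2 * a * c ^ 2 + 2 * a * c * d + a * c * e - 3 * a * d ^ 2 + a * d * e - b ^ 2 * c + 2 * b ^ 2 * d - b ^ 2 * e + b * c * d + b * c * e - 3 * b * d ^ 2 + b * d * e - c * d * e + d ^ 3 = 0 := by linear_combination F.m123_234
  have M1 : 2 * a ^ 2 * d - a ^ 2 * e + a * b * c - 2 * a * b * d + 2 * a * b * e + 2 * a * c * d - a * c * e - 3 * a * d ^ 2 + a * d * e - b ^ 2 * c + 2 * b ^ 2 * d - b ^ 2 * e + b * c * d + b * c * e - 3 * b * d ^ 2 + b * d * e - c * d * e + d ^ 3 = 0 := by linear_combination F.m124_134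
  have G0 : b * c - b * e - c ^ 2 + c * e = 0 := by
    have h : a * (b * c - b * e - c ^ 2 + c * e) = 0 := by
      linear_combination (-1 / 2) * M1 +
      (1 / 2) * M0
    exact (mul_eq_zero.1 h).resolve_left ha.ne'
  have G1 : c - e = 0 := by
    have h : (b - c) * (c - e) = 0 := by
      linear_combination (1) * G0
    exact (mul_eq_zero.1 h).resolve_left (sub_ne_zero.2 dbc)
  have hz : c - e = 0 := by
    linear_combination (1) * G1
  exact (sub_ne_zero.2 dce) hz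

/-- pattern 0001231342 -/
theorem k5w28 : ¬ Realk 5 5 342204928 := by
  intro h
  obtain ⟨x, hd, F⟩ := five_of_realk_ne h
  exact k5w28_aux (fun e => absurd (hd 1 2 (by norm_num) (by norm_num) e) (by norm_num)) (fun e => absurd (hd 2 4 (by norm_num) (by norm_num) e) (by norm_num)) (F : Five (x 0) (x 0) (x 0) (x 1) (x 2) (x 3) (x 1) (x 3) (x 4) (x 2))

theorem k5w31_aux {a b c d e f : ℝ} (dbf : b ≠ f) (dce : c ≠ e) (F : Five a a a b c d b d e f) : False := by
  have ha : 0 < a := F.q01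
  have M0 : -a ^ 2 * c + 2 * a ^ 2 * d - a ^ 2 * e + a ^ 2 * f + 2 * a * b * c - 2 * a * b * d + a * b * f + a * c * d + a * c * e - 2 * a * c * f - 3 * a * d ^ 2 + a * d * e + a * d * f - b ^ 2 * c + 2 * b ^ 2 * d - b ^ 2 * e + b * c * d + b * c * e - 3 * b * d ^ 2 + b * d * e - c * d * e + d ^ 3 = 0 := by linear_combination F.m123_234
  have M1 : -a ^ 2 * c + 2 * a ^ 2 * d - a ^ 2 * e + a ^ 2 * f - 2 * a * b * d + 2 * a * b * e + a * b * f + a * c * d + a * c * e - 3 * a * d ^ 2 + a * d * e + a * d * f - 2 * a * e * f - b ^ 2 * c + 2 * b ^ 2 * d - b ^ 2 * e + b * c * d + b * c * e - 3 * b * d ^ 2 + b * d * e - c * d * e + d ^ 3 = 0 := by linear_combination F.m124_134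
  have G0 : b * c - b * e - c * f + e * f = 0 := by
    have h : a * (b * c - b * e - c * f + e * f) = 0 := by
      linear_combination (1 / 2) * M0 +
      (-1 / 2) * M1
    exact (mul_eq_zero.1 h).resolve_left ha.ne'
  have G1 : c - e = 0 := by
    have h : (b - f) * (c - e) = 0 := by
      linear_combination (1) * G0
    exact (mul_eq_zero.1 h).resolve_left (sub_ne_zero.2 dbf)
  have hz : c - e = 0 := by
    linear_combination (1) * G1
  exact (sub_ne_zero.2 dce) hz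

/-- pattern 0001231345 -/
theorem k5w31 : ¬ Realk 5 6 744858112 := by
  intro h
  obtain ⟨x, hd, F⟩ := five_of_realk_ne h
  exact k5w31_aux (fun e => absurd (hd 1 5 (by norm_num) (by norm_num) e) (by norm_num)) (fun e => absurd (hd 2 4 (by norm_num) (by norm_num) e) (by norm_num)) (F : Five (x 0) (x 0) (x 0) (x 1) (x 2) (x 3) (x 1) (x 3) (x 4) (x 5))

end CR
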