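import Pool.Agent.Lib.MP_6f5d36_co.OccReal

set_option autoImplicit false
set_option linter.unusedSimpArgs false
set_option linter.unusedVariables false

/-!
# MP_6f5d36_co : the 33 patterns of five points which are realizable only with equal colours

Every pattern has a certificate: zero forms of degree two (saturation steps), then a combination which
is a positive multiple of the square of a difference of two different values.
-/

namespace CR

theorem k5w_173 : ¬ Realk 5 8 453545984 := by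
  rintro ⟨X, Y, x, G, hp, hi, hs⟩
  have e01 : sd X Y 0 1 = x 0 := hs 0 1 (by norm_num) (by norm_num)
  have e02 : sd X Y 0 2 = x 0 := hs 0 2 (by norm_num) (by norm_num)
  have e12 : sd X Y 1 2 = x 0 := hs 1 2 (by norm_num) (by norm_num)
  have e03 : sd X Y 0 3 = x 0 := hs 0 3 (by norm_num) (by norm_num)
  have e13 : sd X Y 1 3 = x 1 := hs 1 3 (by norm_num) (by norm_num)
  have e23 : sd X Y 2 3 = x 1 := hs 2 3 (by norm_num) (by norm_num)
  have e04 : sd X Y 0 4 = x 2 := hs 0 4 (by norm_num) (by norm_num)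
  have e14 : sd X Y 1 4 = x 0 := hs 1 4 (by norm_num) (by norm_num)
  have e24 : sd X Y 2 4 = x 3 := hs 2 4 (by norm_num) (by norm_num)
  have e34 : sd X Y 3 4 = x 3 := hs 3 4 (by norm_num) (by norm_num)
  have e21 : sd X Y 2 1 = x 0 := by rw [sd_symm]; exact e12
  have e31 : sd X Y 3 1 = x 1 := by rw [sd_symm]; exact e13
  have e32 : sd X Y 3 2 = x 1 := by rw [sd_symm]; exact e23
  have e41 : sd X Y 4 1 = x 0 := by rw [sd_symm]; exact e14
  have e42 : sd X Y 4 2 = x 3 := by rw [sd_symm]; exact e24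
  have e43 : sd X Y 4 3 = x 3 := by rw [sd_symm]; exact e34
  have m124_124 := minor_zero X Y 0 1 2 4 1 2 4
  simp only [gm, sd_self, e01, e02, e03, e04, e12, e13, e14, e21, e23, e24, e31, e32, e34, e41, e42, e43] at m124_124
  have m124_234 := minor_zero X Y 0 1 2 4 2 3 4
  simp only [gm, sd_self, e01, e02, e03, e04, e12, e13, e14, e21, e23, e24, e31, e32, e34, e41, e42, e43] at m124_234
  have m134_234 := minor_zero X Y 0 1 3 4 2 3 4
  simp only [gm, sd_self, e01, e02, e03, e04, e12, e13, e14, e21, e23, e24, e31, e32, e34, e41, e42, e43] at m134_234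
  have m234_234 := minor_zero X Y 0 2 3 4 2 3 4
  simp only [gm, sd_self, e01, e02, e03, e04, e12, e13, e14, e21, e23, e24, e31, e32, e34, e41, e42, e43] at m234_234
  have p0 : 0 < x 0 := hp 0
  have p1 : 0 < x 1 := hp 1
  have p2 : 0 < x 2 := hp 2
  have p3 : 0 < x 3 := hp 3
  have q0 : x 2 * ((-2 : ℝ) * x 0 * x 1 + (2 : ℝ) * x 0 * x 3) = 0 := by linear_combination (-1 : ℝ) * m124_124 + (-1 : ℝ) * m124_234 + (-1 : ℝ) * m134_234 + (1 : ℝ) * m234_234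
  have g0 : (-2 : ℝ) * x 0 * x 1 + (2 : ℝ) * x 0 * x 3 = 0 := (mul_eq_zero.1 q0).resolve_left p2.ne'
  have d0 : 0 < (x 1 - x 3) ^ 2 := by
    have h : x 1 - x 3 ≠ 0 := sub_ne_zero.2 fun h => absurd (hi 1 3 (by norm_num) (by norm_num) h) (by norm_num)
    positivity
  have t0 : 0 < (2 : ℝ) * ((x 1 - x 3) ^ 2 * (x 0)) := by positivity
  have z : (2 : ℝ) * ((x 1 - x 3) ^ 2 * (x 0)) = 0 := by linear_combination (-1 : ℝ) * (x 1) * g0 + (1 : ℝ) * (x 3) * g0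
  linarith

theorem k5w_179 : ¬ Realk 5 8 323522560 := by
  rintro ⟨X, Y, x, G, hp, hi, hs⟩
  have e01 : sd X Y 0 1 = x 0 := hs 0 1 (by norm_num) (by norm_num)
  have e02 : sd X Y 0 2 = x 0 := hs 0 2 (by norm_num) (by norm_num)
  have e12 : sd X Y 1 2 = x 0 := hs 1 2 (by norm_num) (by norm_num)
  have e03 : sd X Y 0 3 = x 0 := hs 0 3 (by norm_num) (by norm_num)
  have e13 : sd X Y 1 3 = x 1 := hs 1 3 (by norm_num) (by norm_num)
  have e23 : sd X Y 2 3 = x 1 := hs 2 3 (by norm_num) (by norm_num)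
  have e04 : sd X Y 0 4 = x 2 := hs 0 4 (by norm_num) (by norm_num)
  have e14 : sd X Y 1 4 = x 2 := hs 1 4 (by norm_num) (by norm_num)
  have e24 : sd X Y 2 4 = x 3 := hs 2 4 (by norm_num) (by norm_num)
  have e34 : sd X Y 3 4 = x 2 := hs 3 4 (by norm_num) (by norm_num)
  have e21 : sd X Y 2 1 = x 0 := by rw [sd_symm]; exact e12
  have e31 : sd X Y 3 1 = x 1 := by rw [sd_symm]; exact e13
  have e32 : sd X Y 3 2 = x 1 := by rw [sd_symm]; exact e23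
  have e41 : sd X Y 4 1 = x 2 := by rw [sd_symm]; exact e14
  have e42 : sd X Y 4 2 = x 3 := by rw [sd_symm]; exact e24
  have e43 : sd X Y 4 3 = x 2 := by rw [sd_symm]; exact e34
  have m123_124 := minor_zero X Y 0 1 2 3 1 2 4
  simp only [gm, sd_self, e01, e02, e03, e04, e12, e13, e14, e21, e23, e24, e31, e32, e34, e41, e42, e43] at m123_124
  have m124_124 := minor_zero X Y 0 1 2 4 1 2 4
  simp only [gm, sd_self, e01, e02, e03, e04, e12, e13, e14, e21, e23, e24, e31, e32, e34, e41, e42, e43] at m124_124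
  have m134_234 := minor_zero X Y 0 1 3 4 2 3 4
  simp only [gm, sd_self, e01, e02, e03, e04, e12, e13, e14, e21, e23, e24, e31, e32, e34, e41, e42, e43] at m134_234
  have m234_234 := minor_zero X Y 0 2 3 4 2 3 4
  simp only [gm, sd_self, e01, e02, e03, e04, e12, e13, e14, e21, e23, e24, e31, e32, e34, e41, e42, e43] at m234_234
  have p0 : 0 < x 0 := hp 0
  have p1 : 0 < x 1 := hp 1
  have p2 : 0 < x 2 := hp 2
  have p3 : 0 < x 3 := hp 3
  have q0 : x 0 * ((-2 : ℝ) * x 0 * x 1 + (2 : ℝ) * x 0 * x 2) = 0 := by linear_combination (-1 : ℝ) * m234_234 + (-1 : ℝ) * m123_124 + (1 : ℝ) * m124_124 + (1 : ℝ) * m134_234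
  have g0 : (-2 : ℝ) * x 0 * x 1 + (2 : ℝ) * x 0 * x 2 = 0 := (mul_eq_zero.1 q0).resolve_left p0.ne'
  have d0 : 0 < (x 1 - x 2) ^ 2 := by
    have h : x 1 - x 2 ≠ 0 := sub_ne_zero.2 fun h => absurd (hi 1 2 (by norm_num) (by norm_num) h) (by norm_num)
    positivity
  have t0 : 0 < (2 : ℝ) * ((x 1 - x 2) ^ 2 * (x 0)) := by positivity
  have z : (2 : ℝ) * ((x 1 - x 2) ^ 2 * (x 0)) = 0 := by linear_combination (-1 : ℝ) * (x 1) * g0 + (1 : ℝ) * (x 2) * g0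
  linarith

theorem k5w_166 : ¬ Realk 5 8 438603776 := by
  rintro ⟨X, Y, x, G, hp, hi, hs⟩
  have e01 : sd X Y 0 1 = x 0 := hs 0 1 (by norm_num) (by norm_num)
  have e02 : sd X Y 0 2 = x 0 := hs 0 2 (by norm_num) (by norm_num)
  have e12 : sd X Y 1 2 = x 0 := hs 1 2 (by norm_num) (by norm_num)
  have e03 : sd X Y 0 3 = x 0 := hs 0 3 (by norm_num) (by norm_num)
  have e13 : sd X Y 1 3 = x 1 := hs 1 3 (by norm_num) (by norm_num)
  have e23 : sd X Y 2 3 = x 1 := hs 2 3 (by norm_num) (by norm_num)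
  have e04 : sd X Y 0 4 = x 1 := hs 0 4 (by norm_num) (by norm_num)
  have e14 : sd X Y 1 4 = x 1 := hs 1 4 (by norm_num) (by norm_num)
  have e24 : sd X Y 2 4 = x 2 := hs 2 4 (by norm_num) (by norm_num)
  have e34 : sd X Y 3 4 = x 3 := hs 3 4 (by norm_num) (by norm_num)
  have e21 : sd X Y 2 1 = x 0 := by rw [sd_symm]; exact e12
  have e31 : sd X Y 3 1 = x 1 := by rw [sd_symm]; exact e13
  have e32 : sd X Y 3 2 = x 1 := by rw [sd_symm]; exact e23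
  have e41 : sd X Y 4 1 = x 1 := by rw [sd_symm]; exact e14
  have e42 : sd X Y 4 2 = x 2 := by rw [sd_symm]; exact e24
  have e43 : sd X Y 4 3 = x 3 := by rw [sd_symm]; exact e34
  have m123_123 := minor_zero X Y 0 1 2 3 1 2 3
  simp only [gm, sd_self, e01, e02, e03, e04, e12, e13, e14, e21, e23, e24, e31, e32, e34, e41, e42, e43] at m123_123
  have m123_124 := minor_zero X Y 0 1 2 3 1 2 4
  simp only [gm, sd_self, e01, e02, e03, e04, e12, e13, e14, e21, e23, e24, e31, e32, e34, e41, e42, e43] at m123_124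
  have m123_134 := minor_zero X Y 0 1 2 3 1 3 4
  simp only [gm, sd_self, e01, e02, e03, e04, e12, e13, e14, e21, e23, e24, e31, e32, e34, e41, e42, e43] at m123_134
  have m123_234 := minor_zero X Y 0 1 2 3 2 3 4
  simp only [gm, sd_self, e01, e02, e03, e04, e12, e13, e14, e21, e23, e24, e31, e32, e34, e41, e42, e43] at m123_234
  have m124_124 := minor_zero X Y 0 1 2 4 1 2 4
  simp only [gm, sd_self, e01, e02, e03, e04, e12, e13, e14, e21, e23, e24, e31, e32, e34, e41, e42, e43] at m124_124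
  have m124_134 := minor_zero X Y 0 1 2 4 1 3 4
  simp only [gm, sd_self, e01, e02, e03, e04, e12, e13, e14, e21, e23, e24, e31, e32, e34, e41, e42, e43] at m124_134
  have m134_134 := minor_zero X Y 0 1 3 4 1 3 4
  simp only [gm, sd_self, e01, e02, e03, e04, e12, e13, e14, e21, e23, e24, e31, e32, e34, e41, e42, e43] at m134_134
  have m134_234 := minor_zero X Y 0 1 3 4 2 3 4
  simp only [gm, sd_self, e01, e02, e03, e04, e12, e13, e14, e21, e23, e24, e31, e32, e34, e41, e42, e43] at m134_234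
  have m234_234 := minor_zero X Y 0 2 3 4 2 3 4
  simp only [gm, sd_self, e01, e02, e03, e04, e12, e13, e14, e21, e23, e24, e31, e32, e34, e41, e42, e43] at m234_234
  have p0 : 0 < x 0 := hp 0
  have p1 : 0 < x 1 := hp 1
  have p2 : 0 < x 2 := hp 2
  have p3 : 0 < x 3 := hp 3
  have q0 : (x 0 - x 2) * ((-2 : ℝ) * x 0 * x 1 + (2 : ℝ) * x 0 * x 3) = 0 := by linear_combination (-1 : ℝ) * m123_123 + (1 : ℝ) * m123_124 + (-1 : ℝ) * m123_134 + (1 : ℝ) * m123_234 + (1 : ℝ) * m124_134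
  have g0 : (-2 : ℝ) * x 0 * x 1 + (2 : ℝ) * x 0 * x 3 = 0 := (mul_eq_zero.1 q0).resolve_left (sub_ne_zero.2 fun h => absurd (hi 0 2 (by norm_num) (by norm_num) h) (by norm_num))
  have d0 : 0 < (x 1 - x 3) ^ 2 := by
    have h : x 1 - x 3 ≠ 0 := sub_ne_zero.2 fun h => absurd (hi 1 3 (by norm_num) (by norm_num) h) (by norm_num)
    positivity
  have t0 : 0 < (4 : ℝ) * ((x 1 - x 3) ^ 2 * (x 0)) := by positivity
  have z : (4 : ℝ) * ((x 1 - x 3) ^ 2 * (x 0)) = 0 := by linear_combination (-1 : ℝ) * m123_134 + (1 : ℝ) * m123_234 + (1 : ℝ) * m124_124 + (-1 : ℝ) * m134_134 + (2 : ℝ) * m134_234 + (-1 : ℝ) * m234_234 + (1 : ℝ) * (x 3) * g0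
  linarith

theorem k5w_197 : ¬ Realk 5 8 321196032 := by
  rintro ⟨X, Y, x, G, hp, hi, hs⟩
  have e01 : sd X Y 0 1 = x 0 := hs 0 1 (by norm_num) (by norm_num)
  have e02 : sd X Y 0 2 = x 0 := hs 0 2 (by norm_num) (by norm_num)
  have e12 : sd X Y 1 2 = x 0 := hs 1 2 (by norm_num) (by norm_num)
  have e03 : sd X Y 0 3 = x 0 := hs 0 3 (by norm_num) (by norm_num)
  have e13 : sd X Y 1 3 = x 1 := hs 1 3 (by norm_num) (by norm_num)
  have e23 : sd X Y 2 3 = x 2 := hs 2 3 (by norm_num) (by norm_num)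
  have e04 : sd X Y 0 4 = x 1 := hs 0 4 (by norm_num) (by norm_num)
  have e14 : sd X Y 1 4 = x 1 := hs 1 4 (by norm_num) (by norm_num)
  have e24 : sd X Y 2 4 = x 3 := hs 2 4 (by norm_num) (by norm_num)
  have e34 : sd X Y 3 4 = x 2 := hs 3 4 (by norm_num) (by norm_num)
  have e21 : sd X Y 2 1 = x 0 := by rw [sd_symm]; exact e12
  have e31 : sd X Y 3 1 = x 1 := by rw [sd_symm]; exact e13
  have e32 : sd X Y 3 2 = x 2 := by rw [sd_symm]; exact e23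
  have e41 : sd X Y 4 1 = x 1 := by rw [sd_symm]; exact e14
  have e42 : sd X Y 4 2 = x 3 := by rw [sd_symm]; exact e24
  have e43 : sd X Y 4 3 = x 2 := by rw [sd_symm]; exact e34
  have m123_123 := minor_zero X Y 0 1 2 3 1 2 3
  simp only [gm, sd_self, e01, e02, e03, e04, e12, e13, e14, e21, e23, e24, e31, e32, e34, e41, e42, e43] at m123_123
  have m123_124 := minor_zero X Y 0 1 2 3 1 2 4
  simp only [gm, sd_self, e01, e02, e03, e04, e12, e13, e14, e21, e23, e24, e31, e32, e34, e41, e42, e43] at m123_124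
  have m124_124 := minor_zero X Y 0 1 2 4 1 2 4
  simp only [gm, sd_self, e01, e02, e03, e04, e12, e13, e14, e21, e23, e24, e31, e32, e34, e41, e42, e43] at m124_124
  have m124_134 := minor_zero X Y 0 1 2 4 1 3 4
  simp only [gm, sd_self, e01, e02, e03, e04, e12, e13, e14, e21, e23, e24, e31, e32, e34, e41, e42, e43] at m124_134
  have m134_134 := minor_zero X Y 0 1 3 4 1 3 4
  simp only [gm, sd_self, e01, e02, e03, e04, e12, e13, e14, e21, e23, e24, e31, e32, e34, e41, e42, e43] at m134_134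
  have m134_234 := minor_zero X Y 0 1 3 4 2 3 4
  simp only [gm, sd_self, e01, e02, e03, e04, e12, e13, e14, e21, e23, e24, e31, e32, e34, e41, e42, e43] at m134_234
  have m234_234 := minor_zero X Y 0 2 3 4 2 3 4
  simp only [gm, sd_self, e01, e02, e03, e04, e12, e13, e14, e21, e23, e24, e31, e32, e34, e41, e42, e43] at m234_234
  have p0 : 0 < x 0 := hp 0
  have p1 : 0 < x 1 := hp 1
  have p2 : 0 < x 2 := hp 2
  have p3 : 0 < x 3 := hp 3
  have q0 : x 3 * ((-4 : ℝ) * x 0 * x 2 + (2 : ℝ) * x 0 * x 3) = 0 := by linear_combination (1 : ℝ) * m123_124 + (-1 : ℝ) * m124_124 + (1 : ℝ) * m124_134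
  have g0 : (-4 : ℝ) * x 0 * x 2 + (2 : ℝ) * x 0 * x 3 = 0 := (mul_eq_zero.1 q0).resolve_left p3.ne'
  have d0 : 0 < (x 1 - x 2) ^ 2 := by
    have h : x 1 - x 2 ≠ 0 := sub_ne_zero.2 fun h => absurd (hi 1 2 (by norm_num) (by norm_num) h) (by norm_num)
    positivity
  have t0 : 0 < (6 : ℝ) * ((x 1 - x 2) ^ 2 * (x 3)) := by positivity
  have z : (6 : ℝ) * ((x 1 - x 2) ^ 2 * (x 3)) = 0 := by linear_combination (1 : ℝ) * m123_123 + (2 : ℝ) * m124_124 + (-3 : ℝ) * m134_134 + (6 : ℝ) * m134_234 + (-3 : ℝ) * m234_234 + (-2 : ℝ) * (x 0) * g0 + (-1 : ℝ) * (x 1) * g0 + (1 : ℝ) * (x 2) * g0 + (-1 : ℝ) * (x 3) * g0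
  linarith

theorem k5w_175 : ¬ Realk 5 8 187207680 := by
  rintro ⟨X, Y, x, G, hp, hi, hs⟩
  have e01 : sd X Y 0 1 = x 0 := hs 0 1 (by norm_num) (by norm_num)
  have e02 : sd X Y 0 2 = x 0 := hs 0 2 (by norm_num) (by norm_num)
  have e12 : sd X Y 1 2 = x 0 := hs 1 2 (by norm_num) (by norm_num)
  have e03 : sd X Y 0 3 = x 0 := hs 0 3 (by norm_num) (by norm_num)
  have e13 : sd X Y 1 3 = x 1 := hs 1 3 (by norm_num) (by norm_num)
  have e23 : sd X Y 2 3 = x 1 := hs 2 3 (by norm_num) (by norm_num)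
  have e04 : sd X Y 0 4 = x 2 := hs 0 4 (by norm_num) (by norm_num)
  have e14 : sd X Y 1 4 = x 1 := hs 1 4 (by norm_num) (by norm_num)
  have e24 : sd X Y 2 4 = x 3 := hs 2 4 (by norm_num) (by norm_num)
  have e34 : sd X Y 3 4 = x 1 := hs 3 4 (by norm_num) (by norm_num)
  have e21 : sd X Y 2 1 = x 0 := by rw [sd_symm]; exact e12
  have e31 : sd X Y 3 1 = x 1 := by rw [sd_symm]; exact e13
  have e32 : sd X Y 3 2 = x 1 := by rw [sd_symm]; exact e23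
  have e41 : sd X Y 4 1 = x 1 := by rw [sd_symm]; exact e14
  have e42 : sd X Y 4 2 = x 3 := by rw [sd_symm]; exact e24
  have e43 : sd X Y 4 3 = x 1 := by rw [sd_symm]; exact e34
  have m123_134 := minor_zero X Y 0 1 2 3 1 3 4
  simp only [gm, sd_self, e01, e02, e03, e04, e12, e13, e14, e21, e23, e24, e31, e32, e34, e41, e42, e43] at m123_134
  have m123_234 := minor_zero X Y 0 1 2 3 2 3 4
  simp only [gm, sd_self, e01, e02, e03, e04, e12, e13, e14, e21, e23, e24, e31, e32, e34, e41, e42, e43] at m123_234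
  have m124_124 := minor_zero X Y 0 1 2 4 1 2 4
  simp only [gm, sd_self, e01, e02, e03, e04, e12, e13, e14, e21, e23, e24, e31, e32, e34, e41, e42, e43] at m124_124
  have m134_134 := minor_zero X Y 0 1 3 4 1 3 4
  simp only [gm, sd_self, e01, e02, e03, e04, e12, e13, e14, e21, e23, e24, e31, e32, e34, e41, e42, e43] at m134_134
  have m134_234 := minor_zero X Y 0 1 3 4 2 3 4
  simp only [gm, sd_self, e01, e02, e03, e04, e12, e13, e14, e21, e23, e24, e31, e32, e34, e41, e42, e43] at m134_234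
  have m234_234 := minor_zero X Y 0 2 3 4 2 3 4
  simp only [gm, sd_self, e01, e02, e03, e04, e12, e13, e14, e21, e23, e24, e31, e32, e34, e41, e42, e43] at m234_234
  have p0 : 0 < x 0 := hp 0
  have p1 : 0 < x 1 := hp 1
  have p2 : 0 < x 2 := hp 2
  have p3 : 0 < x 3 := hp 3
  have q0 : (x 0 - x 3) * ((-2 : ℝ) * x 0 * x 1 + (2 : ℝ) * x 0 * x 2) = 0 := by linear_combination (1 : ℝ) * m123_134 + (-1 : ℝ) * m123_234 + (-1 : ℝ) * m124_124 + (1 : ℝ) * m134_134 + (-2 : ℝ) * m134_234 + (1 : ℝ) * m234_234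
  have g0 : (-2 : ℝ) * x 0 * x 1 + (2 : ℝ) * x 0 * x 2 = 0 := (mul_eq_zero.1 q0).resolve_left (sub_ne_zero.2 fun h => absurd (hi 0 3 (by norm_num) (by norm_num) h) (by norm_num))
  have d0 : 0 < (x 1 - x 2) ^ 2 := by
    have h : x 1 - x 2 ≠ 0 := sub_ne_zero.2 fun h => absurd (hi 1 2 (by norm_num) (by norm_num) h) (by norm_num)
    positivity
  have t0 : 0 < (2 : ℝ) * ((x 1 - x 2) ^ 2 * (x 0)) := by positivity
  have z : (2 : ℝ) * ((x 1 - x 2) ^ 2 * (x 0)) = 0 := by linear_combination (-1 : ℝ) * (x 1) * g0 + (1 : ℝ) * (x 2) * g0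
  linarith

theorem k5w_176 : ¬ Realk 5 8 321425408 := by
  rintro ⟨X, Y, x, G, hp, hi, hs⟩
  have e01 : sd X Y 0 1 = x 0 := hs 0 1 (by norm_num) (by norm_num)
  have e02 : sd X Y 0 2 = x 0 := hs 0 2 (by norm_num) (by norm_num)
  have e12 : sd X Y 1 2 = x 0 := hs 1 2 (by norm_num) (by norm_num)
  have e03 : sd X Y 0 3 = x 0 := hs 0 3 (by norm_num) (by norm_num)
  have e13 : sd X Y 1 3 = x 1 := hs 1 3 (by norm_num) (by norm_num)
  have e23 : sd X Y 2 3 = x 1 := hs 2 3 (by norm_num) (by norm_num)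
  have e04 : sd X Y 0 4 = x 2 := hs 0 4 (by norm_num) (by norm_num)
  have e14 : sd X Y 1 4 = x 1 := hs 1 4 (by norm_num) (by norm_num)
  have e24 : sd X Y 2 4 = x 3 := hs 2 4 (by norm_num) (by norm_num)
  have e34 : sd X Y 3 4 = x 2 := hs 3 4 (by norm_num) (by norm_num)
  have e21 : sd X Y 2 1 = x 0 := by rw [sd_symm]; exact e12
  have e31 : sd X Y 3 1 = x 1 := by rw [sd_symm]; exact e13
  have e32 : sd X Y 3 2 = x 1 := by rw [sd_symm]; exact e23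
  have e41 : sd X Y 4 1 = x 1 := by rw [sd_symm]; exact e14
  have e42 : sd X Y 4 2 = x 3 := by rw [sd_symm]; exact e24
  have e43 : sd X Y 4 3 = x 2 := by rw [sd_symm]; exact e34
  have m123_124 := minor_zero X Y 0 1 2 3 1 2 4
  simp only [gm, sd_self, e01, e02, e03, e04, e12, e13, e14, e21, e23, e24, e31, e32, e34, e41, e42, e43] at m123_124
  have m124_124 := minor_zero X Y 0 1 2 4 1 2 4
  simp only [gm, sd_self, e01, e02, e03, e04, e12, e13, e14, e21, e23, e24, e31, e32, e34, e41, e42, e43] at m124_124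
  have m134_234 := minor_zero X Y 0 1 3 4 2 3 4
  simp only [gm, sd_self, e01, e02, e03, e04, e12, e13, e14, e21, e23, e24, e31, e32, e34, e41, e42, e43] at m134_234
  have m234_234 := minor_zero X Y 0 2 3 4 2 3 4
  simp only [gm, sd_self, e01, e02, e03, e04, e12, e13, e14, e21, e23, e24, e31, e32, e34, e41, e42, e43] at m234_234
  have p0 : 0 < x 0 := hp 0
  have p1 : 0 < x 1 := hp 1
  have p2 : 0 < x 2 := hp 2
  have p3 : 0 < x 3 := hp 3
  have q0 : (x 0 - x 2) * ((-2 : ℝ) * x 0 * x 1 + (2 : ℝ) * x 0 * x 2) = 0 := by linear_combination (-1 : ℝ) * m123_124 + (1 : ℝ) * m124_124 + (1 : ℝ) * m134_234 + (-1 : ℝ) * m234_234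
  have g0 : (-2 : ℝ) * x 0 * x 1 + (2 : ℝ) * x 0 * x 2 = 0 := (mul_eq_zero.1 q0).resolve_left (sub_ne_zero.2 fun h => absurd (hi 0 2 (by norm_num) (by norm_num) h) (by norm_num))
  have d0 : 0 < (x 1 - x 2) ^ 2 := by
    have h : x 1 - x 2 ≠ 0 := sub_ne_zero.2 fun h => absurd (hi 1 2 (by norm_num) (by norm_num) h) (by norm_num)
    positivity
  have t0 : 0 < (2 : ℝ) * ((x 1 - x 2) ^ 2 * (x 0)) := by positivity
  have z : (2 : ℝ) * ((x 1 - x 2) ^ 2 * (x 0)) = 0 := by linear_combination (-1 : ℝ) * (x 1) * g0 + (1 : ℝ) * (x 2) * g0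
  linarith

theorem k5w_205 : ¬ Realk 5 8 140840960 := by
  rintro ⟨X, Y, x, G, hp, hi, hs⟩
  have e01 : sd X Y 0 1 = x 0 := hs 0 1 (by norm_num) (by norm_num)
  have e02 : sd X Y 0 2 = x 0 := hs 0 2 (by norm_num) (by norm_num)
  have e12 : sd X Y 1 2 = x 0 := hs 1 2 (by norm_num) (by norm_num)
  have e03 : sd X Y 0 3 = x 0 := hs 0 3 (by norm_num) (by norm_num)
  have e13 : sd X Y 1 3 = x 1 := hs 1 3 (by norm_num) (by norm_num)
  have e23 : sd X Y 2 3 = x 2 := hs 2 3 (by norm_num) (by norm_num)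
  have e04 : sd X Y 0 4 = x 1 := hs 0 4 (by norm_num) (by norm_num)
  have e14 : sd X Y 1 4 = x 3 := hs 1 4 (by norm_num) (by norm_num)
  have e24 : sd X Y 2 4 = x 0 := hs 2 4 (by norm_num) (by norm_num)
  have e34 : sd X Y 3 4 = x 1 := hs 3 4 (by norm_num) (by norm_num)
  have e21 : sd X Y 2 1 = x 0 := by rw [sd_symm]; exact e12
  have e31 : sd X Y 3 1 = x 1 := by rw [sd_symm]; exact e13
  have e32 : sd X Y 3 2 = x 2 := by rw [sd_symm]; exact e23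
  have e41 : sd X Y 4 1 = x 3 := by rw [sd_symm]; exact e14
  have e42 : sd X Y 4 2 = x 0 := by rw [sd_symm]; exact e24
  have e43 : sd X Y 4 3 = x 1 := by rw [sd_symm]; exact e34
  have m123_123 := minor_zero X Y 0 1 2 3 1 2 3
  simp only [gm, sd_self, e01, e02, e03, e04, e12, e13, e14, e21, e23, e24, e31, e32, e34, e41, e42, e43] at m123_123
  have m123_124 := minor_zero X Y 0 1 2 3 1 2 4
  simp only [gm, sd_self, e01, e02, e03, e04, e12, e13, e14, e21, e23, e24, e31, e32, e34, e41, e42, e43] at m123_124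
  have m123_134 := minor_zero X Y 0 1 2 3 1 3 4
  simp only [gm, sd_self, e01, e02, e03, e04, e12, e13, e14, e21, e23, e24, e31, e32, e34, e41, e42, e43] at m123_134
  have m124_134 := minor_zero X Y 0 1 2 4 1 3 4
  simp only [gm, sd_self, e01, e02, e03, e04, e12, e13, e14, e21, e23, e24, e31, e32, e34, e41, e42, e43] at m124_134
  have m124_234 := minor_zero X Y 0 1 2 4 2 3 4
  simp only [gm, sd_self, e01, e02, e03, e04, e12, e13, e14, e21, e23, e24, e31, e32, e34, e41, e42, e43] at m124_234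
  have m134_134 := minor_zero X Y 0 1 3 4 1 3 4
  simp only [gm, sd_self, e01, e02, e03, e04, e12, e13, e14, e21, e23, e24, e31, e32, e34, e41, e42, e43] at m134_134
  have m134_234 := minor_zero X Y 0 1 3 4 2 3 4
  simp only [gm, sd_self, e01, e02, e03, e04, e12, e13, e14, e21, e23, e24, e31, e32, e34, e41, e42, e43] at m134_234
  have p0 : 0 < x 0 := hp 0
  have p1 : 0 < x 1 := hp 1
  have p2 : 0 < x 2 := hp 2
  have p3 : 0 < x 3 := hp 3
  have q0 : x 0 * ((-2 : ℝ) * x 0 * x 0 + (4 : ℝ) * x 0 * x 1 + (-2 : ℝ) * x 1 * x 1 + (2 : ℝ) * x 2 * x 3) = 0 := by linear_combination (-1 : ℝ) * m123_134 + (-1 : ℝ) * m124_234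
  have g0 : (-2 : ℝ) * x 0 * x 0 + (4 : ℝ) * x 0 * x 1 + (-2 : ℝ) * x 1 * x 1 + (2 : ℝ) * x 2 * x 3 = 0 := (mul_eq_zero.1 q0).resolve_left p0.ne'
  have q1 : x 3 * ((-4 : ℝ) * x 0 * x 2 + (2 : ℝ) * x 2 * x 2) = 0 := by linear_combination (1 : ℝ) * (x 2) * g0 + (-1 : ℝ) * (x 0) * g0 + (-1 : ℝ) * m123_124 + (-1 : ℝ) * m134_234
  have g1 : (-4 : ℝ) * x 0 * x 2 + (2 : ℝ) * x 2 * x 2 = 0 := (mul_eq_zero.1 q1).resolve_left p3.ne'
  have d0 : 0 < (x 1 - x 3) ^ 2 := by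
    have h : x 1 - x 3 ≠ 0 := sub_ne_zero.2 fun h => absurd (hi 1 3 (by norm_num) (by norm_num) h) (by norm_num)
    positivity
  have t0 : 0 < (8 : ℝ) * ((x 1 - x 3) ^ 2 * (x 2)) := by positivity
  have z : (8 : ℝ) * ((x 1 - x 3) ^ 2 * (x 2)) = 0 := by linear_combination (4 : ℝ) * m123_123 + (3 : ℝ) * m123_124 + (-2 : ℝ) * m123_134 + (4 : ℝ) * m124_134 + (4 : ℝ) * m124_234 + (-4 : ℝ) * m134_134 + (1 : ℝ) * m134_234 + (-1 : ℝ) * (x 1) * g0 + (2 : ℝ) * (x 3) * g0 + (4 : ℝ) * (x 0) * g1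
  linarith

theorem k5w_178 : ¬ Realk 5 8 189304832 := by
  rintro ⟨X, Y, x, G, hp, hi, hs⟩
  have e01 : sd X Y 0 1 = x 0 := hs 0 1 (by norm_num) (by norm_num)
  have e02 : sd X Y 0 2 = x 0 := hs 0 2 (by norm_num) (by norm_num)
  have e12 : sd X Y 1 2 = x 0 := hs 1 2 (by norm_num) (by norm_num)
  have e03 : sd X Y 0 3 = x 0 := hs 0 3 (by norm_num) (by norm_num)
  have e13 : sd X Y 1 3 = x 1 := hs 1 3 (by norm_num) (by norm_num)
  have e23 : sd X Y 2 3 = x 1 := hs 2 3 (by norm_num) (by norm_num)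
  have e04 : sd X Y 0 4 = x 2 := hs 0 4 (by norm_num) (by norm_num)
  have e14 : sd X Y 1 4 = x 2 := hs 1 4 (by norm_num) (by norm_num)
  have e24 : sd X Y 2 4 = x 3 := hs 2 4 (by norm_num) (by norm_num)
  have e34 : sd X Y 3 4 = x 1 := hs 3 4 (by norm_num) (by norm_num)
  have e21 : sd X Y 2 1 = x 0 := by rw [sd_symm]; exact e12
  have e31 : sd X Y 3 1 = x 1 := by rw [sd_symm]; exact e13
  have e32 : sd X Y 3 2 = x 1 := by rw [sd_symm]; exact e23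
  have e41 : sd X Y 4 1 = x 2 := by rw [sd_symm]; exact e14
  have e42 : sd X Y 4 2 = x 3 := by rw [sd_symm]; exact e24
  have e43 : sd X Y 4 3 = x 1 := by rw [sd_symm]; exact e34
  have m123_123 := minor_zero X Y 0 1 2 3 1 2 3
  simp only [gm, sd_self, e01, e02, e03, e04, e12, e13, e14, e21, e23, e24, e31, e32, e34, e41, e42, e43] at m123_123
  have m123_124 := minor_zero X Y 0 1 2 3 1 2 4
  simp only [gm, sd_self, e01, e02, e03, e04, e12, e13, e14, e21, e23, e24, e31, e32, e34, e41, e42, e43] at m123_124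
  have m123_134 := minor_zero X Y 0 1 2 3 1 3 4
  simp only [gm, sd_self, e01, e02, e03, e04, e12, e13, e14, e21, e23, e24, e31, e32, e34, e41, e42, e43] at m123_134
  have m123_234 := minor_zero X Y 0 1 2 3 2 3 4
  simp only [gm, sd_self, e01, e02, e03, e04, e12, e13, e14, e21, e23, e24, e31, e32, e34, e41, e42, e43] at m123_234
  have m124_124 := minor_zero X Y 0 1 2 4 1 2 4
  simp only [gm, sd_self, e01, e02, e03, e04, e12, e13, e14, e21, e23, e24, e31, e32, e34, e41, e42, e43] at m124_124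
  have m124_134 := minor_zero X Y 0 1 2 4 1 3 4
  simp only [gm, sd_self, e01, e02, e03, e04, e12, e13, e14, e21, e23, e24, e31, e32, e34, e41, e42, e43] at m124_134
  have m134_134 := minor_zero X Y 0 1 3 4 1 3 4
  simp only [gm, sd_self, e01, e02, e03, e04, e12, e13, e14, e21, e23, e24, e31, e32, e34, e41, e42, e43] at m134_134
  have m134_234 := minor_zero X Y 0 1 3 4 2 3 4
  simp only [gm, sd_self, e01, e02, e03, e04, e12, e13, e14, e21, e23, e24, e31, e32, e34, e41, e42, e43] at m134_234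
  have m234_234 := minor_zero X Y 0 2 3 4 2 3 4
  simp only [gm, sd_self, e01, e02, e03, e04, e12, e13, e14, e21, e23, e24, e31, e32, e34, e41, e42, e43] at m234_234
  have p0 : 0 < x 0 := hp 0
  have p1 : 0 < x 1 := hp 1
  have p2 : 0 < x 2 := hp 2
  have p3 : 0 < x 3 := hp 3
  have q0 : x 3 * ((-2 : ℝ) * x 0 * x 1 + (2 : ℝ) * x 0 * x 2) = 0 := by linear_combination (-1 : ℝ) * m123_123 + (1 : ℝ) * m123_124 + (-2 : ℝ) * m123_134 + (2 : ℝ) * m123_234 + (1 : ℝ) * m124_124 + (1 : ℝ) * m124_134 + (-1 : ℝ) * m134_134 + (2 : ℝ) * m134_234 + (-1 : ℝ) * m234_234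
  have g0 : (-2 : ℝ) * x 0 * x 1 + (2 : ℝ) * x 0 * x 2 = 0 := (mul_eq_zero.1 q0).resolve_left p3.ne'
  have d0 : 0 < (x 1 - x 2) ^ 2 := by
    have h : x 1 - x 2 ≠ 0 := sub_ne_zero.2 fun h => absurd (hi 1 2 (by norm_num) (by norm_num) h) (by norm_num)
    positivity
  have t0 : 0 < (2 : ℝ) * ((x 1 - x 2) ^ 2 * (x 0)) := by positivity
  have z : (2 : ℝ) * ((x 1 - x 2) ^ 2 * (x 0)) = 0 := by linear_combination (-1 : ℝ) * (x 1) * g0 + (1 : ℝ) * (x 2) * g0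
  linarith

theorem k5w_201 : ¬ Realk 5 8 189075456 := by
  rintro ⟨X, Y, x, G, hp, hi, hs⟩
  have e01 : sd X Y 0 1 = x 0 := hs 0 1 (by norm_num) (by norm_num)
  have e02 : sd X Y 0 2 = x 0 := hs 0 2 (by norm_num) (by norm_num)
  have e12 : sd X Y 1 2 = x 0 := hs 1 2 (by norm_num) (by norm_num)
  have e03 : sd X Y 0 3 = x 0 := hs 0 3 (by norm_num) (by norm_num)
  have e13 : sd X Y 1 3 = x 1 := hs 1 3 (by norm_num) (by norm_num)
  have e23 : sd X Y 2 3 = x 2 := hs 2 3 (by norm_num) (by norm_num)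
  have e04 : sd X Y 0 4 = x 1 := hs 0 4 (by norm_num) (by norm_num)
  have e14 : sd X Y 1 4 = x 2 := hs 1 4 (by norm_num) (by norm_num)
  have e24 : sd X Y 2 4 = x 3 := hs 2 4 (by norm_num) (by norm_num)
  have e34 : sd X Y 3 4 = x 1 := hs 3 4 (by norm_num) (by norm_num)
  have e21 : sd X Y 2 1 = x 0 := by rw [sd_symm]; exact e12
  have e31 : sd X Y 3 1 = x 1 := by rw [sd_symm]; exact e13
  have e32 : sd X Y 3 2 = x 2 := by rw [sd_symm]; exact e23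
  have e41 : sd X Y 4 1 = x 2 := by rw [sd_symm]; exact e14
  have e42 : sd X Y 4 2 = x 3 := by rw [sd_symm]; exact e24
  have e43 : sd X Y 4 3 = x 1 := by rw [sd_symm]; exact e34
  have m123_123 := minor_zero X Y 0 1 2 3 1 2 3
  simp only [gm, sd_self, e01, e02, e03, e04, e12, e13, e14, e21, e23, e24, e31, e32, e34, e41, e42, e43] at m123_123
  have m123_124 := minor_zero X Y 0 1 2 3 1 2 4
  simp only [gm, sd_self, e01, e02, e03, e04, e12, e13, e14, e21, e23, e24, e31, e32, e34, e41, e42, e43] at m123_124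
  have m123_134 := minor_zero X Y 0 1 2 3 1 3 4
  simp only [gm, sd_self, e01, e02, e03, e04, e12, e13, e14, e21, e23, e24, e31, e32, e34, e41, e42, e43] at m123_134
  have m123_234 := minor_zero X Y 0 1 2 3 2 3 4
  simp only [gm, sd_self, e01, e02, e03, e04, e12, e13, e14, e21, e23, e24, e31, e32, e34, e41, e42, e43] at m123_234
  have m124_134 := minor_zero X Y 0 1 2 4 1 3 4
  simp only [gm, sd_self, e01, e02, e03, e04, e12, e13, e14, e21, e23, e24, e31, e32, e34, e41, e42, e43] at m124_134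
  have p0 : 0 < x 0 := hp 0
  have p1 : 0 < x 1 := hp 1
  have p2 : 0 < x 2 := hp 2
  have p3 : 0 < x 3 := hp 3
  have q0 : x 2 * ((-2 : ℝ) * x 0 * x 1 + (-2 : ℝ) * x 0 * x 2 + (2 : ℝ) * x 0 * x 3) = 0 := by linear_combination (-1 : ℝ) * m123_124 + (1 : ℝ) * m123_134 + (-1 : ℝ) * m123_234 + (1 : ℝ) * m124_134
  have g0 : (-2 : ℝ) * x 0 * x 1 + (-2 : ℝ) * x 0 * x 2 + (2 : ℝ) * x 0 * x 3 = 0 := (mul_eq_zero.1 q0).resolve_left p2.ne'
  have q1 : (x 0 - x 1) * ((-6 : ℝ) * x 0 * x 1 + (6 : ℝ) * x 0 * x 2) = 0 := by linear_combination (2 : ℝ) * (x 2) * g0 + (-2 : ℝ) * (x 0) * g0 + (-1 : ℝ) * (x 1) * g0 + (-1 : ℝ) * m123_123 + (2 : ℝ) * m123_124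
  have g1 : (-6 : ℝ) * x 0 * x 1 + (6 : ℝ) * x 0 * x 2 = 0 := (mul_eq_zero.1 q1).resolve_left (sub_ne_zero.2 fun h => absurd (hi 0 1 (by norm_num) (by norm_num) h) (by norm_num))
  have d0 : 0 < (x 1 - x 2) ^ 2 := by
    have h : x 1 - x 2 ≠ 0 := sub_ne_zero.2 fun h => absurd (hi 1 2 (by norm_num) (by norm_num) h) (by norm_num)
    positivity
  have t0 : 0 < (6 : ℝ) * ((x 1 - x 2) ^ 2 * (x 0)) := by positivity
  have z : (6 : ℝ) * ((x 1 - x 2) ^ 2 * (x 0)) = 0 := by linear_combination (-1 : ℝ) * (x 1) * g1 + (1 : ℝ) * (x 2) * g1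
  linarith

theorem k5w_207 : ¬ Realk 5 8 409276416 := by
  rintro ⟨X, Y, x, G, hp, hi, hs⟩
  have e01 : sd X Y 0 1 = x 0 := hs 0 1 (by norm_num) (by norm_num)
  have e02 : sd X Y 0 2 = x 0 := hs 0 2 (by norm_num) (by norm_num)
  have e12 : sd X Y 1 2 = x 0 := hs 1 2 (by norm_num) (by norm_num)
  have e03 : sd X Y 0 3 = x 0 := hs 0 3 (by norm_num) (by norm_num)
  have e13 : sd X Y 1 3 = x 1 := hs 1 3 (by norm_num) (by norm_num)
  have e23 : sd X Y 2 3 = x 2 := hs 2 3 (by norm_num) (by norm_num)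
  have e04 : sd X Y 0 4 = x 1 := hs 0 4 (by norm_num) (by norm_num)
  have e14 : sd X Y 1 4 = x 3 := hs 1 4 (by norm_num) (by norm_num)
  have e24 : sd X Y 2 4 = x 0 := hs 2 4 (by norm_num) (by norm_num)
  have e34 : sd X Y 3 4 = x 3 := hs 3 4 (by norm_num) (by norm_num)
  have e21 : sd X Y 2 1 = x 0 := by rw [sd_symm]; exact e12
  have e31 : sd X Y 3 1 = x 1 := by rw [sd_symm]; exact e13
  have e32 : sd X Y 3 2 = x 2 := by rw [sd_symm]; exact e23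
  have e41 : sd X Y 4 1 = x 3 := by rw [sd_symm]; exact e14
  have e42 : sd X Y 4 2 = x 0 := by rw [sd_symm]; exact e24
  have e43 : sd X Y 4 3 = x 3 := by rw [sd_symm]; exact e34
  have m123_123 := minor_zero X Y 0 1 2 3 1 2 3
  simp only [gm, sd_self, e01, e02, e03, e04, e12, e13, e14, e21, e23, e24, e31, e32, e34, e41, e42, e43] at m123_123
  have m123_124 := minor_zero X Y 0 1 2 3 1 2 4
  simp only [gm, sd_self, e01, e02, e03, e04, e12, e13, e14, e21, e23, e24, e31, e32, e34, e41, e42, e43] at m123_124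
  have m123_134 := minor_zero X Y 0 1 2 3 1 3 4
  simp only [gm, sd_self, e01, e02, e03, e04, e12, e13, e14, e21, e23, e24, e31, e32, e34, e41, e42, e43] at m123_134
  have m124_124 := minor_zero X Y 0 1 2 4 1 2 4
  simp only [gm, sd_self, e01, e02, e03, e04, e12, e13, e14, e21, e23, e24, e31, e32, e34, e41, e42, e43] at m124_124
  have m124_234 := minor_zero X Y 0 1 2 4 2 3 4
  simp only [gm, sd_self, e01, e02, e03, e04, e12, e13, e14, e21, e23, e24, e31, e32, e34, e41, e42, e43] at m124_234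
  have m134_134 := minor_zero X Y 0 1 3 4 1 3 4
  simp only [gm, sd_self, e01, e02, e03, e04, e12, e13, e14, e21, e23, e24, e31, e32, e34, e41, e42, e43] at m134_134
  have p0 : 0 < x 0 := hp 0
  have p1 : 0 < x 1 := hp 1
  have p2 : 0 < x 2 := hp 2
  have p3 : 0 < x 3 := hp 3
  have q0 : x 0 * ((-4 : ℝ) * x 0 * x 1 + (-2 : ℝ) * x 1 * x 1 + (2 : ℝ) * x 1 * x 2 + (2 : ℝ) * x 1 * x 3) = 0 := by linear_combination (-1 : ℝ) * m123_134 + (-1 : ℝ) * m124_124 + (-1 : ℝ) * m124_234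
  have g0 : (-4 : ℝ) * x 0 * x 1 + (-2 : ℝ) * x 1 * x 1 + (2 : ℝ) * x 1 * x 2 + (2 : ℝ) * x 1 * x 3 = 0 := (mul_eq_zero.1 q0).resolve_left p0.ne'
  have q1 : x 1 * ((-4 : ℝ) * x 0 * x 0 + (-2 : ℝ) * x 0 * x 1 + (2 : ℝ) * x 0 * x 2 + (2 : ℝ) * x 0 * x 3) = 0 := by linear_combination (1 : ℝ) * (x 0) * g0
  have g1 : (-4 : ℝ) * x 0 * x 0 + (-2 : ℝ) * x 0 * x 1 + (2 : ℝ) * x 0 * x 2 + (2 : ℝ) * x 0 * x 3 = 0 := (mul_eq_zero.1 q1).resolve_left p1.ne'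
  have d0 : 0 < (x 1 - x 3) ^ 2 := by
    have h : x 1 - x 3 ≠ 0 := sub_ne_zero.2 fun h => absurd (hi 1 3 (by norm_num) (by norm_num) h) (by norm_num)
    positivity
  have t0 : 0 < (12 : ℝ) * ((x 1 - x 3) ^ 2 * (x 1)) := by positivity
  have z : (12 : ℝ) * ((x 1 - x 3) ^ 2 * (x 1)) = 0 := by linear_combination (2 : ℝ) * m123_123 + (-4 : ℝ) * m123_124 + (-5 : ℝ) * m123_134 + (1 : ℝ) * m124_124 + (1 : ℝ) * m124_234 + (-3 : ℝ) * m134_134 + (-3 : ℝ) * (x 1) * g0 + (3 : ℝ) * (x 3) * g0 + (-2 : ℝ) * (x 0) * g1 + (2 : ℝ) * (x 2) * g1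
  linarith

theorem k5w_216 : ¬ Realk 5 8 168628224 := by
  rintro ⟨X, Y, x, G, hp, hi, hs⟩
  have e01 : sd X Y 0 1 = x 0 := hs 0 1 (by norm_num) (by norm_num)
  have e02 : sd X Y 0 2 = x 0 := hs 0 2 (by norm_num) (by norm_num)
  have e12 : sd X Y 1 2 = x 0 := hs 1 2 (by norm_num) (by norm_num)
  have e03 : sd X Y 0 3 = x 0 := hs 0 3 (by norm_num) (by norm_num)
  have e13 : sd X Y 1 3 = x 1 := hs 1 3 (by norm_num) (by norm_num)
  have e23 : sd X Y 2 3 = x 2 := hs 2 3 (by norm_num) (by norm_num)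
  have e04 : sd X Y 0 4 = x 3 := hs 0 4 (by norm_num) (by norm_num)
  have e14 : sd X Y 1 4 = x 0 := hs 1 4 (by norm_num) (by norm_num)
  have e24 : sd X Y 2 4 = x 2 := hs 2 4 (by norm_num) (by norm_num)
  have e34 : sd X Y 3 4 = x 1 := hs 3 4 (by norm_num) (by norm_num)
  have e21 : sd X Y 2 1 = x 0 := by rw [sd_symm]; exact e12
  have e31 : sd X Y 3 1 = x 1 := by rw [sd_symm]; exact e13
  have e32 : sd X Y 3 2 = x 2 := by rw [sd_symm]; exact e23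
  have e41 : sd X Y 4 1 = x 0 := by rw [sd_symm]; exact e14
  have e42 : sd X Y 4 2 = x 2 := by rw [sd_symm]; exact e24
  have e43 : sd X Y 4 3 = x 1 := by rw [sd_symm]; exact e34
  have m123_124 := minor_zero X Y 0 1 2 3 1 2 4
  simp only [gm, sd_self, e01, e02, e03, e04, e12, e13, e14, e21, e23, e24, e31, e32, e34, e41, e42, e43] at m123_124
  have m123_234 := minor_zero X Y 0 1 2 3 2 3 4
  simp only [gm, sd_self, e01, e02, e03, e04, e12, e13, e14, e21, e23, e24, e31, e32, e34, e41, e42, e43] at m123_234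
  have m124_124 := minor_zero X Y 0 1 2 4 1 2 4
  simp only [gm, sd_self, e01, e02, e03, e04, e12, e13, e14, e21, e23, e24, e31, e32, e34, e41, e42, e43] at m124_124
  have m124_134 := minor_zero X Y 0 1 2 4 1 3 4
  simp only [gm, sd_self, e01, e02, e03, e04, e12, e13, e14, e21, e23, e24, e31, e32, e34, e41, e42, e43] at m124_134
  have m124_234 := minor_zero X Y 0 1 2 4 2 3 4
  simp only [gm, sd_self, e01, e02, e03, e04, e12, e13, e14, e21, e23, e24, e31, e32, e34, e41, e42, e43] at m124_234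
  have p0 : 0 < x 0 := hp 0
  have p1 : 0 < x 1 := hp 1
  have p2 : 0 < x 2 := hp 2
  have p3 : 0 < x 3 := hp 3
  have q0 : (x 1 - x 2) * ((-2 : ℝ) * x 0 * x 1 + (2 : ℝ) * x 0 * x 3) = 0 := by linear_combination (1 : ℝ) * m123_124 + (1 : ℝ) * m123_234 + (-1 : ℝ) * m124_124 + (1 : ℝ) * m124_134 + (-1 : ℝ) * m124_234
  have g0 : (-2 : ℝ) * x 0 * x 1 + (2 : ℝ) * x 0 * x 3 = 0 := (mul_eq_zero.1 q0).resolve_left (sub_ne_zero.2 fun h => absurd (hi 1 2 (by norm_num) (by norm_num) h) (by norm_num))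
  have d0 : 0 < (x 1 - x 3) ^ 2 := by
    have h : x 1 - x 3 ≠ 0 := sub_ne_zero.2 fun h => absurd (hi 1 3 (by norm_num) (by norm_num) h) (by norm_num)
    positivity
  have t0 : 0 < (2 : ℝ) * ((x 1 - x 3) ^ 2 * (x 0)) := by positivity
  have z : (2 : ℝ) * ((x 1 - x 3) ^ 2 * (x 0)) = 0 := by linear_combination (-1 : ℝ) * (x 1) * g0 + (1 : ℝ) * (x 3) * g0
  linarith

theorem k5w_202 : ¬ Realk 5 8 323293184 := by
  rintro ⟨X, Y, x, G, hp, hi, hs⟩
  have e01 : sd X Y 0 1 = x 0 := hs 0 1 (by norm_num) (by norm_num)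
  have e02 : sd X Y 0 2 = x 0 := hs 0 2 (by norm_num) (by norm_num)
  have e12 : sd X Y 1 2 = x 0 := hs 1 2 (by norm_num) (by norm_num)
  have e03 : sd X Y 0 3 = x 0 := hs 0 3 (by norm_num) (by norm_num)
  have e13 : sd X Y 1 3 = x 1 := hs 1 3 (by norm_num) (by norm_num)
  have e23 : sd X Y 2 3 = x 2 := hs 2 3 (by norm_num) (by norm_num)
  have e04 : sd X Y 0 4 = x 1 := hs 0 4 (by norm_num) (by norm_num)
  have e14 : sd X Y 1 4 = x 2 := hs 1 4 (by norm_num) (by norm_num)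
  have e24 : sd X Y 2 4 = x 3 := hs 2 4 (by norm_num) (by norm_num)
  have e34 : sd X Y 3 4 = x 2 := hs 3 4 (by norm_num) (by norm_num)
  have e21 : sd X Y 2 1 = x 0 := by rw [sd_symm]; exact e12
  have e31 : sd X Y 3 1 = x 1 := by rw [sd_symm]; exact e13
  have e32 : sd X Y 3 2 = x 2 := by rw [sd_symm]; exact e23
  have e41 : sd X Y 4 1 = x 2 := by rw [sd_symm]; exact e14
  have e42 : sd X Y 4 2 = x 3 := by rw [sd_symm]; exact e24
  have e43 : sd X Y 4 3 = x 2 := by rw [sd_symm]; exact e34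
  have m123_124 := minor_zero X Y 0 1 2 3 1 2 4
  simp only [gm, sd_self, e01, e02, e03, e04, e12, e13, e14, e21, e23, e24, e31, e32, e34, e41, e42, e43] at m123_124
  have m123_134 := minor_zero X Y 0 1 2 3 1 3 4
  simp only [gm, sd_self, e01, e02, e03, e04, e12, e13, e14, e21, e23, e24, e31, e32, e34, e41, e42, e43] at m123_134
  have m123_234 := minor_zero X Y 0 1 2 3 2 3 4
  simp only [gm, sd_self, e01, e02, e03, e04, e12, e13, e14, e21, e23, e24, e31, e32, e34, e41, e42, e43] at m123_234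
  have m124_124 := minor_zero X Y 0 1 2 4 1 2 4
  simp only [gm, sd_self, e01, e02, e03, e04, e12, e13, e14, e21, e23, e24, e31, e32, e34, e41, e42, e43] at m124_124
  have m124_134 := minor_zero X Y 0 1 2 4 1 3 4
  simp only [gm, sd_self, e01, e02, e03, e04, e12, e13, e14, e21, e23, e24, e31, e32, e34, e41, e42, e43] at m124_134
  have m134_134 := minor_zero X Y 0 1 3 4 1 3 4
  simp only [gm, sd_self, e01, e02, e03, e04, e12, e13, e14, e21, e23, e24, e31, e32, e34, e41, e42, e43] at m134_134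
  have p0 : 0 < x 0 := hp 0
  have p1 : 0 < x 1 := hp 1
  have p2 : 0 < x 2 := hp 2
  have p3 : 0 < x 3 := hp 3
  have q0 : x 0 * ((-2 : ℝ) * x 1 * x 1 + (-2 : ℝ) * x 1 * x 2 + (2 : ℝ) * x 1 * x 3) = 0 := by linear_combination (-1 : ℝ) * m123_124 + (1 : ℝ) * m123_134 + (-1 : ℝ) * m123_234 + (1 : ℝ) * m124_134
  have g0 : (-2 : ℝ) * x 1 * x 1 + (-2 : ℝ) * x 1 * x 2 + (2 : ℝ) * x 1 * x 3 = 0 := (mul_eq_zero.1 q0).resolve_left p0.ne'
  have q1 : x 1 * ((-2 : ℝ) * x 0 * x 1 + (-2 : ℝ) * x 0 * x 2 + (2 : ℝ) * x 0 * x 3) = 0 := by linear_combination (1 : ℝ) * (x 0) * g0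
  have g1 : (-2 : ℝ) * x 0 * x 1 + (-2 : ℝ) * x 0 * x 2 + (2 : ℝ) * x 0 * x 3 = 0 := (mul_eq_zero.1 q1).resolve_left p1.ne'
  have d0 : 0 < (x 1 - x 2) ^ 2 := by
    have h : x 1 - x 2 ≠ 0 := sub_ne_zero.2 fun h => absurd (hi 1 2 (by norm_num) (by norm_num) h) (by norm_num)
    positivity
  have t0 : 0 < (12 : ℝ) * ((x 1 - x 2) ^ 2 * (x 1)) := by positivity
  have z : (12 : ℝ) * ((x 1 - x 2) ^ 2 * (x 1)) = 0 := by linear_combination (2 : ℝ) * m123_124 + (6 : ℝ) * m123_234 + (2 : ℝ) * m124_124 + (-6 : ℝ) * m124_134 + (-3 : ℝ) * m134_134 + (-4 : ℝ) * (x 0) * g0 + (3 : ℝ) * (x 1) * g0 + (2 : ℝ) * (x 0) * g1 + (-4 : ℝ) * (x 2) * g1 + (2 : ℝ) * (x 3) * g1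
  linarith

theorem k5w_406 : ¬ Realk 5 8 577048576 := by
  rintro ⟨X, Y, x, G, hp, hi, hs⟩
  have e01 : sd X Y 0 1 = x 0 := hs 0 1 (by norm_num) (by norm_num)
  have e02 : sd X Y 0 2 = x 0 := hs 0 2 (by norm_num) (by norm_num)
  have e12 : sd X Y 1 2 = x 0 := hs 1 2 (by norm_num) (by norm_num)
  have e03 : sd X Y 0 3 = x 0 := hs 0 3 (by norm_num) (by norm_num)
  have e13 : sd X Y 1 3 = x 1 := hs 1 3 (by norm_num) (by norm_num)
  have e23 : sd X Y 2 3 = x 2 := hs 2 3 (by norm_num) (by norm_num)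
  have e04 : sd X Y 0 4 = x 1 := hs 0 4 (by norm_num) (by norm_num)
  have e14 : sd X Y 1 4 = x 3 := hs 1 4 (by norm_num) (by norm_num)
  have e24 : sd X Y 2 4 = x 2 := hs 2 4 (by norm_num) (by norm_num)
  have e34 : sd X Y 3 4 = x 4 := hs 3 4 (by norm_num) (by norm_num)
  have e21 : sd X Y 2 1 = x 0 := by rw [sd_symm]; exact e12
  have e31 : sd X Y 3 1 = x 1 := by rw [sd_symm]; exact e13
  have e32 : sd X Y 3 2 = x 2 := by rw [sd_symm]; exact e23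
  have e41 : sd X Y 4 1 = x 3 := by rw [sd_symm]; exact e14
  have e42 : sd X Y 4 2 = x 2 := by rw [sd_symm]; exact e24
  have e43 : sd X Y 4 3 = x 4 := by rw [sd_symm]; exact e34
  have m123_123 := minor_zero X Y 0 1 2 3 1 2 3
  simp only [gm, sd_self, e01, e02, e03, e04, e12, e13, e14, e21, e23, e24, e31, e32, e34, e41, e42, e43] at m123_123
  have m123_124 := minor_zero X Y 0 1 2 3 1 2 4
  simp only [gm, sd_self, e01, e02, e03, e04, e12, e13, e14, e21, e23, e24, e31, e32, e34, e41, e42, e43] at m123_124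
  have m123_134 := minor_zero X Y 0 1 2 3 1 3 4
  simp only [gm, sd_self, e01, e02, e03, e04, e12, e13, e14, e21, e23, e24, e31, e32, e34, e41, e42, e43] at m123_134
  have m123_234 := minor_zero X Y 0 1 2 3 2 3 4
  simp only [gm, sd_self, e01, e02, e03, e04, e12, e13, e14, e21, e23, e24, e31, e32, e34, e41, e42, e43] at m123_234
  have m124_234 := minor_zero X Y 0 1 2 4 2 3 4
  simp only [gm, sd_self, e01, e02, e03, e04, e12, e13, e14, e21, e23, e24, e31, e32, e34, e41, e42, e43] at m124_234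
  have p0 : 0 < x 0 := hp 0
  have p1 : 0 < x 1 := hp 1
  have p2 : 0 < x 2 := hp 2
  have p3 : 0 < x 3 := hp 3
  have p4 : 0 < x 4 := hp 4
  have q0 : (x 0 - x 3) * ((-2 : ℝ) * x 0 * x 2 + (2 : ℝ) * x 0 * x 4) = 0 := by linear_combination (-1 : ℝ) * m123_123 + (1 : ℝ) * m123_124 + (-1 : ℝ) * m123_134 + (1 : ℝ) * m123_234 + (-1 : ℝ) * m124_234
  have g0 : (-2 : ℝ) * x 0 * x 2 + (2 : ℝ) * x 0 * x 4 = 0 := (mul_eq_zero.1 q0).resolve_left (sub_ne_zero.2 fun h => absurd (hi 0 3 (by norm_num) (by norm_num) h) (by norm_num))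
  have d0 : 0 < (x 2 - x 4) ^ 2 := by
    have h : x 2 - x 4 ≠ 0 := sub_ne_zero.2 fun h => absurd (hi 2 4 (by norm_num) (by norm_num) h) (by norm_num)
    positivity
  have t0 : 0 < (2 : ℝ) * ((x 2 - x 4) ^ 2 * (x 0)) := by positivity
  have z : (2 : ℝ) * ((x 2 - x 4) ^ 2 * (x 0)) = 0 := by linear_combination (-1 : ℝ) * (x 2) * g0 + (1 : ℝ) * (x 4) * g0
  linarith

theorem k5w_169 : ¬ Realk 5 8 189042688 := by
  rintro ⟨X, Y, x, G, hp, hi, hs⟩
  have e01 : sd X Y 0 1 = x 0 := hs 0 1 (by norm_num) (by norm_num)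
  have e02 : sd X Y 0 2 = x 0 := hs 0 2 (by norm_num) (by norm_num)
  have e12 : sd X Y 1 2 = x 0 := hs 1 2 (by norm_num) (by norm_num)
  have e03 : sd X Y 0 3 = x 0 := hs 0 3 (by norm_num) (by norm_num)
  have e13 : sd X Y 1 3 = x 1 := hs 1 3 (by norm_num) (by norm_num)
  have e23 : sd X Y 2 3 = x 1 := hs 2 3 (by norm_num) (by norm_num)
  have e04 : sd X Y 0 4 = x 1 := hs 0 4 (by norm_num) (by norm_num)
  have e14 : sd X Y 1 4 = x 2 := hs 1 4 (by norm_num) (by norm_num)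
  have e24 : sd X Y 2 4 = x 3 := hs 2 4 (by norm_num) (by norm_num)
  have e34 : sd X Y 3 4 = x 1 := hs 3 4 (by norm_num) (by norm_num)
  have e21 : sd X Y 2 1 = x 0 := by rw [sd_symm]; exact e12
  have e31 : sd X Y 3 1 = x 1 := by rw [sd_symm]; exact e13
  have e32 : sd X Y 3 2 = x 1 := by rw [sd_symm]; exact e23
  have e41 : sd X Y 4 1 = x 2 := by rw [sd_symm]; exact e14
  have e42 : sd X Y 4 2 = x 3 := by rw [sd_symm]; exact e24
  have e43 : sd X Y 4 3 = x 1 := by rw [sd_symm]; exact e34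
  have m123_124 := minor_zero X Y 0 1 2 3 1 2 4
  simp only [gm, sd_self, e01, e02, e03, e04, e12, e13, e14, e21, e23, e24, e31, e32, e34, e41, e42, e43] at m123_124
  have m123_134 := minor_zero X Y 0 1 2 3 1 3 4
  simp only [gm, sd_self, e01, e02, e03, e04, e12, e13, e14, e21, e23, e24, e31, e32, e34, e41, e42, e43] at m123_134
  have m123_234 := minor_zero X Y 0 1 2 3 2 3 4
  simp only [gm, sd_self, e01, e02, e03, e04, e12, e13, e14, e21, e23, e24, e31, e32, e34, e41, e42, e43] at m123_234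
  have m124_124 := minor_zero X Y 0 1 2 4 1 2 4
  simp only [gm, sd_self, e01, e02, e03, e04, e12, e13, e14, e21, e23, e24, e31, e32, e34, e41, e42, e43] at m124_124
  have m134_134 := minor_zero X Y 0 1 3 4 1 3 4
  simp only [gm, sd_self, e01, e02, e03, e04, e12, e13, e14, e21, e23, e24, e31, e32, e34, e41, e42, e43] at m134_134
  have m134_234 := minor_zero X Y 0 1 3 4 2 3 4
  simp only [gm, sd_self, e01, e02, e03, e04, e12, e13, e14, e21, e23, e24, e31, e32, e34, e41, e42, e43] at m134_234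
  have m234_234 := minor_zero X Y 0 2 3 4 2 3 4
  simp only [gm, sd_self, e01, e02, e03, e04, e12, e13, e14, e21, e23, e24, e31, e32, e34, e41, e42, e43] at m234_234
  have p0 : 0 < x 0 := hp 0
  have p1 : 0 < x 1 := hp 1
  have p2 : 0 < x 2 := hp 2
  have p3 : 0 < x 3 := hp 3
  have q0 : (x 1 - x 3) * ((-2 : ℝ) * x 0 * x 1 + (2 : ℝ) * x 0 * x 2) = 0 := by linear_combination (-1 : ℝ) * m123_134 + (1 : ℝ) * m123_234 + (1 : ℝ) * m124_124 + (-1 : ℝ) * m134_134 + (2 : ℝ) * m134_234 + (-1 : ℝ) * m234_234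
  have g0 : (-2 : ℝ) * x 0 * x 1 + (2 : ℝ) * x 0 * x 2 = 0 := (mul_eq_zero.1 q0).resolve_left (sub_ne_zero.2 fun h => absurd (hi 1 3 (by norm_num) (by norm_num) h) (by norm_num))
  have d0 : 0 < (x 1 - x 2) ^ 2 := by
    have h : x 1 - x 2 ≠ 0 := sub_ne_zero.2 fun h => absurd (hi 1 2 (by norm_num) (by norm_num) h) (by norm_num)
    positivity
  have t0 : 0 < (4 : ℝ) * ((x 1 - x 2) ^ 2 * (x 0)) := by positivity
  have z : (4 : ℝ) * ((x 1 - x 2) ^ 2 * (x 0)) = 0 := by linear_combination (1 : ℝ) * m123_124 + (-1 : ℝ) * m124_124 + (-1 : ℝ) * m134_234 + (1 : ℝ) * m234_234 + (1 : ℝ) * (x 2) * g0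
  linarith

theorem k5w_209 : ¬ Realk 5 8 157618176 := by
  rintro ⟨X, Y, x, G, hp, hi, hs⟩
  have e01 : sd X Y 0 1 = x 0 := hs 0 1 (by norm_num) (by norm_num)
  have e02 : sd X Y 0 2 = x 0 := hs 0 2 (by norm_num) (by norm_num)
  have e12 : sd X Y 1 2 = x 0 := hs 1 2 (by norm_num) (by norm_num)
  have e03 : sd X Y 0 3 = x 0 := hs 0 3 (by norm_num) (by norm_num)
  have e13 : sd X Y 1 3 = x 1 := hs 1 3 (by norm_num) (by norm_num)
  have e23 : sd X Y 2 3 = x 2 := hs 2 3 (by norm_num) (by norm_num)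
  have e04 : sd X Y 0 4 = x 1 := hs 0 4 (by norm_num) (by norm_num)
  have e14 : sd X Y 1 4 = x 3 := hs 1 4 (by norm_num) (by norm_num)
  have e24 : sd X Y 2 4 = x 1 := hs 2 4 (by norm_num) (by norm_num)
  have e34 : sd X Y 3 4 = x 1 := hs 3 4 (by norm_num) (by norm_num)
  have e21 : sd X Y 2 1 = x 0 := by rw [sd_symm]; exact e12
  have e31 : sd X Y 3 1 = x 1 := by rw [sd_symm]; exact e13
  have e32 : sd X Y 3 2 = x 2 := by rw [sd_symm]; exact e23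
  have e41 : sd X Y 4 1 = x 3 := by rw [sd_symm]; exact e14
  have e42 : sd X Y 4 2 = x 1 := by rw [sd_symm]; exact e24
  have e43 : sd X Y 4 3 = x 1 := by rw [sd_symm]; exact e34
  have m123_123 := minor_zero X Y 0 1 2 3 1 2 3
  simp only [gm, sd_self, e01, e02, e03, e04, e12, e13, e14, e21, e23, e24, e31, e32, e34, e41, e42, e43] at m123_123
  have m123_134 := minor_zero X Y 0 1 2 3 1 3 4
  simp only [gm, sd_self, e01, e02, e03, e04, e12, e13, e14, e21, e23, e24, e31, e32, e34, e41, e42, e43] at m123_134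
  have m123_234 := minor_zero X Y 0 1 2 3 2 3 4
  simp only [gm, sd_self, e01, e02, e03, e04, e12, e13, e14, e21, e23, e24, e31, e32, e34, e41, e42, e43] at m123_234
  have m124_234 := minor_zero X Y 0 1 2 4 2 3 4
  simp only [gm, sd_self, e01, e02, e03, e04, e12, e13, e14, e21, e23, e24, e31, e32, e34, e41, e42, e43] at m124_234
  have m134_134 := minor_zero X Y 0 1 3 4 1 3 4
  simp only [gm, sd_self, e01, e02, e03, e04, e12, e13, e14, e21, e23, e24, e31, e32, e34, e41, e42, e43] at m134_134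
  have m134_234 := minor_zero X Y 0 1 3 4 2 3 4
  simp only [gm, sd_self, e01, e02, e03, e04, e12, e13, e14, e21, e23, e24, e31, e32, e34, e41, e42, e43] at m134_234
  have m234_234 := minor_zero X Y 0 2 3 4 2 3 4
  simp only [gm, sd_self, e01, e02, e03, e04, e12, e13, e14, e21, e23, e24, e31, e32, e34, e41, e42, e43] at m234_234
  have p0 : 0 < x 0 := hp 0
  have p1 : 0 < x 1 := hp 1
  have p2 : 0 < x 2 := hp 2
  have p3 : 0 < x 3 := hp 3
  have q0 : x 2 * ((2 : ℝ) * x 0 * x 0 + (-4 : ℝ) * x 0 * x 1 + (-2 : ℝ) * x 0 * x 3 + (2 : ℝ) * x 1 * x 1) = 0 := by linear_combination (1 : ℝ) * m124_234 + (-1 : ℝ) * m134_234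
  have g0 : (2 : ℝ) * x 0 * x 0 + (-4 : ℝ) * x 0 * x 1 + (-2 : ℝ) * x 0 * x 3 + (2 : ℝ) * x 1 * x 1 = 0 := (mul_eq_zero.1 q0).resolve_left p2.ne'
  have d0 : 0 < (x 1 - x 2) ^ 2 := by
    have h : x 1 - x 2 ≠ 0 := sub_ne_zero.2 fun h => absurd (hi 1 2 (by norm_num) (by norm_num) h) (by norm_num)
    positivity
  have t0 : 0 < (2 : ℝ) * ((x 1 - x 2) ^ 2 * (x 3)) := by positivity
  have z : (2 : ℝ) * ((x 1 - x 2) ^ 2 * (x 3)) = 0 := by linear_combination (-1 : ℝ) * m123_123 + (-4 : ℝ) * m123_134 + (2 : ℝ) * m123_234 + (2 : ℝ) * m124_234 + (-1 : ℝ) * m134_134 + (2 : ℝ) * m134_234 + (-1 : ℝ) * m234_234 + (-3 : ℝ) * (x 0) * g0 + (-1 : ℝ) * (x 1) * g0 + (1 : ℝ) * (x 3) * g0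
  linarith

theorem k5w_407 : ¬ Realk 5 8 571281408 := by
  rintro ⟨X, Y, x, G, hp, hi, hs⟩
  have e01 : sd X Y 0 1 = x 0 := hs 0 1 (by norm_num) (by norm_num)
  have e02 : sd X Y 0 2 = x 0 := hs 0 2 (by norm_num) (by norm_num)
  have e12 : sd X Y 1 2 = x 0 := hs 1 2 (by norm_num) (by norm_num)
  have e03 : sd X Y 0 3 = x 0 := hs 0 3 (by norm_num) (by norm_num)
  have e13 : sd X Y 1 3 = x 1 := hs 1 3 (by norm_num) (by norm_num)
  have e23 : sd X Y 2 3 = x 2 := hs 2 3 (by norm_num) (by norm_num)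
  have e04 : sd X Y 0 4 = x 3 := hs 0 4 (by norm_num) (by norm_num)
  have e14 : sd X Y 1 4 = x 0 := hs 1 4 (by norm_num) (by norm_num)
  have e24 : sd X Y 2 4 = x 2 := hs 2 4 (by norm_num) (by norm_num)
  have e34 : sd X Y 3 4 = x 4 := hs 3 4 (by norm_num) (by norm_num)
  have e21 : sd X Y 2 1 = x 0 := by rw [sd_symm]; exact e12
  have e31 : sd X Y 3 1 = x 1 := by rw [sd_symm]; exact e13
  have e32 : sd X Y 3 2 = x 2 := by rw [sd_symm]; exact e23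
  have e41 : sd X Y 4 1 = x 0 := by rw [sd_symm]; exact e14
  have e42 : sd X Y 4 2 = x 2 := by rw [sd_symm]; exact e24
  have e43 : sd X Y 4 3 = x 4 := by rw [sd_symm]; exact e34
  have m123_124 := minor_zero X Y 0 1 2 3 1 2 4
  simp only [gm, sd_self, e01, e02, e03, e04, e12, e13, e14, e21, e23, e24, e31, e32, e34, e41, e42, e43] at m123_124
  have m123_234 := minor_zero X Y 0 1 2 3 2 3 4
  simp only [gm, sd_self, e01, e02, e03, e04, e12, e13, e14, e21, e23, e24, e31, e32, e34, e41, e42, e43] at m123_234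
  have m124_124 := minor_zero X Y 0 1 2 4 1 2 4
  simp only [gm, sd_self, e01, e02, e03, e04, e12, e13, e14, e21, e23, e24, e31, e32, e34, e41, e42, e43] at m124_124
  have m124_134 := minor_zero X Y 0 1 2 4 1 3 4
  simp only [gm, sd_self, e01, e02, e03, e04, e12, e13, e14, e21, e23, e24, e31, e32, e34, e41, e42, e43] at m124_134
  have m124_234 := minor_zero X Y 0 1 2 4 2 3 4
  simp only [gm, sd_self, e01, e02, e03, e04, e12, e13, e14, e21, e23, e24, e31, e32, e34, e41, e42, e43] at m124_234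
  have p0 : 0 < x 0 := hp 0
  have p1 : 0 < x 1 := hp 1
  have p2 : 0 < x 2 := hp 2
  have p3 : 0 < x 3 := hp 3
  have p4 : 0 < x 4 := hp 4
  have q0 : (x 1 - x 3) * ((-2 : ℝ) * x 0 * x 2 + (2 : ℝ) * x 0 * x 4) = 0 := by linear_combination (-1 : ℝ) * m123_124 + (-1 : ℝ) * m123_234 + (1 : ℝ) * m124_124 + (-1 : ℝ) * m124_134 + (1 : ℝ) * m124_234
  have g0 : (-2 : ℝ) * x 0 * x 2 + (2 : ℝ) * x 0 * x 4 = 0 := (mul_eq_zero.1 q0).resolve_left (sub_ne_zero.2 fun h => absurd (hi 1 3 (by norm_num) (by norm_num) h) (by norm_num))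
  have d0 : 0 < (x 2 - x 4) ^ 2 := by
    have h : x 2 - x 4 ≠ 0 := sub_ne_zero.2 fun h => absurd (hi 2 4 (by norm_num) (by norm_num) h) (by norm_num)
    positivity
  have t0 : 0 < (2 : ℝ) * ((x 2 - x 4) ^ 2 * (x 0)) := by positivity
  have z : (2 : ℝ) * ((x 2 - x 4) ^ 2 * (x 0)) = 0 := by linear_combination (-1 : ℝ) * (x 2) * g0 + (1 : ℝ) * (x 4) * g0
  linarith

theorem k5w_170 : ¬ Realk 5 8 419991552 := by
  rintro ⟨X, Y, x, G, hp, hi, hs⟩
  have e01 : sd X Y 0 1 = x 0 := hs 0 1 (by norm_num) (by norm_num)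
  have e02 : sd X Y 0 2 = x 0 := hs 0 2 (by norm_num) (by norm_num)
  have e12 : sd X Y 1 2 = x 0 := hs 1 2 (by norm_num) (by norm_num)
  have e03 : sd X Y 0 3 = x 0 := hs 0 3 (by norm_num) (by norm_num)
  have e13 : sd X Y 1 3 = x 1 := hs 1 3 (by norm_num) (by norm_num)
  have e23 : sd X Y 2 3 = x 1 := hs 2 3 (by norm_num) (by norm_num)
  have e04 : sd X Y 0 4 = x 2 := hs 0 4 (by norm_num) (by norm_num)
  have e14 : sd X Y 1 4 = x 0 := hs 1 4 (by norm_num) (by norm_num)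
  have e24 : sd X Y 2 4 = x 1 := hs 2 4 (by norm_num) (by norm_num)
  have e34 : sd X Y 3 4 = x 3 := hs 3 4 (by norm_num) (by norm_num)
  have e21 : sd X Y 2 1 = x 0 := by rw [sd_symm]; exact e12
  have e31 : sd X Y 3 1 = x 1 := by rw [sd_symm]; exact e13
  have e32 : sd X Y 3 2 = x 1 := by rw [sd_symm]; exact e23
  have e41 : sd X Y 4 1 = x 0 := by rw [sd_symm]; exact e14
  have e42 : sd X Y 4 2 = x 1 := by rw [sd_symm]; exact e24
  have e43 : sd X Y 4 3 = x 3 := by rw [sd_symm]; exact e34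
  have m123_124 := minor_zero X Y 0 1 2 3 1 2 4
  simp only [gm, sd_self, e01, e02, e03, e04, e12, e13, e14, e21, e23, e24, e31, e32, e34, e41, e42, e43] at m123_124
  have m123_234 := minor_zero X Y 0 1 2 3 2 3 4
  simp only [gm, sd_self, e01, e02, e03, e04, e12, e13, e14, e21, e23, e24, e31, e32, e34, e41, e42, e43] at m123_234
  have m124_124 := minor_zero X Y 0 1 2 4 1 2 4
  simp only [gm, sd_self, e01, e02, e03, e04, e12, e13, e14, e21, e23, e24, e31, e32, e34, e41, e42, e43] at m124_124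
  have m124_134 := minor_zero X Y 0 1 2 4 1 3 4
  simp only [gm, sd_self, e01, e02, e03, e04, e12, e13, e14, e21, e23, e24, e31, e32, e34, e41, e42, e43] at m124_134
  have m124_234 := minor_zero X Y 0 1 2 4 2 3 4
  simp only [gm, sd_self, e01, e02, e03, e04, e12, e13, e14, e21, e23, e24, e31, e32, e34, e41, e42, e43] at m124_234
  have p0 : 0 < x 0 := hp 0
  have p1 : 0 < x 1 := hp 1
  have p2 : 0 < x 2 := hp 2
  have p3 : 0 < x 3 := hp 3
  have q0 : (x 1 - x 2) * ((-2 : ℝ) * x 0 * x 1 + (2 : ℝ) * x 0 * x 3) = 0 := by linear_combination (-1 : ℝ) * m123_124 + (-1 : ℝ) * m123_234 + (1 : ℝ) * m124_124 + (-1 : ℝ) * m124_134 + (1 : ℝ) * m124_234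
  have g0 : (-2 : ℝ) * x 0 * x 1 + (2 : ℝ) * x 0 * x 3 = 0 := (mul_eq_zero.1 q0).resolve_left (sub_ne_zero.2 fun h => absurd (hi 1 2 (by norm_num) (by norm_num) h) (by norm_num))
  have d0 : 0 < (x 1 - x 3) ^ 2 := by
    have h : x 1 - x 3 ≠ 0 := sub_ne_zero.2 fun h => absurd (hi 1 3 (by norm_num) (by norm_num) h) (by norm_num)
    positivity
  have t0 : 0 < (2 : ℝ) * ((x 1 - x 3) ^ 2 * (x 0)) := by positivity
  have z : (2 : ℝ) * ((x 1 - x 3) ^ 2 * (x 0)) = 0 := by linear_combination (-1 : ℝ) * (x 1) * g0 + (1 : ℝ) * (x 3) * g0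
  linarith

theorem k5w_211 : ¬ Realk 5 8 174395392 := by
  rintro ⟨X, Y, x, G, hp, hi, hs⟩
  have e01 : sd X Y 0 1 = x 0 := hs 0 1 (by norm_num) (by norm_num)
  have e02 : sd X Y 0 2 = x 0 := hs 0 2 (by norm_num) (by norm_num)
  have e12 : sd X Y 1 2 = x 0 := hs 1 2 (by norm_num) (by norm_num)
  have e03 : sd X Y 0 3 = x 0 := hs 0 3 (by norm_num) (by norm_num)
  have e13 : sd X Y 1 3 = x 1 := hs 1 3 (by norm_num) (by norm_num)
  have e23 : sd X Y 2 3 = x 2 := hs 2 3 (by norm_num) (by norm_num)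
  have e04 : sd X Y 0 4 = x 1 := hs 0 4 (by norm_num) (by norm_num)
  have e14 : sd X Y 1 4 = x 3 := hs 1 4 (by norm_num) (by norm_num)
  have e24 : sd X Y 2 4 = x 2 := hs 2 4 (by norm_num) (by norm_num)
  have e34 : sd X Y 3 4 = x 1 := hs 3 4 (by norm_num) (by norm_num)
  have e21 : sd X Y 2 1 = x 0 := by rw [sd_symm]; exact e12
  have e31 : sd X Y 3 1 = x 1 := by rw [sd_symm]; exact e13
  have e32 : sd X Y 3 2 = x 2 := by rw [sd_symm]; exact e23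
  have e41 : sd X Y 4 1 = x 3 := by rw [sd_symm]; exact e14
  have e42 : sd X Y 4 2 = x 2 := by rw [sd_symm]; exact e24
  have e43 : sd X Y 4 3 = x 1 := by rw [sd_symm]; exact e34
  have m123_123 := minor_zero X Y 0 1 2 3 1 2 3
  simp only [gm, sd_self, e01, e02, e03, e04, e12, e13, e14, e21, e23, e24, e31, e32, e34, e41, e42, e43] at m123_123
  have m123_124 := minor_zero X Y 0 1 2 3 1 2 4
  simp only [gm, sd_self, e01, e02, e03, e04, e12, e13, e14, e21, e23, e24, e31, e32, e34, e41, e42, e43] at m123_124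
  have m123_134 := minor_zero X Y 0 1 2 3 1 3 4
  simp only [gm, sd_self, e01, e02, e03, e04, e12, e13, e14, e21, e23, e24, e31, e32, e34, e41, e42, e43] at m123_134
  have m123_234 := minor_zero X Y 0 1 2 3 2 3 4
  simp only [gm, sd_self, e01, e02, e03, e04, e12, e13, e14, e21, e23, e24, e31, e32, e34, e41, e42, e43] at m123_234
  have m124_234 := minor_zero X Y 0 1 2 4 2 3 4
  simp only [gm, sd_self, e01, e02, e03, e04, e12, e13, e14, e21, e23, e24, e31, e32, e34, e41, e42, e43] at m124_234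
  have p0 : 0 < x 0 := hp 0
  have p1 : 0 < x 1 := hp 1
  have p2 : 0 < x 2 := hp 2
  have p3 : 0 < x 3 := hp 3
  have q0 : (x 0 - x 3) * ((-2 : ℝ) * x 0 * x 1 + (2 : ℝ) * x 0 * x 2) = 0 := by linear_combination (1 : ℝ) * m123_123 + (-1 : ℝ) * m123_124 + (1 : ℝ) * m123_134 + (-1 : ℝ) * m123_234 + (1 : ℝ) * m124_234
  have g0 : (-2 : ℝ) * x 0 * x 1 + (2 : ℝ) * x 0 * x 2 = 0 := (mul_eq_zero.1 q0).resolve_left (sub_ne_zero.2 fun h => absurd (hi 0 3 (by norm_num) (by norm_num) h) (by norm_num))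
  have d0 : 0 < (x 1 - x 2) ^ 2 := by
    have h : x 1 - x 2 ≠ 0 := sub_ne_zero.2 fun h => absurd (hi 1 2 (by norm_num) (by norm_num) h) (by norm_num)
    positivity
  have t0 : 0 < (2 : ℝ) * ((x 1 - x 2) ^ 2 * (x 0)) := by positivity
  have z : (2 : ℝ) * ((x 1 - x 2) ^ 2 * (x 0)) = 0 := by linear_combination (-1 : ℝ) * (x 1) * g0 + (1 : ℝ) * (x 2) * g0
  linarith

theorem k5w_172 : ¬ Realk 5 8 185110528 := by
  rintro ⟨X, Y, x, G, hp, hi, hs⟩
  have e01 : sd X Y 0 1 = x 0 := hs 0 1 (by norm_num) (by norm_num)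
  have e02 : sd X Y 0 2 = x 0 := hs 0 2 (by norm_num) (by norm_num)
  have e12 : sd X Y 1 2 = x 0 := hs 1 2 (by norm_num) (by norm_num)
  have e03 : sd X Y 0 3 = x 0 := hs 0 3 (by norm_num) (by norm_num)
  have e13 : sd X Y 1 3 = x 1 := hs 1 3 (by norm_num) (by norm_num)
  have e23 : sd X Y 2 3 = x 1 := hs 2 3 (by norm_num) (by norm_num)
  have e04 : sd X Y 0 4 = x 2 := hs 0 4 (by norm_num) (by norm_num)
  have e14 : sd X Y 1 4 = x 0 := hs 1 4 (by norm_num) (by norm_num)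
  have e24 : sd X Y 2 4 = x 3 := hs 2 4 (by norm_num) (by norm_num)
  have e34 : sd X Y 3 4 = x 1 := hs 3 4 (by norm_num) (by norm_num)
  have e21 : sd X Y 2 1 = x 0 := by rw [sd_symm]; exact e12
  have e31 : sd X Y 3 1 = x 1 := by rw [sd_symm]; exact e13
  have e32 : sd X Y 3 2 = x 1 := by rw [sd_symm]; exact e23
  have e41 : sd X Y 4 1 = x 0 := by rw [sd_symm]; exact e14
  have e42 : sd X Y 4 2 = x 3 := by rw [sd_symm]; exact e24
  have e43 : sd X Y 4 3 = x 1 := by rw [sd_symm]; exact e34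
  have m123_124 := minor_zero X Y 0 1 2 3 1 2 4
  simp only [gm, sd_self, e01, e02, e03, e04, e12, e13, e14, e21, e23, e24, e31, e32, e34, e41, e42, e43] at m123_124
  have m123_234 := minor_zero X Y 0 1 2 3 2 3 4
  simp only [gm, sd_self, e01, e02, e03, e04, e12, e13, e14, e21, e23, e24, e31, e32, e34, e41, e42, e43] at m123_234
  have m124_134 := minor_zero X Y 0 1 2 4 1 3 4
  simp only [gm, sd_self, e01, e02, e03, e04, e12, e13, e14, e21, e23, e24, e31, e32, e34, e41, e42, e43] at m124_134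
  have m134_234 := minor_zero X Y 0 1 3 4 2 3 4
  simp only [gm, sd_self, e01, e02, e03, e04, e12, e13, e14, e21, e23, e24, e31, e32, e34, e41, e42, e43] at m134_234
  have m234_234 := minor_zero X Y 0 2 3 4 2 3 4
  simp only [gm, sd_self, e01, e02, e03, e04, e12, e13, e14, e21, e23, e24, e31, e32, e34, e41, e42, e43] at m234_234
  have p0 : 0 < x 0 := hp 0
  have p1 : 0 < x 1 := hp 1
  have p2 : 0 < x 2 := hp 2
  have p3 : 0 < x 3 := hp 3
  have q0 : x 3 * ((-2 : ℝ) * x 0 * x 1 + (2 : ℝ) * x 0 * x 3) = 0 := by linear_combination (1 : ℝ) * m123_124 + (1 : ℝ) * m123_234 + (1 : ℝ) * m124_134 + (1 : ℝ) * m134_234 + (-1 : ℝ) * m234_234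
  have g0 : (-2 : ℝ) * x 0 * x 1 + (2 : ℝ) * x 0 * x 3 = 0 := (mul_eq_zero.1 q0).resolve_left p3.ne'
  have d0 : 0 < (x 1 - x 3) ^ 2 := by
    have h : x 1 - x 3 ≠ 0 := sub_ne_zero.2 fun h => absurd (hi 1 3 (by norm_num) (by norm_num) h) (by norm_num)
    positivity
  have t0 : 0 < (2 : ℝ) * ((x 1 - x 3) ^ 2 * (x 0)) := by positivity
  have z : (2 : ℝ) * ((x 1 - x 3) ^ 2 * (x 0)) = 0 := by linear_combination (-1 : ℝ) * (x 1) * g0 + (1 : ℝ) * (x 3) * g0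
  linarith

theorem k5w_408 : ¬ Realk 5 8 336400384 := by
  rintro ⟨X, Y, x, G, hp, hi, hs⟩
  have e01 : sd X Y 0 1 = x 0 := hs 0 1 (by norm_num) (by norm_num)
  have e02 : sd X Y 0 2 = x 0 := hs 0 2 (by norm_num) (by norm_num)
  have e12 : sd X Y 1 2 = x 0 := hs 1 2 (by norm_num) (by norm_num)
  have e03 : sd X Y 0 3 = x 0 := hs 0 3 (by norm_num) (by norm_num)
  have e13 : sd X Y 1 3 = x 1 := hs 1 3 (by norm_num) (by norm_num)
  have e23 : sd X Y 2 3 = x 2 := hs 2 3 (by norm_num) (by norm_num)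
  have e04 : sd X Y 0 4 = x 3 := hs 0 4 (by norm_num) (by norm_num)
  have e14 : sd X Y 1 4 = x 0 := hs 1 4 (by norm_num) (by norm_num)
  have e24 : sd X Y 2 4 = x 4 := hs 2 4 (by norm_num) (by norm_num)
  have e34 : sd X Y 3 4 = x 2 := hs 3 4 (by norm_num) (by norm_num)
  have e21 : sd X Y 2 1 = x 0 := by rw [sd_symm]; exact e12
  have e31 : sd X Y 3 1 = x 1 := by rw [sd_symm]; exact e13
  have e32 : sd X Y 3 2 = x 2 := by rw [sd_symm]; exact e23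
  have e41 : sd X Y 4 1 = x 0 := by rw [sd_symm]; exact e14
  have e42 : sd X Y 4 2 = x 4 := by rw [sd_symm]; exact e24
  have e43 : sd X Y 4 3 = x 2 := by rw [sd_symm]; exact e34
  have m123_123 := minor_zero X Y 0 1 2 3 1 2 3
  simp only [gm, sd_self, e01, e02, e03, e04, e12, e13, e14, e21, e23, e24, e31, e32, e34, e41, e42, e43] at m123_123
  have m123_134 := minor_zero X Y 0 1 2 3 1 3 4
  simp only [gm, sd_self, e01, e02, e03, e04, e12, e13, e14, e21, e23, e24, e31, e32, e34, e41, e42, e43] at m123_134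
  have m124_124 := minor_zero X Y 0 1 2 4 1 2 4
  simp only [gm, sd_self, e01, e02, e03, e04, e12, e13, e14, e21, e23, e24, e31, e32, e34, e41, e42, e43] at m124_124
  have m124_234 := minor_zero X Y 0 1 2 4 2 3 4
  simp only [gm, sd_self, e01, e02, e03, e04, e12, e13, e14, e21, e23, e24, e31, e32, e34, e41, e42, e43] at m124_234
  have m134_134 := minor_zero X Y 0 1 3 4 1 3 4
  simp only [gm, sd_self, e01, e02, e03, e04, e12, e13, e14, e21, e23, e24, e31, e32, e34, e41, e42, e43] at m134_134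
  have m234_234 := minor_zero X Y 0 2 3 4 2 3 4
  simp only [gm, sd_self, e01, e02, e03, e04, e12, e13, e14, e21, e23, e24, e31, e32, e34, e41, e42, e43] at m234_234
  have p0 : 0 < x 0 := hp 0
  have p1 : 0 < x 1 := hp 1
  have p2 : 0 < x 2 := hp 2
  have p3 : 0 < x 3 := hp 3
  have p4 : 0 < x 4 := hp 4
  have q0 : x 0 * ((2 : ℝ) * x 0 * x 0 + (-4 : ℝ) * x 0 * x 3 + (-4 : ℝ) * x 0 * x 4 + (2 : ℝ) * x 3 * x 3 + (-2 : ℝ) * x 3 * x 4 + (2 : ℝ) * x 4 * x 4) = 0 := by linear_combination (-1 : ℝ) * m124_124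
  have g0 : (2 : ℝ) * x 0 * x 0 + (-4 : ℝ) * x 0 * x 3 + (-4 : ℝ) * x 0 * x 4 + (2 : ℝ) * x 3 * x 3 + (-2 : ℝ) * x 3 * x 4 + (2 : ℝ) * x 4 * x 4 = 0 := (mul_eq_zero.1 q0).resolve_left p0.ne'
  have q1 : x 1 * ((2 : ℝ) * x 0 * x 0 + (-4 : ℝ) * x 0 * x 3 + (-8 : ℝ) * x 0 * x 4 + (2 : ℝ) * x 1 * x 4 + (2 : ℝ) * x 3 * x 3) = 0 := by linear_combination (-1 : ℝ) * m123_123 + (-2 : ℝ) * m123_134 + (-1 : ℝ) * m134_134
  have g1 : (2 : ℝ) * x 0 * x 0 + (-4 : ℝ) * x 0 * x 3 + (-8 : ℝ) * x 0 * x 4 + (2 : ℝ) * x 1 * x 4 + (2 : ℝ) * x 3 * x 3 = 0 := (mul_eq_zero.1 q1).resolve_left p1.ne'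
  have d0 : 0 < (x 2 - x 4) ^ 2 := by
    have h : x 2 - x 4 ≠ 0 := sub_ne_zero.2 fun h => absurd (hi 2 4 (by norm_num) (by norm_num) h) (by norm_num)
    positivity
  have t0 : 0 < (2 : ℝ) * ((x 2 - x 4) ^ 2 * (x 4)) := by positivity
  have z : (2 : ℝ) * ((x 2 - x 4) ^ 2 * (x 4)) = 0 := by linear_combination (1 : ℝ) * m124_124 + (2 : ℝ) * m124_234 + (-1 : ℝ) * m234_234 + (1 : ℝ) * (x 1) * g0 + (-2 : ℝ) * (x 2) * g0 + (1 : ℝ) * (x 3) * g0 + (1 : ℝ) * (x 4) * g0 + (-1 : ℝ) * (x 3) * g1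
  linarith

theorem k5w_430 : ¬ Realk 5 8 342204928 := by
  rintro ⟨X, Y, x, G, hp, hi, hs⟩
  have e01 : sd X Y 0 1 = x 0 := hs 0 1 (by norm_num) (by norm_num)
  have e02 : sd X Y 0 2 = x 0 := hs 0 2 (by norm_num) (by norm_num)
  have e12 : sd X Y 1 2 = x 0 := hs 1 2 (by norm_num) (by norm_num)
  have e03 : sd X Y 0 3 = x 1 := hs 0 3 (by norm_num) (by norm_num)
  have e13 : sd X Y 1 3 = x 2 := hs 1 3 (by norm_num) (by norm_num)
  have e23 : sd X Y 2 3 = x 3 := hs 2 3 (by norm_num) (by norm_num)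
  have e04 : sd X Y 0 4 = x 1 := hs 0 4 (by norm_num) (by norm_num)
  have e14 : sd X Y 1 4 = x 3 := hs 1 4 (by norm_num) (by norm_num)
  have e24 : sd X Y 2 4 = x 4 := hs 2 4 (by norm_num) (by norm_num)
  have e34 : sd X Y 3 4 = x 2 := hs 3 4 (by norm_num) (by norm_num)
  have e21 : sd X Y 2 1 = x 0 := by rw [sd_symm]; exact e12
  have e31 : sd X Y 3 1 = x 2 := by rw [sd_symm]; exact e13
  have e32 : sd X Y 3 2 = x 3 := by rw [sd_symm]; exact e23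
  have e41 : sd X Y 4 1 = x 3 := by rw [sd_symm]; exact e14
  have e42 : sd X Y 4 2 = x 4 := by rw [sd_symm]; exact e24
  have e43 : sd X Y 4 3 = x 2 := by rw [sd_symm]; exact e34
  have m123_234 := minor_zero X Y 0 1 2 3 2 3 4
  simp only [gm, sd_self, e01, e02, e03, e04, e12, e13, e14, e21, e23, e24, e31, e32, e34, e41, e42, e43] at m123_234
  have m124_134 := minor_zero X Y 0 1 2 4 1 3 4
  simp only [gm, sd_self, e01, e02, e03, e04, e12, e13, e14, e21, e23, e24, e31, e32, e34, e41, e42, e43] at m124_134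
  have p0 : 0 < x 0 := hp 0
  have p1 : 0 < x 1 := hp 1
  have p2 : 0 < x 2 := hp 2
  have p3 : 0 < x 3 := hp 3
  have p4 : 0 < x 4 := hp 4
  have q0 : (x 1 - x 2) * ((-2 : ℝ) * x 0 * x 2 + (2 : ℝ) * x 0 * x 4) = 0 := by linear_combination (-1 : ℝ) * m123_234 + (1 : ℝ) * m124_134
  have g0 : (-2 : ℝ) * x 0 * x 2 + (2 : ℝ) * x 0 * x 4 = 0 := (mul_eq_zero.1 q0).resolve_left (sub_ne_zero.2 fun h => absurd (hi 1 2 (by norm_num) (by norm_num) h) (by norm_num))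
  have d0 : 0 < (x 2 - x 4) ^ 2 := by
    have h : x 2 - x 4 ≠ 0 := sub_ne_zero.2 fun h => absurd (hi 2 4 (by norm_num) (by norm_num) h) (by norm_num)
    positivity
  have t0 : 0 < (2 : ℝ) * ((x 2 - x 4) ^ 2 * (x 0)) := by positivity
  have z : (2 : ℝ) * ((x 2 - x 4) ^ 2 * (x 0)) = 0 := by linear_combination (-1 : ℝ) * (x 2) * g0 + (1 : ℝ) * (x 4) * g0
  linarith

theorem k5w_417 : ¬ Realk 5 8 610603520 := by
  rintro ⟨X, Y, x, G, hp, hi, hs⟩
  have e01 : sd X Y 0 1 = x 0 := hs 0 1 (by norm_num) (by norm_num)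
  have e02 : sd X Y 0 2 = x 0 := hs 0 2 (by norm_num) (by norm_num)
  have e12 : sd X Y 1 2 = x 0 := hs 1 2 (by norm_num) (by norm_num)
  have e03 : sd X Y 0 3 = x 1 := hs 0 3 (by norm_num) (by norm_num)
  have e13 : sd X Y 1 3 = x 1 := hs 1 3 (by norm_num) (by norm_num)
  have e23 : sd X Y 2 3 = x 2 := hs 2 3 (by norm_num) (by norm_num)
  have e04 : sd X Y 0 4 = x 1 := hs 0 4 (by norm_num) (by norm_num)
  have e14 : sd X Y 1 4 = x 3 := hs 1 4 (by norm_num) (by norm_num)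
  have e24 : sd X Y 2 4 = x 4 := hs 2 4 (by norm_num) (by norm_num)
  have e34 : sd X Y 3 4 = x 4 := hs 3 4 (by norm_num) (by norm_num)
  have e21 : sd X Y 2 1 = x 0 := by rw [sd_symm]; exact e12
  have e31 : sd X Y 3 1 = x 1 := by rw [sd_symm]; exact e13
  have e32 : sd X Y 3 2 = x 2 := by rw [sd_symm]; exact e23
  have e41 : sd X Y 4 1 = x 3 := by rw [sd_symm]; exact e14
  have e42 : sd X Y 4 2 = x 4 := by rw [sd_symm]; exact e24
  have e43 : sd X Y 4 3 = x 4 := by rw [sd_symm]; exact e34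
  have m123_123 := minor_zero X Y 0 1 2 3 1 2 3
  simp only [gm, sd_self, e01, e02, e03, e04, e12, e13, e14, e21, e23, e24, e31, e32, e34, e41, e42, e43] at m123_123
  have m123_124 := minor_zero X Y 0 1 2 3 1 2 4
  simp only [gm, sd_self, e01, e02, e03, e04, e12, e13, e14, e21, e23, e24, e31, e32, e34, e41, e42, e43] at m123_124
  have m123_134 := minor_zero X Y 0 1 2 3 1 3 4
  simp only [gm, sd_self, e01, e02, e03, e04, e12, e13, e14, e21, e23, e24, e31, e32, e34, e41, e42, e43] at m123_134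
  have m124_124 := minor_zero X Y 0 1 2 4 1 2 4
  simp only [gm, sd_self, e01, e02, e03, e04, e12, e13, e14, e21, e23, e24, e31, e32, e34, e41, e42, e43] at m124_124
  have p0 : 0 < x 0 := hp 0
  have p1 : 0 < x 1 := hp 1
  have p2 : 0 < x 2 := hp 2
  have p3 : 0 < x 3 := hp 3
  have p4 : 0 < x 4 := hp 4
  have q0 : x 0 * ((2 : ℝ) * x 0 * x 0 + (-4 : ℝ) * x 0 * x 1 + (-2 : ℝ) * x 0 * x 2 + (2 : ℝ) * x 1 * x 1 + (-4 : ℝ) * x 1 * x 2 + (2 : ℝ) * x 2 * x 2) = 0 := by linear_combination (-1 : ℝ) * m123_123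
  have g0 : (2 : ℝ) * x 0 * x 0 + (-4 : ℝ) * x 0 * x 1 + (-2 : ℝ) * x 0 * x 2 + (2 : ℝ) * x 1 * x 1 + (-4 : ℝ) * x 1 * x 2 + (2 : ℝ) * x 2 * x 2 = 0 := (mul_eq_zero.1 q0).resolve_left p0.ne'
  have q1 : x 0 * ((2 : ℝ) * x 0 * x 0 + (-4 : ℝ) * x 0 * x 1 + (2 : ℝ) * x 1 * x 1 + (-4 : ℝ) * x 1 * x 2 + (-2 : ℝ) * x 2 * x 3 + (4 : ℝ) * x 2 * x 4) = 0 := by linear_combination (-1 : ℝ) * m123_124 + (1 : ℝ) * m123_134
  have g1 : (2 : ℝ) * x 0 * x 0 + (-4 : ℝ) * x 0 * x 1 + (2 : ℝ) * x 1 * x 1 + (-4 : ℝ) * x 1 * x 2 + (-2 : ℝ) * x 2 * x 3 + (4 : ℝ) * x 2 * x 4 = 0 := (mul_eq_zero.1 q1).resolve_left p0.ne'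
  have q2 : x 2 * ((2 : ℝ) * x 0 * x 0 + (-2 : ℝ) * x 0 * x 2 + (-2 : ℝ) * x 0 * x 3 + (4 : ℝ) * x 0 * x 4) = 0 := by linear_combination (-1 : ℝ) * (x 0) * g0 + (1 : ℝ) * (x 0) * g1
  have g2 : (2 : ℝ) * x 0 * x 0 + (-2 : ℝ) * x 0 * x 2 + (-2 : ℝ) * x 0 * x 3 + (4 : ℝ) * x 0 * x 4 = 0 := (mul_eq_zero.1 q2).resolve_left p2.ne'
  have q3 : (x 1 - x 4) * ((-6 : ℝ) * x 0 * x 0 + (-6 : ℝ) * x 0 * x 2 + (6 : ℝ) * x 0 * x 3) = 0 := by linear_combination (1 : ℝ) * (x 4) * g2 + (2 : ℝ) * (x 0) * g1 + (-1 : ℝ) * (x 1) * g2 + (-2 : ℝ) * (x 3) * g2 + (2 : ℝ) * m124_124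
  have g3 : (-6 : ℝ) * x 0 * x 0 + (-6 : ℝ) * x 0 * x 2 + (6 : ℝ) * x 0 * x 3 = 0 := (mul_eq_zero.1 q3).resolve_left (sub_ne_zero.2 fun h => absurd (hi 1 4 (by norm_num) (by norm_num) h) (by norm_num))
  have d0 : 0 < (x 2 - x 4) ^ 2 := by
    have h : x 2 - x 4 ≠ 0 := sub_ne_zero.2 fun h => absurd (hi 2 4 (by norm_num) (by norm_num) h) (by norm_num)
    positivity
  have t0 : 0 < (12 : ℝ) * ((x 2 - x 4) ^ 2 * (x 0)) := by positivity
  have z : (12 : ℝ) * ((x 2 - x 4) ^ 2 * (x 0)) = 0 := by linear_combination (-3 : ℝ) * (x 2) * g2 + (3 : ℝ) * (x 4) * g2 + (-1 : ℝ) * (x 2) * g3 + (1 : ℝ) * (x 4) * g3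
  linarith

theorem k5w_431 : ¬ Realk 5 8 476422656 := by
  rintro ⟨X, Y, x, G, hp, hi, hs⟩
  have e01 : sd X Y 0 1 = x 0 := hs 0 1 (by norm_num) (by norm_num)
  have e02 : sd X Y 0 2 = x 0 := hs 0 2 (by norm_num) (by norm_num)
  have e12 : sd X Y 1 2 = x 0 := hs 1 2 (by norm_num) (by norm_num)
  have e03 : sd X Y 0 3 = x 1 := hs 0 3 (by norm_num) (by norm_num)
  have e13 : sd X Y 1 3 = x 2 := hs 1 3 (by norm_num) (by norm_num)
  have e23 : sd X Y 2 3 = x 3 := hs 2 3 (by norm_num) (by norm_num)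
  have e04 : sd X Y 0 4 = x 1 := hs 0 4 (by norm_num) (by norm_num)
  have e14 : sd X Y 1 4 = x 3 := hs 1 4 (by norm_num) (by norm_num)
  have e24 : sd X Y 2 4 = x 4 := hs 2 4 (by norm_num) (by norm_num)
  have e34 : sd X Y 3 4 = x 3 := hs 3 4 (by norm_num) (by norm_num)
  have e21 : sd X Y 2 1 = x 0 := by rw [sd_symm]; exact e12
  have e31 : sd X Y 3 1 = x 2 := by rw [sd_symm]; exact e13
  have e32 : sd X Y 3 2 = x 3 := by rw [sd_symm]; exact e23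
  have e41 : sd X Y 4 1 = x 3 := by rw [sd_symm]; exact e14
  have e42 : sd X Y 4 2 = x 4 := by rw [sd_symm]; exact e24
  have e43 : sd X Y 4 3 = x 3 := by rw [sd_symm]; exact e34
  have m123_234 := minor_zero X Y 0 1 2 3 2 3 4
  simp only [gm, sd_self, e01, e02, e03, e04, e12, e13, e14, e21, e23, e24, e31, e32, e34, e41, e42, e43] at m123_234
  have m124_134 := minor_zero X Y 0 1 2 4 1 3 4
  simp only [gm, sd_self, e01, e02, e03, e04, e12, e13, e14, e21, e23, e24, e31, e32, e34, e41, e42, e43] at m124_134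
  have p0 : 0 < x 0 := hp 0
  have p1 : 0 < x 1 := hp 1
  have p2 : 0 < x 2 := hp 2
  have p3 : 0 < x 3 := hp 3
  have p4 : 0 < x 4 := hp 4
  have q0 : (x 1 - x 3) * ((-2 : ℝ) * x 0 * x 2 + (2 : ℝ) * x 0 * x 4) = 0 := by linear_combination (-1 : ℝ) * m123_234 + (1 : ℝ) * m124_134
  have g0 : (-2 : ℝ) * x 0 * x 2 + (2 : ℝ) * x 0 * x 4 = 0 := (mul_eq_zero.1 q0).resolve_left (sub_ne_zero.2 fun h => absurd (hi 1 3 (by norm_num) (by norm_num) h) (by norm_num))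
  have d0 : 0 < (x 2 - x 4) ^ 2 := by
    have h : x 2 - x 4 ≠ 0 := sub_ne_zero.2 fun h => absurd (hi 2 4 (by norm_num) (by norm_num) h) (by norm_num)
    positivity
  have t0 : 0 < (2 : ℝ) * ((x 2 - x 4) ^ 2 * (x 0)) := by positivity
  have z : (2 : ℝ) * ((x 2 - x 4) ^ 2 * (x 0)) = 0 := by linear_combination (-1 : ℝ) * (x 2) * g0 + (1 : ℝ) * (x 4) * g0
  linarith

theorem k5w_409 : ¬ Realk 5 8 204279808 := by
  rintro ⟨X, Y, x, G, hp, hi, hs⟩
  have e01 : sd X Y 0 1 = x 0 := hs 0 1 (by norm_num) (by norm_num)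
  have e02 : sd X Y 0 2 = x 0 := hs 0 2 (by norm_num) (by norm_num)
  have e12 : sd X Y 1 2 = x 0 := hs 1 2 (by norm_num) (by norm_num)
  have e03 : sd X Y 0 3 = x 0 := hs 0 3 (by norm_num) (by norm_num)
  have e13 : sd X Y 1 3 = x 1 := hs 1 3 (by norm_num) (by norm_num)
  have e23 : sd X Y 2 3 = x 2 := hs 2 3 (by norm_num) (by norm_num)
  have e04 : sd X Y 0 4 = x 3 := hs 0 4 (by norm_num) (by norm_num)
  have e14 : sd X Y 1 4 = x 1 := hs 1 4 (by norm_num) (by norm_num)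
  have e24 : sd X Y 2 4 = x 4 := hs 2 4 (by norm_num) (by norm_num)
  have e34 : sd X Y 3 4 = x 1 := hs 3 4 (by norm_num) (by norm_num)
  have e21 : sd X Y 2 1 = x 0 := by rw [sd_symm]; exact e12
  have e31 : sd X Y 3 1 = x 1 := by rw [sd_symm]; exact e13
  have e32 : sd X Y 3 2 = x 2 := by rw [sd_symm]; exact e23
  have e41 : sd X Y 4 1 = x 1 := by rw [sd_symm]; exact e14
  have e42 : sd X Y 4 2 = x 4 := by rw [sd_symm]; exact e24
  have e43 : sd X Y 4 3 = x 1 := by rw [sd_symm]; exact e34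
  have m123_123 := minor_zero X Y 0 1 2 3 1 2 3
  simp only [gm, sd_self, e01, e02, e03, e04, e12, e13, e14, e21, e23, e24, e31, e32, e34, e41, e42, e43] at m123_123
  have m123_124 := minor_zero X Y 0 1 2 3 1 2 4
  simp only [gm, sd_self, e01, e02, e03, e04, e12, e13, e14, e21, e23, e24, e31, e32, e34, e41, e42, e43] at m123_124
  have m123_134 := minor_zero X Y 0 1 2 3 1 3 4
  simp only [gm, sd_self, e01, e02, e03, e04, e12, e13, e14, e21, e23, e24, e31, e32, e34, e41, e42, e43] at m123_134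
  have m124_134 := minor_zero X Y 0 1 2 4 1 3 4
  simp only [gm, sd_self, e01, e02, e03, e04, e12, e13, e14, e21, e23, e24, e31, e32, e34, e41, e42, e43] at m124_134
  have m134_134 := minor_zero X Y 0 1 3 4 1 3 4
  simp only [gm, sd_self, e01, e02, e03, e04, e12, e13, e14, e21, e23, e24, e31, e32, e34, e41, e42, e43] at m134_134
  have m134_234 := minor_zero X Y 0 1 3 4 2 3 4
  simp only [gm, sd_self, e01, e02, e03, e04, e12, e13, e14, e21, e23, e24, e31, e32, e34, e41, e42, e43] at m134_234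
  have p0 : 0 < x 0 := hp 0
  have p1 : 0 < x 1 := hp 1
  have p2 : 0 < x 2 := hp 2
  have p3 : 0 < x 3 := hp 3
  have p4 : 0 < x 4 := hp 4
  have q0 : x 0 * ((2 : ℝ) * x 0 * x 0 + (-4 : ℝ) * x 0 * x 1 + (-4 : ℝ) * x 0 * x 2 + (2 : ℝ) * x 1 * x 1 + (-2 : ℝ) * x 1 * x 2 + (2 : ℝ) * x 2 * x 2) = 0 := by linear_combination (-1 : ℝ) * m123_123
  have g0 : (2 : ℝ) * x 0 * x 0 + (-4 : ℝ) * x 0 * x 1 + (-4 : ℝ) * x 0 * x 2 + (2 : ℝ) * x 1 * x 1 + (-2 : ℝ) * x 1 * x 2 + (2 : ℝ) * x 2 * x 2 = 0 := (mul_eq_zero.1 q0).resolve_left p0.ne'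
  have q1 : x 1 * ((2 : ℝ) * x 0 * x 0 + (-4 : ℝ) * x 0 * x 1 + (-4 : ℝ) * x 0 * x 3 + (2 : ℝ) * x 1 * x 1 + (-2 : ℝ) * x 1 * x 3 + (2 : ℝ) * x 3 * x 3) = 0 := by linear_combination (-1 : ℝ) * m134_134
  have g1 : (2 : ℝ) * x 0 * x 0 + (-4 : ℝ) * x 0 * x 1 + (-4 : ℝ) * x 0 * x 3 + (2 : ℝ) * x 1 * x 1 + (-2 : ℝ) * x 1 * x 3 + (2 : ℝ) * x 3 * x 3 = 0 := (mul_eq_zero.1 q1).resolve_left p1.ne'
  have q2 : x 1 * ((2 : ℝ) * x 0 * x 0 + (2 : ℝ) * x 0 * x 1 + (2 : ℝ) * x 0 * x 2 + (-6 : ℝ) * x 0 * x 4 + (2 : ℝ) * x 1 * x 1 + (-2 : ℝ) * x 1 * x 2 + (-2 : ℝ) * x 1 * x 3 + (2 : ℝ) * x 3 * x 4) = 0 := by linear_combination (-2 : ℝ) * m123_134 + (1 : ℝ) * m124_134 + (-1 : ℝ) * m134_134 + (1 : ℝ) * m134_234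
  have g2 : (2 : ℝ) * x 0 * x 0 + (2 : ℝ) * x 0 * x 1 + (2 : ℝ) * x 0 * x 2 + (-6 : ℝ) * x 0 * x 4 + (2 : ℝ) * x 1 * x 1 + (-2 : ℝ) * x 1 * x 2 + (-2 : ℝ) * x 1 * x 3 + (2 : ℝ) * x 3 * x 4 = 0 := (mul_eq_zero.1 q2).resolve_left p1.ne'
  have q3 : (x 0 - x 4) * ((-4 : ℝ) * x 0 * x 2 + (4 : ℝ) * x 0 * x 3) = 0 := by linear_combination (-2 : ℝ) * m123_124 + (-1 : ℝ) * m124_134 + (-1 : ℝ) * m134_234 + (-1 : ℝ) * (x 4) * g1 + (-1 : ℝ) * (x 0) * g2 + (1 : ℝ) * (x 3) * g2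
  have g3 : (-4 : ℝ) * x 0 * x 2 + (4 : ℝ) * x 0 * x 3 = 0 := (mul_eq_zero.1 q3).resolve_left (sub_ne_zero.2 fun h => absurd (hi 0 4 (by norm_num) (by norm_num) h) (by norm_num))
  have d0 : 0 < (x 2 - x 3) ^ 2 := by
    have h : x 2 - x 3 ≠ 0 := sub_ne_zero.2 fun h => absurd (hi 2 3 (by norm_num) (by norm_num) h) (by norm_num)
    positivity
  have t0 : 0 < (4 : ℝ) * ((x 2 - x 3) ^ 2 * (x 0)) := by positivity
  have z : (4 : ℝ) * ((x 2 - x 3) ^ 2 * (x 0)) = 0 := by linear_combination (-1 : ℝ) * (x 2) * g3 + (1 : ℝ) * (x 3) * g3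
  linarith

theorem k5w_424 : ¬ Realk 5 8 160240128 := by
  rintro ⟨X, Y, x, G, hp, hi, hs⟩
  have e01 : sd X Y 0 1 = x 0 := hs 0 1 (by norm_num) (by norm_num)
  have e02 : sd X Y 0 2 = x 0 := hs 0 2 (by norm_num) (by norm_num)
  have e12 : sd X Y 1 2 = x 0 := hs 1 2 (by norm_num) (by norm_num)
  have e03 : sd X Y 0 3 = x 1 := hs 0 3 (by norm_num) (by norm_num)
  have e13 : sd X Y 1 3 = x 1 := hs 1 3 (by norm_num) (by norm_num)
  have e23 : sd X Y 2 3 = x 2 := hs 2 3 (by norm_num) (by norm_num)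
  have e04 : sd X Y 0 4 = x 3 := hs 0 4 (by norm_num) (by norm_num)
  have e14 : sd X Y 1 4 = x 4 := hs 1 4 (by norm_num) (by norm_num)
  have e24 : sd X Y 2 4 = x 1 := hs 2 4 (by norm_num) (by norm_num)
  have e34 : sd X Y 3 4 = x 1 := hs 3 4 (by norm_num) (by norm_num)
  have e21 : sd X Y 2 1 = x 0 := by rw [sd_symm]; exact e12
  have e31 : sd X Y 3 1 = x 1 := by rw [sd_symm]; exact e13
  have e32 : sd X Y 3 2 = x 2 := by rw [sd_symm]; exact e23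
  have e41 : sd X Y 4 1 = x 4 := by rw [sd_symm]; exact e14
  have e42 : sd X Y 4 2 = x 1 := by rw [sd_symm]; exact e24
  have e43 : sd X Y 4 3 = x 1 := by rw [sd_symm]; exact e34
  have m123_123 := minor_zero X Y 0 1 2 3 1 2 3
  simp only [gm, sd_self, e01, e02, e03, e04, e12, e13, e14, e21, e23, e24, e31, e32, e34, e41, e42, e43] at m123_123
  have m123_124 := minor_zero X Y 0 1 2 3 1 2 4
  simp only [gm, sd_self, e01, e02, e03, e04, e12, e13, e14, e21, e23, e24, e31, e32, e34, e41, e42, e43] at m123_124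
  have m123_134 := minor_zero X Y 0 1 2 3 1 3 4
  simp only [gm, sd_self, e01, e02, e03, e04, e12, e13, e14, e21, e23, e24, e31, e32, e34, e41, e42, e43] at m123_134
  have m124_124 := minor_zero X Y 0 1 2 4 1 2 4
  simp only [gm, sd_self, e01, e02, e03, e04, e12, e13, e14, e21, e23, e24, e31, e32, e34, e41, e42, e43] at m124_124
  have p0 : 0 < x 0 := hp 0
  have p1 : 0 < x 1 := hp 1
  have p2 : 0 < x 2 := hp 2
  have p3 : 0 < x 3 := hp 3
  have p4 : 0 < x 4 := hp 4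
  have q0 : x 0 * ((2 : ℝ) * x 0 * x 0 + (4 : ℝ) * x 0 * x 1 + (-2 : ℝ) * x 0 * x 2 + (-2 : ℝ) * x 0 * x 3 + (-2 : ℝ) * x 0 * x 4 + (-6 : ℝ) * x 1 * x 1 + (2 : ℝ) * x 1 * x 2 + (2 : ℝ) * x 1 * x 3 + (2 : ℝ) * x 1 * x 4) = 0 := by linear_combination (-1 : ℝ) * m123_124 + (-1 : ℝ) * m123_134
  have g0 : (2 : ℝ) * x 0 * x 0 + (4 : ℝ) * x 0 * x 1 + (-2 : ℝ) * x 0 * x 2 + (-2 : ℝ) * x 0 * x 3 + (-2 : ℝ) * x 0 * x 4 + (-6 : ℝ) * x 1 * x 1 + (2 : ℝ) * x 1 * x 2 + (2 : ℝ) * x 1 * x 3 + (2 : ℝ) * x 1 * x 4 = 0 := (mul_eq_zero.1 q0).resolve_left p0.ne'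
  have q1 : x 0 * ((-2 : ℝ) * x 0 * x 0 + (4 : ℝ) * x 0 * x 1 + (-2 : ℝ) * x 1 * x 1 + (-2 : ℝ) * x 1 * x 2 + (2 : ℝ) * x 2 * x 3 + (2 : ℝ) * x 2 * x 4) = 0 := by linear_combination (1 : ℝ) * m123_124 + (-1 : ℝ) * m123_134
  have g1 : (-2 : ℝ) * x 0 * x 0 + (4 : ℝ) * x 0 * x 1 + (-2 : ℝ) * x 1 * x 1 + (-2 : ℝ) * x 1 * x 2 + (2 : ℝ) * x 2 * x 3 + (2 : ℝ) * x 2 * x 4 = 0 := (mul_eq_zero.1 q1).resolve_left p0.ne'
  have q2 : x 2 * ((-2 : ℝ) * x 0 * x 0 + (-6 : ℝ) * x 0 * x 1 + (2 : ℝ) * x 0 * x 2 + (2 : ℝ) * x 0 * x 3 + (2 : ℝ) * x 0 * x 4) = 0 := by linear_combination (1 : ℝ) * (x 0) * g1 + (-1 : ℝ) * m123_123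
  have g2 : (-2 : ℝ) * x 0 * x 0 + (-6 : ℝ) * x 0 * x 1 + (2 : ℝ) * x 0 * x 2 + (2 : ℝ) * x 0 * x 3 + (2 : ℝ) * x 0 * x 4 = 0 := (mul_eq_zero.1 q2).resolve_left p2.ne'
  have q3 : (x 1 - x 4) * ((-6 : ℝ) * x 0 * x 1 + (6 : ℝ) * x 0 * x 3) = 0 := by linear_combination (-2 : ℝ) * m123_134 + (-1 : ℝ) * m124_124 + (1 : ℝ) * (x 0) * g2 + (-1 : ℝ) * (x 3) * g2 + (-1 : ℝ) * (x 4) * g2
  have g3 : (-6 : ℝ) * x 0 * x 1 + (6 : ℝ) * x 0 * x 3 = 0 := (mul_eq_zero.1 q3).resolve_left (sub_ne_zero.2 fun h => absurd (hi 1 4 (by norm_num) (by norm_num) h) (by norm_num))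
  have d0 : 0 < (x 1 - x 3) ^ 2 := by
    have h : x 1 - x 3 ≠ 0 := sub_ne_zero.2 fun h => absurd (hi 1 3 (by norm_num) (by norm_num) h) (by norm_num)
    positivity
  have t0 : 0 < (6 : ℝ) * ((x 1 - x 3) ^ 2 * (x 0)) := by positivity
  have z : (6 : ℝ) * ((x 1 - x 3) ^ 2 * (x 0)) = 0 := by linear_combination (-1 : ℝ) * (x 1) * g3 + (1 : ℝ) * (x 3) * g3
  linarith

theorem k5w_435 : ¬ Realk 5 8 342467072 := by
  rintro ⟨X, Y, x, G, hp, hi, hs⟩
  have e01 : sd X Y 0 1 = x 0 := hs 0 1 (by norm_num) (by norm_num)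
  have e02 : sd X Y 0 2 = x 0 := hs 0 2 (by norm_num) (by norm_num)
  have e12 : sd X Y 1 2 = x 0 := hs 1 2 (by norm_num) (by norm_num)
  have e03 : sd X Y 0 3 = x 1 := hs 0 3 (by norm_num) (by norm_num)
  have e13 : sd X Y 1 3 = x 2 := hs 1 3 (by norm_num) (by norm_num)
  have e23 : sd X Y 2 3 = x 3 := hs 2 3 (by norm_num) (by norm_num)
  have e04 : sd X Y 0 4 = x 2 := hs 0 4 (by norm_num) (by norm_num)
  have e14 : sd X Y 1 4 = x 3 := hs 1 4 (by norm_num) (by norm_num)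
  have e24 : sd X Y 2 4 = x 4 := hs 2 4 (by norm_num) (by norm_num)
  have e34 : sd X Y 3 4 = x 2 := hs 3 4 (by norm_num) (by norm_num)
  have e21 : sd X Y 2 1 = x 0 := by rw [sd_symm]; exact e12
  have e31 : sd X Y 3 1 = x 2 := by rw [sd_symm]; exact e13
  have e32 : sd X Y 3 2 = x 3 := by rw [sd_symm]; exact e23
  have e41 : sd X Y 4 1 = x 3 := by rw [sd_symm]; exact e14
  have e42 : sd X Y 4 2 = x 4 := by rw [sd_symm]; exact e24
  have e43 : sd X Y 4 3 = x 2 := by rw [sd_symm]; exact e34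
  have m123_123 := minor_zero X Y 0 1 2 3 1 2 3
  simp only [gm, sd_self, e01, e02, e03, e04, e12, e13, e14, e21, e23, e24, e31, e32, e34, e41, e42, e43] at m123_123
  have m123_124 := minor_zero X Y 0 1 2 3 1 2 4
  simp only [gm, sd_self, e01, e02, e03, e04, e12, e13, e14, e21, e23, e24, e31, e32, e34, e41, e42, e43] at m123_124
  have m123_134 := minor_zero X Y 0 1 2 3 1 3 4
  simp only [gm, sd_self, e01, e02, e03, e04, e12, e13, e14, e21, e23, e24, e31, e32, e34, e41, e42, e43] at m123_134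
  have m123_234 := minor_zero X Y 0 1 2 3 2 3 4
  simp only [gm, sd_self, e01, e02, e03, e04, e12, e13, e14, e21, e23, e24, e31, e32, e34, e41, e42, e43] at m123_234
  have m124_124 := minor_zero X Y 0 1 2 4 1 2 4
  simp only [gm, sd_self, e01, e02, e03, e04, e12, e13, e14, e21, e23, e24, e31, e32, e34, e41, e42, e43] at m124_124
  have m124_134 := minor_zero X Y 0 1 2 4 1 3 4
  simp only [gm, sd_self, e01, e02, e03, e04, e12, e13, e14, e21, e23, e24, e31, e32, e34, e41, e42, e43] at m124_134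
  have m134_134 := minor_zero X Y 0 1 3 4 1 3 4
  simp only [gm, sd_self, e01, e02, e03, e04, e12, e13, e14, e21, e23, e24, e31, e32, e34, e41, e42, e43] at m134_134
  have m134_234 := minor_zero X Y 0 1 3 4 2 3 4
  simp only [gm, sd_self, e01, e02, e03, e04, e12, e13, e14, e21, e23, e24, e31, e32, e34, e41, e42, e43] at m134_234
  have m234_234 := minor_zero X Y 0 2 3 4 2 3 4
  simp only [gm, sd_self, e01, e02, e03, e04, e12, e13, e14, e21, e23, e24, e31, e32, e34, e41, e42, e43] at m234_234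
  have p0 : 0 < x 0 := hp 0
  have p1 : 0 < x 1 := hp 1
  have p2 : 0 < x 2 := hp 2
  have p3 : 0 < x 3 := hp 3
  have p4 : 0 < x 4 := hp 4
  have q0 : x 0 * ((2 : ℝ) * x 0 * x 0 + (-2 : ℝ) * x 0 * x 1 + (-2 : ℝ) * x 0 * x 2 + (-2 : ℝ) * x 0 * x 3 + (2 : ℝ) * x 1 * x 1 + (-2 : ℝ) * x 1 * x 2 + (-2 : ℝ) * x 1 * x 3 + (2 : ℝ) * x 2 * x 2 + (-2 : ℝ) * x 2 * x 3 + (2 : ℝ) * x 3 * x 3) = 0 := by linear_combination (-1 : ℝ) * m123_123
  have g0 : (2 : ℝ) * x 0 * x 0 + (-2 : ℝ) * x 0 * x 1 + (-2 : ℝ) * x 0 * x 2 + (-2 : ℝ) * x 0 * x 3 + (2 : ℝ) * x 1 * x 1 + (-2 : ℝ) * x 1 * x 2 + (-2 : ℝ) * x 1 * x 3 + (2 : ℝ) * x 2 * x 2 + (-2 : ℝ) * x 2 * x 3 + (2 : ℝ) * x 3 * x 3 = 0 := (mul_eq_zero.1 q0).resolve_left p0.ne'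
  have q1 : (x 1 - x 2) * ((2 : ℝ) * x 0 * x 0 + (-2 : ℝ) * x 0 * x 1 + (-4 : ℝ) * x 0 * x 2 + (2 : ℝ) * x 1 * x 1 + (-4 : ℝ) * x 1 * x 3 + (2 : ℝ) * x 2 * x 2) = 0 := by linear_combination (1 : ℝ) * m134_134 + (1 : ℝ) * (x 1) * g0
  have g1 : (2 : ℝ) * x 0 * x 0 + (-2 : ℝ) * x 0 * x 1 + (-4 : ℝ) * x 0 * x 2 + (2 : ℝ) * x 1 * x 1 + (-4 : ℝ) * x 1 * x 3 + (2 : ℝ) * x 2 * x 2 = 0 := (mul_eq_zero.1 q1).resolve_left (sub_ne_zero.2 fun h => absurd (hi 1 2 (by norm_num) (by norm_num) h) (by norm_num))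
  have q2 : (x 1 - x 2) * ((2 : ℝ) * x 0 * x 0 + (-2 : ℝ) * x 0 * x 2 + (-2 : ℝ) * x 0 * x 3 + (2 : ℝ) * x 1 * x 2 + (-2 : ℝ) * x 1 * x 3 + (-2 : ℝ) * x 1 * x 4 + (2 : ℝ) * x 2 * x 3) = 0 := by linear_combination (1 : ℝ) * m123_123 + (-2 : ℝ) * m123_134 + (2 : ℝ) * m134_234 + (1 : ℝ) * (x 2) * g0 + (1 : ℝ) * (x 0) * g1 + (1 : ℝ) * (x 3) * g1 + (-1 : ℝ) * (x 4) * g1
  have g2 : (2 : ℝ) * x 0 * x 0 + (-2 : ℝ) * x 0 * x 2 + (-2 : ℝ) * x 0 * x 3 + (2 : ℝ) * x 1 * x 2 + (-2 : ℝ) * x 1 * x 3 + (-2 : ℝ) * x 1 * x 4 + (2 : ℝ) * x 2 * x 3 = 0 := (mul_eq_zero.1 q2).resolve_left (sub_ne_zero.2 fun h => absurd (hi 1 2 (by norm_num) (by norm_num) h) (by norm_num))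
  have q3 : (x 1 - x 4) * ((-2 : ℝ) * x 0 * x 0 + (2 : ℝ) * x 0 * x 1 + (-2 : ℝ) * x 0 * x 2 + (-2 : ℝ) * x 0 * x 3 + (2 : ℝ) * x 0 * x 4) = 0 := by linear_combination (-1 : ℝ) * m123_123 + (1 : ℝ) * m124_124
  have g3 : (-2 : ℝ) * x 0 * x 0 + (2 : ℝ) * x 0 * x 1 + (-2 : ℝ) * x 0 * x 2 + (-2 : ℝ) * x 0 * x 3 + (2 : ℝ) * x 0 * x 4 = 0 := (mul_eq_zero.1 q3).resolve_left (sub_ne_zero.2 fun h => absurd (hi 1 4 (by norm_num) (by norm_num) h) (by norm_num))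
  have q4 : (x 1 - x 4) * ((2 : ℝ) * x 1 * x 2 + (-2 : ℝ) * x 1 * x 3 + (-2 : ℝ) * x 2 * x 2 + (2 : ℝ) * x 2 * x 3) = 0 := by linear_combination (-1 : ℝ) * m123_123 + (1 : ℝ) * m123_124 + (-1 : ℝ) * m123_134 + (1 : ℝ) * m123_234 + (1 : ℝ) * m124_134 + (1 : ℝ) * (x 2) * g0 + (-1 : ℝ) * (x 3) * g0
  have g4 : (2 : ℝ) * x 1 * x 2 + (-2 : ℝ) * x 1 * x 3 + (-2 : ℝ) * x 2 * x 2 + (2 : ℝ) * x 2 * x 3 = 0 := (mul_eq_zero.1 q4).resolve_left (sub_ne_zero.2 fun h => absurd (hi 1 4 (by norm_num) (by norm_num) h) (by norm_num))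
  have d0 : 0 < (x 2 - x 3) ^ 2 := by
    have h : x 2 - x 3 ≠ 0 := sub_ne_zero.2 fun h => absurd (hi 2 3 (by norm_num) (by norm_num) h) (by norm_num)
    positivity
  have t0 : 0 < (16 : ℝ) * ((x 2 - x 3) ^ 2 * (x 3)) := by positivity
  have z : (16 : ℝ) * ((x 2 - x 3) ^ 2 * (x 3)) = 0 := by linear_combination (-4 : ℝ) * m123_123 + (-4 : ℝ) * m123_134 + (3 : ℝ) * m134_134 + (2 : ℝ) * m134_234 + (2 : ℝ) * m234_234 + (-2 : ℝ) * (x 2) * g0 + (8 : ℝ) * (x 3) * g0 + (-3 : ℝ) * (x 0) * g1 + (3 : ℝ) * (x 2) * g1 + (-3 : ℝ) * (x 3) * g1 + (-1 : ℝ) * (x 0) * g2 + (-1 : ℝ) * (x 1) * g2 + (3 : ℝ) * (x 2) * g2 + (-2 : ℝ) * (x 4) * g2 + (2 : ℝ) * (x 2) * g3 + (-2 : ℝ) * (x 3) * g3 + (-4 : ℝ) * (x 2) * g4 + (-2 : ℝ) * (x 3) * g4 + (2 : ℝ) * (x 4) * g4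
  linarith

theorem k5w_414 : ¬ Realk 5 8 591729152 := by
  rintro ⟨X, Y, x, G, hp, hi, hs⟩
  have e01 : sd X Y 0 1 = x 0 := hs 0 1 (by norm_num) (by norm_num)
  have e02 : sd X Y 0 2 = x 0 := hs 0 2 (by norm_num) (by norm_num)
  have e12 : sd X Y 1 2 = x 0 := hs 1 2 (by norm_num) (by norm_num)
  have e03 : sd X Y 0 3 = x 1 := hs 0 3 (by norm_num) (by norm_num)
  have e13 : sd X Y 1 3 = x 1 := hs 1 3 (by norm_num) (by norm_num)
  have e23 : sd X Y 2 3 = x 2 := hs 2 3 (by norm_num) (by norm_num)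
  have e04 : sd X Y 0 4 = x 1 := hs 0 4 (by norm_num) (by norm_num)
  have e14 : sd X Y 1 4 = x 2 := hs 1 4 (by norm_num) (by norm_num)
  have e24 : sd X Y 2 4 = x 3 := hs 2 4 (by norm_num) (by norm_num)
  have e34 : sd X Y 3 4 = x 4 := hs 3 4 (by norm_num) (by norm_num)
  have e21 : sd X Y 2 1 = x 0 := by rw [sd_symm]; exact e12
  have e31 : sd X Y 3 1 = x 1 := by rw [sd_symm]; exact e13
  have e32 : sd X Y 3 2 = x 2 := by rw [sd_symm]; exact e23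
  have e41 : sd X Y 4 1 = x 2 := by rw [sd_symm]; exact e14
  have e42 : sd X Y 4 2 = x 3 := by rw [sd_symm]; exact e24
  have e43 : sd X Y 4 3 = x 4 := by rw [sd_symm]; exact e34
  have m123_234 := minor_zero X Y 0 1 2 3 2 3 4
  simp only [gm, sd_self, e01, e02, e03, e04, e12, e13, e14, e21, e23, e24, e31, e32, e34, e41, e42, e43] at m123_234
  have m124_134 := minor_zero X Y 0 1 2 4 1 3 4
  simp only [gm, sd_self, e01, e02, e03, e04, e12, e13, e14, e21, e23, e24, e31, e32, e34, e41, e42, e43] at m124_134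
  have p0 : 0 < x 0 := hp 0
  have p1 : 0 < x 1 := hp 1
  have p2 : 0 < x 2 := hp 2
  have p3 : 0 < x 3 := hp 3
  have p4 : 0 < x 4 := hp 4
  have q0 : (x 1 - x 3) * ((-2 : ℝ) * x 0 * x 1 + (2 : ℝ) * x 0 * x 4) = 0 := by linear_combination (-1 : ℝ) * m123_234 + (1 : ℝ) * m124_134
  have g0 : (-2 : ℝ) * x 0 * x 1 + (2 : ℝ) * x 0 * x 4 = 0 := (mul_eq_zero.1 q0).resolve_left (sub_ne_zero.2 fun h => absurd (hi 1 3 (by norm_num) (by norm_num) h) (by norm_num))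
  have d0 : 0 < (x 1 - x 4) ^ 2 := by
    have h : x 1 - x 4 ≠ 0 := sub_ne_zero.2 fun h => absurd (hi 1 4 (by norm_num) (by norm_num) h) (by norm_num)
    positivity
  have t0 : 0 < (2 : ℝ) * ((x 1 - x 4) ^ 2 * (x 0)) := by positivity
  have z : (2 : ℝ) * ((x 1 - x 4) ^ 2 * (x 0)) = 0 := by linear_combination (-1 : ℝ) * (x 1) * g0 + (1 : ℝ) * (x 4) * g0
  linarith

theorem k5w_508 : ¬ Realk 5 8 744858112 := by
  rintro ⟨X, Y, x, G, hp, hi, hs⟩
  have e01 : sd X Y 0 1 = x 0 := hs 0 1 (by norm_num) (by norm_num)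
  have e02 : sd X Y 0 2 = x 0 := hs 0 2 (by norm_num) (by norm_num)
  have e12 : sd X Y 1 2 = x 0 := hs 1 2 (by norm_num) (by norm_num)
  have e03 : sd X Y 0 3 = x 1 := hs 0 3 (by norm_num) (by norm_num)
  have e13 : sd X Y 1 3 = x 2 := hs 1 3 (by norm_num) (by norm_num)
  have e23 : sd X Y 2 3 = x 3 := hs 2 3 (by norm_num) (by norm_num)
  have e04 : sd X Y 0 4 = x 1 := hs 0 4 (by norm_num) (by norm_num)
  have e14 : sd X Y 1 4 = x 3 := hs 1 4 (by norm_num) (by norm_num)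
  have e24 : sd X Y 2 4 = x 4 := hs 2 4 (by norm_num) (by norm_num)
  have e34 : sd X Y 3 4 = x 5 := hs 3 4 (by norm_num) (by norm_num)
  have e21 : sd X Y 2 1 = x 0 := by rw [sd_symm]; exact e12
  have e31 : sd X Y 3 1 = x 2 := by rw [sd_symm]; exact e13
  have e32 : sd X Y 3 2 = x 3 := by rw [sd_symm]; exact e23
  have e41 : sd X Y 4 1 = x 3 := by rw [sd_symm]; exact e14
  have e42 : sd X Y 4 2 = x 4 := by rw [sd_symm]; exact e24
  have e43 : sd X Y 4 3 = x 5 := by rw [sd_symm]; exact e34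
  have m123_234 := minor_zero X Y 0 1 2 3 2 3 4
  simp only [gm, sd_self, e01, e02, e03, e04, e12, e13, e14, e21, e23, e24, e31, e32, e34, e41, e42, e43] at m123_234
  have m124_134 := minor_zero X Y 0 1 2 4 1 3 4
  simp only [gm, sd_self, e01, e02, e03, e04, e12, e13, e14, e21, e23, e24, e31, e32, e34, e41, e42, e43] at m124_134
  have p0 : 0 < x 0 := hp 0
  have p1 : 0 < x 1 := hp 1
  have p2 : 0 < x 2 := hp 2
  have p3 : 0 < x 3 := hp 3
  have p4 : 0 < x 4 := hp 4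
  have p5 : 0 < x 5 := hp 5
  have q0 : (x 1 - x 5) * ((-2 : ℝ) * x 0 * x 2 + (2 : ℝ) * x 0 * x 4) = 0 := by linear_combination (-1 : ℝ) * m123_234 + (1 : ℝ) * m124_134
  have g0 : (-2 : ℝ) * x 0 * x 2 + (2 : ℝ) * x 0 * x 4 = 0 := (mul_eq_zero.1 q0).resolve_left (sub_ne_zero.2 fun h => absurd (hi 1 5 (by norm_num) (by norm_num) h) (by norm_num))
  have d0 : 0 < (x 2 - x 4) ^ 2 := by
    have h : x 2 - x 4 ≠ 0 := sub_ne_zero.2 fun h => absurd (hi 2 4 (by norm_num) (by norm_num) h) (by norm_num)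
    positivity
  have t0 : 0 < (2 : ℝ) * ((x 2 - x 4) ^ 2 * (x 0)) := by positivity
  have z : (2 : ℝ) * ((x 2 - x 4) ^ 2 * (x 0)) = 0 := by linear_combination (-1 : ℝ) * (x 2) * g0 + (1 : ℝ) * (x 4) * g0
  linarith

theorem k5w_425 : ¬ Realk 5 8 311235072 := by
  rintro ⟨X, Y, x, G, hp, hi, hs⟩
  have e01 : sd X Y 0 1 = x 0 := hs 0 1 (by norm_num) (by norm_num)
  have e02 : sd X Y 0 2 = x 0 := hs 0 2 (by norm_num) (by norm_num)
  have e12 : sd X Y 1 2 = x 0 := hs 1 2 (by norm_num) (by norm_num)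
  have e03 : sd X Y 0 3 = x 1 := hs 0 3 (by norm_num) (by norm_num)
  have e13 : sd X Y 1 3 = x 1 := hs 1 3 (by norm_num) (by norm_num)
  have e23 : sd X Y 2 3 = x 2 := hs 2 3 (by norm_num) (by norm_num)
  have e04 : sd X Y 0 4 = x 3 := hs 0 4 (by norm_num) (by norm_num)
  have e14 : sd X Y 1 4 = x 4 := hs 1 4 (by norm_num) (by norm_num)
  have e24 : sd X Y 2 4 = x 2 := hs 2 4 (by norm_num) (by norm_num)
  have e34 : sd X Y 3 4 = x 2 := hs 3 4 (by norm_num) (by norm_num)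
  have e21 : sd X Y 2 1 = x 0 := by rw [sd_symm]; exact e12
  have e31 : sd X Y 3 1 = x 1 := by rw [sd_symm]; exact e13
  have e32 : sd X Y 3 2 = x 2 := by rw [sd_symm]; exact e23
  have e41 : sd X Y 4 1 = x 4 := by rw [sd_symm]; exact e14
  have e42 : sd X Y 4 2 = x 2 := by rw [sd_symm]; exact e24
  have e43 : sd X Y 4 3 = x 2 := by rw [sd_symm]; exact e34
  have m123_123 := minor_zero X Y 0 1 2 3 1 2 3
  simp only [gm, sd_self, e01, e02, e03, e04, e12, e13, e14, e21, e23, e24, e31, e32, e34, e41, e42, e43] at m123_123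
  have m123_124 := minor_zero X Y 0 1 2 3 1 2 4
  simp only [gm, sd_self, e01, e02, e03, e04, e12, e13, e14, e21, e23, e24, e31, e32, e34, e41, e42, e43] at m123_124
  have m123_134 := minor_zero X Y 0 1 2 3 1 3 4
  simp only [gm, sd_self, e01, e02, e03, e04, e12, e13, e14, e21, e23, e24, e31, e32, e34, e41, e42, e43] at m123_134
  have m124_124 := minor_zero X Y 0 1 2 4 1 2 4
  simp only [gm, sd_self, e01, e02, e03, e04, e12, e13, e14, e21, e23, e24, e31, e32, e34, e41, e42, e43] at m124_124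
  have p0 : 0 < x 0 := hp 0
  have p1 : 0 < x 1 := hp 1
  have p2 : 0 < x 2 := hp 2
  have p3 : 0 < x 3 := hp 3
  have p4 : 0 < x 4 := hp 4
  have q0 : x 0 * ((2 : ℝ) * x 0 * x 0 + (2 : ℝ) * x 0 * x 2 + (-2 : ℝ) * x 0 * x 3 + (-2 : ℝ) * x 0 * x 4 + (-2 : ℝ) * x 1 * x 1 + (-2 : ℝ) * x 1 * x 2 + (2 : ℝ) * x 1 * x 3 + (2 : ℝ) * x 1 * x 4) = 0 := by linear_combination (-1 : ℝ) * m123_124 + (-1 : ℝ) * m123_134
  have g0 : (2 : ℝ) * x 0 * x 0 + (2 : ℝ) * x 0 * x 2 + (-2 : ℝ) * x 0 * x 3 + (-2 : ℝ) * x 0 * x 4 + (-2 : ℝ) * x 1 * x 1 + (-2 : ℝ) * x 1 * x 2 + (2 : ℝ) * x 1 * x 3 + (2 : ℝ) * x 1 * x 4 = 0 := (mul_eq_zero.1 q0).resolve_left p0.ne'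
  have q1 : x 0 * ((2 : ℝ) * x 0 * x 0 + (-4 : ℝ) * x 0 * x 1 + (-2 : ℝ) * x 0 * x 2 + (2 : ℝ) * x 1 * x 1 + (-4 : ℝ) * x 1 * x 2 + (2 : ℝ) * x 2 * x 2) = 0 := by linear_combination (-1 : ℝ) * m123_123
  have g1 : (2 : ℝ) * x 0 * x 0 + (-4 : ℝ) * x 0 * x 1 + (-2 : ℝ) * x 0 * x 2 + (2 : ℝ) * x 1 * x 1 + (-4 : ℝ) * x 1 * x 2 + (2 : ℝ) * x 2 * x 2 = 0 := (mul_eq_zero.1 q1).resolve_left p0.ne'
  have q2 : x 2 * ((-2 : ℝ) * x 0 * x 0 + (-2 : ℝ) * x 0 * x 1 + (-2 : ℝ) * x 0 * x 2 + (2 : ℝ) * x 0 * x 3 + (2 : ℝ) * x 0 * x 4) = 0 := by linear_combination (-1 : ℝ) * m123_123 + (1 : ℝ) * m123_124 + (-1 : ℝ) * m123_134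
  have g2 : (-2 : ℝ) * x 0 * x 0 + (-2 : ℝ) * x 0 * x 1 + (-2 : ℝ) * x 0 * x 2 + (2 : ℝ) * x 0 * x 3 + (2 : ℝ) * x 0 * x 4 = 0 := (mul_eq_zero.1 q2).resolve_left p2.ne'
  have q3 : (x 1 - x 4) * ((-6 : ℝ) * x 0 * x 1 + (6 : ℝ) * x 0 * x 3) = 0 := by linear_combination (-1 : ℝ) * m124_124 + (1 : ℝ) * m123_123 + (-1 : ℝ) * (x 3) * g2 + (2 : ℝ) * (x 1) * g2 + (-1 : ℝ) * (x 4) * g2
  have g3 : (-6 : ℝ) * x 0 * x 1 + (6 : ℝ) * x 0 * x 3 = 0 := (mul_eq_zero.1 q3).resolve_left (sub_ne_zero.2 fun h => absurd (hi 1 4 (by norm_num) (by norm_num) h) (by norm_num))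
  have d0 : 0 < (x 1 - x 3) ^ 2 := by
    have h : x 1 - x 3 ≠ 0 := sub_ne_zero.2 fun h => absurd (hi 1 3 (by norm_num) (by norm_num) h) (by norm_num)
    positivity
  have t0 : 0 < (6 : ℝ) * ((x 1 - x 3) ^ 2 * (x 0)) := by positivity
  have z : (6 : ℝ) * ((x 1 - x 3) ^ 2 * (x 0)) = 0 := by linear_combination (-1 : ℝ) * (x 1) * g3 + (1 : ℝ) * (x 3) * g3
  linarith

theorem k5w_426 : ¬ Realk 5 8 193794560 := by
  rintro ⟨X, Y, x, G, hp, hi, hs⟩
  have e01 : sd X Y 0 1 = x 0 := hs 0 1 (by norm_num) (by norm_num)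
  have e02 : sd X Y 0 2 = x 0 := hs 0 2 (by norm_num) (by norm_num)
  have e12 : sd X Y 1 2 = x 0 := hs 1 2 (by norm_num) (by norm_num)
  have e03 : sd X Y 0 3 = x 1 := hs 0 3 (by norm_num) (by norm_num)
  have e13 : sd X Y 1 3 = x 1 := hs 1 3 (by norm_num) (by norm_num)
  have e23 : sd X Y 2 3 = x 2 := hs 2 3 (by norm_num) (by norm_num)
  have e04 : sd X Y 0 4 = x 3 := hs 0 4 (by norm_num) (by norm_num)
  have e14 : sd X Y 1 4 = x 4 := hs 1 4 (by norm_num) (by norm_num)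
  have e24 : sd X Y 2 4 = x 3 := hs 2 4 (by norm_num) (by norm_num)
  have e34 : sd X Y 3 4 = x 1 := hs 3 4 (by norm_num) (by norm_num)
  have e21 : sd X Y 2 1 = x 0 := by rw [sd_symm]; exact e12
  have e31 : sd X Y 3 1 = x 1 := by rw [sd_symm]; exact e13
  have e32 : sd X Y 3 2 = x 2 := by rw [sd_symm]; exact e23
  have e41 : sd X Y 4 1 = x 4 := by rw [sd_symm]; exact e14
  have e42 : sd X Y 4 2 = x 3 := by rw [sd_symm]; exact e24
  have e43 : sd X Y 4 3 = x 1 := by rw [sd_symm]; exact e34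
  have m123_123 := minor_zero X Y 0 1 2 3 1 2 3
  simp only [gm, sd_self, e01, e02, e03, e04, e12, e13, e14, e21, e23, e24, e31, e32, e34, e41, e42, e43] at m123_123
  have m123_124 := minor_zero X Y 0 1 2 3 1 2 4
  simp only [gm, sd_self, e01, e02, e03, e04, e12, e13, e14, e21, e23, e24, e31, e32, e34, e41, e42, e43] at m123_124
  have m123_234 := minor_zero X Y 0 1 2 3 2 3 4
  simp only [gm, sd_self, e01, e02, e03, e04, e12, e13, e14, e21, e23, e24, e31, e32, e34, e41, e42, e43] at m123_234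
  have m124_234 := minor_zero X Y 0 1 2 4 2 3 4
  simp only [gm, sd_self, e01, e02, e03, e04, e12, e13, e14, e21, e23, e24, e31, e32, e34, e41, e42, e43] at m124_234
  have m234_234 := minor_zero X Y 0 2 3 4 2 3 4
  simp only [gm, sd_self, e01, e02, e03, e04, e12, e13, e14, e21, e23, e24, e31, e32, e34, e41, e42, e43] at m234_234
  have p0 : 0 < x 0 := hp 0
  have p1 : 0 < x 1 := hp 1
  have p2 : 0 < x 2 := hp 2
  have p3 : 0 < x 3 := hp 3
  have p4 : 0 < x 4 := hp 4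
  have q0 : x 0 * ((2 : ℝ) * x 0 * x 0 + (-4 : ℝ) * x 0 * x 1 + (-2 : ℝ) * x 0 * x 2 + (2 : ℝ) * x 1 * x 1 + (-4 : ℝ) * x 1 * x 2 + (2 : ℝ) * x 2 * x 2) = 0 := by linear_combination (-1 : ℝ) * m123_123
  have g0 : (2 : ℝ) * x 0 * x 0 + (-4 : ℝ) * x 0 * x 1 + (-2 : ℝ) * x 0 * x 2 + (2 : ℝ) * x 1 * x 1 + (-4 : ℝ) * x 1 * x 2 + (2 : ℝ) * x 2 * x 2 = 0 := (mul_eq_zero.1 q0).resolve_left p0.ne'
  have q1 : x 4 * ((2 : ℝ) * x 0 * x 0 + (-6 : ℝ) * x 0 * x 1 + (-2 : ℝ) * x 0 * x 2 + (2 : ℝ) * x 0 * x 3 + (2 : ℝ) * x 1 * x 1 + (-4 : ℝ) * x 1 * x 2 + (2 : ℝ) * x 2 * x 2) = 0 := by linear_combination (-1 : ℝ) * m123_123 + (1 : ℝ) * m123_124 + (2 : ℝ) * m123_234 + (-1 : ℝ) * m124_234 + (-1 : ℝ) * m234_234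
  have g1 : (2 : ℝ) * x 0 * x 0 + (-6 : ℝ) * x 0 * x 1 + (-2 : ℝ) * x 0 * x 2 + (2 : ℝ) * x 0 * x 3 + (2 : ℝ) * x 1 * x 1 + (-4 : ℝ) * x 1 * x 2 + (2 : ℝ) * x 2 * x 2 = 0 := (mul_eq_zero.1 q1).resolve_left p4.ne'
  have d0 : 0 < (x 1 - x 3) ^ 2 := by
    have h : x 1 - x 3 ≠ 0 := sub_ne_zero.2 fun h => absurd (hi 1 3 (by norm_num) (by norm_num) h) (by norm_num)
    positivity
  have t0 : 0 < (2 : ℝ) * ((x 1 - x 3) ^ 2 * (x 0)) := by positivity
  have z : (2 : ℝ) * ((x 1 - x 3) ^ 2 * (x 0)) = 0 := by linear_combination (1 : ℝ) * (x 1) * g0 + (-1 : ℝ) * (x 3) * g0 + (-1 : ℝ) * (x 1) * g1 + (1 : ℝ) * (x 3) * g1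
  linarith

theorem k5w_415 : ¬ Realk 5 8 560271872 := by
  rintro ⟨X, Y, x, G, hp, hi, hs⟩
  have e01 : sd X Y 0 1 = x 0 := hs 0 1 (by norm_num) (by norm_num)
  have e02 : sd X Y 0 2 = x 0 := hs 0 2 (by norm_num) (by norm_num)
  have e12 : sd X Y 1 2 = x 0 := hs 1 2 (by norm_num) (by norm_num)
  have e03 : sd X Y 0 3 = x 1 := hs 0 3 (by norm_num) (by norm_num)
  have e13 : sd X Y 1 3 = x 1 := hs 1 3 (by norm_num) (by norm_num)
  have e23 : sd X Y 2 3 = x 2 := hs 2 3 (by norm_num) (by norm_num)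
  have e04 : sd X Y 0 4 = x 1 := hs 0 4 (by norm_num) (by norm_num)
  have e14 : sd X Y 1 4 = x 3 := hs 1 4 (by norm_num) (by norm_num)
  have e24 : sd X Y 2 4 = x 1 := hs 2 4 (by norm_num) (by norm_num)
  have e34 : sd X Y 3 4 = x 4 := hs 3 4 (by norm_num) (by norm_num)
  have e21 : sd X Y 2 1 = x 0 := by rw [sd_symm]; exact e12
  have e31 : sd X Y 3 1 = x 1 := by rw [sd_symm]; exact e13
  have e32 : sd X Y 3 2 = x 2 := by rw [sd_symm]; exact e23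
  have e41 : sd X Y 4 1 = x 3 := by rw [sd_symm]; exact e14
  have e42 : sd X Y 4 2 = x 1 := by rw [sd_symm]; exact e24
  have e43 : sd X Y 4 3 = x 4 := by rw [sd_symm]; exact e34
  have m123_134 := minor_zero X Y 0 1 2 3 1 3 4
  simp only [gm, sd_self, e01, e02, e03, e04, e12, e13, e14, e21, e23, e24, e31, e32, e34, e41, e42, e43] at m123_134
  have m124_234 := minor_zero X Y 0 1 2 4 2 3 4
  simp only [gm, sd_self, e01, e02, e03, e04, e12, e13, e14, e21, e23, e24, e31, e32, e34, e41, e42, e43] at m124_234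
  have p0 : 0 < x 0 := hp 0
  have p1 : 0 < x 1 := hp 1
  have p2 : 0 < x 2 := hp 2
  have p3 : 0 < x 3 := hp 3
  have p4 : 0 < x 4 := hp 4
  have q0 : (x 1 - x 4) * ((-2 : ℝ) * x 0 * x 2 + (2 : ℝ) * x 0 * x 3) = 0 := by linear_combination (1 : ℝ) * m123_134 + (-1 : ℝ) * m124_234
  have g0 : (-2 : ℝ) * x 0 * x 2 + (2 : ℝ) * x 0 * x 3 = 0 := (mul_eq_zero.1 q0).resolve_left (sub_ne_zero.2 fun h => absurd (hi 1 4 (by norm_num) (by norm_num) h) (by norm_num))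
  have d0 : 0 < (x 2 - x 3) ^ 2 := by
    have h : x 2 - x 3 ≠ 0 := sub_ne_zero.2 fun h => absurd (hi 2 3 (by norm_num) (by norm_num) h) (by norm_num)
    positivity
  have t0 : 0 < (2 : ℝ) * ((x 2 - x 3) ^ 2 * (x 0)) := by positivity
  have z : (2 : ℝ) * ((x 2 - x 3) ^ 2 * (x 0)) = 0 := by linear_combination (-1 : ℝ) * (x 2) * g0 + (1 : ℝ) * (x 3) * g0
  linarith

theorem k5w_509 : ¬ Realk 5 8 226861568 := by
  rintro ⟨X, Y, x, G, hp, hi, hs⟩
  have e01 : sd X Y 0 1 = x 0 := hs 0 1 (by norm_num) (by norm_num)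
  have e02 : sd X Y 0 2 = x 0 := hs 0 2 (by norm_num) (by norm_num)
  have e12 : sd X Y 1 2 = x 0 := hs 1 2 (by norm_num) (by norm_num)
  have e03 : sd X Y 0 3 = x 1 := hs 0 3 (by norm_num) (by norm_num)
  have e13 : sd X Y 1 3 = x 2 := hs 1 3 (by norm_num) (by norm_num)
  have e23 : sd X Y 2 3 = x 3 := hs 2 3 (by norm_num) (by norm_num)
  have e04 : sd X Y 0 4 = x 1 := hs 0 4 (by norm_num) (by norm_num)
  have e14 : sd X Y 1 4 = x 4 := hs 1 4 (by norm_num) (by norm_num)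
  have e24 : sd X Y 2 4 = x 5 := hs 2 4 (by norm_num) (by norm_num)
  have e34 : sd X Y 3 4 = x 1 := hs 3 4 (by norm_num) (by norm_num)
  have e21 : sd X Y 2 1 = x 0 := by rw [sd_symm]; exact e12
  have e31 : sd X Y 3 1 = x 2 := by rw [sd_symm]; exact e13
  have e32 : sd X Y 3 2 = x 3 := by rw [sd_symm]; exact e23
  have e41 : sd X Y 4 1 = x 4 := by rw [sd_symm]; exact e14
  have e42 : sd X Y 4 2 = x 5 := by rw [sd_symm]; exact e24
  have e43 : sd X Y 4 3 = x 1 := by rw [sd_symm]; exact e34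
  have m123_123 := minor_zero X Y 0 1 2 3 1 2 3
  simp only [gm, sd_self, e01, e02, e03, e04, e12, e13, e14, e21, e23, e24, e31, e32, e34, e41, e42, e43] at m123_123
  have m123_124 := minor_zero X Y 0 1 2 3 1 2 4
  simp only [gm, sd_self, e01, e02, e03, e04, e12, e13, e14, e21, e23, e24, e31, e32, e34, e41, e42, e43] at m123_124
  have m123_134 := minor_zero X Y 0 1 2 3 1 3 4
  simp only [gm, sd_self, e01, e02, e03, e04, e12, e13, e14, e21, e23, e24, e31, e32, e34, e41, e42, e43] at m123_134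
  have m123_234 := minor_zero X Y 0 1 2 3 2 3 4
  simp only [gm, sd_self, e01, e02, e03, e04, e12, e13, e14, e21, e23, e24, e31, e32, e34, e41, e42, e43] at m123_234
  have m124_124 := minor_zero X Y 0 1 2 4 1 2 4
  simp only [gm, sd_self, e01, e02, e03, e04, e12, e13, e14, e21, e23, e24, e31, e32, e34, e41, e42, e43] at m124_124
  have m134_134 := minor_zero X Y 0 1 3 4 1 3 4
  simp only [gm, sd_self, e01, e02, e03, e04, e12, e13, e14, e21, e23, e24, e31, e32, e34, e41, e42, e43] at m134_134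
  have m134_234 := minor_zero X Y 0 1 3 4 2 3 4
  simp only [gm, sd_self, e01, e02, e03, e04, e12, e13, e14, e21, e23, e24, e31, e32, e34, e41, e42, e43] at m134_234
  have m234_234 := minor_zero X Y 0 2 3 4 2 3 4
  simp only [gm, sd_self, e01, e02, e03, e04, e12, e13, e14, e21, e23, e24, e31, e32, e34, e41, e42, e43] at m234_234
  have p0 : 0 < x 0 := hp 0
  have p1 : 0 < x 1 := hp 1
  have p2 : 0 < x 2 := hp 2
  have p3 : 0 < x 3 := hp 3
  have p4 : 0 < x 4 := hp 4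
  have p5 : 0 < x 5 := hp 5
  have q0 : x 0 * ((2 : ℝ) * x 0 * x 0 + (-2 : ℝ) * x 0 * x 1 + (-2 : ℝ) * x 0 * x 2 + (-2 : ℝ) * x 0 * x 3 + (2 : ℝ) * x 1 * x 1 + (-2 : ℝ) * x 1 * x 2 + (-2 : ℝ) * x 1 * x 3 + (2 : ℝ) * x 2 * x 2 + (-2 : ℝ) * x 2 * x 3 + (2 : ℝ) * x 3 * x 3) = 0 := by linear_combination (-1 : ℝ) * m123_123
  have g0 : (2 : ℝ) * x 0 * x 0 + (-2 : ℝ) * x 0 * x 1 + (-2 : ℝ) * x 0 * x 2 + (-2 : ℝ) * x 0 * x 3 + (2 : ℝ) * x 1 * x 1 + (-2 : ℝ) * x 1 * x 2 + (-2 : ℝ) * x 1 * x 3 + (2 : ℝ) * x 2 * x 2 + (-2 : ℝ) * x 2 * x 3 + (2 : ℝ) * x 3 * x 3 = 0 := (mul_eq_zero.1 q0).resolve_left p0.ne'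
  have q1 : x 0 * ((2 : ℝ) * x 0 * x 0 + (-2 : ℝ) * x 0 * x 1 + (-2 : ℝ) * x 0 * x 4 + (-2 : ℝ) * x 0 * x 5 + (2 : ℝ) * x 1 * x 1 + (-2 : ℝ) * x 1 * x 4 + (-2 : ℝ) * x 1 * x 5 + (2 : ℝ) * x 4 * x 4 + (-2 : ℝ) * x 4 * x 5 + (2 : ℝ) * x 5 * x 5) = 0 := by linear_combination (-1 : ℝ) * m124_124
  have g1 : (2 : ℝ) * x 0 * x 0 + (-2 : ℝ) * x 0 * x 1 + (-2 : ℝ) * x 0 * x 4 + (-2 : ℝ) * x 0 * x 5 + (2 : ℝ) * x 1 * x 1 + (-2 : ℝ) * x 1 * x 4 + (-2 : ℝ) * x 1 * x 5 + (2 : ℝ) * x 4 * x 4 + (-2 : ℝ) * x 4 * x 5 + (2 : ℝ) * x 5 * x 5 = 0 := (mul_eq_zero.1 q1).resolve_left p0.ne'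
  have q2 : x 1 * ((2 : ℝ) * x 0 * x 0 + (1 : ℝ) * x 0 * x 1 + (-1 : ℝ) * x 0 * x 2 + (-1 : ℝ) * x 0 * x 3 + (-1 : ℝ) * x 0 * x 4 + (-1 : ℝ) * x 0 * x 5 + (2 : ℝ) * x 1 * x 1 + (-1 : ℝ) * x 1 * x 2 + (-1 : ℝ) * x 1 * x 3 + (-1 : ℝ) * x 1 * x 4 + (-1 : ℝ) * x 1 * x 5 + (2 : ℝ) * x 2 * x 3 + (-1 : ℝ) * x 2 * x 5 + (-1 : ℝ) * x 3 * x 4 + (2 : ℝ) * x 4 * x 5) = 0 := by linear_combination (-1 : ℝ) * m134_234
  have g2 : (2 : ℝ) * x 0 * x 0 + (1 : ℝ) * x 0 * x 1 + (-1 : ℝ) * x 0 * x 2 + (-1 : ℝ) * x 0 * x 3 + (-1 : ℝ) * x 0 * x 4 + (-1 : ℝ) * x 0 * x 5 + (2 : ℝ) * x 1 * x 1 + (-1 : ℝ) * x 1 * x 2 + (-1 : ℝ) * x 1 * x 3 + (-1 : ℝ) * x 1 * x 4 + (-1 : ℝ) * x 1 * x 5 + (2 : ℝ) * x 2 * x 3 + (-1 : ℝ) * x 2 * x 5 + (-1 : ℝ) * x 3 * x 4 + (2 : ℝ) * x 4 * x 5 = 0 := (mul_eq_zero.1 q2).resolve_left p1.ne'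
  have q3 : (x 3 - x 4) * ((-2 : ℝ) * x 2 * x 2 + (2 : ℝ) * x 2 * x 5) = 0 := by linear_combination (1 : ℝ) * m123_123 + (-1 : ℝ) * m123_124 + (1 : ℝ) * m123_134 + (-2 : ℝ) * m123_234 + (1 : ℝ) * m134_134 + (-1 : ℝ) * m134_234 + (1 : ℝ) * m234_234 + (1 : ℝ) * (x 4) * g0 + (1 : ℝ) * (x 1) * g1 + (-1 : ℝ) * (x 2) * g2
  have g3 : (-2 : ℝ) * x 2 * x 2 + (2 : ℝ) * x 2 * x 5 = 0 := (mul_eq_zero.1 q3).resolve_left (sub_ne_zero.2 fun h => absurd (hi 3 4 (by norm_num) (by norm_num) h) (by norm_num))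
  have d0 : 0 < (x 2 - x 5) ^ 2 := by
    have h : x 2 - x 5 ≠ 0 := sub_ne_zero.2 fun h => absurd (hi 2 5 (by norm_num) (by norm_num) h) (by norm_num)
    positivity
  have t0 : 0 < (2 : ℝ) * ((x 2 - x 5) ^ 2 * (x 2)) := by positivity
  have z : (2 : ℝ) * ((x 2 - x 5) ^ 2 * (x 2)) = 0 := by linear_combination (-1 : ℝ) * (x 2) * g3 + (1 : ℝ) * (x 5) * g3
  linarith

theorem k5w_416 : ¬ Realk 5 8 577049088 := by
  rintro ⟨X, Y, x, G, hp, hi, hs⟩
  have e01 : sd X Y 0 1 = x 0 := hs 0 1 (by norm_num) (by norm_num)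
  have e02 : sd X Y 0 2 = x 0 := hs 0 2 (by norm_num) (by norm_num)
  have e12 : sd X Y 1 2 = x 0 := hs 1 2 (by norm_num) (by norm_num)
  have e03 : sd X Y 0 3 = x 1 := hs 0 3 (by norm_num) (by norm_num)
  have e13 : sd X Y 1 3 = x 1 := hs 1 3 (by norm_num) (by norm_num)
  have e23 : sd X Y 2 3 = x 2 := hs 2 3 (by norm_num) (by norm_num)
  have e04 : sd X Y 0 4 = x 1 := hs 0 4 (by norm_num) (by norm_num)
  have e14 : sd X Y 1 4 = x 3 := hs 1 4 (by norm_num) (by norm_num)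
  have e24 : sd X Y 2 4 = x 2 := hs 2 4 (by norm_num) (by norm_num)
  have e34 : sd X Y 3 4 = x 4 := hs 3 4 (by norm_num) (by norm_num)
  have e21 : sd X Y 2 1 = x 0 := by rw [sd_symm]; exact e12
  have e31 : sd X Y 3 1 = x 1 := by rw [sd_symm]; exact e13
  have e32 : sd X Y 3 2 = x 2 := by rw [sd_symm]; exact e23
  have e41 : sd X Y 4 1 = x 3 := by rw [sd_symm]; exact e14
  have e42 : sd X Y 4 2 = x 2 := by rw [sd_symm]; exact e24
  have e43 : sd X Y 4 3 = x 4 := by rw [sd_symm]; exact e34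
  have m123_123 := minor_zero X Y 0 1 2 3 1 2 3
  simp only [gm, sd_self, e01, e02, e03, e04, e12, e13, e14, e21, e23, e24, e31, e32, e34, e41, e42, e43] at m123_123
  have m234_234 := minor_zero X Y 0 2 3 4 2 3 4
  simp only [gm, sd_self, e01, e02, e03, e04, e12, e13, e14, e21, e23, e24, e31, e32, e34, e41, e42, e43] at m234_234
  have p0 : 0 < x 0 := hp 0
  have p1 : 0 < x 1 := hp 1
  have p2 : 0 < x 2 := hp 2
  have p3 : 0 < x 3 := hp 3
  have p4 : 0 < x 4 := hp 4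
  have q0 : x 0 * ((2 : ℝ) * x 0 * x 0 + (-4 : ℝ) * x 0 * x 1 + (-2 : ℝ) * x 0 * x 2 + (2 : ℝ) * x 1 * x 1 + (-4 : ℝ) * x 1 * x 2 + (2 : ℝ) * x 2 * x 2) = 0 := by linear_combination (-1 : ℝ) * m123_123
  have g0 : (2 : ℝ) * x 0 * x 0 + (-4 : ℝ) * x 0 * x 1 + (-2 : ℝ) * x 0 * x 2 + (2 : ℝ) * x 1 * x 1 + (-4 : ℝ) * x 1 * x 2 + (2 : ℝ) * x 2 * x 2 = 0 := (mul_eq_zero.1 q0).resolve_left p0.ne'
  have q1 : x 4 * ((2 : ℝ) * x 0 * x 0 + (-4 : ℝ) * x 0 * x 1 + (-4 : ℝ) * x 0 * x 2 + (2 : ℝ) * x 0 * x 4 + (2 : ℝ) * x 1 * x 1 + (-4 : ℝ) * x 1 * x 2 + (2 : ℝ) * x 2 * x 2) = 0 := by linear_combination (-1 : ℝ) * m234_234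
  have g1 : (2 : ℝ) * x 0 * x 0 + (-4 : ℝ) * x 0 * x 1 + (-4 : ℝ) * x 0 * x 2 + (2 : ℝ) * x 0 * x 4 + (2 : ℝ) * x 1 * x 1 + (-4 : ℝ) * x 1 * x 2 + (2 : ℝ) * x 2 * x 2 = 0 := (mul_eq_zero.1 q1).resolve_left p4.ne'
  have d0 : 0 < (x 2 - x 4) ^ 2 := by
    have h : x 2 - x 4 ≠ 0 := sub_ne_zero.2 fun h => absurd (hi 2 4 (by norm_num) (by norm_num) h) (by norm_num)
    positivity
  have t0 : 0 < (2 : ℝ) * ((x 2 - x 4) ^ 2 * (x 0)) := by positivity
  have z : (2 : ℝ) * ((x 2 - x 4) ^ 2 * (x 0)) = 0 := by linear_combination (-1 : ℝ) * m234_234 + (1 : ℝ) * (x 2) * g0 + (-1 : ℝ) * (x 4) * g0 + (-1 : ℝ) * (x 2) * g1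
  linarith

/-- the codes of the 33 patterns (types 166, ..., 509 of the master table) -/
def weakCodes : List ℕ :=
  [438603776, 189042688, 419991552, 185110528, 453545984, 187207680, 321425408,
   189304832, 323522560, 321196032, 189075456, 323293184, 140840960, 409276416,
   157618176, 174395392, 168628224, 577048576, 571281408, 336400384, 204279808,
   591729152, 560271872, 577049088, 610603520, 160240128, 311235072, 193794560,
   342204928, 476422656, 342467072, 744858112, 226861568]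

theorem k5_weak (P : ℕ) (hP : P ∈ weakCodes) : ¬ Realk 5 8 P := by
  simp only [weakCodes, List.mem_cons, List.not_mem_nil, or_false] at hP
  rcases hP with rfl | rfl | rfl | rfl | rfl | rfl | rfl | rfl | rfl | rfl | rfl | rfl | rfl | rfl | rfl | rfl | rfl | rfl | rfl | rfl | rfl | rfl | rfl | rfl | rfl | rfl | rfl | rfl | rfl | rfl | rfl | rfl | rfl
  · exact k5w_166
  · exact k5w_169
  · exact k5w_170
  · exact k5w_172
  · exact k5w_173
  · exact k5w_175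
  · exact k5w_176
  · exact k5w_178
  · exact k5w_179
  · exact k5w_197
  · exact k5w_201
  · exact k5w_202
  · exact k5w_205
  · exact k5w_207
  · exact k5w_209
  · exact k5w_211
  · exact k5w_216
  · exact k5w_406
  · exact k5w_407
  · exact k5w_408
  · exact k5w_409
  · exact k5w_414
  · exact k5w_415
  · exact k5w_416
  · exact k5w_417
  · exact k5w_424
  · exact k5w_425
  · exact k5w_426
  · exact k5w_430
  · exact k5w_431
  · exact k5w_435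
  · exact k5w_508
  · exact k5w_509

end CR
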